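import Pool.Agent.H468R2.MA.Tasks2

/-!
# Back and forth (helper617)

`T_BF` without the hypothesis `Hm f` is false; `bf_of_CH` is the corrected statement, and
`t_T_ERG` is generic ergodicity.
-/

set_option autoImplicit false

open Filter Topology

namespace Pool.Agent.H468R2.MA

namespace BF

section

variable {ρ : Type} {k : ρ → ℕ}

/-- isomorphism by a given permutation -/
def By (π : Equiv.Perm ℕ) (y z : RS ρ k) : Prop := ∀ r a, z r (fun s => π (a s)) ↔ y r a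

theorem By.trans {π π' : Equiv.Perm ℕ} {x y z : RS ρ k} (h : By π x y) (h' : By π' y z) :
    By (π.trans π') x z := fun r a => (h' r fun s => π (a s)).trans (h r a)

/-- `P'` agrees with `P` on the numbers `≤ m`, in both directions -/
def Rl (m : ℕ) (P P' : Equiv.Perm ℕ) : Prop := ∀ i ≤ m, P' i = P i ∧ P'.symm i = P.symm i

/-- the limit of a sequence of permutations -/
theorem lim_perm (P : ℕ → Equiv.Perm ℕ) (h : ∀ m, Rl m (P m) (P (m + 1))) :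
    ∃ π : Equiv.Perm ℕ, ∀ m i, i ≤ m → P m i = π i ∧ (P m).symm i = π.symm i := by
  have h1 : ∀ m i, i ≤ m → P m i = P i i ∧ (P m).symm i = (P i).symm i := by
    intro m i him
    induction m, him using Nat.le_induction with
    | base => exact ⟨rfl, rfl⟩
    | succ m hm ih =>
        have h2 := h m i hm
        exact ⟨h2.1.trans ih.1, h2.2.trans ih.2⟩
  refine ⟨⟨fun i => P i i, fun i => (P i).symm i, ?_, ?_⟩, fun m i him => h1 m i him⟩
  · intro i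
    obtain ⟨M, hM1, hM2⟩ : ∃ M, i ≤ M ∧ P i i ≤ M := ⟨max i (P i i), le_max_left _ _,
      le_max_right _ _⟩
    have a := h1 M i hM1
    have b := h1 M (P i i) hM2
    show (P (P i i)).symm (P i i) = i
    rw [← b.2, ← a.1, Equiv.symm_apply_apply]
  · intro i
    obtain ⟨M, hM1, hM2⟩ : ∃ M, i ≤ M ∧ (P i).symm i ≤ M := ⟨max i ((P i).symm i),
      le_max_left _ _, le_max_right _ _⟩
    have a := h1 M i hM1
    have b := h1 M ((P i).symm i) hM2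
    show P ((P i).symm i) ((P i).symm i) = i
    rw [← b.1, ← a.2, Equiv.apply_symm_apply]

theorem bound (P : Equiv.Perm ℕ) (m : ℕ) : ∃ N, ∀ i ≤ m, P i < N ∧ i < N := by
  refine ⟨(Finset.range (m + 1)).sup P + m + 1, fun i hi => ?_⟩
  have h1 : P i ≤ (Finset.range (m + 1)).sup P :=
    Finset.le_sup (f := P) (Finset.mem_range.2 (by omega))
  omega

theorem rl_trans {N m : ℕ} {P π : Equiv.Perm ℕ} (hπ : ∀ i < N, π i = i)
    (hN : ∀ i ≤ m, P i < N ∧ i < N) : Rl m P (P.trans π) := by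
  intro i hi
  refine ⟨hπ _ (hN i hi).1, ?_⟩
  have h1 : π.symm i = i := by
    rw [Equiv.symm_apply_eq]
    exact (hπ i (hN i hi).2).symm
  show P.symm (π.symm i) = P.symm i
  rw [h1]

/-- the state of the back and forth -/
structure Sta (f : (ℕ → ℝ) → RS ρ k) (C : Set (ℕ → ℝ)) (e : (Σ r, Fin (k r) → ℕ) → ℕ)
    (x₀ y₀ : ℕ → ℝ) (m : ℕ) where
  x : ℕ → ℝ
  y : ℕ → ℝ
  U : Set (ℕ → ℝ)
  δ : ℝ
  N : ℕ
  P : Equiv.Perm ℕ
  Q : Equiv.Perm ℕ
  hx : x ∈ C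
  hy : y ∈ C
  hU : IsOpen U
  hc : Convex ℝ U
  xU : x ∈ U
  yU : y ∈ U
  hδ : 0 < δ
  loc : ∀ z ∈ C, z ∈ U → ∀ᶠ g in residual L1, ‖g‖ < δ → IsoFix N (f z) (f (act g z))
  hN : ∀ i ≤ m, P i < N ∧ i < N
  hP : By P (f x₀) (f x)
  hQ : By Q (f y₀) (f y)
  agr : ∀ r a, e ⟨r, a⟩ < m → (f x r a ↔ f y r a)

theorem step (hCH : T_CH) [Countable ρ] (f : (ℕ → ℝ) → RS ρ k) (C : Set (ℕ → ℝ))
    (hG : Good f C) (e : (Σ r, Fin (k r) → ℕ) → ℕ) (he : Function.Injective e)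
    (x₀ y₀ : ℕ → ℝ) (m : ℕ) (s : Sta f C e x₀ y₀ m) :
    ∃ s' : Sta f C e x₀ y₀ (m + 1), Rl m s.P s'.P ∧ Rl m s.Q s'.Q := by
  obtain ⟨N', hN'⟩ := bound s.Q m
  obtain ⟨V, δ', hVo, hVc, hyV, hδ', hVl⟩ := hG.loc s.y s.hy N'
  obtain ⟨x', hx'C, hx'V, π, hπ, hπi⟩ := hCH ρ k f C hG.inv s.N s.U s.δ s.hU s.hc s.hδ s.loc
    s.x s.hx s.xU (V ∩ s.U) (hVo.inter s.hU) ⟨s.y, hyV, s.yU⟩ Set.inter_subset_right
  obtain ⟨N'', hN''⟩ := bound (s.P.trans π) (m + 1)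
  obtain ⟨W, δ'', hWo, hWc, hxW, hδ'', hWl⟩ := hG.loc x' hx'C N''
  choose O hO1 hO2 hO3 using fun p : (Σ r, Fin (k r) → ℕ) => hG.cont x' hx'C p.1 p.2
  have hfin : {p : (Σ r, Fin (k r) → ℕ) | e p < m + 1}.Finite :=
    (Set.finite_lt_nat (m + 1)).preimage he.injOn
  have hOo : IsOpen (⋂ p ∈ {p : (Σ r, Fin (k r) → ℕ) | e p < m + 1}, O p) :=
    hfin.isOpen_biInter fun p _ => hO1 p
  have hxO : x' ∈ ⋂ p ∈ {p : (Σ r, Fin (k r) → ℕ) | e p < m + 1}, O p :=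
    Set.mem_iInter₂.2 fun p _ => hO2 p
  obtain ⟨y', hy'C, hy'U, π', hπ', hπ'i⟩ := hCH ρ k f C hG.inv N' (V ∩ s.U) δ' (hVo.inter s.hU)
    (hVc.inter s.hc) hδ' (fun z hz hzV => hVl z hz hzV.1) s.y s.hy ⟨hyV, s.yU⟩
    ((W ∩ (V ∩ s.U)) ∩ ⋂ p ∈ {p : (Σ r, Fin (k r) → ℕ) | e p < m + 1}, O p)
    ((hWo.inter (hVo.inter s.hU)).inter hOo) ⟨x', ⟨hxW, hx'V⟩, hxO⟩
    (fun z hz => hz.1.2)
  refine ⟨⟨x', y', W ∩ (V ∩ s.U), δ'', N'', s.P.trans π, s.Q.trans π', hx'C, hy'C,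
    hWo.inter (hVo.inter s.hU), hWc.inter (hVc.inter s.hc), ⟨hxW, hx'V⟩, hy'U.1, hδ'',
    fun z hz hzW => hWl z hz hzW.1, hN'', s.hP.trans hπi, s.hQ.trans hπ'i, ?_⟩,
    rl_trans hπ s.hN, rl_trans hπ' hN'⟩
  intro r a hra
  exact (hO3 ⟨r, a⟩ y' hy'C (Set.mem_iInter₂.1 hy'U.2 ⟨r, a⟩ hra)).symm

theorem l1_iso {f : (ℕ → ℝ) → RS ρ k} (hf : Hm f) (g : L1) (z : ℕ → ℝ) :
    IsoFix 0 (f z) (f (act g z)) := by
  have hs : Summable (fun n => |z n - act g z n|) := by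
    have h1 := (lp.memℓp g).summable (by norm_num)
    refine h1.congr fun n => ?_
    unfold act
    rw [ENNReal.toReal_one, Real.rpow_one, Real.norm_eq_abs, sub_add_cancel_left, abs_neg]
  obtain ⟨π, hπ⟩ := hf.inv z (act g z) hs
  exact ⟨π, fun i hi => absurd hi (Nat.not_lt_zero i), hπ⟩

end

end BF

open BF in
/-- the corrected version of `T_BF` -/
theorem bf_of_CH (hCH : T_CH) (ρ : Type) [Countable ρ] (k : ρ → ℕ) (f : (ℕ → ℝ) → RS ρ k)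
    (hf : Hm f) (C : Set (ℕ → ℝ)) (hG : Good f C) : ∀ x ∈ C, ∀ y ∈ C, Iso (f x) (f y) := by
  intro x hx y hy
  obtain ⟨e, he⟩ := Countable.exists_injective_nat (Σ r, Fin (k r) → ℕ)
  -- the first state
  obtain ⟨N₀, hN₀⟩ := bound (Equiv.refl ℕ) 0
  obtain ⟨U₀, δ₀, hUo, hUc, hxU, hδ, hUl⟩ := hG.loc x hx N₀
  obtain ⟨y', hy'C, hy'U, π, _, hπi⟩ := hCH ρ k f C hG.inv 0 Set.univ 1 isOpen_univ convex_univ
    one_pos (fun z _ _ => Filter.Eventually.of_forall fun g _ => l1_iso hf g z) y hy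
    (Set.mem_univ y) U₀ hUo ⟨x, hxU⟩ (Set.subset_univ _)
  let s0 : Sta f C e x y 0 := ⟨x, y', U₀, δ₀, N₀, Equiv.refl ℕ, π, hx, hy'C, hUo, hUc, hxU, hy'U,
    hδ, hUl, hN₀, fun r a => Iff.rfl, hπi, fun r a h => absurd h (Nat.not_lt_zero _)⟩
  choose F hF1 hF2 using step hCH f C hG e he x y
  let s : ∀ m, Sta f C e x y m := fun m => Nat.rec (motive := fun m => Sta f C e x y m) s0 F m
  have hs : ∀ m, s (m + 1) = F m (s m) := fun m => rfl
  obtain ⟨P, hP⟩ := lim_perm (fun m => (s m).P) (fun m => by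
    show Rl m (s m).P (s (m + 1)).P
    rw [hs]
    exact hF1 m (s m))
  obtain ⟨Q, hQ⟩ := lim_perm (fun m => (s m).Q) (fun m => by
    show Rl m (s m).Q (s (m + 1)).Q
    rw [hs]
    exact hF2 m (s m))
  refine ⟨P.trans Q.symm, fun r a => ?_⟩
  set b : Fin (k r) → ℕ := fun t => P (a t) with hb
  obtain ⟨m, hma, hmb, hme⟩ : ∃ m, (∀ t, a t ≤ m) ∧ (∀ t, b t ≤ m) ∧ e ⟨r, b⟩ < m := by
    refine ⟨(∑ t, a t) + (∑ t, b t) + e ⟨r, b⟩ + 1, fun t => ?_, fun t => ?_, by omega⟩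
    · have h1 : a t ≤ ∑ t, a t := Finset.single_le_sum (fun _ _ => Nat.zero_le _)
        (Finset.mem_univ t)
      omega
    · have h1 : b t ≤ ∑ t, b t := Finset.single_le_sum (fun _ _ => Nat.zero_le _)
        (Finset.mem_univ t)
      omega
  have h1 : f (s m).x r b ↔ f x r a := by
    have h2 := (s m).hP r a
    have h3 : (fun t => (s m).P (a t)) = b := funext fun t => (hP m (a t) (hma t)).1
    rw [h3] at h2
    exact h2
  have h4 : f (s m).x r b ↔ f (s m).y r b := (s m).agr r b hme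
  have h5 : f (s m).y r b ↔ f y r (fun t => Q.symm (b t)) := by
    have h6 := (s m).hQ r (fun t => Q.symm (b t))
    have h7 : (fun t => (s m).Q (Q.symm (b t))) = b := by
      funext t
      have h8 : (s m).Q.symm (b t) = Q.symm (b t) := (hQ m (b t) (hmb t)).2
      rw [← h8, Equiv.apply_symm_apply]
    rw [h7] at h6
    exact h6
  exact h5.symm.trans (h4.symm.trans h1)

/-- generic ergodicity -/
theorem t_T_ERG (h1 : T_C) (h2 : T_CH) : T_ERG := by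
  intro ρ _ k f hf
  obtain ⟨C, hC⟩ := h1 ρ k f hf
  exact ⟨C, hC.res, bf_of_CH h2 ρ k f hf C hC⟩

end Pool.Agent.H468R2.MA
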