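import Pool.Agent.H468R2.MA.Defs
import Pool.Agent.Helper59.AC1

/-! Task T_C (helper415): the good comeager set. -/

set_option autoImplicit false

open Filter Topology

namespace Pool.Agent.H468R2.MA

namespace TC

/-- Kuratowski-Ulam, residual form -/
theorem ku_res {G X : Type*} [TopologicalSpace G] [TopologicalSpace X] [SecondCountableTopology G]
    {P : G × X → Prop} (h : ∀ᶠ p in residual (G × X), P p) :
    ∀ᶠ x in residual X, ∀ᶠ g in residual G, P (g, x) := by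
  have h1 : IsMeagre {p : G × X | ¬ P p} := by
    rw [IsMeagre]
    refine Filter.mem_of_superset h ?_
    intro p hp hp'
    exact hp' hp
  have h2 := Pool.Agent.Helper59.AC.ku' _ h1
  rw [IsMeagre] at h2
  refine Filter.mem_of_superset h2 ?_
  intro x hx
  rw [Set.mem_compl_iff, Set.mem_ofPred_eq, not_not] at hx
  rw [Set.mem_ofPred_eq]
  rw [IsMeagre] at hx
  refine Filter.mem_of_superset hx ?_
  intro g hg
  by_contra h3
  exact hg h3

/-- preimages of residual sets under open continuous maps -/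
theorem res_pre {X Y : Type*} [TopologicalSpace X] [TopologicalSpace Y] {φ : X → Y}
    (hc : Continuous φ) (ho : IsOpenMap φ) {S : Set Y} (hS : S ∈ residual Y) :
    φ ⁻¹' S ∈ residual X := by
  have h1 : IsMeagre Sᶜ := by rw [IsMeagre, compl_compl]; exact hS
  have h2 := h1.preimage_of_isOpenMap hc ho
  rw [IsMeagre, Set.preimage_compl, compl_compl] at h2
  exact h2

theorem act_act (g h : L1) (x : ℕ → ℝ) : act h (act g x) = act (g + h) x := by
  funext i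
  simp only [act, lp.coeFn_add, Pi.add_apply]
  ring

theorem act_cont : Continuous (fun p : L1 × (ℕ → ℝ) => act p.1 p.2) := by
  apply continuous_pi
  intro i
  have h1 : Continuous (fun p : L1 × (ℕ → ℝ) => (p.1 : ℕ → ℝ)) :=
    (lp.uniformContinuous_coe (E := fun _ : ℕ => ℝ) (p := 1)).continuous.comp continuous_fst
  exact ((continuous_apply i).comp continuous_snd).add ((continuous_apply i).comp h1)

theorem act_neg_left (g : L1) (x : ℕ → ℝ) : act (-g) (act g x) = x := by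
  funext i
  simp [act]

theorem act_neg_right (g : L1) (x : ℕ → ℝ) : act g (act (-g) x) = x := by
  funext i
  simp [act]

/-- the homeomorphism `(g, x) ↦ (g, g x)` -/
noncomputable def hom : L1 × (ℕ → ℝ) ≃ₜ L1 × (ℕ → ℝ) where
  toFun p := (p.1, act p.1 p.2)
  invFun p := (p.1, act (-p.1) p.2)
  left_inv p := by simp [act_neg_left]
  right_inv p := by simp [act_neg_right]
  continuous_toFun := continuous_fst.prodMk act_cont
  continuous_invFun := by
    refine continuous_fst.prodMk ?_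
    exact act_cont.comp ((continuous_neg.comp continuous_fst).prodMk continuous_snd)

theorem act_open : IsOpenMap (fun p : L1 × (ℕ → ℝ) => act p.1 p.2) := by
  have h : (fun p : L1 × (ℕ → ℝ) => act p.1 p.2) = Prod.snd ∘ hom := rfl
  rw [h]
  exact isOpenMap_snd.comp hom.isOpenMap

variable {ρ : Type} {k : ρ → ℕ}

/-- the admissible pairs -/
def Ad (f : (ℕ → ℝ) → RS ρ k) (n : ℕ) (p : Set (ℕ → ℝ) × ℝ) : Prop :=
  IsOpen p.1 ∧ Convex ℝ p.1 ∧ 0 < p.2 ∧ ∀ᶠ q in residual (L1 × (ℕ → ℝ)), ‖q.1‖ < p.2 → q.2 ∈ p.1 →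
    IsoFix n (f q.2) (f (act q.1 q.2))

theorem exists_convex {U : Set (ℕ → ℝ)} (hU : IsOpen U) {x : ℕ → ℝ} (hx : x ∈ U) :
    ∃ V : Set (ℕ → ℝ), IsOpen V ∧ Convex ℝ V ∧ x ∈ V ∧ V ⊆ U := by
  have h1 : (fun y => x + y) ⁻¹' U ∈ 𝓝 (0 : ℕ → ℝ) := by
    apply (hU.preimage (continuous_const.add continuous_id)).mem_nhds
    show x + 0 ∈ U
    rwa [add_zero]
  obtain ⟨V, ⟨hV0, hVo, hVc⟩, hVU⟩ :=
    (LocallyConvexSpace.convex_open_basis_zero ℝ (ℕ → ℝ)).mem_iff.1 h1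
  refine ⟨(fun y => -x + y) ⁻¹' V, hVo.preimage (continuous_const.add continuous_id), ?_, ?_, ?_⟩
  · exact hVc.translate_preimage_right (-x)
  · show -x + x ∈ V
    rwa [neg_add_cancel]
  · intro y hy
    have := hVU hy
    have h2 : x + (-x + y) ∈ U := this
    rwa [add_neg_cancel_left] at h2

theorem dense_ad (h2 : T_LOC) [Countable ρ] (f : (ℕ → ℝ) → RS ρ k) (hf : Hm f) (n : ℕ) :
    Dense (⋃ p : {p // Ad f n p}, p.1.1) := by
  rw [dense_iff_inter_open]
  intro O hO hne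
  obtain ⟨U, δ, hU, ⟨x, hx⟩, hUO, hδ, hres⟩ := h2 ρ k f hf n O hO hne
  obtain ⟨V, hVo, hVc, hxV, hVU⟩ := exists_convex hU hx
  refine ⟨x, hUO hx, ?_⟩
  rw [Set.mem_iUnion]
  refine ⟨⟨(V, δ), hVo, hVc, hδ, ?_⟩, hxV⟩
  filter_upwards [hres] with q hq h3 h4
  exact hq h3 (hVU h4)

end TC

open TC

theorem t_T_C (h1 : T_SC) (h2 : T_LOC) : T_C := by
  intro ρ _ k f hf
  have : SecondCountableTopology L1 := h1
  -- the local part
  have hb : ∀ n : ℕ, ∃ S ∈ residual (ℕ → ℝ), ∀ x ∈ S, ∃ (U : Set (ℕ → ℝ)) (δ : ℝ), IsOpen U ∧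
      Convex ℝ U ∧ x ∈ U ∧ 0 < δ ∧
      ∀ y ∈ S, y ∈ U → ∀ᶠ g in residual L1, ‖g‖ < δ → IsoFix n (f y) (f (act g y)) := by
    intro n
    have hopen : ∀ p : {p // Ad f n p}, IsOpen p.1.1 := fun p => p.2.1
    obtain ⟨T, hT, hTU⟩ := TopologicalSpace.isOpen_iUnion_countable
      (fun p : {p // Ad f n p} => p.1.1) hopen
    have hR : ∀ p : {p // Ad f n p}, {y : ℕ → ℝ | ∀ᶠ g in residual L1, ‖g‖ < p.1.2 → y ∈ p.1.1 →
        IsoFix n (f y) (f (act g y))} ∈ residual (ℕ → ℝ) := fun p => ku_res p.2.2.2.2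
    refine ⟨(⋃ p : {p // Ad f n p}, p.1.1) ∩ ⋂ p ∈ T, {y : ℕ → ℝ | ∀ᶠ g in residual L1,
      ‖g‖ < p.1.2 → y ∈ p.1.1 → IsoFix n (f y) (f (act g y))}, ?_, ?_⟩
    · apply Filter.inter_mem
      · exact residual_of_dense_open (isOpen_iUnion hopen) (dense_ad h2 f hf n)
      · exact (countable_bInter_mem hT).2 fun p _ => hR p
    · rintro x ⟨hx1, _⟩
      rw [← hTU] at hx1
      rw [Set.mem_iUnion₂] at hx1
      obtain ⟨p, hp, hxp⟩ := hx1
      refine ⟨p.1.1, p.1.2, p.2.1, p.2.2.1, hxp, p.2.2.2.1, ?_⟩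
      rintro y ⟨_, hy2⟩ hyp
      rw [Set.mem_iInter₂] at hy2
      filter_upwards [hy2 p hp] with g hg h3
      exact hg h3 hyp
  choose S hS hS2 using hb
  -- the continuity part
  have ha : ∀ (r : ρ) (a : Fin (k r) → ℕ), ∃ D ∈ residual (ℕ → ℝ), ∀ x ∈ D,
      ∃ O : Set (ℕ → ℝ), IsOpen O ∧ x ∈ O ∧ ∀ y ∈ D, y ∈ O → (f y r a ↔ f x r a) := by
    intro r a
    obtain ⟨O, hO, hBO⟩ := (hf.meas r a).residualEq_isOpen
    refine ⟨{x | (x ∈ {x | f x r a} ↔ x ∈ O)} ∩ (O ∪ (closure O)ᶜ), ?_, ?_⟩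
    · apply Filter.inter_mem
      · filter_upwards [hBO] with x hx
        exact Iff.of_eq hx
      · apply residual_of_dense_open (hO.union isClosed_closure.isOpen_compl)
        rw [dense_iff_inter_open]
        intro V hV ⟨v, hv⟩
        by_cases h3 : v ∈ closure O
        · obtain ⟨w, hw1, hw2⟩ := mem_closure_iff.1 h3 V hV hv
          exact ⟨w, hw1, Or.inl hw2⟩
        · exact ⟨v, hv, Or.inr h3⟩
    · rintro x ⟨hx1, hx2⟩
      rcases hx2 with hx2 | hx2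
      · refine ⟨O, hO, hx2, ?_⟩
        rintro y ⟨hy1, _⟩ hy2
        exact ⟨fun _ => hx1.2 hx2, fun _ => hy1.2 hy2⟩
      · refine ⟨(closure O)ᶜ, isClosed_closure.isOpen_compl, hx2, ?_⟩
        rintro y ⟨hy1, _⟩ hy2
        have h3 : ¬ f x r a := fun h => hx2 (subset_closure (hx1.1 h))
        have h4 : ¬ f y r a := fun h => hy2 (subset_closure (hy1.1 h))
        exact ⟨fun h => absurd h h4, fun h => absurd h h3⟩
  choose D hD hD2 using ha
  obtain ⟨C1, hC1⟩ : ∃ C1 : Set (ℕ → ℝ), C1 = (⋂ n, S n) ∩ ⋂ r, ⋂ a, D r a := ⟨_, rfl⟩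
  have hC1res : C1 ∈ residual (ℕ → ℝ) := by
    rw [hC1]
    apply Filter.inter_mem
    · exact countable_iInter_mem.2 hS
    · exact countable_iInter_mem.2 fun r => countable_iInter_mem.2 fun a => hD r a
  have hpre : {p : L1 × (ℕ → ℝ) | act p.1 p.2 ∈ C1} ∈ residual (L1 × (ℕ → ℝ)) :=
    res_pre act_cont act_open hC1res
  refine ⟨{x | x ∈ C1 ∧ ∀ᶠ g in residual L1, act g x ∈ C1}, ?_, ?_, ?_, ?_⟩
  · exact Filter.inter_mem hC1res (ku_res hpre)
  · rintro x ⟨_, hx2⟩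
    filter_upwards [hx2] with g hg
    refine ⟨hg, ?_⟩
    have h3 : {h : L1 | act (g + h) x ∈ C1} ∈ residual L1 :=
      res_pre (Homeomorph.addLeft g).continuous (Homeomorph.addLeft g).isOpenMap hx2
    filter_upwards [h3] with h hh
    rw [act_act]
    exact hh
  · rintro x ⟨hx1, _⟩ n
    have hSx : ∀ y ∈ C1, y ∈ S n := by
      intro y hy
      rw [hC1] at hy
      exact Set.mem_iInter.1 hy.1 n
    obtain ⟨U, δ, hU, hUc, hxU, hδ, hUS⟩ := hS2 n x (hSx x hx1)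
    exact ⟨U, δ, hU, hUc, hxU, hδ, fun y hy hyU => hUS y (hSx y hy.1) hyU⟩
  · rintro x ⟨hx1, _⟩ r a
    have hDx : ∀ y ∈ C1, y ∈ D r a := by
      intro y hy
      rw [hC1] at hy
      exact Set.mem_iInter.1 (Set.mem_iInter.1 hy.2 r) a
    obtain ⟨O, hO, hxO, hOD⟩ := hD2 r a x (hDx x hx1)
    exact ⟨O, hO, hxO, fun y hy hyO => hOD y (hDx y hy.1) hyO⟩

end Pool.Agent.H468R2.MA
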