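import Pool.Agent.H468R2.MA.Defs

/-!
# Chains inside a convex open set
-/

set_option autoImplicit false

open Filter Topology

namespace Pool.Agent.H468R2.MA

namespace CHh

variable {ρ : Type} {k : ρ → ℕ}

lemma isoFix_refl (n : ℕ) (y : RS ρ k) : IsoFix n y y :=
  ⟨Equiv.refl ℕ, fun _ _ => rfl, fun _ _ => Iff.rfl⟩

lemma isoFix_trans {n : ℕ} {y z w : RS ρ k} (h1 : IsoFix n y z) (h2 : IsoFix n z w) :
    IsoFix n y w := by
  obtain ⟨p, hp, hp'⟩ := h1
  obtain ⟨q, hq, hq'⟩ := h2
  refine ⟨p.trans q, fun i hi => ?_, fun r a => ?_⟩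
  · rw [Equiv.trans_apply, hp i hi, hq i hi]
  · have := hq' r (fun s => p (a s))
    simp only [Equiv.trans_apply]
    rw [this, hp' r a]

lemma act_cont (x : ℕ → ℝ) : Continuous (fun g : L1 => act g x) := by
  have h : Continuous (fun g : L1 => ((g : ℕ → ℝ))) := (lp.uniformContinuous_coe).continuous
  unfold act
  exact continuous_pi fun i => continuous_const.add ((continuous_apply i).comp h)

lemma act_zero (x : ℕ → ℝ) : act 0 x = x := by
  funext i; simp [act]

lemma act_add (g h : L1) (x : ℕ → ℝ) : act (g + h) x = act h (act g x) := by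
  funext i; simp [act, add_assoc]

lemma act_seg (h : L1) (x : ℕ → ℝ) (t : ℝ) :
    act (t • h) x = (1 - t) • x + t • act h x := by
  funext i; simp [act]; ring

/-- translation of `x` into a given nonempty open set by an element of `ℓ¹` -/
lemma exists_act (x : ℕ → ℝ) (U : Set (ℕ → ℝ)) (hU : IsOpen U) (hne : U.Nonempty) :
    ∃ h : L1, act h x ∈ U := by
  classical
  obtain ⟨u, hu⟩ := hne
  obtain ⟨I, v, hv, hsub⟩ := isOpen_pi_iff.1 hU u hu
  have hfin : Set.Finite {i : ℕ | (if i ∈ I then u i - x i else 0 : ℝ) ≠ 0} := by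
    apply I.finite_toSet.subset
    intro i hi
    simp only [Set.mem_ofPred_eq] at hi
    by_contra h
    exact hi (if_neg h)
  have hm : Memℓp (fun i : ℕ => (if i ∈ I then u i - x i else 0 : ℝ)) 1 :=
    (memℓp_zero hfin).of_exponent_ge (by simp)
  refine ⟨⟨_, hm⟩, hsub ?_⟩
  intro i hi
  have hi' : i ∈ I := hi
  have e : act (⟨_, hm⟩ : L1) x i = u i := by
    show x i + (if i ∈ I then u i - x i else 0 : ℝ) = u i
    rw [if_pos hi']; ring
  rw [e]
  exact (hv i hi').2

end CHh

open CHh in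
theorem t_T_CH : T_CH := by
  intro ρ _ k f C hC n U δ hU hconv hδ hloc x hx hxU U' hU' hne hsub
  obtain ⟨h, hh⟩ := exists_act x U' hU' hne
  obtain ⟨m, hm⟩ := exists_nat_gt (2 * ‖h‖ / δ)
  have hm0 : (0:ℝ) < m := lt_of_le_of_lt (by positivity) hm
  have hm1 : ‖((1:ℝ) / m) • h‖ < δ / 2 := by
    rw [norm_smul, Real.norm_of_nonneg (by positivity), one_div, inv_mul_lt_iff₀ hm0]
    rw [div_lt_iff₀ hδ] at hm
    linarith
  -- the segment is contained in U
  have hseg : ∀ t : ℝ, 0 ≤ t → t ≤ 1 → act (t • h) x ∈ U := by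
    intro t h0 h1
    rw [act_seg]
    exact hconv hxU (hsub hh) (by linarith) h0 (by ring)
  have key : ∀ j : ℕ, j ≤ m → ∀ ε : ℝ, 0 < ε → ∃ g : L1, ‖g - ((j:ℝ) / m) • h‖ < ε ∧
      act g x ∈ C ∧ act g x ∈ U ∧ IsoFix n (f x) (f (act g x)) := by
    intro j
    induction j with
    | zero =>
      intro _ ε hε
      refine ⟨0, by simpa using hε, ?_⟩
      rw [act_zero]
      exact ⟨hx, hxU, isoFix_refl n _⟩
    | succ j ih =>
      intro hj ε hε
      have hjm : ((j + 1 : ℕ) : ℝ) ≤ m := by exact_mod_cast hj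
      have hin : act ((((j + 1 : ℕ) : ℝ) / m) • h) x ∈ U :=
        hseg _ (by positivity) (by rw [div_le_one hm0]; exact hjm)
      obtain ⟨ε', hε', hball⟩ := Metric.isOpen_iff.1 (hU.preimage (act_cont x)) _ hin
      set e := min (min ε ε') δ / 4 with he
      have he0 : 0 < e := by rw [he]; positivity
      have he1 : 4 * e ≤ ε := by
        rw [he]; have := (min_le_left (min ε ε') δ).trans (min_le_left ε ε'); linarith
      have he2 : 4 * e ≤ ε' := by
        rw [he]; have := (min_le_left (min ε ε') δ).trans (min_le_right ε ε'); linarith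
      have he3 : 4 * e ≤ δ := by
        rw [he]; have := (min_le_right (min ε ε') δ); linarith
      obtain ⟨g, hg1, hg2, hg3, hg4⟩ := ih (by omega) e he0
      have hres := (hC _ hg2).and (hloc _ hg2 hg3)
      have hdense := dense_of_mem_residual hres
      obtain ⟨g', ⟨hd1, hd2⟩, hg'⟩ := hdense.exists_mem_open
        (Metric.isOpen_ball (x := ((1:ℝ) / m) • h) (ε := e)) ⟨_, Metric.mem_ball_self he0⟩
      rw [Metric.mem_ball, dist_eq_norm] at hg'
      have hn1 : ‖g'‖ < δ := by
        have h1 : ‖g'‖ ≤ ‖g' - ((1:ℝ) / m) • h‖ + ‖((1:ℝ) / m) • h‖ := by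
          have := norm_add_le (g' - ((1:ℝ) / m) • h) (((1:ℝ) / m) • h)
          rwa [sub_add_cancel] at this
        linarith
      have hn2 : ‖(g + g') - (((j + 1 : ℕ) : ℝ) / m) • h‖ < 2 * e := by
        have e1 : (g + g') - (((j + 1 : ℕ) : ℝ) / m) • h =
            (g - ((j:ℝ) / m) • h) + (g' - ((1:ℝ) / m) • h) := by
          have : (((j + 1 : ℕ) : ℝ) / m) = (j:ℝ) / m + (1:ℝ) / m := by push_cast; ring
          rw [this, add_smul]; abel
        rw [e1]
        have := norm_add_le (g - ((j:ℝ) / m) • h) (g' - ((1:ℝ) / m) • h)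
        linarith
      refine ⟨g + g', by linarith, ?_, ?_, ?_⟩
      · rw [act_add]; exact hd1
      · apply hball
        rw [Metric.mem_ball, dist_eq_norm]; linarith
      · rw [act_add]
        exact isoFix_trans hg4 (hd2 hn1)
  obtain ⟨ε, hε, hball⟩ := Metric.isOpen_iff.1 (hU'.preimage (act_cont x)) h hh
  obtain ⟨g, hg1, hg2, hg3, hg4⟩ := key m le_rfl ε hε
  rw [div_self hm0.ne', one_smul] at hg1
  refine ⟨act g x, hg2, ?_, hg4⟩
  exact hball (by rw [Metric.mem_ball, dist_eq_norm]; exact hg1)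

end Pool.Agent.H468R2.MA
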