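import Pool.Agent.H468R2.MA.P_T_LOC1
import Pool.Agent.Helper59.AC1

/-!
# T_LOC: local lemma (Baire category)
-/

set_option autoImplicit false

open Filter Topology

namespace Pool.Agent.H468R2.MA

lemma LOC_act_add (g h : L1) (x : ℕ → ℝ) : act (g + h) x = act h (act g x) := by
  funext i
  simp [act, add_assoc]

lemma LOC_act_neg (g : L1) (x : ℕ → ℝ) : act g (act (-g) x) = x := by
  funext i
  simp [act]

lemma LOC_act_neg' (g : L1) (x : ℕ → ℝ) : act (-g) (act g x) = x := by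
  funext i
  simp [act]

/-- translation as a homeomorphism -/
noncomputable def LOC_hom (g : L1) : (ℕ → ℝ) ≃ₜ (ℕ → ℝ) where
  toFun := act g
  invFun := act (-g)
  left_inv x := LOC_act_neg' g x
  right_inv x := LOC_act_neg g x
  continuous_toFun := LOC_cont_act.comp (by fun_prop : Continuous fun x : ℕ → ℝ => (g, x))
  continuous_invFun := LOC_cont_act.comp (by fun_prop : Continuous fun x : ℕ → ℝ => (-g, x))

lemma LOC_summable (g : L1) (x : ℕ → ℝ) : Summable fun n => |x n - act g x n| := by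
  have h := (lp.memℓp g).summable (by norm_num)
  refine h.congr fun n => ?_
  simp [act]

/-- analytic sets with the Baire property, for metrizable spaces -/
lemma LOC_bp {W : Type} [TopologicalSpace W] [TopologicalSpace.MetrizableSpace W]
    [SecondCountableTopology W] (s : Set W) (hs : MeasureTheory.AnalyticSet s) :
    IsMeagre (Pool.Agent.Helper59.AC.K s \ s) := by
  let _ := TopologicalSpace.metrizableSpaceMetric W
  exact Pool.Agent.Helper59.AC.bp s hs

/-- T_LOC -/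
theorem t_T_LOC (hSC : T_SC) (hL : T_LOC1) : T_LOC := by
  intro ρ _ k f hf n O hO hOne
  have : SecondCountableTopology L1 := hSC
  let S : (Fin n → ℕ) → Set (L1 × (ℕ → ℝ)) := fun a =>
    {p | ∃ π : Equiv.Perm ℕ, (∀ i, π (a i) = i) ∧
      ∀ r b, f (act p.1 p.2) r (fun s => π (b s)) ↔ f p.2 r b}
  have hSan : ∀ a, MeasureTheory.AnalyticSet (S a) := fun a => hL ρ k f hf n a
  have hScov : ∀ p : L1 × (ℕ → ℝ), ∃ a, p ∈ S a := by
    intro p
    obtain ⟨π, hπ⟩ := hf.inv p.2 (act p.1 p.2) (LOC_summable p.1 p.2)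
    exact ⟨fun i => π.symm i, π, fun i => π.apply_symm_apply i, hπ⟩
  -- an open box in which some `S a` is comeagre
  let O' : Set (L1 × (ℕ → ℝ)) := {p | act p.1 p.2 ∈ O}
  have hO' : IsOpen O' := hO.preimage LOC_cont_act
  have hO'ne : O'.Nonempty := by
    obtain ⟨x, hx⟩ := hOne
    refine ⟨(0, x), ?_⟩
    change act 0 x ∈ O
    have : act 0 x = x := by
      funext i; simp [act]
    rw [this]; exact hx
  have hnm : ¬ IsMeagre O' := not_isMeagre_of_isOpen hO' hO'ne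
  have h1 : ∃ a, ¬ IsMeagre (S a ∩ O') := by
    by_contra hcon
    push Not at hcon
    apply hnm
    refine (isMeagre_iUnion hcon).mono ?_
    intro p hp
    obtain ⟨a, ha⟩ := hScov p
    exact Set.mem_iUnion.2 ⟨a, ha, hp⟩
  obtain ⟨a, ha⟩ := h1
  obtain ⟨U', hU1, hU2, ⟨⟨g0, x0⟩, hu⟩, hU4⟩ := Pool.Agent.Helper59.Pettis.lemA _ _ hO' ha
  have hK : U' ⊆ Pool.Agent.Helper59.AC.K (S a) := by
    intro y hy V hV hyV hm
    exact hU4 (V ∩ U') Set.inter_subset_right (hV.inter hU2) ⟨y, hyV, hy⟩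
      (hm.mono (Set.inter_subset_inter_right _ Set.inter_subset_left))
  have hmg : IsMeagre (U' \ S a) := (LOC_bp (S a) (hSan a)).mono (Set.sdiff_subset_sdiff_left hK)
  obtain ⟨V0, U0, hV0, hU0, hg0, hx0, hbox⟩ := isOpen_prod_iff.1 hU2 g0 x0 hu
  let C : Set (L1 × (ℕ → ℝ)) := (V0 ×ˢ U0) \ S a
  have hC : IsMeagre C := hmg.mono (Set.sdiff_subset_sdiff_left hbox)
  -- the section of C over g is meagre for some g in V0
  have hg : ∃ g ∈ V0, IsMeagre {x | (g, x) ∈ C} := by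
    by_contra hcon
    push Not at hcon
    exact not_isMeagre_of_isOpen hV0 ⟨g0, hg0⟩ ((Pool.Agent.Helper59.AC.ku C hC).mono
      fun g hg => hcon g hg)
  obtain ⟨g, hgV, hgm⟩ := hg
  obtain ⟨δ, hδ, hball⟩ := Metric.isOpen_iff.1 hV0 g hgV
  let U : Set (ℕ → ℝ) := {y | act (-g) y ∈ U0}
  have hUne : U.Nonempty := by
    refine ⟨act g x0, ?_⟩
    change act (-g) (act g x0) ∈ U0
    rw [LOC_act_neg']; exact hx0
  refine ⟨U, δ, hU0.preimage (LOC_hom (-g)).continuous, hUne, ?_, hδ, ?_⟩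
  · intro y hy
    have h2 : ((g, act (-g) y) : L1 × (ℕ → ℝ)) ∈ O' := hU1 (hbox ⟨hgV, hy⟩)
    have h3 : act g (act (-g) y) ∈ O := h2
    rwa [LOC_act_neg] at h3
  · have b1 : IsMeagre {p : L1 × (ℕ → ℝ) | (g, act (-g) p.2) ∈ C} := by
      have h2 : IsMeagre ((LOC_hom (-g)) ⁻¹' {x | (g, x) ∈ C}) :=
        hgm.preimage_of_isOpenMap (LOC_hom (-g)).continuous (LOC_hom (-g)).isOpenMap
      exact h2.preimage_of_isOpenMap continuous_snd isOpenMap_snd
    have b2 : IsMeagre {p : L1 × (ℕ → ℝ) | (g + p.1, act (-g) p.2) ∈ C} := by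
      let Φ : (L1 × (ℕ → ℝ)) ≃ₜ (L1 × (ℕ → ℝ)) := (Homeomorph.addLeft g).prodCongr (LOC_hom (-g))
      exact hC.preimage_of_isOpenMap Φ.continuous Φ.isOpenMap
    have b3 : ({p : L1 × (ℕ → ℝ) | (g, act (-g) p.2) ∈ C} ∪
        {p : L1 × (ℕ → ℝ) | (g + p.1, act (-g) p.2) ∈ C})ᶜ ∈ residual (L1 × (ℕ → ℝ)) :=
      b1.union b2
    filter_upwards [b3] with p hp hp1 hp2
    have hp' := not_or.1 hp
    have hm1 : ((g, act (-g) p.2) : L1 × (ℕ → ℝ)) ∈ S a := by
      by_contra hcon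
      exact hp'.1 ⟨⟨hgV, hp2⟩, hcon⟩
    have hm2 : ((g + p.1, act (-g) p.2) : L1 × (ℕ → ℝ)) ∈ S a := by
      by_contra hcon
      refine hp'.2 ⟨⟨hball ?_, hp2⟩, hcon⟩
      rw [Metric.mem_ball, dist_eq_norm]
      simpa using hp1
    obtain ⟨π1, h11, h12⟩ := hm1
    obtain ⟨π2, h21, h22⟩ := hm2
    simp only at h12 h22
    rw [LOC_act_neg] at h12
    rw [LOC_act_add, LOC_act_neg] at h22
    refine ⟨π1.symm.trans π2, ?_, ?_⟩
    · intro i hi
      have e1 : π1.symm i = a ⟨i, hi⟩ := by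
        rw [Equiv.symm_apply_eq]
        exact (h11 ⟨i, hi⟩).symm
      rw [Equiv.trans_apply, e1]
      exact h21 ⟨i, hi⟩
    · intro r b
      have e1 := h22 r (fun s => π1.symm (b s))
      have e2 := h12 r (fun s => π1.symm (b s))
      simp only [Equiv.apply_symm_apply] at e2
      exact e1.trans e2.symm

end Pool.Agent.H468R2.MA
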