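import Pool.Agent.H468R2.MA.Defs

/-!
# T_LOC1: analyticity of the coset sets
-/

set_option autoImplicit false

open Filter Topology

namespace Pool.Agent.H468R2.MA

lemma LOC_cont_coe : Continuous fun g : L1 => (g : ℕ → ℝ) :=
  (lp.uniformContinuous_coe (E := fun _ : ℕ => ℝ) (p := 1)).continuous

lemma LOC_cont_act : Continuous fun p : L1 × (ℕ → ℝ) => act p.1 p.2 := by
  apply continuous_pi
  intro i
  have h1 : Continuous fun p : L1 × (ℕ → ℝ) => p.2 i := (continuous_apply i).comp continuous_snd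
  have h2 : Continuous fun p : L1 × (ℕ → ℝ) => (p.1 : ℕ → ℝ) i :=
    (continuous_apply i).comp (LOC_cont_coe.comp continuous_fst)
  exact h1.add h2

/-- T_LOC1 -/
theorem t_LOC1 (h : T_SC) : T_LOC1 := by
  intro ρ _ k f hf n a
  have : SecondCountableTopology L1 := h
  let _ : MeasurableSpace L1 := borel L1
  have : BorelSpace L1 := ⟨rfl⟩
  have : PolishSpace L1 := inferInstance
  let B : Set (((ℕ → ℕ) × (ℕ → ℕ)) × (L1 × (ℕ → ℝ))) :=
    {q | ((∀ i, q.1.1 (q.1.2 i) = i) ∧ (∀ i, q.1.2 (q.1.1 i) = i)) ∧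
      (∀ i : Fin n, q.1.1 (a i) = i) ∧
      ∀ r b, f (act q.2.1 q.2.2) r (fun s => q.1.1 (b s)) ↔ f q.2.2 r b}
  have hu : ∀ i : ℕ, Measurable fun q : ((ℕ → ℕ) × (ℕ → ℕ)) × (L1 × (ℕ → ℝ)) => q.1.1 i :=
    fun i => (measurable_pi_apply i).comp (measurable_fst.comp measurable_fst)
  have hv : ∀ i : ℕ, Measurable fun q : ((ℕ → ℕ) × (ℕ → ℕ)) × (L1 × (ℕ → ℝ)) => q.1.2 i :=
    fun i => (measurable_pi_apply i).comp (measurable_snd.comp measurable_fst)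
  have hue : ∀ i m : ℕ, MeasurableSet {q : ((ℕ → ℕ) × (ℕ → ℕ)) × (L1 × (ℕ → ℝ)) | q.1.1 i = m} :=
    fun i m => hu i (measurableSet_singleton m)
  have hve : ∀ i m : ℕ, MeasurableSet {q : ((ℕ → ℕ) × (ℕ → ℕ)) × (L1 × (ℕ → ℝ)) | q.1.2 i = m} :=
    fun i m => hv i (measurableSet_singleton m)
  have h1 : ∀ i : ℕ, MeasurableSet
      {q : ((ℕ → ℕ) × (ℕ → ℕ)) × (L1 × (ℕ → ℝ)) | q.1.1 (q.1.2 i) = i} := by
    intro i
    have : {q : ((ℕ → ℕ) × (ℕ → ℕ)) × (L1 × (ℕ → ℝ)) | q.1.1 (q.1.2 i) = i} =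
        ⋃ m : ℕ, {q | q.1.2 i = m} ∩ {q | q.1.1 m = i} := by
      ext q
      simp
    rw [this]
    exact MeasurableSet.iUnion fun m => (hve i m).inter (hue m i)
  have h2 : ∀ i : ℕ, MeasurableSet
      {q : ((ℕ → ℕ) × (ℕ → ℕ)) × (L1 × (ℕ → ℝ)) | q.1.2 (q.1.1 i) = i} := by
    intro i
    have : {q : ((ℕ → ℕ) × (ℕ → ℕ)) × (L1 × (ℕ → ℝ)) | q.1.2 (q.1.1 i) = i} =
        ⋃ m : ℕ, {q | q.1.1 i = m} ∩ {q | q.1.2 m = i} := by
      ext q
      simp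
    rw [this]
    exact MeasurableSet.iUnion fun m => (hue i m).inter (hve m i)
  have hact : Measurable fun q : ((ℕ → ℕ) × (ℕ → ℕ)) × (L1 × (ℕ → ℝ)) => act q.2.1 q.2.2 :=
    LOC_cont_act.measurable.comp measurable_snd
  have h3 : ∀ (r : ρ) (b : Fin (k r) → ℕ), MeasurableSet
      {q : ((ℕ → ℕ) × (ℕ → ℕ)) × (L1 × (ℕ → ℝ)) |
        f (act q.2.1 q.2.2) r (fun s => q.1.1 (b s))} := by
    intro r b
    have : {q : ((ℕ → ℕ) × (ℕ → ℕ)) × (L1 × (ℕ → ℝ)) |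
        f (act q.2.1 q.2.2) r (fun s => q.1.1 (b s))} =
        ⋃ c : Fin (k r) → ℕ, (⋂ s, {q | q.1.1 (b s) = c s}) ∩ {q | f (act q.2.1 q.2.2) r c} := by
      ext q
      simp only [Set.mem_iUnion, Set.mem_inter_iff, Set.mem_iInter, Set.mem_ofPred_eq]
      constructor
      · intro hq
        exact ⟨fun s => q.1.1 (b s), fun s => rfl, hq⟩
      · rintro ⟨c, hc1, hc2⟩
        have : (fun s => q.1.1 (b s)) = c := funext hc1
        rw [this]
        exact hc2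
    rw [this]
    exact MeasurableSet.iUnion fun c => (MeasurableSet.iInter fun s => hue (b s) (c s)).inter
      (hact (hf.meas r c))
  have h4 : ∀ (r : ρ) (b : Fin (k r) → ℕ), MeasurableSet
      {q : ((ℕ → ℕ) × (ℕ → ℕ)) × (L1 × (ℕ → ℝ)) | f q.2.2 r b} := by
    intro r b
    exact (measurable_snd.comp measurable_snd) (hf.meas r b)
  have hB : MeasurableSet B := by
    have : B = ((⋂ i, {q | q.1.1 (q.1.2 i) = i}) ∩ (⋂ i, {q | q.1.2 (q.1.1 i) = i})) ∩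
        ((⋂ i : Fin n, {q | q.1.1 (a i) = (i : ℕ)}) ∩ ⋂ r, ⋂ b : Fin (k r) → ℕ,
          {q | f (act q.2.1 q.2.2) r (fun s => q.1.1 (b s)) ↔ f q.2.2 r b}) := by
      ext q
      simp only [B, Set.mem_inter_iff, Set.mem_iInter, Set.mem_ofPred_eq]
    rw [this]
    refine ((MeasurableSet.iInter h1).inter (MeasurableSet.iInter h2)).inter
      ((MeasurableSet.iInter fun i => hue (a i) i).inter ?_)
    exact MeasurableSet.iInter fun r => MeasurableSet.iInter fun b =>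
      MeasurableSet.iff (h3 r b) (h4 r b)
  have hB' : MeasureTheory.AnalyticSet (Prod.snd '' B) :=
    hB.analyticSet.image_of_continuous continuous_snd
  convert hB' using 1
  ext p
  constructor
  · rintro ⟨π, hπ1, hπ2⟩
    refine ⟨((π, π.symm), p), ⟨⟨fun i => π.apply_symm_apply i, fun i => π.symm_apply_apply i⟩,
      hπ1, hπ2⟩, rfl⟩
  · rintro ⟨⟨⟨u, v⟩, p'⟩, ⟨⟨hq1, hq2⟩, hq3, hq4⟩, rfl⟩
    exact ⟨⟨u, v, hq2, hq1⟩, hq3, hq4⟩

/-- T_LOC1 -/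
theorem t_T_LOC1 (h : T_SC) : T_LOC1 := t_LOC1 h

end Pool.Agent.H468R2.MA
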