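import Pool.Agent.H468R2.MA.Defs

/-! T_SC: `ℓ¹` is second countable. -/

set_option autoImplicit false

namespace Pool.Agent.H468R2.MA

theorem t_T_SC : T_SC := by
  unfold T_SC
  haveI : TopologicalSpace.SeparableSpace L1 := by
    rw [← TopologicalSpace.isSeparable_univ_iff]
    have hsep : TopologicalSpace.IsSeparable (closure ((Submodule.span ℝ
        (Set.range fun i : ℕ => lp.single (E := fun _ : ℕ => ℝ) 1 i (1 : ℝ)) :
          Submodule ℝ L1) : Set L1)) :=
      ((Set.countable_range _).isSeparable.span).closure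
    refine hsep.mono ?_
    intro f _
    have h := lp.hasSum_single ENNReal.one_ne_top f
    refine mem_closure_of_tendsto h (Filter.Eventually.of_forall fun s => ?_)
    refine Submodule.sum_mem _ fun i _ => ?_
    have h1 : lp.single (E := fun _ : ℕ => ℝ) 1 i ((f : ℕ → ℝ) i) =
        ((f : ℕ → ℝ) i) • lp.single (E := fun _ : ℕ => ℝ) 1 i (1 : ℝ) := by
      rw [← lp.single_smul, smul_eq_mul, mul_one]
    rw [h1]
    exact Submodule.smul_mem _ _ (Submodule.subset_span ⟨i, rfl⟩)
  exact UniformSpace.secondCountable_of_separable L1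

end Pool.Agent.H468R2.MA
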