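import Mathlib

/-!
# Masas of the hyperfinite II₁ factor: definitions for the nonclassification proof

Sites `i : ℕ`, site `i` carries the matrix algebra of size `pr i` (`pr 0 = 3`, the `pr i` are
distinct primes). `Gm = ⊕ ZMod (pr i)`. `X γ`, `Z κ` are the Weyl unitaries.
-/

set_option autoImplicit false

open scoped InnerProductSpace
open Filter Topology

namespace Pool.Agent.H468R2.MA

/-- The size of the matrix algebra of the site `i`. -/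
noncomputable def pr : ℕ → ℕ
  | 0 => 3
  | (i + 1) => Nat.nth Nat.Prime (i + 2)

/-- The countable group `⊕ ZMod (pr i)`. -/
abbrev Gm : Type := Π₀ i : ℕ, ZMod (pr i)

/-- The element with the single coordinate `l` at the site `k`. -/
noncomputable abbrev sg (k : ℕ) (l : ZMod (pr k)) : Gm := DFinsupp.single k l

/-- `γ` is supported on the sites `< n`. -/
def Sup (n : ℕ) (γ : Gm) : Prop := ∀ i, n ≤ i → γ i = 0

theorem pr_prime (i : ℕ) : (pr i).Prime := by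
  cases i with
  | zero => exact Nat.prime_three
  | succ i => exact Nat.prime_nth_prime _

instance (i : ℕ) : Fact (pr i).Prime := ⟨pr_prime i⟩

instance (i : ℕ) : NeZero (pr i) := ⟨(pr_prime i).ne_zero⟩

/-- The pairing `Gm × Gm → 𝕋`, `ω(κ, γ) = ∏ e(κ i γ i / pr i)`. -/
noncomputable def om (κ γ : Gm) : ℂ := ∏ i ∈ κ.support, ZMod.stdAddChar (κ i * γ i)

section

variable {H : Type} [NormedAddCommGroup H] [InnerProductSpace ℂ H] [CompleteSpace H]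

/-- The span of the Weyl unitaries of the sites `< n`. -/
def Fn (X Z : Gm → (H →L[ℂ] H)) (n : ℕ) : Submodule ℂ (H →L[ℂ] H) :=
  Submodule.span ℂ {w | ∃ γ κ, Sup n γ ∧ Sup n κ ∧ w = X γ * Z κ}

/-- A Weyl system generating `M` in standard form, with trace vector `Ω`. -/
structure Wy (M : VonNeumannAlgebra H) (Ω : H) (X Z : Gm → (H →L[ℂ] H)) : Prop where
  unit : ‖Ω‖ = 1
  tr : ∀ x ∈ M, ∀ y ∈ M, ⟪Ω, x (y Ω)⟫_ℂ = ⟪Ω, y (x Ω)⟫_ℂ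
  Xm : ∀ γ, X γ ∈ M
  Zm : ∀ κ, Z κ ∈ M
  X0 : X 0 = 1
  Z0 : Z 0 = 1
  Xadd : ∀ γ γ', X (γ + γ') = X γ * X γ'
  Zadd : ∀ κ κ', Z (κ + κ') = Z κ * Z κ'
  Xst : ∀ γ, star (X γ) = X (-γ)
  Zst : ∀ κ, star (Z κ) = Z (-κ)
  cm : ∀ κ γ, Z κ * X γ = om κ γ • (X γ * Z κ)
  orth : ∀ γ κ γ' κ', ⟪(X γ * Z κ) Ω, (X γ' * Z κ') Ω⟫_ℂ = if γ = γ' ∧ κ = κ' then 1 else 0
  std : ∀ (ξ : H) (ε : ℝ), 0 < ε → ∃ a' : H →L[ℂ] H, (∀ x ∈ M, a' * x = x * a') ∧ ‖a' Ω - ξ‖ < ε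
  dns : ∀ (ξ : H) (ε : ℝ), 0 < ε → ∃ n, ∃ y ∈ Fn X Z n, ‖y Ω - ξ‖ < ε
  cexp : ∀ x ∈ M, ∀ n, ∃ y ∈ Fn X Z n, ‖y‖ ≤ ‖x‖ ∧
    ∀ γ κ, Sup n γ → Sup n κ → ⟪(X γ * Z κ) Ω, x Ω - y Ω⟫_ℂ = 0

/-- The operator `h(Z_k)` for a function `h` on `ZMod (pr k)` (Fourier expansion), so that
`Dg Z k (fun m => ZMod.stdAddChar (j * m)) = Z (sg k j)`. -/
noncomputable def Dg (Z : Gm → (H →L[ℂ] H)) (k : ℕ) (h : ZMod (pr k) → ℂ) : H →L[ℂ] H :=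
  ∑ j : ZMod (pr k), (((pr k : ℂ))⁻¹ * ∑ m : ZMod (pr k), h m * ZMod.stdAddChar (-(j * m))) •
    Z (sg k j)

/-- The three rank one projections of the site `0`. -/
noncomputable def ee (Z : Gm → (H →L[ℂ] H)) (i : ZMod (pr 0)) : H →L[ℂ] H :=
  Dg Z 0 (fun m => if m = i then 1 else 0)

/-- The function `exp(i t 1_S)` on `ZMod (pr k)`, `S = {m | m.val < pr k / 2}`. -/
noncomputable def ff (k : ℕ) (t : ℝ) (m : ZMod (pr k)) : ℂ :=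
  if m.val < pr k / 2 then Complex.exp (t * Complex.I) else 1

/-- `F_k(t) = exp(i t 1_S(Z_k))`. -/
noncomputable def FF (Z : Gm → (H →L[ℂ] H)) (k : ℕ) (t : ℝ) : H →L[ℂ] H := Dg Z k (ff k t)

/-- The site unitaries of the three masas `A_0` (generated by the `Z_k`), `A_1` (generated by the
`X_k`) and `A_2 = A_x` (generated by the `F_k(x_k) X_k F_k(x_k)^*`). -/
noncomputable def vv (X Z : Gm → (H →L[ℂ] H)) (x : ℕ → ℝ) (i : ZMod (pr 0)) (k : ℕ)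
    (l : ZMod (pr k)) : H →L[ℂ] H :=
  if i = 0 then Z (sg k l) else if i = 1 then X (sg k l)
  else FF Z k (x k) * X (sg k l) * star (FF Z k (x k))

/-- The elements of `M` commuting with the sites `< n`. -/
def Tl (M : VonNeumannAlgebra H) (X Z : Gm → (H →L[ℂ] H)) (n : ℕ) : Set (H →L[ℂ] H) :=
  {t | t ∈ M ∧ ∀ k, k < n → ∀ l : ZMod (pr k), t * X (sg k l) = X (sg k l) * t ∧
    t * Z (sg k l) = Z (sg k l) * t}

/-- The masa `A_i` of the factor `Tl 1`. -/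
def AA (M : VonNeumannAlgebra H) (X Z : Gm → (H →L[ℂ] H)) (x : ℕ → ℝ) (i : ZMod (pr 0)) :
    Set (H →L[ℂ] H) :=
  {t | t ∈ Tl M X Z 1 ∧ ∀ k, 1 ≤ k → ∀ l : ZMod (pr k), t * vv X Z x i k l = vv X Z x i k l * t}

/-- The masa `D_x = ⊕ e_i A_i` of `M`. -/
def DD (M : VonNeumannAlgebra H) (X Z : Gm → (H →L[ℂ] H)) (x : ℕ → ℝ) : Set (H →L[ℂ] H) :=
  {d | d ∈ M ∧ (∀ i, d * ee Z i = ee Z i * d) ∧
    ∀ i k, 1 ≤ k → ∀ l : ZMod (pr k),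
      d * (ee Z i * vv X Z x i k l) = (ee Z i * vv X Z x i k l) * d}

/-- `U` is a unitary. -/
def IsU (u : H →L[ℂ] H) : Prop := star u * u = 1 ∧ u * star u = 1

/-- `y` is close to `π` infinitely often. -/
def Nr (y : ℕ → ℝ) : Prop := ∀ N : ℕ, ∃ k, N ≤ k ∧ |y k - Real.pi| ≤ 1 / (N + 1)

/-- generic pair -/
def Gen (x y : ℕ → ℝ) : Prop :=
  ∀ N : ℕ, ∃ k, N ≤ k ∧ |x k| ≤ 1 / (N + 1) ∧ |y k - Real.pi| ≤ 1 / (N + 1)

/-- Automorphisms of `M`. -/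
abbrev Au (M : VonNeumannAlgebra H) : Type := M.toStarSubalgebra ≃⋆ₐ[ℂ] M.toStarSubalgebra

/-- `θ(A) = B` for sets of operators. -/
def Img {M : VonNeumannAlgebra H} (θ : Au M) (A B : Set (H →L[ℂ] H)) : Prop :=
  ∀ z : M.toStarSubalgebra, (z : H →L[ℂ] H) ∈ A ↔ ((θ z : M.toStarSubalgebra) : H →L[ℂ] H) ∈ B

/-- The algebra of the first sites, in `M`. The far-apart property of the masas `A_i`, `A_j`. -/
def Far (M : VonNeumannAlgebra H) (Ω : H) (X Z : Gm → (H →L[ℂ] H)) (y : ℕ → ℝ) : Prop :=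
  ∀ i j, i ≠ j → ∀ (n : ℕ) (η : ℝ), 0 < η →
    ∃ a : H →L[ℂ] H, a ∈ AA M X Z y j ∧ a ∈ Tl M X Z n ∧ IsU a ∧
      ∃ (m : ℕ) (u : Fin m → (H →L[ℂ] H)), 0 < m ∧
        (∀ s, u s ∈ AA M X Z y i ∧ u s ∈ Tl M X Z n ∧ IsU (u s)) ∧
        ‖((m : ℂ)⁻¹ • ∑ s, u s * a * star (u s)) Ω‖ ≤ η

end

/-! ### weak operator topology, masas, Effros Borel structure -/

section

variable {H : Type} [NormedAddCommGroup H] [InnerProductSpace ℂ H] [CompleteSpace H]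

/-- open in the weak operator topology -/
def WOpen (U : Set (H →L[ℂ] H)) : Prop :=
  @IsOpen _ (TopologicalSpace.induced
    (fun (T : H →L[ℂ] H) (p : H × H) => ⟪p.1, T p.2⟫_ℂ) inferInstance) U

/-- `A` is a maximal abelian self-adjoint subalgebra of `M`. -/
def IsMasa (M : VonNeumannAlgebra H) (A : StarSubalgebra ℂ (H →L[ℂ] H)) : Prop :=
  (∀ x ∈ A, x ∈ M) ∧ (∀ x ∈ A, ∀ y ∈ A, x * y = y * x) ∧
    ∀ B : StarSubalgebra ℂ (H →L[ℂ] H), (∀ x ∈ B, x ∈ M) → (∀ x ∈ B, ∀ y ∈ B, x * y = y * x) →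
      (∀ x ∈ A, x ∈ B) → ∀ x ∈ B, x ∈ A

/-- The set of masas of `M`. -/
def Masa (M : VonNeumannAlgebra H) : Type := {A : StarSubalgebra ℂ (H →L[ℂ] H) // IsMasa M A}

/-- The Effros Borel structure on the set of masas of `M`: it is generated by the sets of masas
whose unit ball meets a given weakly open set. -/
instance masaMS (M : VonNeumannAlgebra H) : MeasurableSpace (Masa M) :=
  MeasurableSpace.generateFrom
    {S | ∃ U : Set (H →L[ℂ] H), WOpen U ∧ S = {A : Masa M | ∃ a ∈ A.1, ‖a‖ ≤ 1 ∧ a ∈ U}}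

/-- `B = θ(A)` for some automorphism `θ` of `M`. -/
def Conj {M : VonNeumannAlgebra H} (A B : Masa M) : Prop :=
  ∃ θ : Au M, Img θ (A.1 : Set (H →L[ℂ] H)) (B.1 : Set (H →L[ℂ] H))

end

/-! ### generic ergodicity (turbulence) for `ℓ¹` acting on `ℝ^ℕ` -/

section turb

/-- relational structures with universe `ℕ` -/
abbrev RS (ρ : Type) (k : ρ → ℕ) : Type := ∀ r : ρ, (Fin (k r) → ℕ) → Prop

variable {ρ : Type} {k : ρ → ℕ}

/-- isomorphism by a permutation fixing `0, …, n-1` -/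
def IsoFix (n : ℕ) (y z : RS ρ k) : Prop :=
  ∃ π : Equiv.Perm ℕ, (∀ i < n, π i = i) ∧ ∀ r a, z r (fun s => π (a s)) ↔ y r a

/-- isomorphism -/
def Iso (y z : RS ρ k) : Prop := ∃ π : Equiv.Perm ℕ, ∀ r a, z r (fun s => π (a s)) ↔ y r a

/-- the group `ℓ¹` -/
abbrev L1 : Type := lp (fun _ : ℕ => ℝ) 1

/-- `f` is Borel, and `ℓ¹`-invariant up to isomorphism -/
structure Hm (f : (ℕ → ℝ) → RS ρ k) : Prop where
  meas : ∀ r a, MeasurableSet {x | f x r a}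
  inv : ∀ x y : ℕ → ℝ, Summable (fun n => |x n - y n|) → Iso (f x) (f y)

/-- translation by an element of `ℓ¹` -/
def act (g : L1) (x : ℕ → ℝ) : ℕ → ℝ := fun i => x i + (g : ℕ → ℝ) i

/-- T_SC: `ℓ¹` is second countable (needed for category arguments). -/
def T_SC : Prop := SecondCountableTopology L1

/-- T_LOC1: the relevant sets are analytic. -/
def T_LOC1 : Prop := ∀ (ρ : Type) [Countable ρ] (k : ρ → ℕ) (f : (ℕ → ℝ) → RS ρ k), Hm f →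
  ∀ (n : ℕ) (a : Fin n → ℕ), MeasureTheory.AnalyticSet
    {p : L1 × (ℕ → ℝ) | ∃ π : Equiv.Perm ℕ, (∀ i, π (a i) = i) ∧
      ∀ r b, f (act p.1 p.2) r (fun s => π (b s)) ↔ f p.2 r b}

/-- T_LOC: local lemma. -/
def T_LOC : Prop := ∀ (ρ : Type) [Countable ρ] (k : ρ → ℕ) (f : (ℕ → ℝ) → RS ρ k), Hm f →
  ∀ (n : ℕ) (O : Set (ℕ → ℝ)), IsOpen O → O.Nonempty →
    ∃ (U : Set (ℕ → ℝ)) (δ : ℝ), IsOpen U ∧ U.Nonempty ∧ U ⊆ O ∧ 0 < δ ∧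
      ∀ᶠ p in residual (L1 × (ℕ → ℝ)), ‖p.1‖ < δ → p.2 ∈ U →
        IsoFix n (f p.2) (f (act p.1 p.2))

/-- a good comeager set -/
structure Good (f : (ℕ → ℝ) → RS ρ k) (C : Set (ℕ → ℝ)) : Prop where
  res : C ∈ residual (ℕ → ℝ)
  inv : ∀ x ∈ C, ∀ᶠ g in residual L1, act g x ∈ C
  loc : ∀ x ∈ C, ∀ n : ℕ, ∃ (U : Set (ℕ → ℝ)) (δ : ℝ), IsOpen U ∧ Convex ℝ U ∧ x ∈ U ∧ 0 < δ ∧
    ∀ y ∈ C, y ∈ U → ∀ᶠ g in residual L1, ‖g‖ < δ → IsoFix n (f y) (f (act g y))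
  cont : ∀ x ∈ C, ∀ r a, ∃ O : Set (ℕ → ℝ), IsOpen O ∧ x ∈ O ∧
    ∀ y ∈ C, y ∈ O → (f y r a ↔ f x r a)

/-- T_C: existence of a good comeager set. -/
def T_C : Prop := ∀ (ρ : Type) [Countable ρ] (k : ρ → ℕ) (f : (ℕ → ℝ) → RS ρ k), Hm f →
  ∃ C, Good f C

/-- T_CH: chains inside a convex open set. -/
def T_CH : Prop := ∀ (ρ : Type) [Countable ρ] (k : ρ → ℕ) (f : (ℕ → ℝ) → RS ρ k)
  (C : Set (ℕ → ℝ)), (∀ x ∈ C, ∀ᶠ g in residual L1, act g x ∈ C) →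
  ∀ (n : ℕ) (U : Set (ℕ → ℝ)) (δ : ℝ), IsOpen U → Convex ℝ U → 0 < δ →
    (∀ y ∈ C, y ∈ U → ∀ᶠ g in residual L1, ‖g‖ < δ → IsoFix n (f y) (f (act g y))) →
    ∀ x ∈ C, x ∈ U → ∀ U' : Set (ℕ → ℝ), IsOpen U' → U'.Nonempty → U' ⊆ U →
      ∃ y ∈ C, y ∈ U' ∧ IsoFix n (f x) (f y)

/-- T_BF: back and forth. -/
def T_BF : Prop := ∀ (ρ : Type) [Countable ρ] (k : ρ → ℕ) (f : (ℕ → ℝ) → RS ρ k)
  (C : Set (ℕ → ℝ)), Good f C → ∀ x ∈ C, ∀ y ∈ C, Iso (f x) (f y)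

/-- generic ergodicity. -/
def T_ERG : Prop := ∀ (ρ : Type) [Countable ρ] (k : ρ → ℕ) (f : (ℕ → ℝ) → RS ρ k), Hm f →
  ∃ C ∈ residual (ℕ → ℝ), ∀ x ∈ C, ∀ y ∈ C, Iso (f x) (f y)

theorem erg_of (h1 : T_C) (h2 : T_BF) : T_ERG := by
  intro ρ _ k f hf
  obtain ⟨C, hC⟩ := h1 ρ k f hf
  exact ⟨C, hC.res, h2 ρ k f C hC⟩

/-- T_GEN: every comeager set contains a generic pair. -/
def T_GEN : Prop := ∀ C ∈ residual (ℕ → ℝ), ∃ x ∈ C, ∃ y ∈ C, Gen x y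

end turb

end Pool.Agent.H468R2.MA
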