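import Pool.Agent.H468R2.MA.Tasks2

/-!
# The masas of a generic pair are not conjugate
-/

set_option autoImplicit false

open scoped InnerProductSpace
open Filter Topology

namespace Pool.Agent.H468R2.MA

namespace LB

section

variable {H : Type} [NormedAddCommGroup H] [InnerProductSpace ℂ H] [CompleteSpace H]

theorem isU_norm {u : H →L[ℂ] H} (h : IsU u) : ‖u‖ ≤ 1 := by
  have h1 : ‖star u * u‖ = ‖u‖ * ‖u‖ := CStarRing.norm_star_mul_self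
  have h2 : ‖(1 : H →L[ℂ] H)‖ ≤ 1 := ContinuousLinearMap.norm_id_le
  rw [h.1] at h1
  nlinarith [norm_nonneg u]

theorem isU_star {u : H →L[ℂ] H} (h : IsU u) : IsU (star u) := by
  refine ⟨?_, ?_⟩
  · rw [star_star]; exact h.2
  · rw [star_star]; exact h.1

theorem isU_mul {u v : H →L[ℂ] H} (hu : IsU u) (hv : IsU v) : IsU (u * v) := by
  refine ⟨?_, ?_⟩
  · calc star (u * v) * (u * v) = star v * (star u * u) * v := by
          rw [star_mul]; noncomm_ring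
      _ = 1 := by rw [hu.1, mul_one, hv.1]
  · calc u * v * star (u * v) = u * (v * star v) * star u := by
          rw [star_mul]; noncomm_ring
      _ = 1 := by rw [hv.2, mul_one, hu.2]

theorem isU_apply {u : H →L[ℂ] H} (h : IsU u) (ξ : H) : ‖u ξ‖ = ‖ξ‖ := by
  apply le_antisymm
  · calc ‖u ξ‖ ≤ ‖u‖ * ‖ξ‖ := u.le_opNorm ξ
      _ ≤ 1 * ‖ξ‖ := mul_le_mul_of_nonneg_right (isU_norm h) (norm_nonneg _)
      _ = ‖ξ‖ := one_mul _
  · have h1 : (star u) (u ξ) = ξ := by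
      have := congrArg (fun T : H →L[ℂ] H => T ξ) h.1
      simpa using this
    calc ‖ξ‖ = ‖(star u) (u ξ)‖ := by rw [h1]
      _ ≤ ‖star u‖ * ‖u ξ‖ := (star u).le_opNorm _
      _ ≤ 1 * ‖u ξ‖ := mul_le_mul_of_nonneg_right (isU_norm (isU_star h)) (norm_nonneg _)
      _ = ‖u ξ‖ := one_mul _

theorem near_scalar {Ω p q : H} (hΩ : ‖Ω‖ = 1) (hp : ‖p‖ = 1) (hq : ‖q‖ = 1)
    (h : ⟪p, q⟫_ℂ = ⟪p, Ω⟫_ℂ * ⟪Ω, q⟫_ℂ) {ε : ℝ} (h0 : 0 ≤ ε) (h1 : ε ≤ 1) (hε : ‖p - q‖ ≤ ε) :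
    ‖q - ⟪Ω, q⟫_ℂ • Ω‖ ≤ ε := by
  have e1 : ‖p - q‖ ^ 2 = ‖p‖ ^ 2 - 2 * (⟪p, q⟫_ℂ).re + ‖q‖ ^ 2 := by
    have := @norm_sub_sq ℂ H _ _ _ p q
    simpa using this
  have e2 : (⟪p, q⟫_ℂ).re ≤ ‖⟪Ω, q⟫_ℂ‖ := by
    calc (⟪p, q⟫_ℂ).re ≤ ‖⟪p, q⟫_ℂ‖ := Complex.re_le_norm _
      _ = ‖⟪p, Ω⟫_ℂ‖ * ‖⟪Ω, q⟫_ℂ‖ := by rw [h, norm_mul]
      _ ≤ 1 * ‖⟪Ω, q⟫_ℂ‖ := by
        apply mul_le_mul_of_nonneg_right _ (norm_nonneg _)
        calc ‖⟪p, Ω⟫_ℂ‖ ≤ ‖p‖ * ‖Ω‖ := norm_inner_le_norm _ _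
          _ = 1 := by rw [hp, hΩ, one_mul]
      _ = _ := one_mul _
  have e4 : (⟪q, ⟪Ω, q⟫_ℂ • Ω⟫_ℂ).re = ‖⟪Ω, q⟫_ℂ‖ ^ 2 := by
    rw [inner_smul_right, ← inner_conj_symm q Ω, Complex.mul_conj, Complex.normSq_eq_norm_sq,
      Complex.ofReal_re]
  have e3 : ‖q - ⟪Ω, q⟫_ℂ • Ω‖ ^ 2 = 1 - ‖⟪Ω, q⟫_ℂ‖ ^ 2 := by
    have := @norm_sub_sq ℂ H _ _ _ q (⟪Ω, q⟫_ℂ • Ω)
    rw [this, hq, norm_smul, hΩ]
    have e5 : RCLike.re (⟪q, ⟪Ω, q⟫_ℂ • Ω⟫_ℂ) = (⟪q, ⟪Ω, q⟫_ℂ • Ω⟫_ℂ).re := rfl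
    rw [e5, e4]
    ring
  rw [hp, hq] at e1
  have e6 : ‖p - q‖ ^ 2 ≤ ε ^ 2 := by
    have := norm_nonneg (p - q)
    nlinarith
  have e7 : 1 - ε ^ 2 / 2 ≤ ‖⟪Ω, q⟫_ℂ‖ := by nlinarith
  have e8 : (0 : ℝ) ≤ 1 - ε ^ 2 / 2 := by nlinarith
  have e9 : (1 - ε ^ 2 / 2) ^ 2 ≤ ‖⟪Ω, q⟫_ℂ‖ ^ 2 := pow_le_pow_left₀ e8 e7 2
  have e10 : ‖q - ⟪Ω, q⟫_ℂ • Ω‖ ^ 2 ≤ ε ^ 2 := by
    rw [e3]
    nlinarith [sq_nonneg (ε ^ 2)]
  exact le_of_sq_le_sq e10 h0
where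
  le_of_sq_le_sq {a b : ℝ} (h : a ^ 2 ≤ b ^ 2) (hb : 0 ≤ b) : a ≤ b := by
    exact abs_le_of_sq_le_sq' h hb |>.2

theorem exists_char {k : ℕ} {l : ZMod (pr k)} (hl : l ≠ 0) :
    ∃ s : ZMod (pr k), 1 ≤ ‖1 - (ZMod.stdAddChar (s * l) : ℂ)‖ := by
  by_contra hcon
  push Not at hcon
  have hsum : ∑ s : ZMod (pr k), (ZMod.stdAddChar (s * l) : ℂ) = 0 := by
    have := AddChar.sum_mulShift l (ZMod.isPrimitive_stdAddChar (pr k))
    rw [this, if_neg hl]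
    simp
  have h1 : ∀ s : ZMod (pr k), 0 < ((ZMod.stdAddChar (s * l) : ℂ)).re := by
    intro s
    have h2 := hcon s
    have h3 : (1 - (ZMod.stdAddChar (s * l) : ℂ)).re ≤ ‖1 - (ZMod.stdAddChar (s * l) : ℂ)‖ :=
      Complex.re_le_norm _
    rw [Complex.sub_re, Complex.one_re] at h3
    linarith
  have h4 : 0 < (∑ s : ZMod (pr k), (ZMod.stdAddChar (s * l) : ℂ)).re := by
    rw [Complex.re_sum]
    exact Finset.sum_pos (fun s _ => h1 s) ⟨0, Finset.mem_univ _⟩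
  rw [hsum] at h4
  simp at h4

variable {M : VonNeumannAlgebra H} {Ω : H} {X Z : Gm → (H →L[ℂ] H)}

theorem isU_X (hW : Wy M Ω X Z) (γ : Gm) : IsU (X γ) := by
  refine ⟨?_, ?_⟩
  · rw [hW.Xst, ← hW.Xadd, neg_add_cancel, hW.X0]
  · rw [hW.Xst, ← hW.Xadd, add_neg_cancel, hW.X0]

theorem isU_Z (hW : Wy M Ω X Z) (γ : Gm) : IsU (Z γ) := by
  refine ⟨?_, ?_⟩
  · rw [hW.Zst, ← hW.Zadd, neg_add_cancel, hW.Z0]
  · rw [hW.Zst, ← hW.Zadd, add_neg_cancel, hW.Z0]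

/-- conjugation by unitaries of `M` does not increase the two-norm -/
theorem conj_le {E : ℕ → (H →L[ℂ] H) → (H →L[ℂ] H)} (hA : Apx M Ω X Z E) {u R : H →L[ℂ] H}
    (hu : IsU u) (huM : u ∈ M) (hR : R ∈ M) : ‖(u * R * star u) Ω‖ ≤ ‖R Ω‖ := by
  rw [mul_assoc]
  calc ‖(u * (R * star u)) Ω‖ ≤ ‖u‖ * ‖(R * star u) Ω‖ := hA.nl _ _
    _ ≤ 1 * ‖(R * star u) Ω‖ := mul_le_mul_of_nonneg_right (isU_norm hu) (norm_nonneg _)
    _ = ‖(R * star u) Ω‖ := one_mul _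
    _ ≤ ‖R Ω‖ * ‖star u‖ := hA.nr _ hR _ (star_mem huM)
    _ ≤ ‖R Ω‖ * 1 := mul_le_mul_of_nonneg_left (isU_norm (isU_star hu)) (norm_nonneg _)
    _ = ‖R Ω‖ := mul_one _

theorem tl_sg (hS : Str M Ω X Z) {n k : ℕ} (hk : n ≤ k) (l : ZMod (pr k)) :
    X (sg k l) ∈ Tl M X Z n ∧ Z (sg k l) ∈ Tl M X Z n := by
  apply hS.tl_X n (sg k l)
  intro i hi
  exact DFinsupp.single_eq_of_ne (by omega)

theorem one_tl (hS : Str M Ω X Z) : (1 : H →L[ℂ] H) ∈ Tl M X Z 1 :=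
  (hS.aa_one (fun _ => 0) 0).1

/-- properties of the maps `ψ` -/
structure Psi (M : VonNeumannAlgebra H) (Ω : H) (X Z : Gm → (H →L[ℂ] H))
    (ψ : (H →L[ℂ] H) → (H →L[ℂ] H)) : Prop where
  tl : ∀ t ∈ Tl M X Z 1, ψ t ∈ Tl M X Z 1
  mul : ∀ s ∈ Tl M X Z 1, ∀ t ∈ Tl M X Z 1, ψ (s * t) = ψ s * ψ t
  st : ∀ t ∈ Tl M X Z 1, ψ (star t) = star (ψ t)
  one : ψ 1 = 1
  iso : ∀ s ∈ Tl M X Z 1, ∀ t ∈ Tl M X Z 1, ‖(ψ s - ψ t) Ω‖ = ‖(s - t) Ω‖

theorem Psi.isU {ψ : (H →L[ℂ] H) → (H →L[ℂ] H)} (hψ : Psi M Ω X Z ψ) (hS : Str M Ω X Z)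
    {u : H →L[ℂ] H} (hu : IsU u) (ht : u ∈ Tl M X Z 1) : IsU (ψ u) := by
  have hst : star u ∈ Tl M X Z 1 := (hS.tl_alg 1 u ht u ht).2.2.1
  refine ⟨?_, ?_⟩
  · rw [← hψ.st u ht, ← hψ.mul _ hst _ ht, hu.1, hψ.one]
  · rw [← hψ.st u ht, ← hψ.mul _ ht _ hst, hu.2, hψ.one]

theorem ZXZ (hW : Wy M Ω X Z) (κ γ : Gm) : Z κ * X γ * star (Z κ) = om κ γ • X γ := by
  rw [hW.cm, smul_mul_assoc, mul_assoc, (isU_Z hW κ).2, mul_one]

/-- `ψ (X_l)` is not close to a scalar -/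
theorem scal_false (hW : Wy M Ω X Z) (hO : OmP) {E : ℕ → (H →L[ℂ] H) → (H →L[ℂ] H)}
    (hA : Apx M Ω X Z E) (hS : Str M Ω X Z)
    {ψ : (H →L[ℂ] H) → (H →L[ℂ] H)} (hψ : Psi M Ω X Z ψ)
    {k : ℕ} (hk : 1 ≤ k) {l : ZMod (pr k)} (hl : l ≠ 0) (c : ℂ) {δ : ℝ}
    (h : ‖(ψ (X (sg k l)) - c • (1 : H →L[ℂ] H)) Ω‖ ≤ δ) : 1 ≤ 2 * δ := by
  obtain ⟨s, hs⟩ := exists_char hl
  set T := X (sg k l) with hT
  set z := Z (sg k s) with hz
  have hTt : T ∈ Tl M X Z 1 := (tl_sg hS hk l).1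
  have hzt : z ∈ Tl M X Z 1 := (tl_sg hS hk s).2
  have hzs : star z ∈ Tl M X Z 1 := (hS.tl_alg 1 z hzt z hzt).2.2.1
  have hzT : z * T ∈ Tl M X Z 1 := (hS.tl_alg 1 z hzt T hTt).1
  have hT' : z * T * star z ∈ Tl M X Z 1 := (hS.tl_alg 1 _ hzT _ hzs).1
  have hzU : IsU z := isU_Z hW _
  have hψz : IsU (ψ z) := hψ.isU hS hzU hzt
  have e1 : z * T * star z = (ZMod.stdAddChar (s * l) : ℂ) • T := by
    rw [hz, hT, ZXZ hW, hO.sgl]
    simp
  have e2 : ‖(T - z * T * star z) Ω‖ = ‖1 - (ZMod.stdAddChar (s * l) : ℂ)‖ := by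
    rw [e1]
    have : (T - (ZMod.stdAddChar (s * l) : ℂ) • T) Ω =
        (1 - (ZMod.stdAddChar (s * l) : ℂ)) • T Ω := by
      rw [sub_smul, one_smul]
      rfl
    rw [this, norm_smul, isU_apply (isU_X hW _), hW.unit, mul_one]
  have e3 : ψ (z * T * star z) = ψ z * ψ T * star (ψ z) := by
    rw [hψ.mul _ hzT _ hzs, hψ.mul _ hzt _ hTt, hψ.st _ hzt]
  have e4 : ψ T - ψ (z * T * star z) = (ψ T - c • (1 : H →L[ℂ] H)) -
      ψ z * (ψ T - c • (1 : H →L[ℂ] H)) * star (ψ z) := by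
    rw [e3, mul_sub, sub_mul, mul_smul_comm, mul_one, smul_mul_assoc, hψz.2]
    abel
  have hcM : c • (1 : H →L[ℂ] H) ∈ M :=
    ((hS.tl_alg 1 1 (one_tl hS) 1 (one_tl hS)).2.2.2 c).1
  have hRM : ψ T - c • (1 : H →L[ℂ] H) ∈ M := sub_mem (hψ.tl _ hTt).1 hcM
  have e5 : ‖(ψ T - ψ (z * T * star z)) Ω‖ ≤ 2 * δ := by
    rw [e4]
    calc ‖((ψ T - c • (1 : H →L[ℂ] H)) -
          ψ z * (ψ T - c • (1 : H →L[ℂ] H)) * star (ψ z)) Ω‖
        ≤ ‖(ψ T - c • (1 : H →L[ℂ] H)) Ω‖ +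
          ‖(ψ z * (ψ T - c • (1 : H →L[ℂ] H)) * star (ψ z)) Ω‖ := norm_sub_le _ _
      _ ≤ ‖(ψ T - c • (1 : H →L[ℂ] H)) Ω‖ + ‖(ψ T - c • (1 : H →L[ℂ] H)) Ω‖ := by
        have := conj_le hA hψz (hψ.tl _ hzt).1 hRM
        linarith
      _ ≤ 2 * δ := by linarith
  rw [hψ.iso _ hTt _ hT', e2] at e5
  linarith

/-! ### the sites -/

theorem Dg_sum (hC : Calc M Ω X Z) (k : ℕ) {ι : Type} (S : Finset ι)
    (h : ι → ZMod (pr k) → ℂ) :
    Dg Z k (fun m => ∑ s ∈ S, h s m) = ∑ s ∈ S, Dg Z k (h s) := by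
  classical
  induction S using Finset.induction_on with
  | empty =>
    have := hC.smul k 0 (fun _ => 1)
    simpa using this
  | insert a S ha ih =>
    rw [Finset.sum_insert ha, ← ih, ← hC.add]
    congr 1
    funext m
    rw [Finset.sum_insert ha]

theorem ff_star_mul (k : ℕ) (t : ℝ) (m : ZMod (pr k)) : star (ff k t m) * ff k t m = 1 := by
  unfold ff
  split_ifs with h
  · have : star (Complex.exp (t * Complex.I)) = Complex.exp (-(t * Complex.I)) := by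
      rw [Complex.star_def, ← Complex.exp_conj]
      congr 1
      simp
    rw [this, ← Complex.exp_add]
    simp
  · simp

theorem FF_star (hC : Calc M Ω X Z) (k : ℕ) (t : ℝ) :
    star (FF Z k t) = Dg Z k (fun m => star (ff k t m)) := hC.st k _

theorem FF_isU (hC : Calc M Ω X Z) (k : ℕ) (t : ℝ) : IsU (FF Z k t) := by
  have h1 : star (FF Z k t) * FF Z k t = 1 := by
    rw [FF_star hC]
    unfold FF
    rw [← hC.mul, ← hC.one k]
    congr 1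
    funext m
    exact ff_star_mul k t m
  have h2 : FF Z k t * star (FF Z k t) = 1 := by
    rw [FF_star hC]
    unfold FF
    rw [← hC.mul, ← hC.one k]
    congr 1
    funext m
    rw [mul_comm]
    exact ff_star_mul k t m
  exact ⟨h1, h2⟩

theorem FF_sub_one (hC : Calc M Ω X Z) (k : ℕ) (t : ℝ) : ‖FF Z k t - 1‖ ≤ |t| := by
  have h1 : FF Z k t - 1 = Dg Z k (fun m => ff k t m + (-1) * 1) := by
    rw [hC.add k (ff k t) (fun _ => (-1) * 1), hC.smul k (-1) (fun _ => 1), hC.one]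
    unfold FF
    rw [neg_one_smul, sub_eq_add_neg]
  rw [h1]
  apply hC.norm
  intro m
  unfold ff
  split_ifs with h
  · have := Real.norm_exp_I_mul_ofReal_sub_one_le (x := t)
    rw [mul_comm (t : ℂ) Complex.I]
    have e : Complex.exp (Complex.I * t) + (-1) * 1 = Complex.exp (Complex.I * t) - 1 := by ring
    rw [e]
    exact this
  · simp

theorem conj_FF (hW : Wy M Ω X Z) (hC : Calc M Ω X Z) (k : ℕ) (t : ℝ) (l : ZMod (pr k)) :
    ‖X (sg k l) - FF Z k t * X (sg k l) * star (FF Z k t)‖ ≤ 2 * |t| := by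
  set F := FF Z k t with hF
  set T := X (sg k l) with hT
  have hFU : IsU F := FF_isU hC k t
  have hTU : IsU T := isU_X hW _
  have e1 : T - F * T * star F = -((F - 1) * T * star F) - T * star (F - 1) := by
    rw [star_sub, star_one]
    noncomm_ring
  have hn := FF_sub_one hC k t
  rw [← hF] at hn
  rw [e1]
  have b1 : ‖(F - 1) * T * star F‖ ≤ |t| := by
    calc ‖(F - 1) * T * star F‖ ≤ ‖(F - 1) * T‖ * ‖star F‖ := norm_mul_le _ _
      _ ≤ (‖F - 1‖ * ‖T‖) * ‖star F‖ :=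
        mul_le_mul_of_nonneg_right (norm_mul_le _ _) (norm_nonneg _)
      _ ≤ (|t| * 1) * 1 := by
        apply mul_le_mul _ (isU_norm (isU_star hFU)) (norm_nonneg _) (by positivity)
        exact mul_le_mul hn (isU_norm hTU) (norm_nonneg _) (abs_nonneg _)
      _ = |t| := by ring
  have b2 : ‖T * star (F - 1)‖ ≤ |t| := by
    calc ‖T * star (F - 1)‖ ≤ ‖T‖ * ‖star (F - 1)‖ := norm_mul_le _ _
      _ ≤ 1 * |t| := by
        apply mul_le_mul (isU_norm hTU) _ (norm_nonneg _) (by norm_num)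
        rw [norm_star]
        exact hn
      _ = |t| := by ring
  calc ‖-((F - 1) * T * star F) - T * star (F - 1)‖
      ≤ ‖-((F - 1) * T * star F)‖ + ‖T * star (F - 1)‖ := norm_sub_le _ _
    _ ≤ |t| + |t| := by rw [norm_neg]; linarith
    _ = 2 * |t| := by ring

theorem half_est (hW : Wy M Ω X Z) (hC : Calc M Ω X Z)
    {E : ℕ → (H →L[ℂ] H) → (H →L[ℂ] H)} (hA : Apx M Ω X Z E) {k : ℕ} (t : ℝ)
    (j : ZMod (pr k))
    (hh : ‖(pr k : ℂ)⁻¹ * ∑ m : ZMod (pr k), star (ff k t m) * ff k t (m - j)‖ ≤ 3 / 4)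
    {b : H →L[ℂ] H} (hbM : b ∈ M) (hb : IsU b)
    (hcomm : ∀ s, b * (FF Z k t * X (sg k s) * star (FF Z k t)) =
      (FF Z k t * X (sg k s) * star (FF Z k t)) * b)
    {c : ℂ} (hc : ‖c‖ ≤ 1) (hcM : c • X (sg k j) ∈ M) {ε : ℝ}
    (h : ‖(b - c • X (sg k j)) Ω‖ ≤ ε) : 1 ≤ 3 / 4 + ε := by
  set F := FF Z k t with hF
  set q : ZMod (pr k) → ℂ := fun m => star (ff k t m) * ff k t (m - j) with hq
  have hFU : IsU F := FF_isU hC k t
  have hFM : F ∈ M := hC.mem k _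
  set u : ZMod (pr k) → (H →L[ℂ] H) := fun s => F * X (sg k s) * star F with hu
  have huU : ∀ s, IsU (u s) := fun s => isU_mul (isU_mul hFU (isU_X hW _)) (isU_star hFU)
  have huM : ∀ s, u s ∈ M := fun s => mul_mem (mul_mem hFM (hW.Xm _)) (star_mem hFM)
  have k1 : star F * X (sg k j) * F = Dg Z k q * X (sg k j) := by
    rw [mul_assoc]
    have : X (sg k j) * F = Dg Z k (fun m => ff k t (m - j)) * X (sg k j) := hC.shift k j _
    rw [this, ← mul_assoc, FF_star hC, ← hC.mul]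
  have k2 : ∀ s, X (sg k s) * X (sg k j) * star (X (sg k s)) = X (sg k j) := by
    intro s
    rw [← hW.Xadd, add_comm, hW.Xadd, mul_assoc, (isU_X hW _).2, mul_one]
  have k3 : ∀ s, u s * X (sg k j) * star (u s) =
      F * Dg Z k (fun m => q (m - s)) * X (sg k j) * star F := by
    intro s
    calc u s * X (sg k j) * star (u s)
        = F * X (sg k s) * (star F * X (sg k j) * F) * star (X (sg k s)) * star F := by
          simp only [hu, star_mul, star_star, mul_assoc]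
      _ = F * (X (sg k s) * Dg Z k q) * X (sg k j) * star (X (sg k s)) * star F := by
          rw [k1]; simp only [mul_assoc]
      _ = F * Dg Z k (fun m => q (m - s)) * (X (sg k s) * X (sg k j) * star (X (sg k s))) *
          star F := by
          rw [hC.shift]; simp only [mul_assoc]
      _ = _ := by rw [k2]
  have k4 : ∑ s : ZMod (pr k), Dg Z k (fun m => q (m - s)) =
      (∑ m, q m) • (1 : H →L[ℂ] H) := by
    rw [← Dg_sum hC k Finset.univ (fun s m => q (m - s))]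
    have : (fun m : ZMod (pr k) => ∑ s, q (m - s)) = fun m => (∑ s, q s) * 1 := by
      funext m
      rw [mul_one]
      exact Fintype.sum_equiv (Equiv.subLeft m) _ _ (fun s => rfl)
    rw [this, hC.smul k _ (fun _ => 1), hC.one]
  have k5 : ∑ s, u s * X (sg k j) * star (u s) = (∑ m, q m) • (F * X (sg k j) * star F) := by
    simp only [k3]
    rw [← Finset.sum_mul, ← Finset.sum_mul, ← Finset.mul_sum, k4, mul_smul_comm, mul_one,
      smul_mul_assoc, smul_mul_assoc]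
  have k6 : ∀ s, u s * b * star (u s) = b := by
    intro s
    rw [← hcomm s, mul_assoc, (huU s).2, mul_one]
  have k7 : ∑ s, u s * (b - c • X (sg k j)) * star (u s) =
      (pr k : ℂ) • b - c • (∑ m, q m) • (F * X (sg k j) * star F) := by
    rw [← k5, Finset.smul_sum]
    have e : ∀ s, u s * (b - c • X (sg k j)) * star (u s) =
        b - c • (u s * X (sg k j) * star (u s)) := by
      intro s
      rw [mul_sub, sub_mul, k6, mul_smul_comm, smul_mul_assoc]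
    rw [Finset.sum_congr rfl (fun s _ => e s), Finset.sum_sub_distrib]
    congr 1
    rw [Finset.sum_const, Finset.card_univ, ZMod.card, ← Nat.cast_smul_eq_nsmul ℂ]
  have hRM : b - c • X (sg k j) ∈ M := sub_mem hbM hcM
  have k8 : ‖(∑ s, u s * (b - c • X (sg k j)) * star (u s)) Ω‖ ≤ (pr k : ℝ) * ε := by
    rw [_root_.sum_apply]
    calc ‖∑ s, (u s * (b - c • X (sg k j)) * star (u s)) Ω‖
        ≤ ∑ s, ‖(u s * (b - c • X (sg k j)) * star (u s)) Ω‖ := norm_sum_le _ _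
      _ ≤ ∑ _s : ZMod (pr k), ε := by
        apply Finset.sum_le_sum
        intro s _
        exact (conj_le hA (huU s) (huM s) hRM).trans h
      _ = (pr k : ℝ) * ε := by
        rw [Finset.sum_const, Finset.card_univ, ZMod.card, nsmul_eq_mul]
  have hp : (0 : ℝ) < pr k := by exact_mod_cast (pr_prime k).pos
  have k9 : ‖∑ m, q m‖ ≤ 3 / 4 * pr k := by
    rw [norm_mul, norm_inv, Complex.norm_natCast] at hh
    have := mul_le_mul_of_nonneg_left hh hp.le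
    rw [← mul_assoc, mul_inv_cancel₀ hp.ne', one_mul] at this
    linarith
  have k10 : ‖((pr k : ℂ) • b) Ω‖ = pr k := by
    have : ((pr k : ℂ) • b) Ω = (pr k : ℂ) • (b Ω) := rfl
    rw [this, norm_smul, isU_apply hb, hW.unit, mul_one, Complex.norm_natCast]
  have k11 : ‖(c • (∑ m, q m) • (F * X (sg k j) * star F)) Ω‖ ≤ 3 / 4 * pr k := by
    have e : (c • (∑ m, q m) • (F * X (sg k j) * star F)) Ω =
      c • (∑ m, q m) • ((F * X (sg k j) * star F) Ω) := rfl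
    rw [e, norm_smul, norm_smul, isU_apply (huU j), hW.unit, mul_one]
    calc ‖c‖ * ‖∑ m, q m‖ ≤ 1 * (3 / 4 * pr k) :=
          mul_le_mul hc k9 (norm_nonneg _) (by norm_num)
      _ = _ := one_mul _
  have k12 : (pr k : ℝ) ≤ pr k * ε + 3 / 4 * pr k := by
    calc (pr k : ℝ) = ‖((pr k : ℂ) • b) Ω‖ := k10.symm
      _ = ‖(∑ s, u s * (b - c • X (sg k j)) * star (u s)) Ω +
          (c • (∑ m, q m) • (F * X (sg k j) * star F)) Ω‖ := by
        rw [k7]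
        congr 1
        rw [_root_.sub_apply]
        abel
      _ ≤ _ := (norm_add_le _ _).trans (add_le_add k8 k11)
  have k13 : (pr k : ℝ) * 1 ≤ pr k * (3 / 4 + ε) := by linarith
  exact le_of_mul_le_mul_left k13 hp

theorem cX_ne (hW : Wy M Ω X Z) {γ γ' : Gm} (hne : γ ≠ γ') (c c' : ℂ) :
    ‖c‖ ^ 2 ≤ ‖(c • X γ - c' • X γ') Ω‖ ^ 2 := by
  have h1 : ⟪X γ Ω, X γ' Ω⟫_ℂ = 0 := by
    have := hW.orth γ 0 γ' 0
    rw [hW.Z0, mul_one, mul_one, if_neg (fun h => hne h.1)] at this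
    exact this
  have h2 : (c • X γ - c' • X γ') Ω = c • X γ Ω - c' • X γ' Ω := rfl
  have h3 := @norm_sub_sq ℂ H _ _ _ (c • X γ Ω) (c' • X γ' Ω)
  have h4 : ⟪c • X γ Ω, c' • X γ' Ω⟫_ℂ = 0 := by
    rw [inner_smul_left, inner_smul_right, h1]
    simp
  rw [h2, h3, h4, norm_smul, norm_smul, isU_apply (isU_X hW _), isU_apply (isU_X hW _), hW.unit]
  simp

/-- `X_l` normalises `AA x 0` -/
theorem norm_AA0 (hW : Wy M Ω X Z) (hO : OmP) (hS : Str M Ω X Z) (x : ℕ → ℝ) {k : ℕ}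
    (hk : 1 ≤ k) (l : ZMod (pr k)) {a : H →L[ℂ] H} (ha : a ∈ AA M X Z x 0) :
    X (sg k l) * a * star (X (sg k l)) ∈ AA M X Z x 0 := by
  have hT : X (sg k l) ∈ Tl M X Z 1 := (tl_sg hS hk l).1
  have hTs : star (X (sg k l)) ∈ Tl M X Z 1 := (hS.tl_alg 1 _ hT _ hT).2.2.1
  refine ⟨(hS.tl_alg 1 _ (hS.tl_alg 1 _ hT _ ha.1).1 _ hTs).1, ?_⟩
  intro k' hk' l'
  have hv : vv X Z x 0 k' l' = Z (sg k' l') := if_pos rfl
  have hcomm := ha.2 k' hk' l'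
  rw [hv] at hcomm ⊢
  set γ := sg k l with hγ
  set κ := sg k' l' with hκ
  rw [hW.Xst]
  have e1 : om κ γ * om κ (-γ) = 1 := by
    rw [← hO.addr, add_neg_cancel, hO.zr]
  symm
  calc Z κ * (X γ * a * X (-γ)) = (Z κ * X γ) * a * X (-γ) := by simp only [mul_assoc]
    _ = om κ γ • (X γ * (Z κ * a) * X (-γ)) := by
      rw [hW.cm, smul_mul_assoc, smul_mul_assoc]; simp only [mul_assoc]
    _ = om κ γ • (X γ * a * (Z κ * X (-γ))) := by
      rw [← hcomm]; simp only [mul_assoc]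
    _ = (om κ γ * om κ (-γ)) • (X γ * a * X (-γ) * Z κ) := by
      rw [hW.cm, mul_smul_comm, smul_smul]; simp only [mul_assoc]
    _ = X γ * a * X (-γ) * Z κ := by rw [e1, one_smul]

/-! ### additive maps with small errors -/

theorem supp_sg (hO : OmP) {k : ℕ} (g : ZMod (pr k) → Gm)
    (hg : ∀ l l', g (l + l') = g l + g l') :
    ∃ a : ZMod (pr k), ∀ l, g l = sg k (l * a) := by
  have g0 : g 0 = 0 := by
    have := hg 0 0
    rw [add_zero] at this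
    exact left_eq_add.mp this
  have gn : ∀ (n : ℕ) (l : ZMod (pr k)), g (n • l) = n • g l := by
    intro n l
    induction n with
    | zero => rw [zero_smul, zero_smul, g0]
    | succ n ih => rw [succ_nsmul, hg, ih, succ_nsmul]
  have hz : ∀ l m, m ≠ k → g l m = 0 := by
    intro l m hm
    have h1 : (pr k) • g l = 0 := by
      rw [← gn, nsmul_eq_mul, ZMod.natCast_self, zero_mul, g0]
    have h2 : (pr k) • (g l m) = 0 := by
      have := congrArg (fun f : Gm => f m) h1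
      simpa using this
    rw [nsmul_eq_mul] at h2
    rcases mul_eq_zero.mp h2 with h3 | h3
    · exfalso
      rw [ZMod.natCast_eq_zero_iff] at h3
      have h4 := (Nat.prime_dvd_prime_iff_eq (pr_prime m) (pr_prime k)).mp h3
      exact hm (hO.inj h4)
    · exact h3
  refine ⟨g 1 k, ?_⟩
  intro l
  ext m
  by_cases hm : m = k
  · subst hm
    rw [DFinsupp.single_eq_same]
    have h1 : l = (l.val) • (1 : ZMod (pr m)) := by
      rw [nsmul_eq_mul, mul_one, ZMod.natCast_zmod_val]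
    have h2 : g l = l.val • g 1 := by
      conv_lhs => rw [h1]
      exact gn _ _
    rw [h2]
    have h3 : (l.val • g 1) m = l.val • (g 1 m) := rfl
    rw [h3, nsmul_eq_mul, ZMod.natCast_zmod_val]
  · rw [hz l m hm]
    rw [DFinsupp.single_eq_of_ne hm]

end

theorem z3_cases : ∀ i : ZMod (pr 0), i = 0 ∨ i = 1 ∨ i = 2 := by
  have h : ∀ i : ZMod 3, i = 0 ∨ i = 1 ∨ i = 2 := by decide
  exact h

theorem z3_01 : (0 : ZMod (pr 0)) ≠ 1 := by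
  have h : (0 : ZMod 3) ≠ 1 := by decide
  exact h

theorem z3_02 : (0 : ZMod (pr 0)) ≠ 2 := by
  have h : (0 : ZMod 3) ≠ 2 := by decide
  exact h

theorem z3_12 : (1 : ZMod (pr 0)) ≠ 2 := by
  have h : (1 : ZMod 3) ≠ 2 := by decide
  exact h

section

variable {H : Type} [NormedAddCommGroup H] [InnerProductSpace ℂ H] [CompleteSpace H]

theorem tri {A B C : H →L[ℂ] H} {Ω : H} {a b : ℝ} (h1 : ‖(A - B) Ω‖ ≤ a)
    (h2 : ‖(B - C) Ω‖ ≤ b) : ‖(A - C) Ω‖ ≤ a + b := by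
  have e : (A - C) Ω = (A - B) Ω + (B - C) Ω := by
    rw [_root_.sub_apply, _root_.sub_apply, _root_.sub_apply]; abel
  rw [e]
  exact (norm_add_le _ _).trans (add_le_add h1 h2)

theorem swp {A B : H →L[ℂ] H} {Ω : H} {a : ℝ} (h1 : ‖(A - B) Ω‖ ≤ a) : ‖(B - A) Ω‖ ≤ a := by
  have e : (B - A) Ω = -((A - B) Ω) := by
    rw [_root_.sub_apply, _root_.sub_apply]; abel
  rw [e, norm_neg]
  exact h1

variable {M : VonNeumannAlgebra H} {Ω : H} {X Z : Gm → (H →L[ℂ] H)}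

theorem main (hO : OmP) (h4 : O_Half) (h9 : O_Nbr) (hW : Wy M Ω X Z) (hC : Calc M Ω X Z)
    {E : ℕ → (H →L[ℂ] H) → (H →L[ℂ] H)} (hA : Apx M Ω X Z E) (hS : Str M Ω X Z)
    (x y : ℕ → ℝ) {k : ℕ} (hk : 1 ≤ k) (hx : |x k| ≤ 1 / 1000) (hy : |y k - Real.pi| ≤ 1 / 10)
    (ψ : ZMod (pr 0) → (H →L[ℂ] H) → (H →L[ℂ] H)) (π : Equiv.Perm (ZMod (pr 0)))
    (hψ : ∀ i, Psi M Ω X Z (ψ i))
    (hAA : ∀ i, ∀ t ∈ AA M X Z x i, ψ i t ∈ AA M X Z y (π i))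
    (hsurj : ∀ i, ∀ s ∈ AA M X Z y (π i), ∃ t ∈ AA M X Z x i, ψ i t = s)
    (hcl : ∀ i j l, ‖(ψ i (X (sg k l)) - ψ j (X (sg k l))) Ω‖ ≤ 1 / 1000) : False := by
  have hXT : ∀ l : ZMod (pr k), X (sg k l) ∈ Tl M X Z 1 := fun l => (tl_sg hS hk l).1
  have hX1 : ∀ l : ZMod (pr k), X (sg k l) ∈ AA M X Z x 1 := by
    intro l
    have h := (hS.aa_vv x 1 k hk l).1
    have e : vv X Z x 1 k l = X (sg k l) := by
      unfold vv
      rw [if_neg z3_01.symm, if_pos rfl]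
    rw [e] at h
    exact h
  have hv2 : ∀ (w : ℕ → ℝ) (l : ZMod (pr k)), vv X Z w 2 k l =
      FF Z k (w k) * X (sg k l) * star (FF Z k (w k)) := by
    intro w l
    unfold vv
    rw [if_neg z3_02.symm, if_neg z3_12.symm]
  have ha2 : ∀ l, vv X Z x 2 k l ∈ AA M X Z x 2 := fun l => (hS.aa_vv x 2 k hk l).1
  have haU : ∀ l, IsU (vv X Z x 2 k l) := fun l => (hS.aa_vv x 2 k hk l).2.1
  have d2 : ∀ l, ‖(ψ 2 (X (sg k l)) - ψ 2 (vv X Z x 2 k l)) Ω‖ ≤ 2 / 1000 := by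
    intro l
    rw [(hψ 2).iso _ (hXT l) _ (ha2 l).1, hv2]
    calc ‖(X (sg k l) - FF Z k (x k) * X (sg k l) * star (FF Z k (x k))) Ω‖
        ≤ ‖X (sg k l) - FF Z k (x k) * X (sg k l) * star (FF Z k (x k))‖ * ‖Ω‖ :=
          ContinuousLinearMap.le_opNorm _ _
      _ ≤ (2 * |x k|) * 1 := by
          rw [hW.unit]
          exact mul_le_mul_of_nonneg_right (conj_FF hW hC k (x k) l) (by norm_num)
      _ ≤ 2 / 1000 := by linarith
  have d3 : ∀ i l, ‖(ψ i (X (sg k l)) - ψ 2 (vv X Z x 2 k l)) Ω‖ ≤ 3 / 1000 := by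
    intro i l
    have := tri (hcl i 2 l) (d2 l)
    linarith
  have u1 : ∀ i l, IsU (ψ i (X (sg k l))) := fun i l => (hψ i).isU hS (isU_X hW _) (hXT l)
  have u2 : ∀ l, IsU (ψ 2 (vv X Z x 2 k l)) := fun l => (hψ 2).isU hS (haU l) (ha2 l).1
  -- Step 1
  have hπ0 : π 0 = 0 := by
    by_contra hne
    have h12 : π 1 = 0 ∨ π 2 = 0 := by
      obtain ⟨j, hj⟩ := π.surjective 0
      rcases z3_cases j with rfl | rfl | rfl
      · exact absurd hj hne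
      · exact Or.inl hj
      · exact Or.inr hj
    have ho := hS.aa_orth y (π 1) (π 2) (π.injective.ne z3_12) h12
      (ψ 1 (X (sg k 1))) (hAA 1 _ (hX1 1)) (ψ 2 (vv X Z x 2 k 1)) (hAA 2 _ (ha2 1))
    have n1 : ‖(ψ 1 (X (sg k 1))) Ω‖ = 1 := by rw [isU_apply (u1 1 1), hW.unit]
    have n2 : ‖(ψ 2 (vv X Z x 2 k 1)) Ω‖ = 1 := by rw [isU_apply (u2 1), hW.unit]
    have n3 := near_scalar hW.unit n1 n2 ho (ε := 3 / 1000) (by norm_num) (by norm_num)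
      (by have := d3 1 1; rwa [_root_.sub_apply] at this)
    set c : ℂ := ⟪Ω, (ψ 2 (vv X Z x 2 k 1)) Ω⟫_ℂ with hc
    have n4 : ‖((ψ 2 (vv X Z x 2 k 1)) - c • (1 : H →L[ℂ] H)) Ω‖ ≤ 3 / 1000 := by
      rw [_root_.sub_apply]
      exact n3
    have n5 := tri (d3 1 1) n4
    have n6 := scal_false hW hO hA hS (hψ 1) hk (l := 1) one_ne_zero c n5
    norm_num at n6
  -- Step 2
  have hvn : ∀ l, ∀ a ∈ AA M X Z y 0,
      ψ 0 (X (sg k l)) * a * star (ψ 0 (X (sg k l))) ∈ AA M X Z y 0 := by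
    intro l a ha
    obtain ⟨t, ht, rfl⟩ := hsurj 0 a (by rw [hπ0]; exact ha)
    have hXs : star (X (sg k l)) ∈ Tl M X Z 1 := (hS.tl_alg 1 _ (hXT l) _ (hXT l)).2.2.1
    have hXt : X (sg k l) * t ∈ Tl M X Z 1 := (hS.tl_alg 1 _ (hXT l) _ ht.1).1
    have h := hAA 0 _ (norm_AA0 hW hO hS x hk l ht)
    rw [hπ0, (hψ 0).mul _ hXt _ hXs, (hψ 0).mul _ (hXT l) _ ht.1, (hψ 0).st _ (hXT l)] at h
    exact h
  -- Step 3
  have hb : ∀ l, ∃ b1 b2 : H →L[ℂ] H, b1 ∈ AA M X Z y 1 ∧ b2 ∈ AA M X Z y 2 ∧ IsU b1 ∧ IsU b2 ∧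
      ‖(ψ 0 (X (sg k l)) - b1) Ω‖ ≤ 3 / 1000 ∧ ‖(ψ 0 (X (sg k l)) - b2) Ω‖ ≤ 3 / 1000 := by
    intro l
    have c1 : ‖(ψ 0 (X (sg k l)) - ψ 1 (X (sg k l))) Ω‖ ≤ 3 / 1000 :=
      (hcl 0 1 l).trans (by norm_num)
    have c2 := d3 0 l
    have h1 : π 1 ≠ 0 := fun h => z3_01 (π.injective (h.trans hπ0.symm)).symm
    have h2 : π 2 ≠ 0 := fun h => z3_02 (π.injective (h.trans hπ0.symm)).symm
    have h12 : π 1 ≠ π 2 := π.injective.ne z3_12
    have m1 := hAA 1 _ (hX1 l)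
    have m2 := hAA 2 _ (ha2 l)
    rcases z3_cases (π 1) with e1 | e1 | e1
    · exact absurd e1 h1
    · rcases z3_cases (π 2) with e2 | e2 | e2
      · exact absurd e2 h2
      · exact absurd (e1.trans e2.symm) h12
      · rw [e1] at m1
        rw [e2] at m2
        exact ⟨_, _, m1, m2, u1 1 l, u2 l, c1, c2⟩
    · rcases z3_cases (π 2) with e2 | e2 | e2
      · exact absurd e2 h2
      · rw [e1] at m1
        rw [e2] at m2
        exact ⟨_, _, m2, m1, u2 l, u1 1 l, c2, c1⟩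
      · exact absurd (e1.trans e2.symm) h12
  have hN : ∀ l, ∃ (γ : Gm) (c : ℂ), ‖c‖ ≤ 1 ∧ 1 - 4 * (3 / 1000 : ℝ) ^ 2 ≤ ‖c‖ ^ 2 ∧
      ‖(ψ 0 (X (sg k l)) - c • X γ) Ω‖ ≤ 9 / 1000 := by
    intro l
    obtain ⟨b1, b2, m1, -, w1, -, e1, -⟩ := hb l
    obtain ⟨γ, c, -, g1, g2, g3⟩ := h9 H M Ω X Z hW y _ ((hψ 0).tl _ (hXT l)) (u1 0 l) (hvn l)
      b1 m1 w1 (3 / 1000) (by norm_num) (by norm_num) e1
    exact ⟨γ, c, g1, g2, by linarith⟩
  choose g c hc1 hc2 hgc using hN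
  have hcM : ∀ (c : ℂ) (γ : Gm), c • X γ ∈ M := fun c γ =>
    M.toStarSubalgebra.smul_mem (hW.Xm γ) c
  -- Step 4
  have hadd : ∀ l l', g (l + l') = g l + g l' := by
    intro l l'
    by_contra hne
    have hmul : ψ 0 (X (sg k (l + l'))) = ψ 0 (X (sg k l)) * ψ 0 (X (sg k l')) := by
      have e : sg k (l + l') = sg k l + sg k l' := DFinsupp.single_add _ _ _
      rw [e, hW.Xadd, (hψ 0).mul _ (hXT l) _ (hXT l')]
    have e1 : (c l • X (g l)) * (c l' • X (g l')) = (c l * c l') • X (g l + g l') := by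
      rw [hW.Xadd, smul_mul_smul_comm]
    have b1 : ‖(ψ 0 (X (sg k l)) * ψ 0 (X (sg k l')) -
        ψ 0 (X (sg k l)) * (c l' • X (g l'))) Ω‖ ≤ 9 / 1000 := by
      rw [← mul_sub]
      calc ‖(ψ 0 (X (sg k l)) * (ψ 0 (X (sg k l')) - c l' • X (g l'))) Ω‖
          ≤ ‖ψ 0 (X (sg k l))‖ * ‖(ψ 0 (X (sg k l')) - c l' • X (g l')) Ω‖ := hA.nl _ _
        _ ≤ 1 * (9 / 1000) :=
          mul_le_mul (isU_norm (u1 0 l)) (hgc l') (norm_nonneg _) (by norm_num)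
        _ = _ := one_mul _
    have b2 : ‖(ψ 0 (X (sg k l)) * (c l' • X (g l')) -
        (c l • X (g l)) * (c l' • X (g l'))) Ω‖ ≤ 9 / 1000 := by
      rw [← sub_mul]
      calc ‖((ψ 0 (X (sg k l)) - c l • X (g l)) * (c l' • X (g l'))) Ω‖
          ≤ ‖(ψ 0 (X (sg k l)) - c l • X (g l)) Ω‖ * ‖c l' • X (g l')‖ :=
            hA.nr _ (sub_mem ((hψ 0).tl _ (hXT l)).1 (hcM _ _)) _ (hcM _ _)
        _ ≤ (9 / 1000) * 1 := by
          apply mul_le_mul (hgc l) _ (norm_nonneg _) (by norm_num)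
          rw [norm_smul]
          calc ‖c l'‖ * ‖X (g l')‖ ≤ 1 * 1 :=
                mul_le_mul (hc1 l') (isU_norm (isU_X hW _)) (norm_nonneg _) (by norm_num)
            _ = 1 := one_mul _
        _ = _ := mul_one _
    have b3 := tri b1 b2
    rw [← hmul, e1] at b3
    have b4 := tri (swp (hgc (l + l'))) b3
    have b5 := cX_ne hW hne (c (l + l')) (c l * c l')
    have b6 := hc2 (l + l')
    have b7 := norm_nonneg ((c (l + l') • X (g (l + l')) - (c l * c l') • X (g l + g l')) Ω)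
    nlinarith
  -- Step 5
  obtain ⟨a, ha⟩ := supp_sg hO g hadd
  have ha0 : a ≠ 0 := by
    intro h
    have e : g 1 = 0 := by
      rw [ha 1, h, mul_zero]
      exact DFinsupp.single_zero _
    have h1 := hgc 1
    rw [e, hW.X0] at h1
    have h2 := scal_false hW hO hA hS (hψ 0) hk (l := 1) one_ne_zero (c 1) h1
    norm_num at h2
  -- Step 6
  obtain ⟨j, -, hj⟩ := h4 k hk
  have hjj := (hj (y k) hy).2
  obtain ⟨b1, b2, -, m2, -, w2, -, e2⟩ := hb (j * a⁻¹)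
  have hg : g (j * a⁻¹) = sg k j := by
    rw [ha, mul_assoc, inv_mul_cancel₀ ha0, mul_one]
  have h1 := hgc (j * a⁻¹)
  rw [hg] at h1
  have h2 := tri (swp e2) h1
  have h3 := half_est hW hC hA (y k) j hjj m2.1.1 w2 (by
    intro s
    have := m2.2 k hk s
    rw [hv2] at this
    exact this) (hc1 _) (hcM _ _) h2
  norm_num at h3

end

end LB

/-- O14: the masas of a generic pair are not conjugate. -/
theorem t_O_LB (h0 : OmP) (h1 : O_Calc) (h2 : O_Apx) (h3 : O_Str) (h4 : O_Half) (h5 : O_Far)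
    (h6 : O_Nrm) (h7 : O_Perm) (h8 : O_Psi) (h9 : O_Nbr) : O_LB := by
  intro H _ _ _ M Ω X Z hW x y hG hex
  obtain ⟨θ, hθ⟩ := hex
  have hC := h1 H M Ω X Z hW
  obtain ⟨E, hA⟩ := h2 H M Ω X Z hW
  have hS := h3 H M Ω X Z hW
  have hNr : Nr y := by
    intro N
    obtain ⟨k, hk, _, h⟩ := hG N
    exact ⟨k, hk, h⟩
  have hF := h5 H M Ω X Z hW y hNr
  have hN := h6 H M Ω X Z hW y hF
  obtain ⟨π, hπ⟩ := h7 H M Ω X Z hW x y θ hθ hN
  obtain ⟨ψ, p1, p2, p3, p4, p5, p6, p7, p8⟩ := h8 H M Ω X Z hW x y θ hθ π hπ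
  choose n hn using fun i j => p8 i j (1 / 1000) (by norm_num)
  set n0 := ∑ i, ∑ j, n i j with hn0
  have hle : ∀ i j, n i j ≤ n0 := by
    intro i j
    calc n i j ≤ ∑ j, n i j :=
          Finset.single_le_sum (f := fun j => n i j) (fun _ _ => Nat.zero_le _)
            (Finset.mem_univ j)
      _ ≤ n0 := Finset.single_le_sum (f := fun i => ∑ j, n i j) (fun _ _ => Nat.zero_le _)
            (Finset.mem_univ i)
  obtain ⟨k, hk, hx, hy⟩ := hG (n0 + 1000)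
  have hden : (1 : ℝ) / (((n0 + 1000 : ℕ) : ℝ) + 1) ≤ 1 / 1000 := by
    apply one_div_le_one_div_of_le (by norm_num)
    push_cast
    have : (0 : ℝ) ≤ n0 := Nat.cast_nonneg _
    linarith
  have hk1 : 1 ≤ k := by omega
  apply LB.main h0 h4 h9 hW hC hA hS x y hk1 (hx.trans hden)
    (hy.trans (hden.trans (by norm_num))) ψ π
    (fun i => ⟨p1 i, p2 i, p3 i, p4 i, p5 i⟩) p6 p7
  intro i j l
  have hnk : n i j ≤ k := (hle i j).trans (by omega)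
  exact hn i j _ (LB.tl_sg hS hnk l).1 (LB.tl_sg hS hk1 l).1
    (LB.isU_norm (LB.isU_X hW _))

end Pool.Agent.H468R2.MA
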