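import Pool.Agent.H468R2.MA.Tasks2

/-!
# An automorphism with `θ(DD x) = DD y` permutes the three projections
-/

set_option autoImplicit false

open scoped InnerProductSpace
open Filter Topology

namespace Pool.Agent.H468R2.MA

namespace PermP

/-! ### ring identities -/

section ring

variable {R : Type} [Ring R] [StarRing R]

theorem unit_star {e w : R} (hes : star e = e) : star (e * w + (1 - e)) = star w * e + (1 - e) := by
  rw [star_add, star_mul, star_sub, star_one, hes]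

theorem unit_mul {e w : R} (he : e * e = e) (hew : w * e = e * w) (h1 : star w * w = 1) :
    (star w * e + (1 - e)) * (e * w + (1 - e)) = 1 := by
  have a1 : star w * e * (e * w) = e := by
    rw [mul_assoc, ← mul_assoc e e w, he, ← hew, ← mul_assoc, h1, one_mul]
  have a2 : star w * e * (1 - e) = 0 := by
    rw [mul_assoc, mul_sub, mul_one, he, sub_self, mul_zero]
  have a3 : (1 - e) * (e * w) = 0 := by
    rw [← mul_assoc, sub_mul, one_mul, he, sub_self, zero_mul]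
  have a4 : (1 - e) * (1 - e) = 1 - e := by
    rw [mul_sub, mul_one, sub_mul, one_mul, he, sub_self, sub_zero]
  rw [add_mul, mul_add, mul_add, a1, a2, a3, a4]
  abel

theorem unit_mul' {e w : R} (he : e * e = e) (hew : w * e = e * w) (hew' : star w * e = e * star w)
    (h2 : w * star w = 1) : (e * w + (1 - e)) * (star w * e + (1 - e)) = 1 := by
  have a1 : e * w * (star w * e) = e := by
    rw [mul_assoc, ← mul_assoc w, h2, one_mul, he]
  have a2 : e * w * (1 - e) = 0 := by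
    rw [← hew, mul_assoc, mul_sub, mul_one, he, sub_self, mul_zero]
  have a3 : (1 - e) * (star w * e) = 0 := by
    rw [hew', ← mul_assoc, sub_mul, one_mul, he, sub_self, zero_mul]
  have a4 : (1 - e) * (1 - e) = 1 - e := by
    rw [mul_sub, mul_one, sub_mul, one_mul, he, sub_self, sub_zero]
  rw [add_mul, mul_add, mul_add, a1, a2, a3, a4]
  abel

/-- the `i`-th corner of the conjugation -/
theorem conj_self {e w t : R} (he : e * e = e) (hew : w * e = e * w)
    (hew' : star w * e = e * star w) (het : t * e = e * t) :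
    (e * w + (1 - e)) * (e * t) * (star w * e + (1 - e)) = e * (w * t * star w) := by
  have b1 : (e * w + (1 - e)) * e = e * w := by
    rw [add_mul, mul_assoc, hew, ← mul_assoc, he, sub_mul, one_mul, he, sub_self, add_zero]
  have b2 : e * (star w * e + (1 - e)) = e * star w := by
    rw [mul_add, hew', ← mul_assoc, he, mul_sub, mul_one, he, sub_self, add_zero]
  have b3 : e * t = e * (t * e) := by
    rw [het, ← mul_assoc, he]
  rw [b3, ← mul_assoc (e * w + (1 - e)) e, b1, mul_assoc (e * w), mul_assoc t e, b2]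
  have b4 : e * w * (t * (e * star w)) = e * e * (w * t * star w) := by
    rw [← mul_assoc t, het, mul_assoc e t, ← mul_assoc (e * w) e, mul_assoc e w e, hew,
      ← mul_assoc e e w]
    simp only [mul_assoc]
  rw [b4, he]

/-- the other corners -/
theorem conj_other {e e' w t : R} (h1 : e * e' = 0) (h2 : e' * e = 0)
    (hew' : star w * e = e * star w) (het : t * e' = e' * t) (hw : w * e' = e' * w) :
    (e * w + (1 - e)) * (e' * t) * (star w * e + (1 - e)) = e' * t := by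
  have b1 : (e * w + (1 - e)) * e' = e' := by
    rw [add_mul, mul_assoc, hw, ← mul_assoc, h1, zero_mul, zero_add, sub_mul, one_mul, h1,
      sub_zero]
  have b2 : e' * (star w * e + (1 - e)) = e' := by
    rw [mul_add, hew', ← mul_assoc, h2, zero_mul, zero_add, mul_sub, mul_one, h2, sub_zero]
  rw [← mul_assoc, b1, ← het, mul_assoc, b2]

end ring

variable {H : Type} [NormedAddCommGroup H] [InnerProductSpace ℂ H] [CompleteSpace H]

/-- an automorphism as a map of operators -/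
structure TH (M : VonNeumannAlgebra H) (Ω : H) (τ : (H →L[ℂ] H) → (H →L[ℂ] H)) : Prop where
  mem : ∀ a ∈ M, τ a ∈ M
  mul : ∀ a ∈ M, ∀ b ∈ M, τ (a * b) = τ a * τ b
  add : ∀ a ∈ M, ∀ b ∈ M, τ (a + b) = τ a + τ b
  sub : ∀ a ∈ M, ∀ b ∈ M, τ (a - b) = τ a - τ b
  smul : ∀ a ∈ M, ∀ c : ℂ, τ (c • a) = c • τ a
  st : ∀ a ∈ M, τ (star a) = star (τ a)
  one : τ 1 = 1
  inj : ∀ a ∈ M, ∀ b ∈ M, τ a = τ b → a = b
  surj : ∀ b ∈ M, ∃ a ∈ M, τ a = b
  nrm : ∀ a ∈ M, ‖τ a Ω‖ = ‖a Ω‖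

theorem smul_mem' (M : VonNeumannAlgebra H) {a : H →L[ℂ] H} (ha : a ∈ M) (c : ℂ) : c • a ∈ M :=
  M.toStarSubalgebra.smul_mem ha c

open Classical in
theorem exists_th {M : VonNeumannAlgebra H} {Ω : H} (θ : Au M)
    (hn : ∀ z : M.toStarSubalgebra,
      ‖((θ z : M.toStarSubalgebra) : H →L[ℂ] H) Ω‖ = ‖(z : H →L[ℂ] H) Ω‖) :
    ∃ τ : (H →L[ℂ] H) → (H →L[ℂ] H), TH M Ω τ ∧
      ∀ (a : H →L[ℂ] H) (ha : a ∈ M), τ a = ((θ ⟨a, ha⟩ : M.toStarSubalgebra) : H →L[ℂ] H) := by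
  let τ : (H →L[ℂ] H) → (H →L[ℂ] H) := fun a =>
    if ha : a ∈ M then ((θ ⟨a, ha⟩ : M.toStarSubalgebra) : H →L[ℂ] H) else 0
  have hτ : ∀ (a : H →L[ℂ] H) (ha : a ∈ M),
      τ a = ((θ ⟨a, ha⟩ : M.toStarSubalgebra) : H →L[ℂ] H) := fun a ha => dif_pos ha
  refine ⟨τ, ⟨?_, ?_, ?_, ?_, ?_, ?_, ?_, ?_, ?_, ?_⟩, hτ⟩
  · intro a ha
    rw [hτ a ha]
    exact (θ ⟨a, ha⟩).2
  · intro a ha b hb
    rw [hτ a ha, hτ b hb, hτ (a * b) (mul_mem ha hb)]
    have h : θ ⟨a * b, mul_mem ha hb⟩ = θ ⟨a, ha⟩ * θ ⟨b, hb⟩ := by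
      rw [← map_mul]
      rfl
    rw [h]
    rfl
  · intro a ha b hb
    rw [hτ a ha, hτ b hb, hτ (a + b) (add_mem ha hb)]
    have h : θ ⟨a + b, add_mem ha hb⟩ = θ ⟨a, ha⟩ + θ ⟨b, hb⟩ := by
      rw [← map_add]
      rfl
    rw [h]
    rfl
  · intro a ha b hb
    rw [hτ a ha, hτ b hb, hτ (a - b) (sub_mem ha hb)]
    have h : θ ⟨a - b, sub_mem ha hb⟩ = θ ⟨a, ha⟩ - θ ⟨b, hb⟩ := by
      rw [← map_sub]
      rfl
    rw [h]
    rfl
  · intro a ha c
    rw [hτ a ha, hτ (c • a) (smul_mem' M ha c)]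
    have h : θ ⟨c • a, smul_mem' M ha c⟩ = c • θ ⟨a, ha⟩ := by
      rw [← map_smul]
      rfl
    rw [h]
    rfl
  · intro a ha
    rw [hτ a ha, hτ (star a) (star_mem ha)]
    have h : θ ⟨star a, star_mem ha⟩ = star (θ ⟨a, ha⟩) := by
      rw [← map_star]
      rfl
    rw [h]
    rfl
  · rw [hτ 1 (one_mem M)]
    have h : θ ⟨1, one_mem M⟩ = 1 := map_one θ
    rw [h]
    rfl
  · intro a ha b hb hab
    rw [hτ a ha, hτ b hb] at hab
    have h := θ.injective (Subtype.ext hab)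
    exact congrArg Subtype.val h
  · intro b hb
    obtain ⟨z, hz⟩ := θ.surjective ⟨b, hb⟩
    refine ⟨(z : H →L[ℂ] H), z.2, ?_⟩
    rw [hτ _ z.2]
    have : (⟨(z : H →L[ℂ] H), z.2⟩ : M.toStarSubalgebra) = z := rfl
    have hz' : θ z = ⟨b, hb⟩ := hz
    rw [this, hz']
  · intro a ha
    rw [hτ a ha]
    exact hn _

/-- the setting -/
structure Set1 (M : VonNeumannAlgebra H) (Ω : H) (X Z : Gm → (H →L[ℂ] H)) (x y : ℕ → ℝ)
    (τ : (H →L[ℂ] H) → (H →L[ℂ] H)) : Prop where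
  W : Wy M Ω X Z
  C : Calc M Ω X Z
  S : Str M Ω X Z
  T : TH M Ω τ
  img : ∀ a ∈ M, (a ∈ DD M X Z x ↔ τ a ∈ DD M X Z y)
  hN : ∀ w ∈ M, IsU w → (∀ d ∈ DD M X Z y, w * d * star w ∈ DD M X Z y) →
    ∀ i j, i ≠ j → ee Z i * w * ee Z j = 0

section core

variable {M : VonNeumannAlgebra H} {Ω : H} {X Z : Gm → (H →L[ℂ] H)} {x y : ℕ → ℝ}
  {τ : (H →L[ℂ] H) → (H →L[ℂ] H)}

theorem Tl_mem {n : ℕ} {t : H →L[ℂ] H} (h : t ∈ Tl M X Z n) : t ∈ M := h.1

theorem Set1.fc (h : Set1 M Ω X Z x y τ) (i j : ZMod (pr 0)) :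
    τ (ee Z i) * ee Z j = ee Z j * τ (ee Z i) :=
  ((h.img _ (h.S.ee_mem i)).1 (h.S.dd_ee x i)).2.1 j

/-- generators -/
theorem Set1.gen (h : Set1 M Ω X Z x y τ) {i : ZMod (pr 0)} {w : H →L[ℂ] H}
    (hw : w ∈ Tl M X Z 1) (hu : IsU w) (hc : ∀ t ∈ AA M X Z x i, w * t * star w ∈ AA M X Z x i)
    (j : ZMod (pr 0)) : τ (ee Z i * w) * ee Z j = ee Z j * τ (ee Z i * w) := by
  have he := h.S.ee_idem i
  have hes := h.S.ee_star i
  have hsw : star w ∈ Tl M X Z 1 := (h.S.tl_alg 1 w hw w hw).2.2.1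
  have hew := h.S.ee_tl i w hw
  have hew' := h.S.ee_tl i (star w) hsw
  have heM := h.S.ee_mem i
  have hwM : w ∈ M := hw.1
  set V : H →L[ℂ] H := ee Z i * w + (1 - ee Z i) with hV
  have hVs : star V = star w * ee Z i + (1 - ee Z i) := unit_star hes
  have hVM : V ∈ M := add_mem (mul_mem heM hwM) (sub_mem (one_mem M) heM)
  have hV1 : star V * V = 1 := by rw [hVs]; exact unit_mul he hew hu.1
  have hV2 : V * star V = 1 := by rw [hVs]; exact unit_mul' he hew hew' hu.2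
  have hVD : ∀ d ∈ DD M X Z x, V * d * star V ∈ DD M X Z x := by
    intro d hd
    obtain ⟨t, ht, rfl⟩ := (h.S.dd_iff x d).1 hd
    rw [h.S.dd_iff]
    refine ⟨fun k => if k = i then w * t k * star w else t k, ?_, ?_⟩
    · intro k
      by_cases hk : k = i
      · subst hk
        simp only [if_true]
        exact hc _ (ht k)
      · simp only [hk, if_false]
        exact ht k
    · rw [Finset.mul_sum, Finset.sum_mul]
      refine Finset.sum_congr rfl fun k _ => ?_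
      have htk := h.S.ee_tl k (t k) (ht k).1
      by_cases hk : k = i
      · subst hk
        simp only [if_true]
        rw [hVs]
        exact conj_self he hew hew' htk
      · simp only [hk, if_false]
        rw [hVs]
        exact conj_other (h.S.ee_orth i k (Ne.symm hk)) (h.S.ee_orth k i hk) hew' htk
          (h.S.ee_tl k w hw)
  have hτV : ∀ a b, a ≠ b → ee Z a * τ V * ee Z b = 0 := by
    apply h.hN (τ V) (h.T.mem V hVM)
    · constructor
      · rw [← h.T.st V hVM, ← h.T.mul _ (star_mem hVM) _ hVM, hV1, h.T.one]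
      · rw [← h.T.st V hVM, ← h.T.mul _ hVM _ (star_mem hVM), hV2, h.T.one]
    · intro d hd
      obtain ⟨a, ha, rfl⟩ := h.T.surj d hd.1
      have had := (h.img a ha).2 hd
      rw [← h.T.st V hVM, ← h.T.mul _ hVM _ ha, ← h.T.mul _ (mul_mem hVM ha) _ (star_mem hVM)]
      exact (h.img _ (mul_mem (mul_mem hVM ha) (star_mem hVM))).1 (hVD a had)
  have hcomm : τ V * ee Z j = ee Z j * τ V := by
    have h1 : τ V * ee Z j = ee Z j * τ V * ee Z j := by
      calc τ V * ee Z j = (∑ a, ee Z a) * τ V * ee Z j := by rw [h.S.ee_sum, one_mul]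
        _ = ∑ a, ee Z a * τ V * ee Z j := by rw [Finset.sum_mul, Finset.sum_mul]
        _ = ee Z j * τ V * ee Z j := by
          rw [Finset.sum_eq_single j]
          · intro a _ haj
            exact hτV a j haj
          · intro hj
            exact absurd (Finset.mem_univ j) hj
    have h2 : ee Z j * τ V = ee Z j * τ V * ee Z j := by
      calc ee Z j * τ V = ee Z j * τ V * (∑ a, ee Z a) := by rw [h.S.ee_sum, mul_one]
        _ = ∑ a, ee Z j * τ V * ee Z a := by rw [Finset.mul_sum]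
        _ = ee Z j * τ V * ee Z j := by
          rw [Finset.sum_eq_single j]
          · intro a _ haj
            exact hτV j a (Ne.symm haj)
          · intro hj
            exact absurd (Finset.mem_univ j) hj
    rw [h1, ← h2]
  have hsplit : τ (ee Z i * w) = τ V - 1 + τ (ee Z i) := by
    have h1 : τ V = τ (ee Z i * w) + (1 - τ (ee Z i)) := by
      rw [hV, h.T.add _ (mul_mem heM hwM) _ (sub_mem (one_mem M) heM),
        h.T.sub _ (one_mem M) _ heM, h.T.one]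
    rw [h1]
    abel
  rw [hsplit, add_mul, mul_add, sub_mul, mul_sub, hcomm, one_mul, mul_one, h.fc i j]

/-- the operators `t` for which `τ (e_i t)` commutes with all `e_j` -/
def Sg (M : VonNeumannAlgebra H) (X Z : Gm → (H →L[ℂ] H)) (τ : (H →L[ℂ] H) → (H →L[ℂ] H))
    (i : ZMod (pr 0)) : Set (H →L[ℂ] H) :=
  {t | t ∈ Tl M X Z 1 ∧ ∀ j, τ (ee Z i * t) * ee Z j = ee Z j * τ (ee Z i * t)}

theorem Set1.sg_mul (h : Set1 M Ω X Z x y τ) {i : ZMod (pr 0)} {s t : H →L[ℂ] H}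
    (hs : s ∈ Sg M X Z τ i) (ht : t ∈ Sg M X Z τ i) : s * t ∈ Sg M X Z τ i := by
  refine ⟨(h.S.tl_alg 1 s hs.1 t ht.1).1, fun j => ?_⟩
  have heM := h.S.ee_mem i
  have h1 : ee Z i * (s * t) = (ee Z i * s) * (ee Z i * t) := by
    rw [mul_assoc (ee Z i) s, ← mul_assoc s, h.S.ee_tl i s hs.1, mul_assoc (ee Z i) s t,
      ← mul_assoc (ee Z i) (ee Z i), h.S.ee_idem]
  rw [h1, h.T.mul _ (mul_mem heM hs.1.1) _ (mul_mem heM ht.1.1), mul_assoc, ht.2 j, ← mul_assoc,
    hs.2 j, mul_assoc]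

theorem Set1.sg_add (h : Set1 M Ω X Z x y τ) {i : ZMod (pr 0)} {s t : H →L[ℂ] H}
    (hs : s ∈ Sg M X Z τ i) (ht : t ∈ Sg M X Z τ i) : s + t ∈ Sg M X Z τ i := by
  refine ⟨(h.S.tl_alg 1 s hs.1 t ht.1).2.1, fun j => ?_⟩
  have heM := h.S.ee_mem i
  rw [mul_add, h.T.add _ (mul_mem heM hs.1.1) _ (mul_mem heM ht.1.1), add_mul, mul_add, hs.2 j,
    ht.2 j]

theorem Set1.sg_smul (h : Set1 M Ω X Z x y τ) {i : ZMod (pr 0)} {t : H →L[ℂ] H}
    (ht : t ∈ Sg M X Z τ i) (c : ℂ) : c • t ∈ Sg M X Z τ i := by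
  refine ⟨(h.S.tl_alg 1 t ht.1 t ht.1).2.2.2 c, fun j => ?_⟩
  have heM := h.S.ee_mem i
  rw [mul_smul_comm, h.T.smul _ (mul_mem heM ht.1.1), smul_mul_assoc, mul_smul_comm, ht.2 j]

theorem Set1.tl_one (h : Set1 M Ω X Z x y τ) : (1 : H →L[ℂ] H) ∈ Tl M X Z 1 := by
  have := (h.S.tl_X 1 0 (fun _ _ => rfl)).1
  rwa [h.W.X0] at this

theorem Set1.sg_one (h : Set1 M Ω X Z x y τ) (i : ZMod (pr 0)) :
    (1 : H →L[ℂ] H) ∈ Sg M X Z τ i := by
  refine ⟨h.tl_one, fun j => ?_⟩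
  rw [mul_one]
  exact h.fc i j

theorem Set1.sg_zero (h : Set1 M Ω X Z x y τ) (i : ZMod (pr 0)) :
    (0 : H →L[ℂ] H) ∈ Sg M X Z τ i := by
  have := h.sg_smul (h.sg_one i) 0
  rwa [zero_smul] at this

theorem Set1.X_unit (h : Set1 M Ω X Z x y τ) (γ : Gm) : IsU (X γ) := by
  constructor
  · rw [h.W.Xst, ← h.W.Xadd, neg_add_cancel, h.W.X0]
  · rw [h.W.Xst, ← h.W.Xadd, add_neg_cancel, h.W.X0]

theorem Set1.Z_unit (h : Set1 M Ω X Z x y τ) (γ : Gm) : IsU (Z γ) := by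
  constructor
  · rw [h.W.Zst, ← h.W.Zadd, neg_add_cancel, h.W.Z0]
  · rw [h.W.Zst, ← h.W.Zadd, add_neg_cancel, h.W.Z0]

theorem om_ne (κ γ : Gm) : om κ γ ≠ 0 := by
  unfold om
  rw [Finset.prod_ne_zero_iff]
  intro k _ h0
  have h1 := AddChar.norm_apply (ZMod.stdAddChar (N := pr k)) (κ k * γ k)
  rw [h0, norm_zero] at h1
  exact zero_ne_one h1

/-- conjugation by a unitary which commutes with the `vv` up to scalars -/
theorem Set1.phase (h : Set1 M Ω X Z x y τ) {i : ZMod (pr 0)} {w : H →L[ℂ] H}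
    (hw : w ∈ Tl M X Z 1) (hu : IsU w)
    (hc : ∀ k, 1 ≤ k → ∀ l : ZMod (pr k), ∃ c : ℂ, c ≠ 0 ∧
      w * vv X Z x i k l = c • (vv X Z x i k l * w)) :
    w ∈ Sg M X Z τ i := by
  refine ⟨hw, h.gen hw hu ?_⟩
  intro t ht
  have hsw : star w ∈ Tl M X Z 1 := (h.S.tl_alg 1 w hw w hw).2.2.1
  have h1 : w * t * star w ∈ Tl M X Z 1 :=
    (h.S.tl_alg 1 _ (h.S.tl_alg 1 w hw t ht.1).1 _ hsw).1
  refine ⟨h1, fun k hk l => ?_⟩
  obtain ⟨c, hc0, hcv⟩ := hc k hk l
  set v := vv X Z x i k l with hv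
  have htv : t * v = v * t := ht.2 k hk l
  have h2 : v * star w = c • (star w * v) := by
    have h3 : star w * (w * v) * star w = star w * (c • (v * w)) * star w := by rw [hcv]
    rw [← mul_assoc (star w) w v, hu.1, one_mul] at h3
    rw [h3, mul_smul_comm, smul_mul_assoc, mul_assoc (star w), mul_assoc v, hu.2, mul_one]
  have h4 : star w * v = c⁻¹ • (v * star w) := by
    rw [h2, smul_smul, inv_mul_cancel₀ hc0, one_smul]
  calc w * t * star w * v = w * t * (star w * v) := by rw [mul_assoc]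
    _ = c⁻¹ • (w * (t * v) * star w) := by
      rw [h4, mul_smul_comm]
      simp only [mul_assoc]
    _ = c⁻¹ • (w * v * t * star w) := by
      rw [htv]
      simp only [mul_assoc]
    _ = v * (w * t * star w) := by
      rw [hcv, smul_mul_assoc, smul_mul_assoc, smul_smul, inv_mul_cancel₀ hc0, one_smul]
      simp only [mul_assoc]

theorem Set1.vv_sg (h : Set1 M Ω X Z x y τ) (i : ZMod (pr 0)) (k : ℕ) (hk : 1 ≤ k)
    (l : ZMod (pr k)) : vv X Z x i k l ∈ Sg M X Z τ i := by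
  obtain ⟨h1, h2, h3⟩ := h.S.aa_vv x i k hk l
  refine ⟨h3 1 hk, h.gen (h3 1 hk) h2 ?_⟩
  intro t ht
  rw [← ht.2 k hk l, mul_assoc, h2.2, mul_one]
  exact ht

theorem sg_zero_coord (k : ℕ) (hk : 1 ≤ k) (l : ZMod (pr k)) : ∀ k' < 1, (sg k l) k' = 0 := by
  intro k' hk'
  exact DFinsupp.single_eq_of_ne (by omega)

theorem ff_norm (k : ℕ) (t : ℝ) (m : ZMod (pr k)) : star (ff k t m) * ff k t m = 1 := by
  unfold ff
  split_ifs
  · have h1 : ‖Complex.exp (t * Complex.I)‖ = 1 := Complex.norm_exp_ofReal_mul_I t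
    have h2 := Complex.conj_mul' (Complex.exp (t * Complex.I))
    rw [h1] at h2
    simpa using h2
  · simp

theorem Set1.FF_unit (h : Set1 M Ω X Z x y τ) (k : ℕ) (t : ℝ) :
    star (FF Z k t) * FF Z k t = 1 := by
  unfold FF
  rw [h.C.st, ← h.C.mul]
  have : (fun m : ZMod (pr k) => star (ff k t m) * ff k t m) = fun _ => 1 :=
    funext fun m => ff_norm k t m
  rw [this, h.C.one]

theorem Set1.single_sg (h : Set1 M Ω X Z x y τ) (i : ZMod (pr 0)) (k : ℕ) (hk : 1 ≤ k)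
    (l : ZMod (pr k)) : X (sg k l) ∈ Sg M X Z τ i ∧ Z (sg k l) ∈ Sg M X Z τ i := by
  have hT := h.S.tl_X 1 (sg k l) (sg_zero_coord k hk l)
  by_cases hi0 : i = 0
  · constructor
    · apply h.phase hT.1 (h.X_unit _)
      intro k' _ l'
      refine ⟨(om (sg k' l') (sg k l))⁻¹, inv_ne_zero (om_ne _ _), ?_⟩
      unfold vv
      rw [if_pos hi0, h.W.cm, smul_smul, inv_mul_cancel₀ (om_ne _ _), one_smul]
    · have h1 := h.vv_sg i k hk l
      unfold vv at h1
      rwa [if_pos hi0] at h1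
  · by_cases hi1 : i = 1
    · constructor
      · have h1 := h.vv_sg i k hk l
        unfold vv at h1
        rwa [if_neg hi0, if_pos hi1] at h1
      · apply h.phase hT.2 (h.Z_unit _)
        intro k' _ l'
        refine ⟨om (sg k l) (sg k' l'), om_ne _ _, ?_⟩
        unfold vv
        rw [if_neg hi0, if_pos hi1, h.W.cm]
    · have hZ : ∀ l : ZMod (pr k), Z (sg k l) ∈ Sg M X Z τ i := by
        intro l
        apply h.phase (h.S.tl_X 1 (sg k l) (sg_zero_coord k hk l)).2 (h.Z_unit _)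
        intro k' _ l'
        refine ⟨om (sg k l) (sg k' l'), om_ne _ _, ?_⟩
        unfold vv
        rw [if_neg hi0, if_neg hi1]
        have h1 : Z (sg k l) * FF Z k' (x k') = FF Z k' (x k') * Z (sg k l) :=
          (h.C.commZ k' _ _).symm
        have h2 : Z (sg k l) * star (FF Z k' (x k')) = star (FF Z k' (x k')) * Z (sg k l) := by
          unfold FF
          rw [h.C.st]
          exact (h.C.commZ k' _ _).symm
        calc Z (sg k l) * (FF Z k' (x k') * X (sg k' l') * star (FF Z k' (x k')))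
            = FF Z k' (x k') * (Z (sg k l) * X (sg k' l')) * star (FF Z k' (x k')) := by
              rw [← mul_assoc, ← mul_assoc, h1]
              simp only [mul_assoc]
          _ = om (sg k l) (sg k' l') • (FF Z k' (x k') * X (sg k' l') *
              (Z (sg k l) * star (FF Z k' (x k')))) := by
              rw [h.W.cm, mul_smul_comm, smul_mul_assoc]
              simp only [mul_assoc]
          _ = _ := by
              rw [h2]
              simp only [mul_assoc]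
      have hD : ∀ f : ZMod (pr k) → ℂ, Dg Z k f ∈ Sg M X Z τ i := by
        intro f
        unfold Dg
        apply Finset.sum_induction _ (fun t => t ∈ Sg M X Z τ i)
        · intro s t hs ht
          exact h.sg_add hs ht
        · exact h.sg_zero i
        · intro j _
          exact h.sg_smul (hZ j) _
      refine ⟨?_, hZ l⟩
      have h1 := h.vv_sg i k hk l
      unfold vv at h1
      rw [if_neg hi0, if_neg hi1] at h1
      have h2 : star (FF Z k (x k)) ∈ Sg M X Z τ i := by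
        unfold FF
        rw [h.C.st]
        exact hD _
      have h3 := h.sg_mul (h.sg_mul h2 h1) (hD (ff k (x k)))
      have h4 : star (FF Z k (x k)) * (FF Z k (x k) * X (sg k l) * star (FF Z k (x k))) *
          Dg Z k (ff k (x k)) = X (sg k l) := by
        have h5 := h.FF_unit k (x k)
        have h6 : Dg Z k (ff k (x k)) = FF Z k (x k) := rfl
        rw [h6, ← mul_assoc, ← mul_assoc, h5, one_mul, mul_assoc, h5, mul_one]
      rwa [h4] at h3

theorem Set1.all_sg (h : Set1 M Ω X Z x y τ) (i : ZMod (pr 0)) (γ : Gm) :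
    γ 0 = 0 → X γ ∈ Sg M X Z τ i ∧ Z γ ∈ Sg M X Z τ i := by
  classical
  induction γ using DFinsupp.induction with
  | h0 =>
    intro _
    rw [h.W.X0, h.W.Z0]
    exact ⟨h.sg_one i, h.sg_one i⟩
  | ha k b f hf hb ih =>
    intro h0
    have hk : 1 ≤ k := by
      by_contra hk
      have hk0 : k = 0 := by omega
      subst hk0
      rw [DFinsupp.add_apply, DFinsupp.single_eq_same, hf, add_zero] at h0
      exact hb h0
    rw [DFinsupp.add_apply, DFinsupp.single_eq_of_ne (by omega), zero_add] at h0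
    obtain ⟨h1, h2⟩ := ih h0
    obtain ⟨h3, h4⟩ := h.single_sg i k hk b
    rw [h.W.Xadd, h.W.Zadd]
    exact ⟨h.sg_mul h3 h1, h.sg_mul h4 h2⟩

theorem Set1.t_zero (h : Set1 M Ω X Z x y τ) : τ 0 = 0 := by
  have h1 := h.T.sub 1 (one_mem M) 1 (one_mem M)
  rwa [sub_self, sub_self] at h1

theorem Set1.Z_ee (h : Set1 M Ω X Z x y τ) (i m : ZMod (pr 0)) :
    ∃ c : ℂ, Z (sg 0 m) * ee Z i = c • ee Z i := by
  refine ⟨ZMod.stdAddChar (m * i), ?_⟩
  have h1 := h.C.chr 0 m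
  rw [← h1]
  unfold ee
  rw [← h.C.mul, ← h.C.smul]
  congr 1
  funext m'
  by_cases hm : m' = i
  · rw [hm]
  · rw [if_neg hm, mul_zero, mul_zero]

theorem Set1.X_ee (h : Set1 M Ω X Z x y τ) (i g : ZMod (pr 0)) :
    X (sg 0 g) * ee Z i = ee Z (i + g) * X (sg 0 g) := by
  have h1 := h.S.ee_shift i g
  have h2 : X (sg 0 (-g)) * X (sg 0 g) = 1 := by
    rw [← h.W.Xadd]
    have : sg 0 (-g) + sg 0 g = 0 := by
      rw [← DFinsupp.single_add, neg_add_cancel, DFinsupp.single_zero]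
    rw [this, h.W.X0]
  rw [← h1, mul_assoc, h2, mul_one]

/-- compressions of the algebras of finitely many sites -/
theorem Set1.span (h : Set1 M Ω X Z x y τ) {E : ℕ → (H →L[ℂ] H) → (H →L[ℂ] H)}
    (A : Apx M Ω X Z E) (i : ZMod (pr 0)) (n : ℕ) (a : H →L[ℂ] H) (ha : a ∈ Fn X Z n)
    (j : ZMod (pr 0)) :
    τ (ee Z i * a * ee Z i) * ee Z j = ee Z j * τ (ee Z i * a * ee Z i) := by
  have heM := h.S.ee_mem i
  have hmem : ∀ b ∈ Fn X Z n, ee Z i * b * ee Z i ∈ M := fun b hb =>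
    mul_mem (mul_mem heM (A.fmem n b hb)) heM
  have key : ∀ γ κ : Gm, ∃ b ∈ Sg M X Z τ i, ∃ c : ℂ,
      ee Z i * (X γ * Z κ) * ee Z i = c • (ee Z i * b) := by
    intro γ κ
    classical
    have hγ : sg 0 (γ 0) + γ.erase 0 = γ := DFinsupp.single_add_erase 0 γ
    have hκ : κ.erase 0 + sg 0 (κ 0) = κ := DFinsupp.erase_add_single 0 κ
    have hγ0 : (γ.erase 0) 0 = 0 := DFinsupp.erase_same
    have hκ0 : (κ.erase 0) 0 = 0 := DFinsupp.erase_same
    have hb : X (γ.erase 0) * Z (κ.erase 0) ∈ Sg M X Z τ i :=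
      h.sg_mul (h.all_sg i _ hγ0).1 (h.all_sg i _ hκ0).2
    set b := X (γ.erase 0) * Z (κ.erase 0) with hbd
    obtain ⟨c, hc⟩ := h.Z_ee i (κ 0)
    have h1 : X γ = X (sg 0 (γ 0)) * X (γ.erase 0) := by rw [← h.W.Xadd, hγ]
    have h2 : Z κ = Z (κ.erase 0) * Z (sg 0 (κ 0)) := by rw [← h.W.Zadd, hκ]
    have h3 : ee Z i * (X γ * Z κ) * ee Z i =
        c • (ee Z i * (ee Z (i + γ 0) * X (sg 0 (γ 0)) * b)) := by
      calc ee Z i * (X γ * Z κ) * ee Z i
          = ee Z i * (X (sg 0 (γ 0)) * (b * (Z (sg 0 (κ 0)) * ee Z i))) := by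
            rw [h1, h2, hbd]
            simp only [mul_assoc]
        _ = c • (ee Z i * (X (sg 0 (γ 0)) * (b * ee Z i))) := by
            rw [hc, mul_smul_comm, mul_smul_comm, mul_smul_comm]
        _ = c • (ee Z i * (X (sg 0 (γ 0)) * ee Z i * b)) := by
            rw [h.S.ee_tl i b hb.1, mul_assoc (X (sg 0 (γ 0)))]
        _ = _ := by rw [h.X_ee i (γ 0)]
    by_cases hg : γ 0 = 0
    · refine ⟨b, hb, c, ?_⟩
      rw [h3, hg, add_zero]
      have h00 : sg 0 0 = (0 : Gm) := DFinsupp.single_eq_zero.2 rfl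
      have : X (sg 0 0) = 1 := by rw [h00, h.W.X0]
      rw [this, mul_one, ← mul_assoc, h.S.ee_idem]
    · refine ⟨b, hb, 0, ?_⟩
      have hne : i ≠ i + γ 0 := by
        intro e
        apply hg
        have := e.symm
        rwa [add_eq_left] at this
      rw [h3, mul_assoc (ee Z (i + γ 0)), ← mul_assoc (ee Z i), h.S.ee_orth i _ hne, zero_mul,
        smul_zero, zero_smul]
  induction ha using Submodule.span_induction with
  | mem a ha =>
    obtain ⟨γ, κ, _, _, rfl⟩ := ha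
    obtain ⟨b, hb, c, hbc⟩ := key γ κ
    rw [hbc, h.T.smul _ (mul_mem heM hb.1.1), smul_mul_assoc, mul_smul_comm, hb.2 j]
  | zero =>
    rw [mul_zero, zero_mul, h.t_zero, zero_mul, mul_zero]
  | add a b ha hb iha ihb =>
    rw [mul_add, add_mul, h.T.add _ (hmem a ha) _ (hmem b hb), add_mul, mul_add, iha, ihb]
  | smul c a ha iha =>
    rw [mul_smul_comm, smul_mul_assoc, h.T.smul _ (hmem a ha), smul_mul_assoc, mul_smul_comm, iha]

/-- the corner algebras are mapped into the commutant of the projections -/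
theorem Set1.tl_all (h : Set1 M Ω X Z x y τ) {E : ℕ → (H →L[ℂ] H) → (H →L[ℂ] H)}
    (A : Apx M Ω X Z E) (i : ZMod (pr 0)) (t : H →L[ℂ] H) (ht : t ∈ Tl M X Z 1)
    (j : ZMod (pr 0)) : τ (ee Z i * t) * ee Z j = ee Z j * τ (ee Z i * t) := by
  have heM := h.S.ee_mem i
  have hjM := h.S.ee_mem j
  have htM : t ∈ M := ht.1
  have hEM : ∀ n, E n t ∈ M := fun n => A.fmem n _ (A.mem n t htM)
  have hcomm : ∀ n, 1 ≤ n → τ (ee Z i * E n t) * ee Z j = ee Z j * τ (ee Z i * E n t) := by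
    intro n hn
    have hef : ee Z i ∈ Fn X Z n := A.fmono 1 n hn (h.S.ee_fin i)
    have h1 : ee Z i * E n t = E n t * ee Z i := by
      rw [← A.bil n t htM _ hef, ← A.bir n t htM _ hef, h.S.ee_tl i t ht]
    have h2 : ee Z i * E n t = ee Z i * E n t * ee Z i := by
      rw [mul_assoc, ← h1, ← mul_assoc, h.S.ee_idem]
    rw [h2]
    exact h.span A i n _ (A.mem n t htM) j
  set T := τ (ee Z i * t) with hT
  have hTM : T ∈ M := h.T.mem _ (mul_mem heM htM)
  have hbound : ∀ n, 1 ≤ n → ‖(T * ee Z j - ee Z j * T) Ω‖ ≤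
      (2 * (‖ee Z j‖ * ‖ee Z i‖)) * ‖(t - E n t) Ω‖ := by
    intro n hn
    set Tn := τ (ee Z i * E n t) with hTn
    have hTnM : Tn ∈ M := h.T.mem _ (mul_mem heM (hEM n))
    have hd : T - Tn = τ (ee Z i * (t - E n t)) := by
      rw [mul_sub, h.T.sub _ (mul_mem heM htM) _ (mul_mem heM (hEM n))]
    have hd1 : ‖(T - Tn) Ω‖ ≤ ‖ee Z i‖ * ‖(t - E n t) Ω‖ := by
      rw [hd, h.T.nrm _ (mul_mem heM (sub_mem htM (hEM n)))]
      exact A.nl _ _
    have h1 : T * ee Z j - ee Z j * T = (T - Tn) * ee Z j - ee Z j * (T - Tn) := by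
      rw [sub_mul, mul_sub, hcomm n hn]
      abel
    have h2 : ‖((T - Tn) * ee Z j) Ω‖ ≤ ‖(T - Tn) Ω‖ * ‖ee Z j‖ :=
      A.nr _ (sub_mem hTM hTnM) _ hjM
    have h3 : ‖(ee Z j * (T - Tn)) Ω‖ ≤ ‖ee Z j‖ * ‖(T - Tn) Ω‖ := A.nl _ _
    have h4 : ‖(T * ee Z j - ee Z j * T) Ω‖ ≤
        ‖((T - Tn) * ee Z j) Ω‖ + ‖(ee Z j * (T - Tn)) Ω‖ := by
      rw [h1, sub_apply]
      exact norm_sub_le _ _
    have h5 : ‖ee Z j‖ * ‖(T - Tn) Ω‖ ≤ ‖ee Z j‖ * (‖ee Z i‖ * ‖(t - E n t) Ω‖) :=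
      mul_le_mul_of_nonneg_left hd1 (norm_nonneg _)
    calc ‖(T * ee Z j - ee Z j * T) Ω‖ ≤ ‖(T - Tn) Ω‖ * ‖ee Z j‖ + ‖ee Z j‖ * ‖(T - Tn) Ω‖ := by
          linarith
      _ = 2 * (‖ee Z j‖ * ‖(T - Tn) Ω‖) := by ring
      _ ≤ 2 * (‖ee Z j‖ * (‖ee Z i‖ * ‖(t - E n t) Ω‖)) := by linarith
      _ = _ := by ring
  have hlim : Tendsto (fun n => (2 * (‖ee Z j‖ * ‖ee Z i‖)) * ‖(t - E n t) Ω‖) atTop (𝓝 0) := by
    have := (A.two t htM).const_mul (2 * (‖ee Z j‖ * ‖ee Z i‖))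
    rwa [mul_zero] at this
  have h0 : ‖(T * ee Z j - ee Z j * T) Ω‖ ≤ 0 := by
    apply ge_of_tendsto hlim
    filter_upwards [eventually_ge_atTop 1] with n hn
    exact hbound n hn
  have h1 : (T * ee Z j - ee Z j * T) Ω = 0 := norm_le_zero_iff.1 h0
  exact sub_eq_zero.1 (A.sep _ (sub_mem (mul_mem hTM hjM) (mul_mem hjM hTM)) h1)

theorem Set1.ee_ne (h : Set1 M Ω X Z x y τ) (i : ZMod (pr 0)) : ee Z i ≠ 0 := by
  intro h0
  have h1 := h.S.ee_norm i 1 h.tl_one
  rw [h0, zero_mul] at h1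
  have h2 : ‖(1 : H →L[ℂ] H) Ω‖ = 1 := h.W.unit
  rw [h2] at h1
  simp at h1

theorem Set1.cancel (h : Set1 M Ω X Z x y τ) {E : ℕ → (H →L[ℂ] H) → (H →L[ℂ] H)}
    (A : Apx M Ω X Z E) (i : ZMod (pr 0)) (s : H →L[ℂ] H) (hs : s ∈ Tl M X Z 1)
    (h0 : ee Z i * s = 0) : s = 0 := by
  have h1 := h.S.ee_norm i s hs
  rw [h0] at h1
  have h2 : ‖s Ω‖ ^ 2 = 0 := by
    have : ‖(0 : H →L[ℂ] H) Ω‖ = 0 := by simp
    rw [this] at h1
    linarith
  have h3 : ‖s Ω‖ = 0 := by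
    rwa [sq_eq_zero_iff] at h2
  exact A.sep s hs.1 (norm_eq_zero.1 h3)

/-- every `e_j θ(e_i)` is zero or `θ(e_i)` -/
theorem Set1.dich (h : Set1 M Ω X Z x y τ) {E : ℕ → (H →L[ℂ] H) → (H →L[ℂ] H)}
    (A : Apx M Ω X Z E) (i j : ZMod (pr 0)) :
    ee Z j * τ (ee Z i) = 0 ∨ ee Z j * τ (ee Z i) = τ (ee Z i) := by
  have heM := h.S.ee_mem i
  have hjM := h.S.ee_mem j
  have hfM := h.T.mem _ heM
  have hf2 : τ (ee Z i) * τ (ee Z i) = τ (ee Z i) := by
    rw [← h.T.mul _ heM _ heM, h.S.ee_idem]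
  obtain ⟨q, hq, hqτ⟩ := h.T.surj (ee Z j * τ (ee Z i)) (mul_mem hjM hfM)
  have hfc := h.fc i j
  have hqe : q * ee Z i = q := by
    apply h.T.inj _ (mul_mem hq heM) _ hq
    rw [h.T.mul _ hq _ heM, hqτ, mul_assoc, hf2]
  have heq : ee Z i * q = q := by
    apply h.T.inj _ (mul_mem heM hq) _ hq
    rw [h.T.mul _ heM _ hq, hqτ, ← mul_assoc, hfc, mul_assoc, hf2]
  have hqt : ∀ t ∈ Tl M X Z 1, q * (ee Z i * t) = (ee Z i * t) * q := by
    intro t ht
    have hetM : ee Z i * t ∈ M := mul_mem heM ht.1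
    apply h.T.inj _ (mul_mem hq hetM) _ (mul_mem hetM hq)
    have h1 : τ (ee Z i) * τ (ee Z i * t) = τ (ee Z i * t) := by
      rw [← h.T.mul _ heM _ hetM, ← mul_assoc, h.S.ee_idem]
    have h2 : τ (ee Z i * t) * τ (ee Z i) = τ (ee Z i * t) := by
      rw [← h.T.mul _ hetM _ heM, mul_assoc, h.S.ee_tl i t ht, ← mul_assoc, h.S.ee_idem]
    rw [h.T.mul _ hq _ hetM, h.T.mul _ hetM _ hq, hqτ, mul_assoc, h1, ← hfc, ← mul_assoc, h2,
      h.tl_all A i t ht j]
  obtain ⟨hc1, hc2⟩ := h.S.corner q hq i (by rw [hqe, heq])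
  set t0 := ∑ l : ZMod (pr 0), X (sg 0 l) * (ee Z i * q) * X (sg 0 (-l)) with ht0
  rw [heq] at hc2
  have hcen : ∀ t ∈ Tl M X Z 1, t0 * t = t * t0 := by
    intro t ht
    have hd : t0 * t - t * t0 ∈ Tl M X Z 1 := by
      have h1 := (h.S.tl_alg 1 t0 hc1 t ht).1
      have h2 := (h.S.tl_alg 1 t ht t0 hc1).1
      have h3 := (h.S.tl_alg 1 _ h2 _ h2).2.2.2 (-1)
      have h4 := (h.S.tl_alg 1 _ h1 _ h3).2.1
      rwa [neg_one_smul, ← sub_eq_add_neg] at h4
    have h0 : ee Z i * (t0 * t - t * t0) = 0 := by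
      have h1 : ee Z i * (t0 * t) = q * (ee Z i * t) := by
        rw [← mul_assoc, hc2, ← mul_assoc, hqe]
      have h2 : ee Z i * (t * t0) = (ee Z i * t) * q := by
        rw [← mul_assoc, ← h.S.ee_tl i t ht, mul_assoc, hc2, mul_assoc, heq]
      rw [mul_sub, h1, h2, hqt t ht, sub_self]
    exact sub_eq_zero.1 (h.cancel A i _ hd h0)
  obtain ⟨c, hc⟩ := h.S.centre t0 hc1 hcen
  have hqc : q = c • ee Z i := by
    rw [← hc2, hc, mul_smul_comm, mul_one]
  have hτq : ee Z j * τ (ee Z i) = c • τ (ee Z i) := by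
    rw [← hqτ, hqc, h.T.smul _ heM]
  have hcc : c • τ (ee Z i) = (c * c) • τ (ee Z i) := by
    have h1 : ee Z j * (ee Z j * τ (ee Z i)) = ee Z j * τ (ee Z i) := by
      rw [← mul_assoc, h.S.ee_idem]
    rw [hτq, mul_smul_comm, hτq, smul_smul] at h1
    exact h1.symm
  have hne : τ (ee Z i) ≠ 0 := by
    intro h0
    apply h.ee_ne i
    apply h.T.inj _ heM _ (zero_mem M)
    rw [h0, h.t_zero]
  have hc01 : c = c * c := by
    have h1 : (c - c * c) • τ (ee Z i) = 0 := by rw [sub_smul, ← hcc, sub_self]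
    rcases smul_eq_zero.1 h1 with h2 | h2
    · exact sub_eq_zero.1 h2
    · exact absurd h2 hne
  have hc3 : c = 0 ∨ c = 1 := by
    have h1 : c * (c - 1) = 0 := by
      rw [mul_sub, mul_one, ← hc01, sub_self]
    rcases mul_eq_zero.1 h1 with h2 | h2
    · exact Or.inl h2
    · exact Or.inr (sub_eq_zero.1 h2)
  rcases hc3 with h1 | h1
  · left
    rw [hτq, h1, zero_smul]
  · right
    rw [hτq, h1, one_smul]

theorem Set1.main (h : Set1 M Ω X Z x y τ) {E : ℕ → (H →L[ℂ] H) → (H →L[ℂ] H)}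
    (A : Apx M Ω X Z E) : ∃ π : Equiv.Perm (ZMod (pr 0)), ∀ i, τ (ee Z i) = ee Z (π i) := by
  have hne : ∀ i, τ (ee Z i) ≠ 0 := by
    intro i h0
    apply h.ee_ne i
    apply h.T.inj _ (h.S.ee_mem i) _ (zero_mem M)
    rw [h0, h.t_zero]
  have hex : ∀ i, ∃ j, ee Z j * τ (ee Z i) = τ (ee Z i) := by
    intro i
    by_contra hno
    push Not at hno
    apply hne i
    have h1 : ∀ j, ee Z j * τ (ee Z i) = 0 := fun j =>
      (h.dich A i j).resolve_right (hno j)
    calc τ (ee Z i) = (∑ j, ee Z j) * τ (ee Z i) := by rw [h.S.ee_sum, one_mul]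
      _ = 0 := by rw [Finset.sum_mul]; exact Finset.sum_eq_zero fun j _ => h1 j
  choose π hπ using hex
  have hzero : ∀ i j, π i ≠ j → ee Z j * τ (ee Z i) = 0 := by
    intro i j hij
    rw [← hπ i, ← mul_assoc, h.S.ee_orth j (π i) (Ne.symm hij), zero_mul]
  have hsum : ∑ i, τ (ee Z i) = 1 := by
    have h1 : ∀ s : Finset (ZMod (pr 0)), ∑ i ∈ s, τ (ee Z i) = τ (∑ i ∈ s, ee Z i) := by
      intro s
      classical
      induction s using Finset.induction_on with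
      | empty => rw [Finset.sum_empty, Finset.sum_empty, h.t_zero]
      | insert a s ha ih =>
        rw [Finset.sum_insert ha, Finset.sum_insert ha, ih,
          h.T.add _ (h.S.ee_mem a) _ (sum_mem fun k _ => h.S.ee_mem k)]
    rw [h1, h.S.ee_sum, h.T.one]
  have hee : ∀ j, ee Z j = ∑ i, ee Z j * τ (ee Z i) := by
    intro j
    rw [← Finset.mul_sum, hsum, mul_one]
  have hsurj : Function.Surjective π := by
    intro j
    by_contra hno
    push Not at hno
    apply h.ee_ne j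
    rw [hee j]
    exact Finset.sum_eq_zero fun i _ => hzero i j (hno i)
  have hbij : Function.Bijective π := Finite.surjective_iff_bijective.1 hsurj
  refine ⟨Equiv.ofBijective π hbij, fun i => ?_⟩
  show τ (ee Z i) = ee Z (π i)
  rw [hee (π i), Finset.sum_eq_single i]
  · exact (hπ i).symm
  · intro k _ hk
    exact hzero k (π i) fun e => hk (hbij.1 e)
  · intro hi
    exact absurd (Finset.mem_univ i) hi

end core

end PermP

theorem t_O_Perm (h1 : O_Aut) (h2 : O_Apx) (h3 : O_Str) (h4 : O_Calc) : O_Perm := by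
  intro H _ _ _ M Ω X Z W x y θ hθ hN
  obtain ⟨E, A⟩ := h2 H M Ω X Z W
  obtain ⟨τ, hT, hτ⟩ := PermP.exists_th θ (h1 H M Ω X Z W θ)
  have hS : PermP.Set1 M Ω X Z x y τ :=
    { W := W
      C := h4 H M Ω X Z W
      S := h3 H M Ω X Z W
      T := hT
      img := by
        intro a ha
        rw [hτ a ha]
        exact hθ ⟨a, ha⟩
      hN := hN }
  obtain ⟨π, hπ⟩ := hS.main A
  refine ⟨π, fun i hi => ?_⟩
  rw [← hτ _ hi]
  exact hπ i

end Pool.Agent.H468R2.MA
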