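import Pool.Agent.H468R2.MA.Tasks2

/-!
# Structure of the masas, part B: the fields `aa_*`, `dd_*` of `Str`
-/

set_option autoImplicit false

open scoped InnerProductSpace
open Filter Topology

namespace Pool.Agent.H468R2.MA

section

variable {H : Type} [NormedAddCommGroup H] [InnerProductSpace ℂ H] [CompleteSpace H]

/-- The fields of part A of `Str` that are used in part B. -/
structure PA (M : VonNeumannAlgebra H) (Ω : H) (X Z : Gm → (H →L[ℂ] H)) : Prop where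
  ee_idem : ∀ i, ee Z i * ee Z i = ee Z i
  ee_orth : ∀ i j, i ≠ j → ee Z i * ee Z j = 0
  ee_sum : ∑ i, ee Z i = 1
  ee_mem : ∀ i, ee Z i ∈ M
  ee_tl : ∀ i, ∀ t ∈ Tl M X Z 1, t * ee Z i = ee Z i * t
  ee_norm : ∀ i, ∀ t ∈ Tl M X Z 1, ‖(ee Z i * t) Ω‖ ^ 2 = ‖t Ω‖ ^ 2 / 3
  corner : ∀ m ∈ M, ∀ i, m * ee Z i = ee Z i * m →
    (∑ l : ZMod (pr 0), X (sg 0 l) * (ee Z i * m) * X (sg 0 (-l))) ∈ Tl M X Z 1 ∧
    ee Z i * (∑ l : ZMod (pr 0), X (sg 0 l) * (ee Z i * m) * X (sg 0 (-l))) = ee Z i * m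

/-- Part B of `Str`. -/
structure PB (M : VonNeumannAlgebra H) (Ω : H) (X Z : Gm → (H →L[ℂ] H)) : Prop where
  aa_alg : ∀ x i, ∀ s ∈ AA M X Z x i, ∀ t ∈ AA M X Z x i, s * t ∈ AA M X Z x i ∧
    s + t ∈ AA M X Z x i ∧ star s ∈ AA M X Z x i ∧ (∀ c : ℂ, c • s ∈ AA M X Z x i) ∧
    s * t = t * s
  aa_one : ∀ x i, (1 : H →L[ℂ] H) ∈ AA M X Z x i
  aa_vv : ∀ x i k, 1 ≤ k → ∀ l, vv X Z x i k l ∈ AA M X Z x i ∧ IsU (vv X Z x i k l) ∧
    ∀ n, n ≤ k → vv X Z x i k l ∈ Tl M X Z n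
  dd_iff : ∀ x (d : H →L[ℂ] H), d ∈ DD M X Z x ↔
    ∃ t : ZMod (pr 0) → (H →L[ℂ] H), (∀ i, t i ∈ AA M X Z x i) ∧ d = ∑ i, ee Z i * t i
  dd_ee : ∀ x i, ee Z i ∈ DD M X Z x
  dd_mul : ∀ x i, ∀ t ∈ AA M X Z x i, ee Z i * t ∈ DD M X Z x
  dd_cut : ∀ x i, ∀ t ∈ Tl M X Z 1, ee Z i * t ∈ DD M X Z x → t ∈ AA M X Z x i
  aa_orth : ∀ x i j, i ≠ j → (i = 0 ∨ j = 0) → ∀ s ∈ AA M X Z x i, ∀ t ∈ AA M X Z x j,
    ⟪s Ω, t Ω⟫_ℂ = ⟪s Ω, Ω⟫_ℂ * ⟪Ω, t Ω⟫_ℂ
  aa_coefX : ∀ x, ∀ t ∈ AA M X Z x 1, ∀ γ κ, κ ≠ 0 → ⟪(X γ * Z κ) Ω, t Ω⟫_ℂ = 0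
  aa_coef0 : ∀ x i, ∀ t ∈ AA M X Z x i, ∀ γ κ, (γ 0 ≠ 0 ∨ κ 0 ≠ 0) →
    ⟪(X γ * Z κ) Ω, t Ω⟫_ℂ = 0

namespace StrBx

variable {M : VonNeumannAlgebra H} {Ω : H} {X Z : Gm → (H →L[ℂ] H)}

/-! ### generalities -/

theorem smulM {t : H →L[ℂ] H} (c : ℂ) (ht : t ∈ M) : c • t ∈ M :=
  M.toSubalgebra.smul_mem ht c

theorem starM {t : H →L[ℂ] H} (ht : t ∈ M) : star t ∈ M := star_mem ht

theorem isU_X (h : Wy M Ω X Z) (γ : Gm) : IsU (X γ) := by
  refine ⟨?_, ?_⟩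
  · rw [h.Xst, ← h.Xadd, neg_add_cancel, h.X0]
  · rw [h.Xst, ← h.Xadd, add_neg_cancel, h.X0]

theorem isU_Z (h : Wy M Ω X Z) (γ : Gm) : IsU (Z γ) := by
  refine ⟨?_, ?_⟩
  · rw [h.Zst, ← h.Zadd, neg_add_cancel, h.Z0]
  · rw [h.Zst, ← h.Zadd, add_neg_cancel, h.Z0]

theorem XX (h : Wy M Ω X Z) (γ γ' : Gm) : Commute (X γ) (X γ') := by
  show X γ * X γ' = X γ' * X γ
  rw [← h.Xadd, ← h.Xadd, add_comm]

theorem ZZ (h : Wy M Ω X Z) (γ γ' : Gm) : Commute (Z γ) (Z γ') := by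
  show Z γ * Z γ' = Z γ' * Z γ
  rw [← h.Zadd, ← h.Zadd, add_comm]

theorem sg_neg (k : ℕ) (l : ZMod (pr k)) : -(sg k l) = sg k (-l) := by
  ext j
  rw [DFinsupp.neg_apply]
  by_cases hj : k = j
  · subst hj
    simp
  · simp [hj]

theorem sg_ne {k k' : ℕ} (hk : k ≠ k') (l : ZMod (pr k)) : (sg k l : Gm) k' = 0 := by
  simp [hk]

theorem ZX (hO : OmP) (h : Wy M Ω X Z) {k k' : ℕ} (hk : k ≠ k') (l : ZMod (pr k))
    (l' : ZMod (pr k')) : Commute (Z (sg k l)) (X (sg k' l')) := by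
  show Z (sg k l) * X (sg k' l') = X (sg k' l') * Z (sg k l)
  rw [h.cm, hO.sgl, sg_ne hk.symm, mul_zero, AddChar.map_zero_eq_one, one_smul]

/-- a unitary commuting with `t` and commuting up to a phase with `W` -/
theorem ph (h : Wy M Ω X Z) {W t u : H →L[ℂ] H} (hW : W ∈ M) (ht : t ∈ M) (hu : u ∈ M)
    (hU : IsU u) (hc : t * u = u * t) {c : ℂ} (hWu : W * u = c • (u * W)) (hc1 : c ≠ 1) :
    ⟪W Ω, t Ω⟫_ℂ = 0 := by
  have hA : ⟪(W * u) Ω, (t * u) Ω⟫_ℂ = ⟪W Ω, t Ω⟫_ℂ := by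
    have e1 : ⟪(W * u) Ω, (t * u) Ω⟫_ℂ = ⟪Ω, (star u * (star W * t)) (u Ω)⟫_ℂ := by
      simp only [mul_apply_eq_comp, ContinuousLinearMap.star_eq_adjoint]
      rw [ContinuousLinearMap.adjoint_inner_right, ContinuousLinearMap.adjoint_inner_right]
    rw [e1, h.tr _ (mul_mem (starM hu) (mul_mem (starM hW) ht)) _ hu]
    have e2 : u ((star u * (star W * t)) Ω) = (u * star u) ((star W * t) Ω) := rfl
    rw [e2, hU.2]
    simp only [mul_apply_eq_comp, ContinuousLinearMap.star_eq_adjoint,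
      one_apply_eq_self]
    rw [ContinuousLinearMap.adjoint_inner_right]
  have hB : ⟪(W * u) Ω, (t * u) Ω⟫_ℂ = (starRingEnd ℂ) c * ⟪W Ω, t Ω⟫_ℂ := by
    rw [hWu, hc, smul_apply, inner_smul_left]
    congr 1
    have e3 : ⟪(u * W) Ω, (u * t) Ω⟫_ℂ = ⟪W Ω, (star u * u) (t Ω)⟫_ℂ := by
      simp only [mul_apply_eq_comp, ContinuousLinearMap.star_eq_adjoint]
      rw [ContinuousLinearMap.adjoint_inner_right]
    rw [e3, hU.1]
    rfl
  rw [hA] at hB
  have h1 : (1 - (starRingEnd ℂ) c) * ⟪W Ω, t Ω⟫_ℂ = 0 := by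
    rw [sub_mul, one_mul, sub_eq_zero]
    exact hB
  rcases mul_eq_zero.1 h1 with h2 | h2
  · exfalso
    apply hc1
    have h3 : (starRingEnd ℂ) c = 1 := (sub_eq_zero.1 h2).symm
    have h4 := congrArg (starRingEnd ℂ) h3
    rwa [Complex.conj_conj, map_one] at h4
  · exact h2

theorem e_ne {k : ℕ} {a : ZMod (pr k)} (ha : a ≠ 0) : (ZMod.stdAddChar a : ℂ) ≠ 1 := by
  intro h
  apply ha
  apply ZMod.injective_stdAddChar
  rw [h, AddChar.map_zero_eq_one]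

theorem cX (h : Wy M Ω X Z) (γ κ γ' : Gm) :
    (X γ * Z κ) * X γ' = om κ γ' • (X γ' * (X γ * Z κ)) := by
  rw [mul_assoc, h.cm, mul_smul_comm, ← mul_assoc, ← mul_assoc, (XX h γ γ').eq]

theorem cZ (hO : OmP) (h : Wy M Ω X Z) (γ κ κ' : Gm) :
    (X γ * Z κ) * Z κ' = star (om κ' γ) • (Z κ' * (X γ * Z κ)) := by
  have h1 : star (om κ' γ) * om κ' γ = 1 := by
    have h2 := hO.nrm κ' γ
    have h3 : star (om κ' γ) * om κ' γ = ((‖om κ' γ‖ : ℝ) : ℂ) ^ 2 := by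
      rw [Complex.star_def]
      exact Complex.conj_mul' _
    rw [h3, h2]
    simp
  rw [← mul_assoc (Z κ'), h.cm, smul_mul_assoc, smul_smul, h1, one_smul, mul_assoc, mul_assoc,
    (ZZ h κ κ').eq]

/-- coefficients of an element commuting with `X (sg k 1)` -/
theorem coef_X (hO : OmP) (h : Wy M Ω X Z) {t : H →L[ℂ] H} (ht : t ∈ M) {k : ℕ}
    (hc : t * X (sg k 1) = X (sg k 1) * t) (γ κ : Gm) (hκ : κ k ≠ 0) :
    ⟪(X γ * Z κ) Ω, t Ω⟫_ℂ = 0 := by
  refine ph h (mul_mem (h.Xm _) (h.Zm _)) ht (h.Xm _) (isU_X h _) hc (cX h γ κ (sg k 1)) ?_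
  rw [hO.sgr, mul_one]
  exact e_ne hκ

theorem coef_Z (hO : OmP) (h : Wy M Ω X Z) {t : H →L[ℂ] H} (ht : t ∈ M) {k : ℕ}
    (hc : t * Z (sg k 1) = Z (sg k 1) * t) (γ κ : Gm) (hγ : γ k ≠ 0) :
    ⟪(X γ * Z κ) Ω, t Ω⟫_ℂ = 0 := by
  refine ph h (mul_mem (h.Xm _) (h.Zm _)) ht (h.Zm _) (isU_Z h _) hc (cZ hO h γ κ (sg k 1)) ?_
  rw [hO.sgl, one_mul]
  intro h1
  have h2 := congrArg star h1
  rw [star_star, star_one] at h2
  exact e_ne hγ h2

/-- expansion of an element of `Fn n` -/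
theorem ex (h : Wy M Ω X Z) (n : ℕ) (y : H →L[ℂ] H) (hy : y ∈ Fn X Z n) :
    y ∈ Submodule.span ℂ {w : H →L[ℂ] H | ∃ γ κ, Sup n γ ∧ Sup n κ ∧
      ⟪(X γ * Z κ) Ω, y Ω⟫_ℂ ≠ 0 ∧ w = X γ * Z κ} := by
  have h1 : Fn X Z n = Submodule.span ℂ ((fun g : Gm × Gm => X g.1 * Z g.2) ''
      {g | Sup n g.1 ∧ Sup n g.2}) := by
    unfold Fn
    congr 1
    ext w
    constructor
    · rintro ⟨γ, κ, h1, h2, rfl⟩
      exact ⟨(γ, κ), ⟨h1, h2⟩, rfl⟩
    · rintro ⟨⟨γ, κ⟩, ⟨h1, h2⟩, rfl⟩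
      exact ⟨γ, κ, h1, h2, rfl⟩
  rw [h1, Finsupp.mem_span_image_iff_linearCombination] at hy
  obtain ⟨l, hl, rfl⟩ := hy
  rw [Finsupp.mem_supported] at hl
  have hc : ∀ γ κ, ⟪(X γ * Z κ) Ω,
      (Finsupp.linearCombination ℂ (fun g : Gm × Gm => X g.1 * Z g.2) l) Ω⟫_ℂ = l (γ, κ) := by
    intro γ κ
    rw [Finsupp.linearCombination_apply, Finsupp.sum, sum_apply, inner_sum]
    classical
    have e1 : ∀ g ∈ l.support, ⟪(X γ * Z κ) Ω, (l g • (X g.1 * Z g.2)) Ω⟫_ℂ =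
        if g = (γ, κ) then l g else 0 := by
      intro g _
      rw [smul_apply, inner_smul_right, h.orth]
      by_cases hg : g = (γ, κ)
      · subst hg
        simp
      · rw [if_neg hg, if_neg, mul_zero]
        rintro ⟨h2, h3⟩
        exact hg (Prod.ext h2.symm h3.symm)
    rw [Finset.sum_congr rfl e1, Finset.sum_ite_eq']
    split_ifs with h4
    · rfl
    · exact (Finsupp.notMem_support_iff.1 h4).symm
  have key : ∀ S : Set (H →L[ℂ] H), (∀ g ∈ l.support, X g.1 * Z g.2 ∈ S) →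
      Finsupp.linearCombination ℂ (fun g : Gm × Gm => X g.1 * Z g.2) l ∈ Submodule.span ℂ S := by
    intro S hS
    rw [Finsupp.linearCombination_apply, Finsupp.sum]
    exact Submodule.sum_mem _ fun g hg => Submodule.smul_mem _ _ (Submodule.subset_span (hS g hg))
  refine key _ fun g hg => ?_
  have h5 := hl hg
  refine ⟨g.1, g.2, h5.1, h5.2, ?_, rfl⟩
  rw [hc]
  exact Finsupp.mem_support_iff.1 hg

/-- a commutation property that is additive in the exponent -/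
theorem comm_all {B : Gm → (H →L[ℂ] H)} (hB0 : B 0 = 1) (hBa : ∀ γ γ', B (γ + γ') = B γ * B γ')
    {t : H →L[ℂ] H} {n : ℕ} (hc : ∀ k < n, ∀ l, Commute t (B (sg k l))) (γ : Gm) (hγ : Sup n γ) :
    Commute t (B γ) := by
  let S : AddSubmonoid Gm :=
    { carrier := {γ | Commute t (B γ)}
      add_mem' := by
        intro a b ha hb
        show Commute t (B (a + b))
        rw [hBa]
        exact Commute.mul_right ha hb
      zero_mem' := by
        show Commute t (B 0)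
        rw [hB0]
        exact Commute.one_right t }
  have hmem : γ ∈ S := by
    classical
    rw [← DFinsupp.sum_single (f := γ)]
    refine dfinsuppSum_mem S γ _ ?_
    intro k hk
    have hkn : k < n := by
      by_contra hle
      exact hk (hγ k (not_lt.1 hle))
    exact hc k hkn _
  exact hmem

/-- `Z` or `X` -/
def BB (X Z : Gm → (H →L[ℂ] H)) (b : Bool) (γ : Gm) : H →L[ℂ] H := if b = true then Z γ else X γ

theorem one_Fn (h : Wy M Ω X Z) (n : ℕ) : (1 : H →L[ℂ] H) ∈ Fn X Z n :=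
  Submodule.subset_span ⟨0, 0, fun _ _ => rfl, fun _ _ => rfl, by rw [h.X0, h.Z0, one_mul]⟩

theorem core (hO : OmP) (h : Wy M Ω X Z) {E : ℕ → (H →L[ℂ] H) → (H →L[ℂ] H)}
    (hE : Apx M Ω X Z E) (b : Bool) (n : ℕ) {w t : H →L[ℂ] H} (hw : w ∈ Fn X Z n) (hU : IsU w)
    (hw0 : ∀ l, Commute w (X (sg 0 l)) ∧ Commute w (Z (sg 0 l))) (htM : t ∈ M)
    (ht0 : ∀ l, Commute t (X (sg 0 l)) ∧ Commute t (Z (sg 0 l)))
    (ht : ∀ k, 1 ≤ k → k < n → ∀ l, Commute t (w * BB X Z b (sg k l) * star w)) :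
    E n t ∈ Submodule.span ℂ {v : H →L[ℂ] H | ∃ γ, Sup n γ ∧ v = w * BB X Z b γ * star w} ∧
    ∀ γ, Sup n γ → Commute t (w * BB X Z b γ * star w) := by
  have hwM : w ∈ M := hE.fmem n w hw
  have hsw : star w ∈ Fn X Z n := hE.fst n w hw
  have hsU : ∀ a c : H →L[ℂ] H, Commute w a → Commute (star w) a := by
    intro a _ ha
    show star w * a = a * star w
    calc star w * a = star w * a * (w * star w) := by rw [hU.2, mul_one]
      _ = star w * (a * w) * star w := by simp only [mul_assoc]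
      _ = star w * (w * a) * star w := by rw [ha.eq]
      _ = (star w * w) * a * star w := by simp only [mul_assoc]
      _ = a * star w := by rw [hU.1, one_mul]
  have ht'M : star w * t * w ∈ M := mul_mem (mul_mem (starM hwM) htM) hwM
  have ht'0 : ∀ l, Commute (star w * t * w) (X (sg 0 l)) ∧
      Commute (star w * t * w) (Z (sg 0 l)) := by
    intro l
    exact ⟨((hsU _ 0 (hw0 l).1).mul_left (ht0 l).1).mul_left (hw0 l).1,
      ((hsU _ 0 (hw0 l).2).mul_left (ht0 l).2).mul_left (hw0 l).2⟩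
  have ht'k : ∀ k < n, ∀ l, Commute (star w * t * w) (BB X Z b (sg k l)) := by
    intro k hk l
    rcases Nat.eq_zero_or_pos k with rfl | hk0
    · unfold BB
      split_ifs
      · exact (ht'0 l).2
      · exact (ht'0 l).1
    · have h1 := (ht k hk0 hk l).eq
      show star w * t * w * BB X Z b (sg k l) = BB X Z b (sg k l) * (star w * t * w)
      calc star w * t * w * BB X Z b (sg k l)
          = star w * (t * (w * BB X Z b (sg k l) * star w)) * w := by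
            simp only [mul_assoc]
            rw [hU.1, mul_one]
        _ = star w * ((w * BB X Z b (sg k l) * star w) * t) * w := by rw [h1]
        _ = (star w * w) * BB X Z b (sg k l) * (star w * t * w) := by simp only [mul_assoc]
        _ = _ := by rw [hU.1, one_mul]
  have hB0 : BB X Z b 0 = 1 := by
    unfold BB
    split_ifs
    · exact h.Z0
    · exact h.X0
  have hBa : ∀ γ γ', BB X Z b (γ + γ') = BB X Z b γ * BB X Z b γ' := by
    intro γ γ'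
    unfold BB
    split_ifs
    · exact h.Zadd _ _
    · exact h.Xadd _ _
  have hall : ∀ γ, Sup n γ → Commute (star w * t * w) (BB X Z b γ) := fun γ hγ =>
    comm_all hB0 hBa ht'k γ hγ
  constructor
  · have h1 : E n (star w * t * w) ∈
        Submodule.span ℂ {v : H →L[ℂ] H | ∃ γ, Sup n γ ∧ v = BB X Z b γ} := by
      refine Submodule.span_mono ?_ (ex h n _ (hE.mem n _ ht'M))
      rintro v ⟨γ, κ, hγ, hκ, hne, rfl⟩
      rw [hE.coef n _ ht'M γ κ hγ hκ] at hne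
      cases b
      · have hκ0 : κ = 0 := by
          ext k
          by_contra hk
          have hkn : k < n := by
            by_contra hle
            exact hk (hκ k (not_lt.1 hle))
          exact hne (coef_X hO h ht'M (ht'k k hkn 1).eq γ κ hk)
        exact ⟨γ, hγ, by rw [hκ0, h.Z0, mul_one]; rfl⟩
      · have hγ0 : γ = 0 := by
          ext k
          by_contra hk
          have hkn : k < n := by
            by_contra hle
            exact hk (hγ k (not_lt.1 hle))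
          exact hne (coef_Z hO h ht'M (ht'k k hkn 1).eq γ κ hk)
        exact ⟨κ, hκ, by rw [hγ0, h.X0, one_mul]; rfl⟩
    have h2 : E n t = w * E n (star w * t * w) * star w := by
      rw [mul_assoc (star w), hE.bil n _ (mul_mem htM hwM) _ hsw, hE.bir n _ htM _ hw]
      calc E n t = (w * star w) * E n t * (w * star w) := by rw [hU.2, one_mul, mul_one]
        _ = _ := by simp only [mul_assoc]
    rw [h2]
    refine Submodule.span_induction (p := fun y _ => w * y * star w ∈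
      Submodule.span ℂ {v : H →L[ℂ] H | ∃ γ, Sup n γ ∧ v = w * BB X Z b γ * star w})
      ?_ ?_ ?_ ?_ h1
    · rintro v ⟨γ, hγ, rfl⟩
      exact Submodule.subset_span ⟨γ, hγ, rfl⟩
    · rw [mul_zero, zero_mul]
      exact Submodule.zero_mem _
    · intro y z _ _ hy hz
      rw [mul_add, add_mul]
      exact Submodule.add_mem _ hy hz
    · intro c y _ hy
      rw [mul_smul_comm, smul_mul_assoc]
      exact Submodule.smul_mem _ _ hy
  · intro γ hγ
    have h1 := (hall γ hγ).eq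
    show t * (w * BB X Z b γ * star w) = (w * BB X Z b γ * star w) * t
    calc t * (w * BB X Z b γ * star w)
        = w * (star w * t * w * BB X Z b γ) * star w := by
          calc t * (w * BB X Z b γ * star w) = (w * star w) * t * (w * BB X Z b γ * star w) := by
                rw [hU.2, one_mul]
            _ = _ := by simp only [mul_assoc]
      _ = w * (BB X Z b γ * (star w * t * w)) * star w := by rw [h1]
      _ = (w * BB X Z b γ * star w) * t * (w * star w) := by simp only [mul_assoc]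
      _ = _ := by rw [hU.2, mul_one]

/-! ### the site unitaries -/

theorem ff_one (k : ℕ) (t : ℝ) (m : ZMod (pr k)) : star (ff k t m) * ff k t m = 1 := by
  unfold ff
  split_ifs
  · rw [Complex.star_def, ← Complex.exp_conj, ← Complex.exp_add]
    simp
  · simp

theorem FF_star (hC : Calc M Ω X Z) (k : ℕ) (t : ℝ) :
    star (FF Z k t) = Dg Z k fun m => star (ff k t m) := hC.st k _

theorem FF_unit (hC : Calc M Ω X Z) (k : ℕ) (t : ℝ) : IsU (FF Z k t) := by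
  refine ⟨?_, ?_⟩
  · rw [FF_star hC]
    unfold FF
    rw [← hC.mul, ← hC.one k]
    congr 1
    funext m
    exact ff_one k t m
  · rw [FF_star hC]
    unfold FF
    rw [← hC.mul, ← hC.one k]
    congr 1
    funext m
    rw [mul_comm]
    exact ff_one k t m

theorem DX (hC : Calc M Ω X Z) {k k' : ℕ} (hk : k ≠ k') (f : ZMod (pr k) → ℂ)
    (l : ZMod (pr k')) : Commute (Dg Z k f) (X (sg k' l)) :=
  hC.commX k f _ (sg_ne hk.symm l)

theorem DZ (hC : Calc M Ω X Z) (k : ℕ) (f : ZMod (pr k) → ℂ) (κ : Gm) :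
    Commute (Dg Z k f) (Z κ) := hC.commZ k f κ

theorem FX (hC : Calc M Ω X Z) {k k' : ℕ} (hk : k ≠ k') (t : ℝ) (l : ZMod (pr k')) :
    Commute (FF Z k t) (X (sg k' l)) ∧ Commute (star (FF Z k t)) (X (sg k' l)) := by
  refine ⟨DX hC hk _ l, ?_⟩
  rw [FF_star hC]
  exact DX hC hk _ l

theorem FZ (hC : Calc M Ω X Z) (k : ℕ) (t : ℝ) (κ : Gm) :
    Commute (FF Z k t) (Z κ) ∧ Commute (star (FF Z k t)) (Z κ) := by
  refine ⟨DZ hC _ _ κ, ?_⟩
  rw [FF_star hC]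
  exact DZ hC _ _ κ

theorem FFc (hC : Calc M Ω X Z) (k k' : ℕ) (t t' : ℝ) :
    Commute (FF Z k t) (FF Z k' t') ∧ Commute (star (FF Z k t)) (FF Z k' t') ∧
    Commute (FF Z k t) (star (FF Z k' t')) ∧ Commute (star (FF Z k t)) (star (FF Z k' t')) := by
  refine ⟨hC.cc _ _ _ _, ?_, ?_, ?_⟩
  · rw [FF_star hC]
    exact hC.cc _ _ _ _
  · rw [FF_star hC k']
    exact hC.cc _ _ _ _
  · rw [FF_star hC k', FF_star hC k]
    exact hC.cc _ _ _ _

theorem vv0 (x : ℕ → ℝ) (k : ℕ) (l : ZMod (pr k)) : vv X Z x 0 k l = Z (sg k l) := if_pos rfl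

theorem vv1 (x : ℕ → ℝ) (k : ℕ) (l : ZMod (pr k)) : vv X Z x 1 k l = X (sg k l) := by
  unfold vv
  rw [if_neg one_ne_zero, if_pos rfl]

theorem vv2 (x : ℕ → ℝ) {i : ZMod (pr 0)} (h0 : i ≠ 0) (h1 : i ≠ 1) (k : ℕ) (l : ZMod (pr k)) :
    vv X Z x i k l = FF Z k (x k) * X (sg k l) * star (FF Z k (x k)) := by
  unfold vv
  rw [if_neg h0, if_neg h1]

theorem vv_M (h : Wy M Ω X Z) (hC : Calc M Ω X Z) (x : ℕ → ℝ) (i : ZMod (pr 0)) (k : ℕ)
    (l : ZMod (pr k)) : vv X Z x i k l ∈ M := by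
  unfold vv
  split_ifs
  · exact h.Zm _
  · exact h.Xm _
  · exact mul_mem (mul_mem (hC.mem _ _) (h.Xm _)) (starM (hC.mem _ _))

theorem isU_mul {u v : H →L[ℂ] H} (hu : IsU u) (hv : IsU v) : IsU (u * v) := by
  refine ⟨?_, ?_⟩
  · rw [star_mul]
    calc star v * star u * (u * v) = star v * (star u * u) * v := by simp only [mul_assoc]
      _ = 1 := by rw [hu.1, mul_one, hv.1]
  · rw [star_mul]
    calc u * v * (star v * star u) = u * (v * star v) * star u := by simp only [mul_assoc]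
      _ = 1 := by rw [hv.2, mul_one, hu.2]

theorem isU_star {u : H →L[ℂ] H} (hu : IsU u) : IsU (star u) := by
  refine ⟨?_, ?_⟩
  · rw [star_star]
    exact hu.2
  · rw [star_star]
    exact hu.1

theorem vv_U (h : Wy M Ω X Z) (hC : Calc M Ω X Z) (x : ℕ → ℝ) (i : ZMod (pr 0)) (k : ℕ)
    (l : ZMod (pr k)) : IsU (vv X Z x i k l) := by
  unfold vv
  split_ifs
  · exact isU_Z h _
  · exact isU_X h _
  · exact isU_mul (isU_mul (FF_unit hC _ _) (isU_X h _)) (isU_star (FF_unit hC _ _))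

theorem vv_X (hO : OmP) (h : Wy M Ω X Z) (hC : Calc M Ω X Z) (x : ℕ → ℝ) (i : ZMod (pr 0))
    {k k' : ℕ} (hk : k ≠ k') (l : ZMod (pr k)) (l' : ZMod (pr k')) :
    Commute (vv X Z x i k l) (X (sg k' l')) := by
  unfold vv
  split_ifs
  · exact ZX hO h hk l l'
  · exact XX h _ _
  · exact ((FX hC hk (x k) l').1.mul_left (XX h _ _)).mul_left (FX hC hk (x k) l').2

theorem vv_Z (hO : OmP) (h : Wy M Ω X Z) (hC : Calc M Ω X Z) (x : ℕ → ℝ) (i : ZMod (pr 0))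
    {k k' : ℕ} (hk : k ≠ k') (l : ZMod (pr k)) (l' : ZMod (pr k')) :
    Commute (vv X Z x i k l) (Z (sg k' l')) := by
  unfold vv
  split_ifs
  · exact ZZ h _ _
  · exact (ZX hO h hk.symm l' l).symm
  · exact ((FZ hC k (x k) _).1.mul_left (ZX hO h hk.symm l' l).symm).mul_left (FZ hC k (x k) _).2

theorem vv_add (h : Wy M Ω X Z) (hC : Calc M Ω X Z) (x : ℕ → ℝ) (i : ZMod (pr 0)) (k : ℕ)
    (l l' : ZMod (pr k)) : vv X Z x i k l * vv X Z x i k l' = vv X Z x i k (l + l') := by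
  unfold vv
  have hs : (sg k (l + l') : Gm) = sg k l + sg k l' := DFinsupp.single_add _ _ _
  split_ifs
  · rw [hs, h.Zadd]
  · rw [hs, h.Xadd]
  · rw [hs, h.Xadd]
    calc FF Z k (x k) * X (sg k l) * star (FF Z k (x k)) *
          (FF Z k (x k) * X (sg k l') * star (FF Z k (x k)))
        = FF Z k (x k) * X (sg k l) * (star (FF Z k (x k)) * FF Z k (x k)) * X (sg k l') *
          star (FF Z k (x k)) := by simp only [mul_assoc]
      _ = _ := by rw [(FF_unit hC k (x k)).1, mul_one]; simp only [mul_assoc]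

theorem vv_vv (hO : OmP) (h : Wy M Ω X Z) (hC : Calc M Ω X Z) (x : ℕ → ℝ) (i : ZMod (pr 0))
    (k k' : ℕ) (l : ZMod (pr k)) (l' : ZMod (pr k')) :
    Commute (vv X Z x i k l) (vv X Z x i k' l') := by
  by_cases hk : k = k'
  · subst hk
    show vv X Z x i k l * vv X Z x i k l' = vv X Z x i k l' * vv X Z x i k l
    rw [vv_add h hC, vv_add h hC, add_comm]
  · have h1 := vv_X hO h hC x i hk l l'
    have h2 := vv_Z hO h hC x i hk l l'
    have h3 : ∀ f : ZMod (pr k') → ℂ, Commute (vv X Z x i k l) (Dg Z k' f) := by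
      intro f
      unfold Dg
      refine Commute.sum_right _ _ _ fun j _ => ?_
      exact (vv_Z hO h hC x i hk l j).smul_right _
    rcases eq_or_ne i 0 with h0 | h0
    · subst h0
      rw [vv0 x k' l']
      exact h2
    · rcases eq_or_ne i 1 with h4 | h4
      · subst h4
        rw [vv1 x k' l']
        exact h1
      · rw [vv2 x h0 h4 k' l', FF_star hC]
        exact ((h3 _).mul_right h1).mul_right (h3 _)

theorem vv_star (h : Wy M Ω X Z) (x : ℕ → ℝ) (i : ZMod (pr 0)) (k : ℕ)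
    (l : ZMod (pr k)) : star (vv X Z x i k l) = vv X Z x i k (-l) := by
  unfold vv
  split_ifs
  · rw [h.Zst, sg_neg]
  · rw [h.Xst, sg_neg]
  · rw [star_mul, star_mul, star_star, h.Xst, sg_neg, mul_assoc]

theorem vv_phase (h : Wy M Ω X Z) (hC : Calc M Ω X Z) (x : ℕ → ℝ) {i : ZMod (pr 0)}
    (hi : i ≠ 0) (k : ℕ) (l : ZMod (pr k)) (κ : Gm) :
    Z κ * vv X Z x i k l = om κ (sg k l) • (vv X Z x i k l * Z κ) := by
  rcases eq_or_ne i 1 with h1 | h1
  · subst h1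
    rw [vv1]
    exact h.cm _ _
  · rw [vv2 x hi h1]
    have e1 := (FZ hC k (x k) κ).1.eq
    have e2 := (FZ hC k (x k) κ).2.eq
    calc Z κ * (FF Z k (x k) * X (sg k l) * star (FF Z k (x k)))
        = (Z κ * FF Z k (x k)) * X (sg k l) * star (FF Z k (x k)) := by simp only [mul_assoc]
      _ = FF Z k (x k) * (Z κ * X (sg k l)) * star (FF Z k (x k)) := by
        rw [← e1]; simp only [mul_assoc]
      _ = om κ (sg k l) • (FF Z k (x k) * (X (sg k l) * Z κ) * star (FF Z k (x k))) := by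
        rw [h.cm, mul_smul_comm, smul_mul_assoc]
      _ = om κ (sg k l) • (FF Z k (x k) * X (sg k l) * (Z κ * star (FF Z k (x k)))) := by
        simp only [mul_assoc]
      _ = _ := by rw [← e2]; simp only [mul_assoc]

/-! ### the product of the `FF` -/

/-- the product of the `FF Z k (x k)`, `1 ≤ k < n` -/
noncomputable def wn (Z : Gm → (H →L[ℂ] H)) (x : ℕ → ℝ) : ℕ → (H →L[ℂ] H)
  | 0 => 1
  | n + 1 => if n = 0 then 1 else wn Z x n * FF Z n (x n)

theorem isU_one : IsU (1 : H →L[ℂ] H) := by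
  refine ⟨?_, ?_⟩ <;> rw [star_one, one_mul]

theorem wn_Fn (h : Wy M Ω X Z) (hC : Calc M Ω X Z) {E : ℕ → (H →L[ℂ] H) → (H →L[ℂ] H)}
    (hE : Apx M Ω X Z E) (x : ℕ → ℝ) (n : ℕ) : wn Z x n ∈ Fn X Z n := by
  induction n with
  | zero => exact one_Fn h 0
  | succ n ih =>
    unfold wn
    split_ifs
    · exact one_Fn h _
    · exact hE.fmul _ _ (hE.fmono n (n + 1) n.le_succ ih) _ (hC.fin _ _ _ n.lt_succ_self)

theorem wn_U (hC : Calc M Ω X Z) (x : ℕ → ℝ) (n : ℕ) : IsU (wn Z x n) := by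
  induction n with
  | zero => exact isU_one
  | succ n ih =>
    unfold wn
    split_ifs
    · exact isU_one
    · exact isU_mul ih (FF_unit hC _ _)

theorem wn_Z (hC : Calc M Ω X Z) (x : ℕ → ℝ) (n : ℕ) (κ : Gm) : Commute (wn Z x n) (Z κ) := by
  induction n with
  | zero => exact Commute.one_left _
  | succ n ih =>
    unfold wn
    split_ifs
    · exact Commute.one_left _
    · exact ih.mul_left (FZ hC _ _ _).1

theorem wn_X (hC : Calc M Ω X Z) (x : ℕ → ℝ) (n k : ℕ) (hk : k = 0 ∨ n ≤ k)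
    (l : ZMod (pr k)) : Commute (wn Z x n) (X (sg k l)) := by
  induction n with
  | zero => exact Commute.one_left _
  | succ n ih =>
    unfold wn
    split_ifs with h0
    · exact Commute.one_left _
    · exact (ih (by omega)).mul_left (FX hC (by omega) _ _).1

theorem wn_vv (h : Wy M Ω X Z) (hC : Calc M Ω X Z) (x : ℕ → ℝ) (n k : ℕ) (hk1 : 1 ≤ k)
    (hk : k < n) (l : ZMod (pr k)) :
    wn Z x n * X (sg k l) * star (wn Z x n) =
      FF Z k (x k) * X (sg k l) * star (FF Z k (x k)) := by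
  induction n with
  | zero => omega
  | succ n ih =>
    have hn0 : n ≠ 0 := by omega
    have e0 : wn Z x (n + 1) = wn Z x n * FF Z n (x n) := by
      rw [wn, if_neg hn0]
    rw [e0, star_mul]
    rcases Nat.lt_succ_iff_lt_or_eq.1 hk with h1 | h1
    · have e1 := (FX hC (show n ≠ k by omega) (x n) l).1.eq
      calc wn Z x n * FF Z n (x n) * X (sg k l) * (star (FF Z n (x n)) * star (wn Z x n))
          = wn Z x n * (FF Z n (x n) * X (sg k l)) * star (FF Z n (x n)) * star (wn Z x n) := by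
            simp only [mul_assoc]
        _ = wn Z x n * X (sg k l) * (FF Z n (x n) * star (FF Z n (x n))) * star (wn Z x n) := by
            rw [e1]; simp only [mul_assoc]
        _ = _ := by rw [(FF_unit hC _ _).2, mul_one]; exact ih h1
    · subst h1
      have hv : Commute (wn Z x k) (FF Z k (x k) * X (sg k l) * star (FF Z k (x k))) := by
        have hD : ∀ f : ZMod (pr k) → ℂ, Commute (wn Z x k) (Dg Z k f) := by
          intro f
          unfold Dg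
          exact Commute.sum_right _ _ _ fun j _ => (wn_Z hC x k _).smul_right _
        rw [FF_star hC]
        exact ((hD _).mul_right (wn_X hC x k k (Or.inr le_rfl) l)).mul_right (hD _)
      calc wn Z x k * FF Z k (x k) * X (sg k l) * (star (FF Z k (x k)) * star (wn Z x k))
          = (wn Z x k * (FF Z k (x k) * X (sg k l) * star (FF Z k (x k)))) * star (wn Z x k) := by
            simp only [mul_assoc]
        _ = (FF Z k (x k) * X (sg k l) * star (FF Z k (x k))) * (wn Z x k * star (wn Z x k)) := by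
            rw [hv.eq]; simp only [mul_assoc]
        _ = _ := by rw [(wn_U hC x k).2, mul_one]

theorem exw (h : Wy M Ω X Z) (hC : Calc M Ω X Z) {E : ℕ → (H →L[ℂ] H) → (H →L[ℂ] H)}
    (hE : Apx M Ω X Z E) (x : ℕ → ℝ) (i : ZMod (pr 0)) (n : ℕ) :
    ∃ (w : H →L[ℂ] H) (b : Bool), w ∈ Fn X Z n ∧ IsU w ∧
      (∀ l, Commute w (X (sg 0 l)) ∧ Commute w (Z (sg 0 l))) ∧
      ∀ k, 1 ≤ k → k < n → ∀ l, w * BB X Z b (sg k l) * star w = vv X Z x i k l := by
  rcases eq_or_ne i 0 with h0 | h0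
  · subst h0
    refine ⟨1, true, one_Fn h n, isU_one, fun l => ⟨Commute.one_left _, Commute.one_left _⟩, ?_⟩
    intro k _ _ l
    rw [star_one, one_mul, mul_one, vv0]
    rfl
  · rcases eq_or_ne i 1 with h1 | h1
    · subst h1
      refine ⟨1, false, one_Fn h n, isU_one, fun l => ⟨Commute.one_left _, Commute.one_left _⟩, ?_⟩
      intro k _ _ l
      rw [star_one, one_mul, mul_one, vv1]
      rfl
    · refine ⟨wn Z x n, false, wn_Fn h hC hE x n, wn_U hC x n,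
        fun l => ⟨wn_X hC x n 0 (Or.inl rfl) l, wn_Z hC x n _⟩, ?_⟩
      intro k hk1 hk l
      rw [vv2 x h0 h1]
      exact wn_vv h hC x n k hk1 hk l

/-! ### commutativity -/

theorem AA_M {x : ℕ → ℝ} {i : ZMod (pr 0)} {t : H →L[ℂ] H} (ht : t ∈ AA M X Z x i) : t ∈ M :=
  ht.1.1

theorem AA_0 {x : ℕ → ℝ} {i : ZMod (pr 0)} {t : H →L[ℂ] H} (ht : t ∈ AA M X Z x i)
    (l : ZMod (pr 0)) : Commute t (X (sg 0 l)) ∧ Commute t (Z (sg 0 l)) :=
  ht.1.2 0 Nat.zero_lt_one l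

theorem AA_span (hO : OmP) (h : Wy M Ω X Z) (hC : Calc M Ω X Z)
    {E : ℕ → (H →L[ℂ] H) → (H →L[ℂ] H)} (hE : Apx M Ω X Z E) (x : ℕ → ℝ) (i : ZMod (pr 0))
    (n : ℕ) : ∃ S : Set (H →L[ℂ] H), (∀ t ∈ AA M X Z x i, E n t ∈ Submodule.span ℂ S) ∧
      ∀ v ∈ S, ∀ t ∈ AA M X Z x i, Commute t v := by
  obtain ⟨w, b, hw, hU, hw0, hwv⟩ := exw h hC hE x i n
  have hcore : ∀ t ∈ AA M X Z x i,
      E n t ∈ Submodule.span ℂ {v : H →L[ℂ] H | ∃ γ, Sup n γ ∧ v = w * BB X Z b γ * star w} ∧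
      ∀ γ, Sup n γ → Commute t (w * BB X Z b γ * star w) := by
    intro t ht
    refine core hO h hE b n hw hU hw0 (AA_M ht) (AA_0 ht) ?_
    intro k hk1 hk l
    rw [hwv k hk1 hk l]
    exact ht.2 k hk1 l
  refine ⟨{v : H →L[ℂ] H | ∃ γ, Sup n γ ∧ v = w * BB X Z b γ * star w},
    fun t ht => (hcore t ht).1, ?_⟩
  rintro v ⟨γ, hγ, rfl⟩ t ht
  exact (hcore t ht).2 γ hγ

theorem AA_comm (hO : OmP) (h : Wy M Ω X Z) (hC : Calc M Ω X Z)
    {E : ℕ → (H →L[ℂ] H) → (H →L[ℂ] H)} (hE : Apx M Ω X Z E) (x : ℕ → ℝ) (i : ZMod (pr 0))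
    {s t : H →L[ℂ] H} (hs : s ∈ AA M X Z x i) (ht : t ∈ AA M X Z x i) : s * t = t * s := by
  have hsM := AA_M hs
  have htM := AA_M ht
  have h1 : ∀ n, E n s * t = t * E n s := by
    intro n
    obtain ⟨S, hS1, hS2⟩ := AA_span hO h hC hE x i n
    refine Submodule.span_induction (p := fun y _ => y * t = t * y) ?_ ?_ ?_ ?_ (hS1 s hs)
    · intro v hv
      exact (hS2 v hv t ht).eq.symm
    · rw [mul_zero, zero_mul]
    · intro y z _ _ hy hz
      rw [mul_add, add_mul, hy, hz]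
    · intro c y _ hy
      rw [mul_smul_comm, smul_mul_assoc, hy]
  rw [← sub_eq_zero]
  refine hE.sep _ (sub_mem (mul_mem hsM htM) (mul_mem htM hsM)) ?_
  rw [← norm_eq_zero]
  have h2 : ∀ n, ‖(s * t - t * s) Ω‖ ≤ 2 * ‖t‖ * ‖(s - E n s) Ω‖ := by
    intro n
    have hEM : E n s ∈ M := hE.fmem n _ (hE.mem n s hsM)
    have e1 : s * t - t * s = (s - E n s) * t - t * (s - E n s) := by
      rw [sub_mul, mul_sub, h1 n]
      abel
    have e2 := hE.nr (s - E n s) (sub_mem hsM hEM) t htM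
    have e3 := hE.nl t (s - E n s)
    rw [e1]
    calc ‖((s - E n s) * t - t * (s - E n s)) Ω‖
        = ‖((s - E n s) * t) Ω - (t * (s - E n s)) Ω‖ := rfl
      _ ≤ ‖((s - E n s) * t) Ω‖ + ‖(t * (s - E n s)) Ω‖ := norm_sub_le _ _
      _ ≤ ‖(s - E n s) Ω‖ * ‖t‖ + ‖t‖ * ‖(s - E n s) Ω‖ := add_le_add e2 e3
      _ = _ := by ring
  have h3 : Tendsto (fun n => 2 * ‖t‖ * ‖(s - E n s) Ω‖) atTop (𝓝 (2 * ‖t‖ * 0)) :=
    (hE.two s hsM).const_mul _
  rw [mul_zero] at h3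
  exact le_antisymm (ge_of_tendsto h3 (Filter.Eventually.of_forall h2)) (norm_nonneg _)

/-! ### closure properties -/

theorem tl_mul {n : ℕ} {s t : H →L[ℂ] H} (hs : s ∈ Tl M X Z n) (ht : t ∈ Tl M X Z n) :
    s * t ∈ Tl M X Z n :=
  ⟨mul_mem hs.1 ht.1, fun k hk l =>
    ⟨(Commute.mul_left (show Commute s _ from (hs.2 k hk l).1)
        (show Commute t _ from (ht.2 k hk l).1)).eq,
      (Commute.mul_left (show Commute s _ from (hs.2 k hk l).2)
        (show Commute t _ from (ht.2 k hk l).2)).eq⟩⟩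

theorem tl_add {n : ℕ} {s t : H →L[ℂ] H} (hs : s ∈ Tl M X Z n) (ht : t ∈ Tl M X Z n) :
    s + t ∈ Tl M X Z n :=
  ⟨add_mem hs.1 ht.1, fun k hk l =>
    ⟨(Commute.add_left (show Commute s _ from (hs.2 k hk l).1)
        (show Commute t _ from (ht.2 k hk l).1)).eq,
      (Commute.add_left (show Commute s _ from (hs.2 k hk l).2)
        (show Commute t _ from (ht.2 k hk l).2)).eq⟩⟩

theorem tl_sub {n : ℕ} {s t : H →L[ℂ] H} (hs : s ∈ Tl M X Z n) (ht : t ∈ Tl M X Z n) :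
    s - t ∈ Tl M X Z n :=
  ⟨sub_mem hs.1 ht.1, fun k hk l =>
    ⟨(Commute.sub_left (show Commute s _ from (hs.2 k hk l).1)
        (show Commute t _ from (ht.2 k hk l).1)).eq,
      (Commute.sub_left (show Commute s _ from (hs.2 k hk l).2)
        (show Commute t _ from (ht.2 k hk l).2)).eq⟩⟩

theorem tl_smul {n : ℕ} {s : H →L[ℂ] H} (c : ℂ) (hs : s ∈ Tl M X Z n) :
    c • s ∈ Tl M X Z n :=
  ⟨smulM c hs.1, fun k hk l =>
    ⟨((show Commute s _ from (hs.2 k hk l).1).smul_left c).eq,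
      ((show Commute s _ from (hs.2 k hk l).2).smul_left c).eq⟩⟩

theorem tl_star (h : Wy M Ω X Z) {n : ℕ} {s : H →L[ℂ] H} (hs : s ∈ Tl M X Z n) :
    star s ∈ Tl M X Z n := by
  refine ⟨starM hs.1, fun k hk l => ?_⟩
  have h1 : Commute s (X (sg k (-l))) := (hs.2 k hk (-l)).1
  have h2 : Commute s (Z (sg k (-l))) := (hs.2 k hk (-l)).2
  rw [← sg_neg, ← h.Xst] at h1
  rw [← sg_neg, ← h.Zst] at h2
  have h3 := h1.star_star
  have h4 := h2.star_star
  rw [star_star] at h3 h4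
  exact ⟨h3.eq, h4.eq⟩

theorem vv_tl (hO : OmP) (h : Wy M Ω X Z) (hC : Calc M Ω X Z) (x : ℕ → ℝ) (i : ZMod (pr 0))
    {k n : ℕ} (hn : n ≤ k) (l : ZMod (pr k)) : vv X Z x i k l ∈ Tl M X Z n :=
  ⟨vv_M h hC x i k l, fun k' hk' l' =>
    ⟨(vv_X hO h hC x i (show k ≠ k' by omega) l l').eq,
      (vv_Z hO h hC x i (show k ≠ k' by omega) l l').eq⟩⟩

theorem vv_aa (hO : OmP) (h : Wy M Ω X Z) (hC : Calc M Ω X Z) (x : ℕ → ℝ) (i : ZMod (pr 0))
    {k : ℕ} (hk : 1 ≤ k) (l : ZMod (pr k)) : vv X Z x i k l ∈ AA M X Z x i :=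
  ⟨vv_tl hO h hC x i hk l, fun k' _ l' => (vv_vv hO h hC x i k k' l l').eq⟩

theorem aa_mul {x : ℕ → ℝ} {i : ZMod (pr 0)} {s t : H →L[ℂ] H} (hs : s ∈ AA M X Z x i)
    (ht : t ∈ AA M X Z x i) : s * t ∈ AA M X Z x i :=
  ⟨tl_mul hs.1 ht.1, fun k hk l => (Commute.mul_left (show Commute s _ from hs.2 k hk l)
    (show Commute t _ from ht.2 k hk l)).eq⟩

theorem aa_add {x : ℕ → ℝ} {i : ZMod (pr 0)} {s t : H →L[ℂ] H} (hs : s ∈ AA M X Z x i)
    (ht : t ∈ AA M X Z x i) : s + t ∈ AA M X Z x i :=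
  ⟨tl_add hs.1 ht.1, fun k hk l => (Commute.add_left (show Commute s _ from hs.2 k hk l)
    (show Commute t _ from ht.2 k hk l)).eq⟩

theorem aa_smul {x : ℕ → ℝ} {i : ZMod (pr 0)} {s : H →L[ℂ] H} (c : ℂ)
    (hs : s ∈ AA M X Z x i) : c • s ∈ AA M X Z x i :=
  ⟨tl_smul c hs.1, fun k hk l => ((show Commute s _ from hs.2 k hk l).smul_left c).eq⟩

theorem aa_star (h : Wy M Ω X Z) {x : ℕ → ℝ} {i : ZMod (pr 0)} {s : H →L[ℂ] H}
    (hs : s ∈ AA M X Z x i) : star s ∈ AA M X Z x i := by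
  refine ⟨tl_star h hs.1, fun k hk l => ?_⟩
  have h1 : Commute s (vv X Z x i k (-l)) := hs.2 k hk (-l)
  rw [← vv_star h] at h1
  have h3 := h1.star_star
  rw [star_star] at h3
  exact h3.eq

theorem aa_one' (x : ℕ → ℝ) (i : ZMod (pr 0)) : (1 : H →L[ℂ] H) ∈ AA M X Z x i :=
  ⟨⟨one_mem M, fun _ _ _ => ⟨by rw [one_mul, mul_one], by rw [one_mul, mul_one]⟩⟩,
    fun _ _ _ => by rw [one_mul, mul_one]⟩

theorem ee_c (hP : PA M Ω X Z) (i j : ZMod (pr 0)) : Commute (ee Z i) (ee Z j) := by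
  show ee Z i * ee Z j = ee Z j * ee Z i
  rcases eq_or_ne i j with h1 | h1
  · rw [h1]
  · rw [hP.ee_orth i j h1, hP.ee_orth j i h1.symm]

theorem ee_vv (hO : OmP) (h : Wy M Ω X Z) (hC : Calc M Ω X Z) (hP : PA M Ω X Z) (x : ℕ → ℝ)
    (i j : ZMod (pr 0)) {k : ℕ} (hk : 1 ≤ k) (l : ZMod (pr k)) :
    Commute (vv X Z x j k l) (ee Z i) := hP.ee_tl i _ (vv_tl hO h hC x j hk l)

theorem dd_mul' (hO : OmP) (h : Wy M Ω X Z) (hC : Calc M Ω X Z) (hP : PA M Ω X Z) (x : ℕ → ℝ)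
    (i : ZMod (pr 0)) {t : H →L[ℂ] H} (ht : t ∈ AA M X Z x i) : ee Z i * t ∈ DD M X Z x := by
  have hte : ∀ j, Commute t (ee Z j) := fun j => hP.ee_tl j t ht.1
  refine ⟨mul_mem (hP.ee_mem i) (AA_M ht), fun j => ((ee_c hP i j).mul_left (hte j)).eq, ?_⟩
  intro j k hk l
  rcases eq_or_ne i j with h1 | h1
  · subst h1
    have h2 : Commute t (vv X Z x i k l) := ht.2 k hk l
    exact (((ee_c hP i i).mul_left (hte i)).mul_right
      ((ee_vv hO h hC hP x i i hk l).symm.mul_left h2)).eq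
  · have e1 : ee Z i * t * (ee Z j * vv X Z x j k l) = 0 := by
      calc ee Z i * t * (ee Z j * vv X Z x j k l)
          = ee Z i * (t * ee Z j) * vv X Z x j k l := by simp only [mul_assoc]
        _ = (ee Z i * ee Z j) * t * vv X Z x j k l := by rw [(hte j).eq]; simp only [mul_assoc]
        _ = 0 := by rw [hP.ee_orth i j h1, zero_mul, zero_mul]
    have e2 : ee Z j * vv X Z x j k l * (ee Z i * t) = 0 := by
      calc ee Z j * vv X Z x j k l * (ee Z i * t)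
          = ee Z j * (vv X Z x j k l * ee Z i) * t := by simp only [mul_assoc]
        _ = (ee Z j * ee Z i) * vv X Z x j k l * t := by
          rw [(ee_vv hO h hC hP x i j hk l).eq]; simp only [mul_assoc]
        _ = 0 := by rw [hP.ee_orth j i h1.symm, zero_mul, zero_mul]
    rw [e1, e2]

theorem dd_sum {x : ℕ → ℝ} (d : ZMod (pr 0) → (H →L[ℂ] H)) (hd : ∀ i, d i ∈ DD M X Z x) :
    ∑ i, d i ∈ DD M X Z x := by
  refine ⟨sum_mem fun i _ => (hd i).1, fun j => ?_, fun j k hk l => ?_⟩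
  · exact (Commute.sum_left _ _ _ fun i _ => show Commute (d i) _ from (hd i).2.1 j).eq
  · exact (Commute.sum_left _ _ _ fun i _ => show Commute (d i) _ from (hd i).2.2 j k hk l).eq

theorem dd_iff' (hO : OmP) (h : Wy M Ω X Z) (hC : Calc M Ω X Z) (hP : PA M Ω X Z) (x : ℕ → ℝ)
    (d : H →L[ℂ] H) : d ∈ DD M X Z x ↔
    ∃ t : ZMod (pr 0) → (H →L[ℂ] H), (∀ i, t i ∈ AA M X Z x i) ∧ d = ∑ i, ee Z i * t i := by
  constructor
  · intro hd
    have hco := fun i => hP.corner d hd.1 i (hd.2.1 i)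
    refine ⟨fun i => ∑ l : ZMod (pr 0), X (sg 0 l) * (ee Z i * d) * X (sg 0 (-l)), ?_, ?_⟩
    · intro i
      refine ⟨(hco i).1, fun k hk l => ?_⟩
      refine (Commute.sum_left _ _ _ fun l' _ => ?_).eq
      have h1 := fun l' => vv_X hO h hC x i (show k ≠ 0 by omega) l l'
      have h2 : Commute (ee Z i * d) (vv X Z x i k l) := by
        show ee Z i * d * vv X Z x i k l = vv X Z x i k l * (ee Z i * d)
        calc ee Z i * d * vv X Z x i k l = d * (ee Z i * vv X Z x i k l) := by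
              rw [← hd.2.1 i]; simp only [mul_assoc]
          _ = ee Z i * vv X Z x i k l * d := hd.2.2 i k hk l
          _ = vv X Z x i k l * (ee Z i * d) := by
              rw [← (ee_vv hO h hC hP x i i hk l).eq]; simp only [mul_assoc]
      exact ((h1 l').symm.mul_left h2).mul_left (h1 (-l')).symm
    · have h1 : ∀ i, ee Z i * (∑ l : ZMod (pr 0), X (sg 0 l) * (ee Z i * d) * X (sg 0 (-l))) =
          ee Z i * d := fun i => (hco i).2
      simp only [h1]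
      rw [← Finset.sum_mul, hP.ee_sum, one_mul]
  · rintro ⟨t, ht, rfl⟩
    exact dd_sum _ fun i => dd_mul' hO h hC hP x i (ht i)

theorem dd_cut' (hO : OmP) (h : Wy M Ω X Z) (hC : Calc M Ω X Z)
    {E : ℕ → (H →L[ℂ] H) → (H →L[ℂ] H)} (hE : Apx M Ω X Z E) (hP : PA M Ω X Z) (x : ℕ → ℝ)
    (i : ZMod (pr 0)) (t : H →L[ℂ] H) (ht : t ∈ Tl M X Z 1) (hd : ee Z i * t ∈ DD M X Z x) :
    t ∈ AA M X Z x i := by
  refine ⟨ht, fun k hk l => ?_⟩
  have hv := vv_tl hO h hC x i hk l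
  have hs : t * vv X Z x i k l - vv X Z x i k l * t ∈ Tl M X Z 1 :=
    tl_sub (tl_mul ht hv) (tl_mul hv ht)
  have h1 := hd.2.2 i k hk l
  have hte : Commute t (ee Z i) := hP.ee_tl i t ht
  have e1 : ee Z i * t * (ee Z i * vv X Z x i k l) = ee Z i * (t * vv X Z x i k l) := by
    calc ee Z i * t * (ee Z i * vv X Z x i k l) = ee Z i * (t * ee Z i) * vv X Z x i k l := by
          simp only [mul_assoc]
      _ = (ee Z i * ee Z i) * t * vv X Z x i k l := by rw [hte.eq]; simp only [mul_assoc]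
      _ = _ := by rw [hP.ee_idem]; simp only [mul_assoc]
  have e2 : ee Z i * vv X Z x i k l * (ee Z i * t) = ee Z i * (vv X Z x i k l * t) := by
    calc ee Z i * vv X Z x i k l * (ee Z i * t) = ee Z i * (vv X Z x i k l * ee Z i) * t := by
          simp only [mul_assoc]
      _ = (ee Z i * ee Z i) * vv X Z x i k l * t := by
          rw [(ee_vv hO h hC hP x i i hk l).eq]; simp only [mul_assoc]
      _ = _ := by rw [hP.ee_idem]; simp only [mul_assoc]
  rw [e1, e2] at h1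
  have h2 : ee Z i * (t * vv X Z x i k l - vv X Z x i k l * t) = 0 := by
    rw [mul_sub, h1, sub_self]
  have h3 := hP.ee_norm i _ hs
  rw [h2] at h3
  have h4 : ‖(t * vv X Z x i k l - vv X Z x i k l * t) Ω‖ ^ 2 = 0 := by
    have h5 : ‖(0 : H →L[ℂ] H) Ω‖ ^ 2 = 0 := by simp
    linarith
  have h6 : (t * vv X Z x i k l - vv X Z x i k l * t) Ω = 0 :=
    norm_eq_zero.1 (pow_eq_zero_iff (two_ne_zero)|>.1 h4)
  exact sub_eq_zero.1 (hE.sep _ hs.1 h6)

/-! ### coefficients -/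

theorem exists_ne {κ : Gm} (hκ : κ ≠ 0) : ∃ k, κ k ≠ 0 := by
  by_contra hno
  push Not at hno
  exact hκ (DFinsupp.ext hno)

theorem coef_ZK (hO : OmP) (h : Wy M Ω X Z) (hC : Calc M Ω X Z) {x : ℕ → ℝ} {j : ZMod (pr 0)}
    (hj : j ≠ 0) {t : H →L[ℂ] H} (ht : t ∈ AA M X Z x j) {κ : Gm} (hκ : κ ≠ 0) :
    ⟪(Z κ) Ω, t Ω⟫_ℂ = 0 := by
  obtain ⟨m, hm⟩ := exists_ne hκ
  rcases Nat.eq_zero_or_pos m with h0 | h0
  · subst h0
    have h1 := coef_X hO h (AA_M ht) (AA_0 ht 1).1.eq 0 κ hm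
    rwa [h.X0, one_mul] at h1
  · refine ph h (h.Zm κ) (AA_M ht) (vv_M h hC x j m 1) (vv_U h hC x j m 1) (ht.2 m h0 1)
      (vv_phase h hC x hj m 1 κ) ?_
    rw [hO.sgr, mul_one]
    exact e_ne hm

theorem orth0 (hO : OmP) (h : Wy M Ω X Z) (hC : Calc M Ω X Z)
    {E : ℕ → (H →L[ℂ] H) → (H →L[ℂ] H)} (hE : Apx M Ω X Z E) {x : ℕ → ℝ} {j : ZMod (pr 0)}
    (hj : j ≠ 0) {s t : H →L[ℂ] H} (hs : s ∈ AA M X Z x 0) (ht : t ∈ AA M X Z x j) :
    ⟪s Ω, t Ω⟫_ℂ = ⟪s Ω, Ω⟫_ℂ * ⟪Ω, t Ω⟫_ℂ := by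
  have hZ : ∀ κ, ⟪(Z κ) Ω, t Ω⟫_ℂ = ⟪(Z κ) Ω, Ω⟫_ℂ * ⟪Ω, t Ω⟫_ℂ := by
    intro κ
    rcases eq_or_ne κ 0 with h0 | h0
    · subst h0
      rw [h.Z0]
      have h1 : ⟪(1 : H →L[ℂ] H) Ω, Ω⟫_ℂ = 1 := by
        rw [one_apply_eq_self, inner_self_eq_norm_sq_to_K, h.unit]
        simp
      rw [h1, one_mul, one_apply_eq_self]
    · rw [coef_ZK hO h hC hj ht h0]
      have h1 := h.orth 0 κ 0 0
      rw [if_neg (fun h2 => h0 h2.2), h.X0, h.Z0, one_mul, one_mul, one_apply_eq_self] at h1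
      rw [h1, zero_mul]
  have hn : ∀ n, ⟪(E n s) Ω, t Ω⟫_ℂ = ⟪(E n s) Ω, Ω⟫_ℂ * ⟪Ω, t Ω⟫_ℂ := by
    intro n
    have h1 := (core hO h hE true n (one_Fn h n) isU_one
      (fun l => ⟨Commute.one_left _, Commute.one_left _⟩) (AA_M hs) (AA_0 hs) (by
        intro k hk1 _ l
        have h2 := hs.2 k hk1 l
        rw [vv0] at h2
        rw [star_one, one_mul, mul_one]
        exact h2)).1
    refine Submodule.span_induction
      (p := fun y _ => ⟪y Ω, t Ω⟫_ℂ = ⟪y Ω, Ω⟫_ℂ * ⟪Ω, t Ω⟫_ℂ) ?_ ?_ ?_ ?_ h1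
    · rintro v ⟨γ, _, rfl⟩
      rw [star_one, one_mul, mul_one]
      exact hZ γ
    · simp
    · intro y z _ _ hy hz
      rw [add_apply, inner_add_left, inner_add_left, hy, hz, add_mul]
    · intro c y _ hy
      rw [smul_apply, inner_smul_left, inner_smul_left, hy, mul_assoc]
  have hl := hE.sot s (AA_M hs) Ω
  have h1 : Tendsto (fun n => ⟪(E n s) Ω, t Ω⟫_ℂ) atTop (𝓝 ⟪s Ω, t Ω⟫_ℂ) :=
    hl.inner tendsto_const_nhds
  have h2 : Tendsto (fun n => ⟪(E n s) Ω, Ω⟫_ℂ * ⟪Ω, t Ω⟫_ℂ) atTop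
      (𝓝 (⟪s Ω, Ω⟫_ℂ * ⟪Ω, t Ω⟫_ℂ)) :=
    (hl.inner tendsto_const_nhds).mul_const _
  simp only [hn] at h1
  exact tendsto_nhds_unique h1 h2

end StrBx

open StrBx

/-- **Part B of `Str`.** -/
theorem t_StrB (hO : OmP) (hC : O_Calc) (hA : O_Apx) :
    ∀ (H : Type) [NormedAddCommGroup H] [InnerProductSpace ℂ H] [CompleteSpace H]
      (M : VonNeumannAlgebra H) (Ω : H) (X Z : Gm → (H →L[ℂ] H)), Wy M Ω X Z →
      PA M Ω X Z → PB M Ω X Z := by
  intro H _ _ _ M Ω X Z h hP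
  have hc : Calc M Ω X Z := hC H M Ω X Z h
  obtain ⟨E, hE⟩ := hA H M Ω X Z h
  refine ⟨?_, ?_, ?_, ?_, ?_, ?_, ?_, ?_, ?_, ?_⟩
  · intro x i s hs t ht
    exact ⟨aa_mul hs ht, aa_add hs ht, aa_star h hs, fun c => aa_smul c hs,
      AA_comm hO h hc hE x i hs ht⟩
  · exact aa_one'
  · intro x i k hk l
    exact ⟨vv_aa hO h hc x i hk l, vv_U h hc x i k l, fun n hn => vv_tl hO h hc x i hn l⟩
  · exact dd_iff' hO h hc hP
  · intro x i
    have h1 := dd_mul' hO h hc hP x i (aa_one' x i)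
    rwa [mul_one] at h1
  · intro x i t ht
    exact dd_mul' hO h hc hP x i ht
  · exact dd_cut' hO h hc hE hP
  · intro x i j hij h0 s hs t ht
    rcases h0 with h0 | h0
    · subst h0
      exact orth0 hO h hc hE hij.symm hs ht
    · subst h0
      have h1 := orth0 hO h hc hE hij ht hs
      have h2 := congrArg (starRingEnd ℂ) h1
      rw [map_mul, inner_conj_symm, inner_conj_symm, inner_conj_symm] at h2
      rw [h2, mul_comm]
  · intro x t ht γ κ hκ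
    obtain ⟨k, hk⟩ := exists_ne hκ
    rcases Nat.eq_zero_or_pos k with h0 | h0
    · subst h0
      exact coef_X hO h (AA_M ht) (AA_0 ht 1).1.eq γ κ hk
    · have h1 := ht.2 k h0 1
      rw [vv1] at h1
      exact coef_X hO h (AA_M ht) h1 γ κ hk
  · intro x i t ht γ κ h0
    rcases h0 with h0 | h0
    · exact coef_Z hO h (AA_M ht) (AA_0 ht 1).2.eq γ κ h0
    · exact coef_X hO h (AA_M ht) (AA_0 ht 1).1.eq γ κ h0

end

end Pool.Agent.H468R2.MA

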