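import Pool.Agent.H468R2.MA.Final0
import Pool.Agent.H468R2.MA.P_O_StrB
import Pool.Agent.H468R2.MA.P_O_Perm
import Pool.Agent.H468R2.MA.P_O_LB

/-!
# Assembly
-/

set_option autoImplicit false

open scoped InnerProductSpace
open Filter Topology

namespace Pool.Agent.H468R2.MA

theorem o_StrB : O_StrB := by
  intro H _ _ _ M Ω X Z w
  have a := o_StrA H M Ω X Z w
  have hp : PA M Ω X Z := ⟨a.ee_idem, a.ee_orth, a.ee_sum, a.ee_mem, a.ee_tl,
    a.ee_norm, a.corner⟩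
  obtain ⟨h1, h2, h3, h4, h5, h6, h7, h8, h9, h10⟩ :=
    t_StrB t_OmP t_O_Calc t_O_Apx H M Ω X Z w hp
  exact ⟨h1, h2, h3, h4, h5, h6, h7, h8, h9, h10⟩

theorem o_Str : O_Str := str_of o_StrA o_StrB

theorem o_LB : O_LB :=
  t_O_LB t_OmP t_O_Calc t_O_Apx o_Str t_O_Half (t_O_Far t_O_Calc t_O_Apx o_Str t_O_Half)
    (t_O_Nrm t_O_Apx o_Str) (t_O_Perm o_Aut t_O_Apx o_Str t_O_Calc) (t_O_Psi o_Aut t_O_Apx o_Str)
    (t_O_Nbr t_O_Apx o_Str t_OmP)

theorem final :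
    ∃ (H : Type) (_ : NormedAddCommGroup H) (_ : InnerProductSpace ℂ H) (_ : CompleteSpace H)
      (M : VonNeumannAlgebra H) (Ω : H), TopologicalSpace.SeparableSpace H ∧ IsStdII1 M Ω ∧
        Hyperfinite M Ω ∧ ¬ Classifiable (Conj (M := M)) :=
  final0 o_Str o_LB

end Pool.Agent.H468R2.MA
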