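import Pool.Agent.H468R2.MA.Tasks2

set_option autoImplicit false

open scoped InnerProductSpace
open Filter Topology

namespace Pool.Agent.H468R2.MA

theorem t_Anti (h : O_Mono) : O_Anti := by
  intro H _ _ _ T h0 hm h1
  obtain ⟨S, hS0, hS1, hS, hlim⟩ := h H (fun m => 1 - T m) (fun m => sub_nonneg.2 (h1 m))
    (fun m => sub_le_sub_left (hm m) 1) (fun m => sub_le_self 1 (h0 m))
  refine ⟨1 - S, sub_nonneg.2 hS1, sub_le_self 1 hS0, fun m => ?_, fun ξ => ?_⟩
  · exact sub_le_comm.1 (hS m)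
  · have h2 := (hlim ξ).const_sub ξ
    have e1 : ∀ m, ξ - (1 - T m) ξ = T m ξ := by
      intro m
      simp
    have e2 : ξ - S ξ = (1 - S) ξ := by simp
    rw [← e2]
    exact h2.congr e1

end Pool.Agent.H468R2.MA
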