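import Pool.Agent.H468R2.MA.Tasks2

/-!
# Two-norm tools and conditional expectations
-/

set_option autoImplicit false

open scoped InnerProductSpace
open Filter Topology

namespace Pool.Agent.H468R2.MA

namespace O_Apxh

section

variable {H : Type} [NormedAddCommGroup H] [InnerProductSpace ℂ H] [CompleteSpace H]

omit [CompleteSpace H] in
theorem mulA (a b : H →L[ℂ] H) (v : H) : (a * b) v = a (b v) := rfl

omit [CompleteSpace H] in
theorem addA (a b : H →L[ℂ] H) (v : H) : (a + b) v = a v + b v := rfl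

omit [CompleteSpace H] in
theorem subA (a b : H →L[ℂ] H) (v : H) : (a - b) v = a v - b v := rfl

omit [CompleteSpace H] in
theorem smulA (c : ℂ) (b : H →L[ℂ] H) (v : H) : (c • b) v = c • b v := rfl

theorem inner_star_left (a : H →L[ℂ] H) (u v : H) : ⟪(star a) u, v⟫_ℂ = ⟪u, a v⟫_ℂ := by
  rw [ContinuousLinearMap.star_eq_adjoint, ContinuousLinearMap.adjoint_inner_left]

theorem inner_star_right (a : H →L[ℂ] H) (u v : H) : ⟪u, (star a) v⟫_ℂ = ⟪a u, v⟫_ℂ := by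
  rw [ContinuousLinearMap.star_eq_adjoint, ContinuousLinearMap.adjoint_inner_right]

variable {M : VonNeumannAlgebra H} {Ω : H} {X Z : Gm → (H →L[ℂ] H)}

theorem sup_mono {m n : ℕ} (h : m ≤ n) {γ : Gm} (hγ : Sup m γ) : Sup n γ :=
  fun i hi => hγ i (h.trans hi)

theorem sup_add {n : ℕ} {γ γ' : Gm} (h : Sup n γ) (h' : Sup n γ') : Sup n (γ + γ') := by
  intro i hi
  rw [DFinsupp.add_apply, h i hi, h' i hi, add_zero]

theorem sup_neg {n : ℕ} {γ : Gm} (h : Sup n γ) : Sup n (-γ) := by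
  intro i hi
  rw [DFinsupp.neg_apply, h i hi, neg_zero]

omit [CompleteSpace H] in
theorem gen_mem {n : ℕ} {γ κ : Gm} (h : Sup n γ) (h' : Sup n κ) : X γ * Z κ ∈ Fn X Z n :=
  Submodule.subset_span ⟨γ, κ, h, h', rfl⟩

omit [CompleteSpace H] in
theorem fmono (X Z : Gm → (H →L[ℂ] H)) (m n : ℕ) (h : m ≤ n) : Fn X Z m ≤ Fn X Z n := by
  apply Submodule.span_mono
  rintro _ ⟨γ, κ, h1, h2, rfl⟩
  exact ⟨γ, κ, sup_mono h h1, sup_mono h h2, rfl⟩

theorem fmem (w : Wy M Ω X Z) (n : ℕ) (y : H →L[ℂ] H) (hy : y ∈ Fn X Z n) : y ∈ M := by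
  refine Submodule.span_induction (p := fun y _ => y ∈ M) ?_ ?_ ?_ ?_ hy
  · rintro _ ⟨γ, κ, -, -, rfl⟩
    exact mul_mem (w.Xm γ) (w.Zm κ)
  · exact zero_mem M
  · intro a b _ _ ha hb
    exact add_mem ha hb
  · intro c a _ ha
    exact M.toStarSubalgebra.smul_mem ha c

theorem gen_mul (w : Wy M Ω X Z) (γ κ γ' κ' : Gm) :
    (X γ * Z κ) * (X γ' * Z κ') = om κ γ' • (X (γ + γ') * Z (κ + κ')) := by
  rw [w.Xadd, w.Zadd]
  calc (X γ * Z κ) * (X γ' * Z κ') = X γ * (Z κ * X γ') * Z κ' := by simp only [mul_assoc]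
    _ = X γ * (om κ γ' • (X γ' * Z κ)) * Z κ' := by rw [w.cm]
    _ = om κ γ' • (X γ * X γ' * (Z κ * Z κ')) := by
        rw [mul_smul_comm, smul_mul_assoc]
        simp only [mul_assoc]

theorem fmul (w : Wy M Ω X Z) (n : ℕ) (y : H →L[ℂ] H) (hy : y ∈ Fn X Z n) (z : H →L[ℂ] H)
    (hz : z ∈ Fn X Z n) : y * z ∈ Fn X Z n := by
  refine Submodule.span_induction (p := fun y _ => y * z ∈ Fn X Z n) ?_ ?_ ?_ ?_ hy
  · rintro _ ⟨γ, κ, h1, h2, rfl⟩
    refine Submodule.span_induction (p := fun z _ => (X γ * Z κ) * z ∈ Fn X Z n) ?_ ?_ ?_ ?_ hz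
    · rintro _ ⟨γ', κ', h3, h4, rfl⟩
      rw [gen_mul w]
      exact Submodule.smul_mem _ _ (gen_mem (sup_add h1 h3) (sup_add h2 h4))
    · rw [mul_zero]; exact Submodule.zero_mem _
    · intro a b _ _ ha hb
      rw [mul_add]; exact Submodule.add_mem _ ha hb
    · intro c a _ ha
      rw [mul_smul_comm]; exact Submodule.smul_mem _ _ ha
  · rw [zero_mul]; exact Submodule.zero_mem _
  · intro a b _ _ ha hb
    rw [add_mul]; exact Submodule.add_mem _ ha hb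
  · intro c a _ ha
    rw [smul_mul_assoc]; exact Submodule.smul_mem _ _ ha

theorem fst (w : Wy M Ω X Z) (n : ℕ) (y : H →L[ℂ] H) (hy : y ∈ Fn X Z n) :
    star y ∈ Fn X Z n := by
  refine Submodule.span_induction (p := fun y _ => star y ∈ Fn X Z n) ?_ ?_ ?_ ?_ hy
  · rintro _ ⟨γ, κ, h1, h2, rfl⟩
    rw [star_mul, w.Xst, w.Zst, w.cm]
    exact Submodule.smul_mem _ _ (gen_mem (sup_neg h1) (sup_neg h2))
  · rw [star_zero]; exact Submodule.zero_mem _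
  · intro a b _ _ ha hb
    rw [star_add]; exact Submodule.add_mem _ ha hb
  · intro c a _ ha
    rw [star_smul]; exact Submodule.smul_mem _ _ ha

omit [CompleteSpace H] in
/-- a set closed under products containing the generators contains all `X γ` -/
theorem comm_all (V : Gm → (H →L[ℂ] H)) (V0 : V 0 = 1) (Vadd : ∀ γ γ', V (γ + γ') = V γ * V γ')
    (n : ℕ) (t : H →L[ℂ] H) (ht : ∀ k, k < n → ∀ l : ZMod (pr k), t * V (sg k l) = V (sg k l) * t)
    (γ : Gm) : Sup n γ → t * V γ = V γ * t := by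
  classical
  induction γ using DFinsupp.induction with
  | h0 => intro _; rw [V0]; simp
  | ha i b f hf hb ih =>
    intro hs
    have hin : i < n := by
      by_contra hcon
      have h1 := hs i (not_lt.1 hcon)
      rw [DFinsupp.add_apply, hf, add_zero, DFinsupp.single_eq_same] at h1
      exact hb h1
    have hf' : Sup n f := by
      intro j hj
      have h1 := hs j hj
      have hij : i ≠ j := by omega
      rw [DFinsupp.add_apply, DFinsupp.single_eq_of_ne (by first | exact hij | exact hij.symm),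
        zero_add] at h1
      exact h1
    rw [Vadd, ← mul_assoc, ht i hin b, mul_assoc, ih hf', mul_assoc]

theorem tail (w : Wy M Ω X Z) (n : ℕ) (y : H →L[ℂ] H) (hy : y ∈ Fn X Z n) (t : H →L[ℂ] H)
    (ht : t ∈ Tl M X Z n) : t * y = y * t := by
  have hX := comm_all X w.X0 w.Xadd n t (fun k hk l => (ht.2 k hk l).1)
  have hZ := comm_all Z w.Z0 w.Zadd n t (fun k hk l => (ht.2 k hk l).2)
  refine Submodule.span_induction (p := fun y _ => t * y = y * t) ?_ ?_ ?_ ?_ hy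
  · rintro _ ⟨γ, κ, h1, h2, rfl⟩
    rw [← mul_assoc, hX γ h1, mul_assoc, hZ κ h2, mul_assoc]
  · simp
  · intro a b _ _ ha hb
    rw [mul_add, add_mul, ha, hb]
  · intro c a _ ha
    rw [mul_smul_comm, smul_mul_assoc, ha]

theorem sep (w : Wy M Ω X Z) (x : H →L[ℂ] H) (hx : x ∈ M) (h : x Ω = 0) : x = 0 := by
  ext ξ
  show x ξ = 0
  by_contra hne
  have hpos : 0 < ‖x ξ‖ := norm_pos_iff.2 hne
  obtain ⟨a, ha, hc⟩ := w.std ξ (‖x ξ‖ / (‖x‖ + 1)) (by positivity)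
  have h1 : x (a Ω) = 0 := by
    have := congrArg (fun T : H →L[ℂ] H => T Ω) (ha x hx)
    change a (x Ω) = x (a Ω) at this
    rw [← this, h, map_zero]
  have h2 : x ξ = -(x (a Ω - ξ)) := by
    rw [map_sub, h1, zero_sub, neg_neg]
  have h3 : ‖x ξ‖ ≤ ‖x‖ * ‖a Ω - ξ‖ := by
    rw [h2, norm_neg]
    exact x.le_opNorm _
  have h4 : ‖x‖ * ‖a Ω - ξ‖ ≤ ‖x‖ * (‖x ξ‖ / (‖x‖ + 1)) :=
    mul_le_mul_of_nonneg_left hc.le (norm_nonneg _)
  have h5 : ‖x‖ * (‖x ξ‖ / (‖x‖ + 1)) < ‖x ξ‖ := by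
    have hp : 0 < ‖x‖ + 1 := by positivity
    rw [mul_div_assoc', div_lt_iff₀ hp]
    nlinarith [norm_nonneg x]
  linarith

/-- uniqueness -/
theorem ext_coef (w : Wy M Ω X Z) (n : ℕ) (y z : H →L[ℂ] H) (hy : y ∈ Fn X Z n)
    (hz : z ∈ Fn X Z n) (h : ∀ u ∈ Fn X Z n, ⟪u Ω, y Ω⟫_ℂ = ⟪u Ω, z Ω⟫_ℂ) : y = z := by
  have hm : y - z ∈ Fn X Z n := Submodule.sub_mem _ hy hz
  have h1 : (y - z) Ω = 0 := by
    rw [← inner_self_eq_zero (𝕜 := ℂ)]
    have h2 := h _ hm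
    have h3 : (y - z) Ω = y Ω - z Ω := rfl
    nth_rewrite 2 [h3]
    rw [inner_sub_right, h2, sub_self]
  exact sub_eq_zero.1 (sep w _ (fmem w n _ hm) h1)

theorem nst (w : Wy M Ω X Z) (x : H →L[ℂ] H) (hx : x ∈ M) : ‖(star x) Ω‖ = ‖x Ω‖ := by
  have h1 : ⟪(star x) Ω, (star x) Ω⟫_ℂ = ⟪x Ω, x Ω⟫_ℂ := by
    rw [inner_star_left, w.tr x hx (star x) (star_mem hx), inner_star_right]
  rw [inner_self_eq_norm_sq_to_K, inner_self_eq_norm_sq_to_K] at h1
  have h2 : ‖(star x) Ω‖ ^ 2 = ‖x Ω‖ ^ 2 := by exact_mod_cast h1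
  exact (pow_left_inj₀ (norm_nonneg _) (norm_nonneg _) two_ne_zero).1 h2

theorem inner_mul_right (w : Wy M Ω X Z) (u x v : H →L[ℂ] H) (hu : u ∈ M) (hx : x ∈ M)
    (hv : v ∈ M) : ⟪u Ω, (x * v) Ω⟫_ℂ = ⟪(u * star v) Ω, x Ω⟫_ℂ := by
  have h1 : ⟪u Ω, (x * v) Ω⟫_ℂ = ⟪Ω, (star u * x) (v Ω)⟫_ℂ := by
    rw [mulA, mulA, inner_star_right]
  rw [h1, w.tr _ (mul_mem (star_mem hu) hx) v hv]
  rw [mulA, mulA]
  have h2 : ⟪u ((star v) Ω), x Ω⟫_ℂ = ⟪(star v) Ω, (star u) (x Ω)⟫_ℂ := by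
    rw [inner_star_right]
  rw [h2, inner_star_left]

theorem orthn (w : Wy M Ω X Z) :
    Orthonormal ℂ (fun g : Gm × Gm => (X g.1 * Z g.2) Ω) := by
  classical
  rw [orthonormal_iff_ite]
  rintro ⟨γ, κ⟩ ⟨γ', κ'⟩
  rw [w.orth]
  simp only [Prod.mk.injEq]

omit [CompleteSpace H] in
theorem fn_span (n : ℕ) (y : H →L[ℂ] H) (hy : y ∈ Fn X Z n) :
    y Ω ∈ Submodule.span ℂ (Set.range fun g : Gm × Gm => (X g.1 * Z g.2) Ω) := by
  refine Submodule.span_induction (p := fun y _ => y Ω ∈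
    Submodule.span ℂ (Set.range fun g : Gm × Gm => (X g.1 * Z g.2) Ω)) ?_ ?_ ?_ ?_ hy
  · rintro _ ⟨γ, κ, -, -, rfl⟩
    exact Submodule.subset_span ⟨(γ, κ), rfl⟩
  · simp
  · intro a b _ _ ha hb
    rw [addA]
    exact Submodule.add_mem _ ha hb
  · intro c a _ ha
    rw [smulA]
    exact Submodule.smul_mem _ _ ha

theorem pars (w : Wy M Ω X Z) (x : H →L[ℂ] H) :
    HasSum (fun g : Gm × Gm => ‖⟪(X g.1 * Z g.2) Ω, x Ω⟫_ℂ‖ ^ 2) (‖x Ω‖ ^ 2) := by
  have hd : ⊤ ≤ (Submodule.span ℂ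
      (Set.range fun g : Gm × Gm => (X g.1 * Z g.2) Ω)).topologicalClosure := by
    intro ξ _
    rw [← SetLike.mem_coe, Submodule.topologicalClosure_coe, Metric.mem_closure_iff]
    intro ε hε
    obtain ⟨n, y, hy, hyε⟩ := w.dns ξ ε hε
    exact ⟨y Ω, fn_span n y hy, by rw [dist_comm, dist_eq_norm]; exact hyε⟩
  let b := HilbertBasis.mk (orthn w) hd
  have hb : ∀ g, b g = (X g.1 * Z g.2) Ω := fun g => by
    have := HilbertBasis.coe_mk (orthn w) hd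
    exact congrFun this g
  have h1 := b.hasSum_inner_mul_inner (x Ω) (x Ω)
  have h2 : (fun g => ⟪x Ω, b g⟫_ℂ * ⟪b g, x Ω⟫_ℂ) =
      fun g : Gm × Gm => ((‖⟪(X g.1 * Z g.2) Ω, x Ω⟫_ℂ‖ ^ 2 : ℝ) : ℂ) := by
    funext g
    rw [hb, ← inner_conj_symm, mul_comm, RCLike.mul_conj]
    push_cast
    rfl
  rw [h2, inner_self_eq_norm_sq_to_K] at h1
  have h3 : HasSum (fun g : Gm × Gm => ((‖⟪(X g.1 * Z g.2) Ω, x Ω⟫_ℂ‖ ^ 2 : ℝ) : ℂ))
      ((‖x Ω‖ ^ 2 : ℝ) : ℂ) := by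
    push_cast at h1 ⊢
    exact h1
  exact_mod_cast h3

theorem nr (w : Wy M Ω X Z) (x : H →L[ℂ] H) (hx : x ∈ M) (y : H →L[ℂ] H) (hy : y ∈ M) :
    ‖(x * y) Ω‖ ≤ ‖x Ω‖ * ‖y‖ := by
  rw [← nst w _ (mul_mem hx hy), star_mul, mulA]
  refine ((star y).le_opNorm _).trans ?_
  rw [nst w x hx, norm_star, mul_comm]

open Classical in
/-- the conditional expectation -/
noncomputable def EE (w : Wy M Ω X Z) (n : ℕ) (x : H →L[ℂ] H) : H →L[ℂ] H :=
  if hx : x ∈ M then (w.cexp x hx n).choose else 0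

theorem EE_spec (w : Wy M Ω X Z) (n : ℕ) (x : H →L[ℂ] H) (hx : x ∈ M) :
    EE w n x ∈ Fn X Z n ∧ ‖EE w n x‖ ≤ ‖x‖ ∧
      ∀ γ κ, Sup n γ → Sup n κ → ⟪(X γ * Z κ) Ω, x Ω - EE w n x Ω⟫_ℂ = 0 := by
  unfold EE
  rw [dif_pos hx]
  exact (w.cexp x hx n).choose_spec

theorem EE_coef (w : Wy M Ω X Z) (n : ℕ) (x : H →L[ℂ] H) (hx : x ∈ M) (u : H →L[ℂ] H)
    (hu : u ∈ Fn X Z n) : ⟪u Ω, EE w n x Ω⟫_ℂ = ⟪u Ω, x Ω⟫_ℂ := by
  refine Submodule.span_induction (p := fun u _ => ⟪u Ω, EE w n x Ω⟫_ℂ = ⟪u Ω, x Ω⟫_ℂ)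
    ?_ ?_ ?_ ?_ hu
  · rintro _ ⟨γ, κ, h1, h2, rfl⟩
    have := (EE_spec w n x hx).2.2 γ κ h1 h2
    rw [inner_sub_right, sub_eq_zero] at this
    exact this.symm
  · simp
  · intro a b _ _ ha hb
    rw [addA, inner_add_left, inner_add_left, ha, hb]
  · intro c a _ ha
    rw [smulA, inner_smul_left, inner_smul_left, ha]

theorem EE_mem (w : Wy M Ω X Z) (n : ℕ) (x : H →L[ℂ] H) (hx : x ∈ M) :
    EE w n x ∈ Fn X Z n := (EE_spec w n x hx).1

/-- characterization of `E` -/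
theorem EE_eq (w : Wy M Ω X Z) (n : ℕ) (x : H →L[ℂ] H) (hx : x ∈ M) (y : H →L[ℂ] H)
    (hy : y ∈ Fn X Z n) (h : ∀ u ∈ Fn X Z n, ⟪u Ω, x Ω⟫_ℂ = ⟪u Ω, y Ω⟫_ℂ) : EE w n x = y := by
  refine ext_coef w n _ _ (EE_mem w n x hx) hy fun u hu => ?_
  rw [EE_coef w n x hx u hu, h u hu]

/-- best approximation -/
theorem EE_best (w : Wy M Ω X Z) (n : ℕ) (x : H →L[ℂ] H) (hx : x ∈ M) (y : H →L[ℂ] H)
    (hy : y ∈ Fn X Z n) : ‖(x - EE w n x) Ω‖ ≤ ‖x Ω - y Ω‖ := by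
  have hm : EE w n x - y ∈ Fn X Z n := Submodule.sub_mem _ (EE_mem w n x hx) hy
  have h0 : ⟪(EE w n x - y) Ω, (x - EE w n x) Ω⟫_ℂ = 0 := by
    have h1 : (x - EE w n x) Ω = x Ω - EE w n x Ω := rfl
    rw [h1, inner_sub_right, EE_coef w n x hx _ hm, sub_self]
  have h2 : x Ω - y Ω = (EE w n x - y) Ω + (x - EE w n x) Ω := by
    rw [subA, subA]
    abel
  have h3 := norm_add_sq_eq_norm_sq_add_norm_sq_of_inner_eq_zero (𝕜 := ℂ) _ _ h0
  rw [← h2] at h3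
  have h4 : ‖(x - EE w n x) Ω‖ * ‖(x - EE w n x) Ω‖ ≤ ‖x Ω - y Ω‖ * ‖x Ω - y Ω‖ := by
    nlinarith [norm_nonneg ((EE w n x - y) Ω)]
  exact le_of_not_gt fun hlt => by
    nlinarith [norm_nonneg ((x - EE w n x) Ω), norm_nonneg (x Ω - y Ω)]

theorem EE_two (w : Wy M Ω X Z) (x : H →L[ℂ] H) (hx : x ∈ M) :
    Tendsto (fun n => ‖(x - EE w n x) Ω‖) atTop (𝓝 0) := by
  rw [Metric.tendsto_atTop]
  intro ε hε
  obtain ⟨m, y, hy, hyε⟩ := w.dns (x Ω) ε hε
  refine ⟨m, fun n hn => ?_⟩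
  rw [Real.dist_eq, sub_zero, abs_of_nonneg (norm_nonneg _)]
  refine (EE_best w n x hx y (fmono X Z m n hn hy)).trans_lt ?_
  rw [norm_sub_rev]
  exact hyε

theorem EE_sot (w : Wy M Ω X Z) (x : H →L[ℂ] H) (hx : x ∈ M) (ξ : H) :
    Tendsto (fun n => EE w n x ξ) atTop (𝓝 (x ξ)) := by
  rw [Metric.tendsto_atTop]
  intro ε hε
  obtain ⟨a, ha, hc⟩ := w.std ξ (ε / (4 * (‖x‖ + 1))) (by positivity)
  have h2 := EE_two w x hx
  rw [Metric.tendsto_atTop] at h2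
  obtain ⟨m, hm⟩ := h2 (ε / (2 * (‖a‖ + 1))) (by positivity)
  refine ⟨m, fun n hn => ?_⟩
  have h3 := hm n hn
  rw [Real.dist_eq, sub_zero, abs_of_nonneg (norm_nonneg _)] at h3
  set d : H →L[ℂ] H := x - EE w n x with hd
  have hdM : d ∈ M := sub_mem hx (fmem w n _ (EE_mem w n x hx))
  have hdn : ‖d‖ ≤ 2 * ‖x‖ := by
    refine (norm_sub_le _ _).trans ?_
    have := (EE_spec w n x hx).2.1
    linarith
  have h4 : d (a Ω) = a (d Ω) := by
    have := congrArg (fun T : H →L[ℂ] H => T Ω) (ha d hdM)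
    exact this.symm
  have h5 : x ξ - EE w n x ξ = a (d Ω) - d (a Ω - ξ) := by
    rw [map_sub, h4]
    have : d ξ = x ξ - EE w n x ξ := rfl
    rw [this]
    abel
  rw [dist_comm, dist_eq_norm, h5]
  refine (norm_sub_le _ _).trans_lt ?_
  have h6 : ‖a (d Ω)‖ ≤ ‖a‖ * (ε / (2 * (‖a‖ + 1))) :=
    (a.le_opNorm _).trans (mul_le_mul_of_nonneg_left h3.le (norm_nonneg _))
  have h7 : ‖d (a Ω - ξ)‖ ≤ (2 * ‖x‖) * (ε / (4 * (‖x‖ + 1))) :=
    (d.le_opNorm _).trans (mul_le_mul hdn hc.le (norm_nonneg _) (by positivity))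
  have h8 : ‖a‖ * (ε / (2 * (‖a‖ + 1))) < ε / 2 := by
    have hp : 0 < 2 * (‖a‖ + 1) := by positivity
    rw [mul_div_assoc', div_lt_iff₀ hp]
    nlinarith [norm_nonneg a]
  have h9 : (2 * ‖x‖) * (ε / (4 * (‖x‖ + 1))) ≤ ε / 2 := by
    have hp : 0 < 4 * (‖x‖ + 1) := by positivity
    rw [mul_div_assoc', div_le_iff₀ hp]
    nlinarith [norm_nonneg x]
  linarith

end

end O_Apxh

open O_Apxh

theorem t_O_Apx : O_Apx := by
  intro H _ _ _ M Ω X Z w
  refine ⟨EE w, ?_⟩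
  exact
    { fmem := fmem w
      fmul := fmul w
      fst := fst w
      fmono := fmono X Z
      tail := tail w
      mem := EE_mem w
      le := fun n x hx => (EE_spec w n x hx).2.1
      coef := fun n x hx γ κ h1 h2 => EE_coef w n x hx _ (gen_mem h1 h2)
      bil := by
        intro n x hx v hv
        refine EE_eq w n _ (mul_mem (fmem w n v hv) hx) _ (fmul w n v hv _ (EE_mem w n x hx)) ?_
        intro u hu
        have h1 := EE_coef w n x hx _ (fmul w n _ (fst w n v hv) u hu)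
        rw [mulA, inner_star_left, inner_star_left] at h1
        rw [mulA, mulA, h1]
      bir := by
        intro n x hx v hv
        have hvM := fmem w n v hv
        refine EE_eq w n _ (mul_mem hx hvM) _ (fmul w n _ (EE_mem w n x hx) v hv) ?_
        intro u hu
        have huM := fmem w n u hu
        rw [inner_mul_right w u x v huM hx hvM,
          inner_mul_right w u _ v huM (fmem w n _ (EE_mem w n x hx)) hvM]
        exact (EE_coef w n x hx _ (fmul w n u hu _ (fst w n v hv))).symm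
      fix := by
        intro n v hv
        exact EE_eq w n v (fmem w n v hv) v hv fun _ _ => rfl
      lin := by
        intro n x hx y hy
        refine EE_eq w n _ (add_mem hx hy) _
          (Submodule.add_mem _ (EE_mem w n x hx) (EE_mem w n y hy)) ?_
        intro u hu
        rw [addA, addA, inner_add_right,
          inner_add_right, EE_coef w n x hx u hu, EE_coef w n y hy u hu]
      two := EE_two w
      sot := EE_sot w
      nst := nst w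
      nl := by
        intro x y
        rw [mulA]
        exact x.le_opNorm _
      nr := fun x hx y hy => nr w x hx y hy
      sep := sep w
      pars := fun x _ => pars w x }

end Pool.Agent.H468R2.MA
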