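import Pool.Agent.H468R2.MA.Tasks2

/-!
# Task O_Aut: automorphisms preserve the trace
-/

set_option autoImplicit false

open scoped InnerProductSpace
open Filter Topology

namespace Pool.Agent.H468R2.MA

namespace PAut

variable {H : Type} [NormedAddCommGroup H] [InnerProductSpace ℂ H] [CompleteSpace H]
  {M : VonNeumannAlgebra H} {Ω : H} {X Z : Gm → (H →L[ℂ] H)}

/-- the transported trace -/
noncomputable def phi (Ω : H) (θ : Au M) (z : M.toStarSubalgebra) : ℂ :=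
  ⟪Ω, ((θ z : M.toStarSubalgebra) : H →L[ℂ] H) Ω⟫_ℂ

/-- the trace -/
noncomputable def tau (Ω : H) (z : M.toStarSubalgebra) : ℂ := ⟪Ω, (z : H →L[ℂ] H) Ω⟫_ℂ

lemma phi_add (θ : Au M) (z w : M.toStarSubalgebra) : phi Ω θ (z + w) = phi Ω θ z + phi Ω θ w := by
  unfold phi
  rw [map_add]
  simp [inner_add_right]

lemma phi_sub (θ : Au M) (z w : M.toStarSubalgebra) : phi Ω θ (z - w) = phi Ω θ z - phi Ω θ w := by
  unfold phi
  rw [map_sub]
  simp [inner_sub_right]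

lemma phi_smul (θ : Au M) (c : ℂ) (z : M.toStarSubalgebra) : phi Ω θ (c • z) = c * phi Ω θ z := by
  unfold phi
  rw [map_smul]
  simp [inner_smul_right]

lemma phi_one (hW : Wy M Ω X Z) (θ : Au M) : phi Ω θ 1 = 1 := by
  unfold phi
  rw [map_one]
  simp [inner_self_eq_norm_sq_to_K, hW.unit]

lemma phi_comm (hW : Wy M Ω X Z) (θ : Au M) (z w : M.toStarSubalgebra) :
    phi Ω θ (z * w) = phi Ω θ (w * z) := by
  unfold phi
  rw [map_mul, map_mul]
  have := hW.tr (θ z : M.toStarSubalgebra) (θ z).2 (θ w : M.toStarSubalgebra) (θ w).2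
  simpa using this

lemma phi_zero (hW : Wy M Ω X Z) (θ : Au M) (A U V : M.toStarSubalgebra) (c : ℂ) (hc : c ≠ 1)
    (hU : V * U = 1) (hU' : U * V = 1) (h : U * A = c • (A * U)) : phi Ω θ A = 0 := by
  have h1 : phi Ω θ A = c * phi Ω θ A := by
    calc phi Ω θ A = phi Ω θ (V * (U * A)) := by rw [← mul_assoc, hU, one_mul]
      _ = c * phi Ω θ (V * (A * U)) := by rw [h, mul_smul_comm, phi_smul]
      _ = c * phi Ω θ A := by rw [phi_comm hW, mul_assoc, hU', mul_one]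
  have h2 : (1 - c) * phi Ω θ A = 0 := by linear_combination h1
  rcases mul_eq_zero.1 h2 with h3 | h3
  · exact absurd (sub_eq_zero.1 h3).symm hc
  · exact h3

lemma om_single_left (i : ℕ) (γ : Gm) (h : γ i ≠ 0) : om (sg i 1) γ ≠ 1 := by
  unfold om
  have h1 : (sg i (1 : ZMod (pr i))).support = {i} :=
    DFinsupp.support_single_ne_zero one_ne_zero
  rw [h1, Finset.prod_singleton, DFinsupp.single_eq_same, one_mul]
  intro h2
  apply h
  have := ZMod.injective_stdAddChar (N := pr i)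
  apply this
  rw [h2, AddChar.map_zero_eq_one]

lemma om_single_right (i : ℕ) (κ : Gm) (h : κ i ≠ 0) : om κ (sg i 1) ≠ 1 := by
  unfold om
  have hi : i ∈ κ.support := DFinsupp.mem_support_iff.2 h
  rw [Finset.prod_eq_single i]
  · rw [DFinsupp.single_eq_same, mul_one]
    intro h2
    apply h
    have := ZMod.injective_stdAddChar (N := pr i)
    apply this
    rw [h2, AddChar.map_zero_eq_one]
  · intro j _ hj
    rw [DFinsupp.single_eq_of_ne hj, mul_zero, AddChar.map_zero_eq_one]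
  · intro h2
    exact absurd hi h2

lemma Xinv (hW : Wy M Ω X Z) (γ : Gm) : X (-γ) * X γ = 1 ∧ X γ * X (-γ) = 1 := by
  constructor
  · rw [← hW.Xadd, neg_add_cancel, hW.X0]
  · rw [← hW.Xadd, add_neg_cancel, hW.X0]

lemma Zinv (hW : Wy M Ω X Z) (γ : Gm) : Z (-γ) * Z γ = 1 ∧ Z γ * Z (-γ) = 1 := by
  constructor
  · rw [← hW.Zadd, neg_add_cancel, hW.Z0]
  · rw [← hW.Zadd, add_neg_cancel, hW.Z0]

lemma phi_weyl (hW : Wy M Ω X Z) (θ : Au M) (γ κ : Gm) (h : ¬ (γ = 0 ∧ κ = 0))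
    (hm : X γ * Z κ ∈ M.toStarSubalgebra) : phi Ω θ ⟨X γ * Z κ, hm⟩ = 0 := by
  by_cases hγ : γ = 0
  · have hκ : κ ≠ 0 := fun h' => h ⟨hγ, h'⟩
    obtain ⟨i, hi⟩ : ∃ i, κ i ≠ 0 := by
      by_contra hcon
      push Not at hcon
      exact hκ (DFinsupp.ext hcon)
    have ho := om_single_right i κ hi
    have ho0 : om κ (sg i 1) ≠ 0 := by
      intro h0
      have h1 := hW.cm κ (sg i 1)
      rw [h0, zero_smul] at h1
      have h2 : Z (-κ) * (Z κ * X (sg i 1)) = 0 := by rw [h1, mul_zero]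
      rw [← mul_assoc, (Zinv hW κ).1, one_mul] at h2
      have h3 := (Xinv hW (sg i 1)).1
      rw [h2, mul_zero] at h3
      have h4 : (0 : H →L[ℂ] H) Ω = (1 : H →L[ℂ] H) Ω := by rw [h3]
      have h5 := hW.unit
      simp only [ContinuousLinearMap.zero_apply, ContinuousLinearMap.one_apply] at h4
      rw [← h4, norm_zero] at h5
      exact zero_ne_one h5
    refine phi_zero hW θ _ ⟨X (sg i 1), hW.Xm _⟩ ⟨X (-sg i 1), hW.Xm _⟩ (om κ (sg i 1))⁻¹ ?_ ?_ ?_ ?_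
    · intro h1
      exact ho (inv_eq_one.1 h1)
    · exact Subtype.ext (Xinv hW _).1
    · exact Subtype.ext (Xinv hW _).2
    · apply Subtype.ext
      change X (sg i 1) * (X γ * Z κ) = (om κ (sg i 1))⁻¹ • ((X γ * Z κ) * X (sg i 1))
      rw [hγ, hW.X0, one_mul, hW.cm, smul_smul, inv_mul_cancel₀ ho0, one_smul]
  · obtain ⟨i, hi⟩ : ∃ i, γ i ≠ 0 := by
      by_contra hcon
      push Not at hcon
      exact hγ (DFinsupp.ext hcon)
    refine phi_zero hW θ _ ⟨Z (sg i 1), hW.Zm _⟩ ⟨Z (-sg i 1), hW.Zm _⟩ (om (sg i 1) γ)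
      (om_single_left i γ hi) ?_ ?_ ?_
    · exact Subtype.ext (Zinv hW _).1
    · exact Subtype.ext (Zinv hW _).2
    · apply Subtype.ext
      change Z (sg i 1) * (X γ * Z κ) = om (sg i 1) γ • ((X γ * Z κ) * Z (sg i 1))
      rw [← mul_assoc, hW.cm, smul_mul_assoc, mul_assoc, mul_assoc, ← hW.Zadd, ← hW.Zadd,
        add_comm (sg i 1) κ]

lemma tau_weyl (hW : Wy M Ω X Z) (γ κ : Gm) (h : ¬ (γ = 0 ∧ κ = 0)) :
    ⟪Ω, (X γ * Z κ) Ω⟫_ℂ = 0 := by
  have h1 := hW.orth 0 0 γ κ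
  rw [hW.X0, hW.Z0, one_mul, ContinuousLinearMap.one_apply] at h1
  rw [h1, if_neg]
  rintro ⟨h2, h3⟩
  exact h ⟨h2.symm, h3.symm⟩

lemma phi_fin (hW : Wy M Ω X Z) {E : ℕ → (H →L[ℂ] H) → (H →L[ℂ] H)} (hE : Apx M Ω X Z E)
    (θ : Au M) (n : ℕ) (y : H →L[ℂ] H) (hy : y ∈ Fn X Z n) :
    ∀ hm : y ∈ M.toStarSubalgebra, phi Ω θ ⟨y, hm⟩ = ⟪Ω, y Ω⟫_ℂ := by
  unfold Fn at hy
  induction hy using Submodule.span_induction with
  | mem y hy =>
    obtain ⟨γ, κ, -, -, rfl⟩ := hy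
    intro hm
    by_cases h : γ = 0 ∧ κ = 0
    · obtain ⟨rfl, rfl⟩ := h
      have e : (⟨X 0 * Z 0, hm⟩ : M.toStarSubalgebra) = 1 := by
        apply Subtype.ext
        change X 0 * Z 0 = 1
        rw [hW.X0, hW.Z0, one_mul]
      rw [e, phi_one hW, hW.X0, hW.Z0, one_mul, ContinuousLinearMap.one_apply,
        inner_self_eq_norm_sq_to_K, hW.unit]
      simp
    · rw [phi_weyl hW θ γ κ h, tau_weyl hW γ κ h]
  | zero =>
    intro hm
    have e : (⟨0, hm⟩ : M.toStarSubalgebra) = (0 : ℂ) • 1 := by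
      rw [zero_smul]
      rfl
    rw [e, phi_smul]
    simp
  | add y z hy hz ihy ihz =>
    intro hm
    have hy' : y ∈ M.toStarSubalgebra := hE.fmem n y hy
    have hz' : z ∈ M.toStarSubalgebra := hE.fmem n z hz
    have e : (⟨y + z, hm⟩ : M.toStarSubalgebra) = ⟨y, hy'⟩ + ⟨z, hz'⟩ := rfl
    rw [e, phi_add, ihy hy', ihz hz', ContinuousLinearMap.add_apply, inner_add_right]
  | smul c y hy ihy =>
    intro hm
    have hy' : y ∈ M.toStarSubalgebra := hE.fmem n y hy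
    have e : (⟨c • y, hm⟩ : M.toStarSubalgebra) = c • ⟨y, hy'⟩ := rfl
    rw [e, phi_smul, ihy hy', ContinuousLinearMap.smul_apply, inner_smul_right]

lemma phi_eq (h1 : O_AutC) (hW : Wy M Ω X Z) {E : ℕ → (H →L[ℂ] H) → (H →L[ℂ] H)}
    (hE : Apx M Ω X Z E) (θ : Au M) (z : M.toStarSubalgebra) :
    phi Ω θ z = ⟪Ω, (z : H →L[ℂ] H) Ω⟫_ℂ := by
  set x : H →L[ℂ] H := (z : H →L[ℂ] H) with hx
  have hxM : x ∈ M := z.2
  have hEm : ∀ n, E n x ∈ M.toStarSubalgebra := fun n => hE.fmem n _ (hE.mem n x hxM)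
  set c : ℝ := 2 * ‖x‖ + 1 with hc
  have hc0 : 0 < c := by positivity
  let w : ℕ → M.toStarSubalgebra := fun n => z - ⟨E n x, hEm n⟩
  let v : ℕ → M.toStarSubalgebra := fun n => ((c : ℂ))⁻¹ • w n
  have hwv : ∀ n, w n = (c : ℂ) • v n := by
    intro n
    simp only [v]
    rw [smul_smul, mul_inv_cancel₀ (by exact_mod_cast hc0.ne'), one_smul]
  have hwc : ∀ n, ((w n : M.toStarSubalgebra) : H →L[ℂ] H) = x - E n x := fun n => rfl
  have hvc : ∀ n, ((v n : M.toStarSubalgebra) : H →L[ℂ] H) = ((c : ℂ))⁻¹ • (x - E n x) :=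
    fun n => rfl
  have hv1 : ∀ n, ‖((v n : M.toStarSubalgebra) : H →L[ℂ] H)‖ ≤ 1 := by
    intro n
    rw [hvc, norm_smul, norm_inv, Complex.norm_real, Real.norm_of_nonneg hc0.le,
      inv_mul_le_iff₀ hc0, mul_one]
    have h2 := norm_sub_le x (E n x)
    have h3 := hE.le n x hxM
    linarith
  have hv2 : Tendsto (fun n => ‖((v n : M.toStarSubalgebra) : H →L[ℂ] H) Ω‖) atTop (𝓝 0) := by
    have h2 := (hE.two x hxM).const_mul (c⁻¹)
    rw [mul_zero] at h2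
    refine h2.congr fun n => ?_
    rw [hvc, ContinuousLinearMap.smul_apply, norm_smul, norm_inv, Complex.norm_real,
      Real.norm_of_nonneg hc0.le]
  have hv3 := h1 H M Ω X Z hW θ v hv1 hv2
  have hA : Tendsto (fun n => phi Ω θ (w n)) atTop (𝓝 0) := by
    rw [tendsto_zero_iff_norm_tendsto_zero]
    have h4 := hv3.const_mul c
    rw [mul_zero] at h4
    refine squeeze_zero (fun n => norm_nonneg _) (fun n => ?_) h4
    rw [hwv, phi_smul, norm_mul, Complex.norm_real, Real.norm_of_nonneg hc0.le]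
    apply mul_le_mul_of_nonneg_left _ hc0.le
    unfold phi
    refine (norm_inner_le_norm _ _).trans ?_
    rw [hW.unit, one_mul]
  have hB : Tendsto (fun n => ⟪Ω, (x - E n x) Ω⟫_ℂ) atTop (𝓝 0) := by
    rw [tendsto_zero_iff_norm_tendsto_zero]
    refine squeeze_zero (fun n => norm_nonneg _) (fun n => ?_) (hE.two x hxM)
    refine (norm_inner_le_norm _ _).trans ?_
    rw [hW.unit, one_mul]
  have hC : ∀ n, phi Ω θ (w n) - ⟪Ω, (x - E n x) Ω⟫_ℂ = phi Ω θ z - ⟪Ω, x Ω⟫_ℂ := by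
    intro n
    simp only [w]
    rw [phi_sub, phi_fin hW hE θ n (E n x) (hE.mem n x hxM), ContinuousLinearMap.sub_apply,
      inner_sub_right]
    ring
  have hD := hA.sub hB
  simp only [hC, sub_zero] at hD
  have := tendsto_nhds_unique hD tendsto_const_nhds
  exact (sub_eq_zero.1 this.symm)

end PAut

open PAut in
theorem t_O_Aut (h1 : O_AutC) (h2 : O_Apx) : O_Aut := by
  intro H _ _ _ M Ω X Z hW θ z
  obtain ⟨E, hE⟩ := h2 H M Ω X Z hW
  have h3 := phi_eq h1 hW hE θ (star z * z)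
  have h4 : ∀ T : M.toStarSubalgebra, ⟪Ω, ((star T * T : M.toStarSubalgebra) : H →L[ℂ] H) Ω⟫_ℂ =
      ((‖(T : H →L[ℂ] H) Ω‖ : ℝ) : ℂ) ^ 2 := by
    intro T
    have e : ((star T * T : M.toStarSubalgebra) : H →L[ℂ] H) Ω =
        (ContinuousLinearMap.adjoint (T : H →L[ℂ] H)) ((T : H →L[ℂ] H) Ω) := rfl
    rw [e, ContinuousLinearMap.adjoint_inner_right, inner_self_eq_norm_sq_to_K]
    rfl
  unfold phi at h3
  rw [map_mul, map_star, h4, h4] at h3
  have h5 : ‖((θ z : M.toStarSubalgebra) : H →L[ℂ] H) Ω‖ ^ 2 = ‖(z : H →L[ℂ] H) Ω‖ ^ 2 := by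
    exact_mod_cast h3
  exact (pow_left_inj₀ (norm_nonneg _) (norm_nonneg _) two_ne_zero).1 h5

end Pool.Agent.H468R2.MA
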