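import Pool.Agent.H468R2.MA.P_O_Mono

/-! O_AutC: automorphisms are 2-norm continuous on the unit ball (helper642). -/

set_option autoImplicit false

open scoped InnerProductSpace
open Filter Topology

namespace Pool.Agent.H468R2.MA

namespace P_O_AutCaux

variable {H : Type} [NormedAddCommGroup H] [InnerProductSpace ℂ H] [CompleteSpace H]

/-- the vector state -/
noncomputable def tau (Ω : H) (x : H →L[ℂ] H) : ℝ := RCLike.re ⟪x Ω, Ω⟫_ℂ

theorem tau_mono (Ω : H) {x y : H →L[ℂ] H} (h : x ≤ y) : tau Ω x ≤ tau Ω y := by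
  rw [ContinuousLinearMap.le_def] at h
  have h2 := h.re_inner_nonneg_left Ω
  rw [show (y - x) Ω = y Ω - x Ω from rfl, inner_sub_left, map_sub] at h2
  unfold tau
  linarith

theorem tau_zero (Ω : H) : tau Ω 0 = 0 := by
  unfold tau
  rw [ContinuousLinearMap.zero_apply, inner_zero_left, map_zero]

theorem tau_sum (Ω : H) (s : Finset ℕ) (a : ℕ → (H →L[ℂ] H)) :
    tau Ω (∑ i ∈ s, a i) = ∑ i ∈ s, tau Ω (a i) := by
  unfold tau
  rw [ContinuousLinearMap.sum_apply, sum_inner, map_sum]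

theorem tau_two (Ω : H) (x : H →L[ℂ] H) : tau Ω ((2 : ℂ) • x) = 2 * tau Ω x := by
  unfold tau
  rw [ContinuousLinearMap.smul_apply, inner_smul_left]
  simp

theorem tau_sq (Ω : H) (z : H →L[ℂ] H) : tau Ω (star z * z) = ‖z Ω‖ ^ 2 := by
  unfold tau
  rw [ContinuousLinearMap.mul_apply, ContinuousLinearMap.star_eq_adjoint,
    ContinuousLinearMap.adjoint_inner_left, inner_self_eq_norm_sq (𝕜 := ℂ)]

theorem tau_tendsto (Ω : H) (A : ℕ → (H →L[ℂ] H)) (B : H →L[ℂ] H)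
    (h : ∀ ξ, Tendsto (fun n => A n ξ) atTop (𝓝 (B ξ))) :
    Tendsto (fun n => tau Ω (A n)) atTop (𝓝 (tau Ω B)) :=
  (RCLike.continuous_re.tendsto _).comp ((h Ω).inner tendsto_const_nhds)

theorem mem_of_tendsto (M : VonNeumannAlgebra H) (A : ℕ → (H →L[ℂ] H)) (B : H →L[ℂ] H)
    (hA : ∀ n, A n ∈ M) (h : ∀ ξ, Tendsto (fun n => A n ξ) atTop (𝓝 (B ξ))) : B ∈ M := by
  rw [← M.commutant_commutant, VonNeumannAlgebra.mem_commutant_iff]
  intro g hg
  rw [VonNeumannAlgebra.mem_commutant_iff] at hg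
  ext ξ
  have e1 : Tendsto (fun n => g (A n ξ)) atTop (𝓝 (g (B ξ))) := (g.continuous.tendsto _).comp (h ξ)
  have e2 := h (g ξ)
  have e3 : (fun n => A n (g ξ)) = fun n => g (A n ξ) := by
    funext n
    have := hg (A n) (hA n)
    exact congrArg (fun T : H →L[ℂ] H => T ξ) this
  rw [e3] at e2
  exact tendsto_nhds_unique e1 e2

theorem star_mul_le_one (z : H →L[ℂ] H) (hz : ‖z‖ ≤ 1) : star z * z ≤ 1 := by
  rw [← CStarAlgebra.norm_le_one_iff_of_nonneg (star z * z) (star_mul_self_nonneg z)]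
  rw [CStarRing.norm_star_mul_self]
  nlinarith [norm_nonneg z]

end P_O_AutCaux

open P_O_Monoaux P_O_AutCaux

theorem t_O_AutC (h1 : O_Mono) (h2 : O_Anti) (h3 : O_Res) (h4 : O_Ord) (h5 : O_Apx) :
    O_AutC := by
  intro H _ _ _ M Ω X Z hW θ z hz1 hz0
  obtain ⟨E, hE⟩ := h5 H M Ω X Z hW
  obtain ⟨hR1, hR2, hR3⟩ := h3 H
  by_contra hcon
  obtain ⟨ε, hε, hfr⟩ : ∃ ε : ℝ, 0 < ε ∧ ∃ᶠ n in atTop,
      ε ≤ ‖((θ (z n) : M.toStarSubalgebra) : H →L[ℂ] H) Ω‖ := by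
    by_contra hno
    apply hcon
    rw [Metric.tendsto_nhds]
    intro ε hε
    have hn : ¬ ∃ᶠ n in atTop, ε ≤ ‖((θ (z n) : M.toStarSubalgebra) : H →L[ℂ] H) Ω‖ :=
      fun hf => hno ⟨ε, hε, hf⟩
    rw [not_frequently] at hn
    filter_upwards [hn] with n hn
    rw [dist_zero_right, norm_norm]
    exact not_le.1 hn
  have hsel : ∀ n : ℕ, ∃ k, ε ≤ ‖((θ (z k) : M.toStarSubalgebra) : H →L[ℂ] H) Ω‖ ∧
      ‖(z k : H →L[ℂ] H) Ω‖ ^ 2 ≤ (1 / 4 : ℝ) ^ n := by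
    intro n
    have hev : ∀ᶠ k in atTop, ‖(z k : H →L[ℂ] H) Ω‖ ^ 2 ≤ (1 / 4 : ℝ) ^ n := by
      have ht := hz0.pow 2
      rw [zero_pow two_ne_zero] at ht
      filter_upwards [ht.eventually_lt_const (show (0 : ℝ) < (1 / 4 : ℝ) ^ n by positivity)]
        with k hk
      exact hk.le
    exact (hfr.and_eventually hev).exists
  choose k hk1 hk2 using hsel
  -- the elements
  obtain ⟨a, ha⟩ : ∃ a : ℕ → M.toStarSubalgebra, ∀ n, a n = star (z (k n)) * z (k n) :=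
    ⟨_, fun n => rfl⟩
  have hac : ∀ n, ((a n : M.toStarSubalgebra) : H →L[ℂ] H) =
      star (z (k n) : H →L[ℂ] H) * (z (k n) : H →L[ℂ] H) := by
    intro n
    rw [ha]
    rfl
  have ha0 : ∀ n, 0 ≤ ((a n : M.toStarSubalgebra) : H →L[ℂ] H) := by
    intro n
    rw [hac]
    exact star_mul_self_nonneg _
  have ha1 : ∀ n, ((a n : M.toStarSubalgebra) : H →L[ℂ] H) ≤ 1 := by
    intro n
    rw [hac]
    exact star_mul_le_one _ (hz1 _)
  have hat : ∀ n, tau Ω (a n : H →L[ℂ] H) ≤ (1 / 4 : ℝ) ^ n := by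
    intro n
    rw [hac, tau_sq]
    exact hk2 n
  obtain ⟨S, hS⟩ : ∃ S : ℕ → ℕ → (H →L[ℂ] H), ∀ n m, S n m =
      ∑ i ∈ Finset.Ico n m, ((a i : M.toStarSubalgebra) : H →L[ℂ] H) := ⟨_, fun n m => rfl⟩
  have hS0 : ∀ n m, 0 ≤ S n m := by
    intro n m
    rw [hS]
    exact Finset.sum_nonneg fun i _ => ha0 i
  have hSmono : ∀ n m n' m', n' ≤ n → m ≤ m' → S n m ≤ S n' m' := by
    intro n m n' m' hn hm
    rw [hS, hS]
    exact Finset.sum_le_sum_of_subset_of_nonneg (Finset.Ico_subset_Ico hn hm)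
      fun i _ _ => ha0 i
  have hSM : ∀ n m, S n m ∈ M := by
    intro n m
    rw [hS]
    exact sum_mem fun i _ => (a i).2
  have hSt : ∀ n m, tau Ω (S n m) ≤ 2 * (1 / 4 : ℝ) ^ n := by
    intro n m
    rw [hS, tau_sum]
    have e1 : ∑ i ∈ Finset.Ico n m, tau Ω ((a i : M.toStarSubalgebra) : H →L[ℂ] H) ≤
        ∑ i ∈ Finset.Ico n m, (1 / 4 : ℝ) ^ i := Finset.sum_le_sum fun i _ => hat i
    refine e1.trans ?_
    rcases le_total m n with hmn | hmn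
    · rw [Finset.Ico_eq_empty_of_le hmn, Finset.sum_empty]
      positivity
    · rw [geom_sum_Ico' (by norm_num) hmn]
      have e2 : (0 : ℝ) < (1 / 4 : ℝ) ^ m := by positivity
      have e3 : (0 : ℝ) < (1 / 4 : ℝ) ^ n := by positivity
      rw [div_le_iff₀ (by norm_num)]
      nlinarith
  have hy : ∀ n, ∃ y : H →L[ℂ] H, 0 ≤ y ∧ y ≤ 1 ∧ (∀ m, rs (S n m) ≤ y) ∧
      ∀ ξ, Tendsto (fun m => rs (S n m) ξ) atTop (𝓝 (y ξ)) := by
    intro n
    refine h1 H (fun m => rs (S n m)) (fun m => ?_) (fun m => ?_) (fun m => ?_)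
    · exact (hR1 _ _ (hS0 n m) le_rfl).1
    · exact (hR1 _ _ (hS0 n m) (hSmono n m n (m + 1) le_rfl (Nat.le_succ m))).2.1
    · exact (hR1 _ _ (hS0 n m) le_rfl).2.2.1
  choose y hy0 hy1 hyle hylim using hy
  have hyM : ∀ n, y n ∈ M := fun n =>
    mem_of_tendsto M (fun m => rs (S n m)) (y n) (fun m => hR3 M _ (hS0 n m) (hSM n m)) (hylim n)
  have hyt : ∀ n, tau Ω (y n) ≤ 2 * (1 / 4 : ℝ) ^ n := by
    intro n
    refine le_of_tendsto (tau_tendsto Ω _ _ (hylim n)) (Eventually.of_forall fun m => ?_)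
    exact (tau_mono Ω (hR1 _ _ (hS0 n m) le_rfl).2.2.2).trans (hSt n m)
  have hyanti : ∀ n, y (n + 1) ≤ y n := by
    intro n
    refine sub_nonneg.1 (pos_of_tendsto (fun m => rs (S n m) - rs (S (n + 1) m))
      (y n - y (n + 1)) 0 (fun m _ => ?_) fun ξ => ?_)
    · exact sub_nonneg.2 (hR1 _ _ (hS0 _ _)
        (hSmono (n + 1) m n m (Nat.le_succ n) le_rfl)).2.1
    · exact (hylim n ξ).sub (hylim (n + 1) ξ)
  -- the automorphism
  have hθmono : ∀ (φ : Au M) (b c : M.toStarSubalgebra), (b : H →L[ℂ] H) ≤ (c : H →L[ℂ] H) →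
      ((φ b : M.toStarSubalgebra) : H →L[ℂ] H) ≤ ((φ c : M.toStarSubalgebra) : H →L[ℂ] H) := by
    intro φ b c hbc
    have e1 : 0 ≤ ((c - b : M.toStarSubalgebra) : H →L[ℂ] H) := by
      rw [show ((c - b : M.toStarSubalgebra) : H →L[ℂ] H) = (c : H →L[ℂ] H) - b from rfl]
      exact sub_nonneg.2 hbc
    have e2 := h4 H M φ (c - b) e1
    rw [map_sub] at e2
    exact sub_nonneg.1 e2
  have hone : ∀ φ : Au M, φ (1 : M.toStarSubalgebra) = 1 := fun φ => map_one φ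
  have hzero : ∀ φ : Au M, φ (0 : M.toStarSubalgebra) = 0 := fun φ => map_zero φ
  obtain ⟨T, hT⟩ : ∃ T : ℕ → (H →L[ℂ] H), ∀ n, T n =
      ((θ ⟨y n, hyM n⟩ : M.toStarSubalgebra) : H →L[ℂ] H) := ⟨_, fun n => rfl⟩
  have hT0 : ∀ n, 0 ≤ T n := by
    intro n
    rw [hT]
    exact h4 H M θ _ (hy0 n)
  have hT1 : ∀ n, T n ≤ 1 := by
    intro n
    rw [hT]
    have := hθmono θ ⟨y n, hyM n⟩ 1 (hy1 n)
    rw [hone] at this
    exact this
  have hTanti : ∀ n, T (n + 1) ≤ T n := by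
    intro n
    rw [hT, hT]
    exact hθmono θ ⟨y (n + 1), hyM (n + 1)⟩ ⟨y n, hyM n⟩ (hyanti n)
  obtain ⟨w, hw0, hw1, hwle, hwlim⟩ := h2 H T hT0 hTanti hT1
  have hwM : w ∈ M := mem_of_tendsto M T w (fun n => by rw [hT]; exact (θ _).2) hwlim
  -- `w = 0`
  have hw' : (θ.symm ⟨w, hwM⟩ : M.toStarSubalgebra) = 0 := by
    obtain ⟨c, hc⟩ : ∃ c : M.toStarSubalgebra, c = θ.symm ⟨w, hwM⟩ := ⟨_, rfl⟩
    rw [← hc]
    have c0 : 0 ≤ (c : H →L[ℂ] H) := by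
      rw [hc]
      exact h4 H M θ.symm ⟨w, hwM⟩ hw0
    have c1 : (c : H →L[ℂ] H) ≤ 1 := by
      rw [hc]
      have := hθmono θ.symm ⟨w, hwM⟩ 1 hw1
      rw [hone] at this
      exact this
    have cy : ∀ n, (c : H →L[ℂ] H) ≤ y n := by
      intro n
      have e1 : w ≤ ((θ ⟨y n, hyM n⟩ : M.toStarSubalgebra) : H →L[ℂ] H) := by
        rw [← hT]
        exact hwle n
      have e2 := hθmono θ.symm ⟨w, hwM⟩ (θ ⟨y n, hyM n⟩) e1
      rw [StarAlgEquiv.symm_apply_apply] at e2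
      rw [hc]
      exact e2
    have ct : tau Ω (c : H →L[ℂ] H) ≤ 0 := by
      have e1 : Tendsto (fun n : ℕ => 2 * (1 / 4 : ℝ) ^ n) atTop (𝓝 (2 * 0)) :=
        (tendsto_pow_atTop_nhds_zero_of_lt_one (by norm_num) (by norm_num)).const_mul 2
      rw [mul_zero] at e1
      exact ge_of_tendsto e1 (Eventually.of_forall fun n => (tau_mono Ω (cy n)).trans (hyt n))
    have cn : ‖(c : H →L[ℂ] H) Ω‖ ^ 2 ≤ 0 := (sq_le _ c0 c1 Ω).trans ct
    have cn' : (c : H →L[ℂ] H) Ω = 0 := by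
      have := norm_nonneg ((c : H →L[ℂ] H) Ω)
      exact norm_eq_zero.1 (by nlinarith)
    exact Subtype.ext (hE.sep _ c.2 cn')
  have hwz : w = 0 := by
    have e1 : θ (θ.symm ⟨w, hwM⟩) = 0 := by rw [hw', hzero]
    rw [StarAlgEquiv.apply_symm_apply] at e1
    exact congrArg Subtype.val e1
  -- contradiction
  have hfin : ∀ n, ε ^ 2 ≤ 2 * tau Ω (T n) := by
    intro n
    have e1 : ((a n : M.toStarSubalgebra) : H →L[ℂ] H) = S n (n + 1) := by
      rw [hS, Nat.Ico_succ_singleton, Finset.sum_singleton]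
    have e2 : ((a n : M.toStarSubalgebra) : H →L[ℂ] H) ≤ (2 : ℂ) • y n := by
      have e3 := hR2 _ (ha0 n) (ha1 n)
      refine e3.trans ?_
      rw [e1, two_smul, two_smul]
      exact add_le_add (hyle n (n + 1)) (hyle n (n + 1))
    have e3 : ((θ (a n) : M.toStarSubalgebra) : H →L[ℂ] H) ≤ (2 : ℂ) • T n := by
      have e4 := hθmono θ (a n) ((2 : ℂ) • ⟨y n, hyM n⟩) e2
      rw [map_smul] at e4
      rw [hT]
      exact e4
    have e5 : tau Ω ((θ (a n) : M.toStarSubalgebra) : H →L[ℂ] H) =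
        ‖((θ (z (k n)) : M.toStarSubalgebra) : H →L[ℂ] H) Ω‖ ^ 2 := by
      rw [ha, map_mul, map_star]
      exact tau_sq Ω _
    have e6 := tau_mono Ω e3
    rw [e5, tau_two] at e6
    exact (pow_le_pow_left₀ hε.le (hk1 n) 2).trans e6
  have hlim : Tendsto (fun n => 2 * tau Ω (T n)) atTop (𝓝 (2 * tau Ω w)) :=
    (tau_tendsto Ω T w hwlim).const_mul 2
  have hge := ge_of_tendsto hlim (Eventually.of_forall hfin)
  rw [hwz, tau_zero, mul_zero] at hge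
  have : 0 < ε ^ 2 := by positivity
  linarith

end Pool.Agent.H468R2.MA
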