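import Pool.Agent.H468R2.MA.Tasks2

/-!
# Functional calculus at a site
-/

set_option autoImplicit false

open scoped InnerProductSpace
open Filter Topology

namespace Pool.Agent.H468R2.MA

namespace OCalc

section site

variable {p : ℕ} [NeZero p] {B : Type} [Ring B] [Algebra ℂ B]

/-- the character `e` -/
noncomputable abbrev e (a : ZMod p) : ℂ := ZMod.stdAddChar a

theorem e_add (a b : ZMod p) : e (a + b) = e a * e b := AddChar.map_add_eq_mul _ a b

theorem e_zero : e (0 : ZMod p) = 1 := AddChar.map_zero_eq_one _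

theorem e_neg_mul (a : ZMod p) : e (-a) * e a = 1 := by
  rw [← e_add, neg_add_cancel, e_zero]

theorem e_conj (a : ZMod p) : star (e a) = e (-a) := by
  have h1 : e (-a) = (e a)⁻¹ := eq_inv_of_mul_eq_one_left (e_neg_mul a)
  rw [h1]
  have h2 : ‖e a‖ = 1 := AddChar.norm_apply _ _
  rw [RCLike.star_def, Complex.inv_def, Complex.normSq_eq_norm_sq, h2]
  simp

theorem e_sum (m : ZMod p) : ∑ j : ZMod p, e (j * m) = if m = 0 then (p : ℂ) else 0 := by
  have h := AddChar.sum_mulShift (ψ := (ZMod.stdAddChar : AddChar (ZMod p) ℂ)) m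
    (ZMod.isPrimitive_stdAddChar p)
  rw [ZMod.card] at h
  rw [h]
  split_ifs <;> simp

variable (W : ZMod p → B)

/-- the spectral projections -/
noncomputable def Pj (m : ZMod p) : B := ∑ j : ZMod p, ((p : ℂ)⁻¹ * e (-(j * m))) • W j

/-- the calculus -/
noncomputable def Dw (h : ZMod p → ℂ) : B :=
  ∑ j : ZMod p, ((p : ℂ)⁻¹ * ∑ m : ZMod p, h m * e (-(j * m))) • W j

theorem Dw_eq (h : ZMod p → ℂ) : Dw W h = ∑ m, h m • Pj W m := by
  unfold Dw Pj
  simp only [Finset.smul_sum, smul_smul]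
  rw [Finset.sum_comm]
  apply Finset.sum_congr rfl
  intro j _
  rw [← Finset.sum_smul]
  congr 1
  rw [Finset.mul_sum]
  apply Finset.sum_congr rfl
  intro m _
  ring

variable {W}

theorem W_Pj (hW : ∀ i j, W (i + j) = W i * W j) (j m : ZMod p) :
    W j * Pj W m = e (j * m) • Pj W m := by
  unfold Pj
  rw [Finset.mul_sum, Finset.smul_sum]
  rw [← Equiv.sum_comp (Equiv.subRight j)
    (fun i => W j * ((p : ℂ)⁻¹ * e (-(i * m))) • W i)]
  apply Finset.sum_congr rfl
  intro i _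
  rw [Equiv.subRight_apply, mul_smul_comm, ← hW, add_sub_cancel, smul_smul]
  congr 1
  have h1 : -((i - j) * m) = -(i * m) + j * m := by ring
  rw [h1, e_add]
  ring

theorem Pj_mul (hW : ∀ i j, W (i + j) = W i * W j) (m m' : ZMod p) :
    Pj W m * Pj W m' = if m = m' then Pj W m' else 0 := by
  have h1 : Pj W m * Pj W m' = ((p : ℂ)⁻¹ * ∑ j : ZMod p, e (j * (m' - m))) • Pj W m' := by
    conv_lhs => rw [Pj, Finset.sum_mul]
    rw [Finset.mul_sum, Finset.sum_smul]
    apply Finset.sum_congr rfl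
    intro j _
    rw [smul_mul_assoc, W_Pj hW, smul_smul]
    congr 1
    have h2 : j * (m' - m) = -(j * m) + j * m' := by ring
    rw [h2, e_add]
    ring
  rw [h1, e_sum]
  have hp : (p : ℂ) ≠ 0 := by exact_mod_cast NeZero.ne p
  by_cases h : m = m'
  · rw [if_pos (by rw [h, sub_self]), if_pos h, inv_mul_cancel₀ hp, one_smul]
  · rw [if_neg (fun h' => h (sub_eq_zero.1 h').symm), if_neg h, mul_zero, zero_smul]

theorem Pj_sum (hW0 : W 0 = 1) : ∑ m, Pj W m = 1 := by
  unfold Pj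
  rw [Finset.sum_comm, Finset.sum_eq_single 0]
  · rw [← Finset.sum_smul, hW0]
    have hp : (p : ℂ) ≠ 0 := by exact_mod_cast NeZero.ne p
    have h1 : ∑ m : ZMod p, (p : ℂ)⁻¹ * e (-(0 * m)) = 1 := by
      simp only [zero_mul, neg_zero, e_zero, mul_one, Finset.sum_const, Finset.card_univ,
        ZMod.card, nsmul_eq_mul]
      exact mul_inv_cancel₀ hp
    rw [h1, one_smul]
  · intro j _ hj
    rw [← Finset.sum_smul, ← Finset.mul_sum]
    have h1 : ∑ m : ZMod p, e (-(j * m)) = 0 := by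
      have h2 := e_sum (-j)
      rw [if_neg (neg_ne_zero.2 hj)] at h2
      rw [← h2]
      apply Finset.sum_congr rfl
      intro m _
      congr 1
      ring
    rw [h1, mul_zero, zero_smul]
  · intro h
    exact absurd (Finset.mem_univ _) h

theorem Dw_one (hW0 : W 0 = 1) : Dw W (fun _ => 1) = 1 := by
  rw [Dw_eq]
  simp only [one_smul]
  exact Pj_sum hW0

theorem Dw_mul (hW : ∀ i j, W (i + j) = W i * W j) (h h' : ZMod p → ℂ) :
    Dw W (fun m => h m * h' m) = Dw W h * Dw W h' := by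
  rw [Dw_eq, Dw_eq, Dw_eq, Finset.sum_mul]
  apply Finset.sum_congr rfl
  intro m _
  rw [Finset.mul_sum, Finset.sum_eq_single m]
  · rw [smul_mul_smul_comm, Pj_mul hW, if_pos rfl]
  · intro m' _ hm'
    rw [smul_mul_smul_comm, Pj_mul hW, if_neg hm'.symm, smul_zero]
  · intro hm
    exact absurd (Finset.mem_univ _) hm

theorem Dw_chr (hW : ∀ i j, W (i + j) = W i * W j) (hW0 : W 0 = 1) (j : ZMod p) :
    Dw W (fun m => e (j * m)) = W j := by
  rw [Dw_eq]
  calc ∑ m, e (j * m) • Pj W m = ∑ m, W j * Pj W m :=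
        Finset.sum_congr rfl fun m _ => (W_Pj hW j m).symm
    _ = W j := by rw [← Finset.mul_sum, Pj_sum hW0, mul_one]

theorem Pj_star [StarRing B] [StarModule ℂ B] (hs : ∀ j, star (W j) = W (-j)) (m : ZMod p) :
    star (Pj W m) = Pj W m := by
  unfold Pj
  rw [star_sum, ← Equiv.sum_comp (Equiv.neg (ZMod p))
    (fun j => star (((p : ℂ)⁻¹ * e (-(j * m))) • W j))]
  apply Finset.sum_congr rfl
  intro j _
  rw [Equiv.neg_apply, star_smul, hs, neg_neg, star_mul, e_conj]
  congr 1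
  rw [star_inv₀]
  have h1 : star (p : ℂ) = p := by simp
  rw [h1, mul_comm]
  congr 2
  ring

theorem Dw_star [StarRing B] [StarModule ℂ B] (hs : ∀ j, star (W j) = W (-j)) (h : ZMod p → ℂ) :
    star (Dw W h) = Dw W (fun m => star (h m)) := by
  rw [Dw_eq, Dw_eq, star_sum]
  apply Finset.sum_congr rfl
  intro m _
  rw [star_smul, Pj_star hs]

theorem Dw_comm (h : ZMod p → ℂ) (x : B) (hx : ∀ j, W j * x = x * W j) :
    Dw W h * x = x * Dw W h := by
  unfold Dw
  rw [Finset.sum_mul, Finset.mul_sum]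
  apply Finset.sum_congr rfl
  intro j _
  rw [smul_mul_assoc, mul_smul_comm, hx]

theorem Dw_shift (l : ZMod p) (x : B) (hx : ∀ j, x * W j = e (-(j * l)) • (W j * x))
    (h : ZMod p → ℂ) : x * Dw W h = Dw W (fun m => h (m - l)) * x := by
  have h1 : ∀ m, x * Pj W m = Pj W (m + l) * x := by
    intro m
    unfold Pj
    rw [Finset.mul_sum, Finset.sum_mul]
    apply Finset.sum_congr rfl
    intro j _
    rw [mul_smul_comm, hx, smul_smul, smul_mul_assoc]
    congr 1
    have h2 : -(j * (m + l)) = -(j * m) + -(j * l) := by ring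
    rw [h2, e_add]
    ring
  rw [Dw_eq, Dw_eq, Finset.mul_sum, Finset.sum_mul]
  rw [← Equiv.sum_comp (Equiv.addRight l) (fun m => h (m - l) • Pj W m * x)]
  apply Finset.sum_congr rfl
  intro m _
  rw [Equiv.coe_addRight, add_sub_cancel_right, mul_smul_comm, h1, smul_mul_assoc]

end site

section

variable {H : Type} [NormedAddCommGroup H] [InnerProductSpace ℂ H] [CompleteSpace H]
  {p : ℕ} [NeZero p] {W : ZMod p → (H →L[ℂ] H)}

theorem norm_Pj (hW : ∀ i j, W (i + j) = W i * W j) (hs : ∀ j, star (W j) = W (-j))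
    (m : ZMod p) (ξ : H) : ⟪ξ, Pj W m ξ⟫_ℂ = ((‖Pj W m ξ‖ ^ 2 : ℝ) : ℂ) := by
  have h1 : Pj W m = star (Pj W m) * Pj W m := by
    rw [Pj_star hs, Pj_mul hW, if_pos rfl]
  conv_lhs => rw [h1]
  rw [ContinuousLinearMap.star_eq_adjoint, ContinuousLinearMap.mul_apply,
    ContinuousLinearMap.adjoint_inner_right, inner_self_eq_norm_sq_to_K]
  norm_cast

theorem norm_Dw (hW : ∀ i j, W (i + j) = W i * W j) (hs : ∀ j, star (W j) = W (-j))
    (h : ZMod p → ℂ) (ξ : H) : ‖Dw W h ξ‖ ^ 2 = ∑ m, ‖h m‖ ^ 2 * ‖Pj W m ξ‖ ^ 2 := by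
  have h1 : ⟪Dw W h ξ, Dw W h ξ⟫_ℂ = ⟪ξ, Dw W (fun m => star (h m) * h m) ξ⟫_ℂ := by
    rw [Dw_mul hW, ← Dw_star hs, ContinuousLinearMap.star_eq_adjoint,
      ContinuousLinearMap.mul_apply, ContinuousLinearMap.adjoint_inner_right]
  have h2 : ⟪ξ, Dw W (fun m => star (h m) * h m) ξ⟫_ℂ =
      ((∑ m, ‖h m‖ ^ 2 * ‖Pj W m ξ‖ ^ 2 : ℝ) : ℂ) := by
    rw [Dw_eq, ContinuousLinearMap.sum_apply, inner_sum]
    push_cast
    apply Finset.sum_congr rfl
    intro m _
    rw [Pi.smul_apply, inner_smul_right, norm_Pj hW hs]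
    have h3 : star (h m) * h m = ((‖h m‖ ^ 2 : ℝ) : ℂ) := by
      rw [RCLike.star_def, mul_comm, Complex.mul_conj, Complex.normSq_eq_norm_sq]
    rw [h3]
    push_cast
    ring
  rw [h2, inner_self_eq_norm_sq_to_K] at h1
  apply Complex.ofReal_injective
  rw [← h1]
  push_cast
  rfl

theorem norm_le (hW : ∀ i j, W (i + j) = W i * W j) (hW0 : W 0 = 1)
    (hs : ∀ j, star (W j) = W (-j)) (h : ZMod p → ℂ) (c : ℝ) (hc : ∀ m, ‖h m‖ ≤ c) :
    ‖Dw W h‖ ≤ c := by
  have hc0 : 0 ≤ c := (norm_nonneg _).trans (hc 0)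
  apply ContinuousLinearMap.opNorm_le_bound _ hc0
  intro ξ
  have h1 := norm_Dw hW hs h ξ
  have h2 := norm_Dw hW hs (fun _ => 1) ξ
  rw [Dw_one hW0] at h2
  have h3 : ‖Dw W h ξ‖ ^ 2 ≤ (c * ‖ξ‖) ^ 2 := by
    have h4 : ‖ξ‖ ^ 2 = ∑ m, ‖Pj W m ξ‖ ^ 2 := by
      simpa using h2
    rw [h1, mul_pow, h4, Finset.mul_sum]
    apply Finset.sum_le_sum
    intro m _
    exact mul_le_mul_of_nonneg_right (pow_le_pow_left₀ (norm_nonneg _) (hc m) 2) (sq_nonneg _)
  exact le_of_sq_le_sq h3 (by positivity)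

end

theorem om_single (k : ℕ) (j : ZMod (pr k)) (γ : Gm) :
    om (sg k j) γ = ZMod.stdAddChar (j * γ k) := by
  unfold om
  have hsub : (sg k j).support ⊆ {k} := DFinsupp.support_single_subset
  rw [Finset.prod_subset hsub]
  · rw [Finset.prod_singleton, DFinsupp.single_eq_same]
  · intro i _ hi
    rw [DFinsupp.notMem_support_iff] at hi
    rw [hi, zero_mul, AddChar.map_zero_eq_one]

end OCalc

open OCalc in
theorem t_O_Calc : O_Calc := by
  intro H _ _ _ M Ω X Z hW
  have hadd : ∀ k, ∀ i j : ZMod (pr k), Z (sg k (i + j)) = Z (sg k i) * Z (sg k j) := by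
    intro k i j
    rw [← hW.Zadd]
    congr 1
    exact DFinsupp.single_add (β := fun i => ZMod (pr i)) k i j
  have hzero : ∀ k, Z (sg k (0 : ZMod (pr k))) = 1 := by
    intro k
    rw [← hW.Z0]
    congr 1
    exact DFinsupp.single_zero (β := fun i => ZMod (pr i)) k
  have hstar : ∀ k, ∀ j : ZMod (pr k), star (Z (sg k j)) = Z (sg k (-j)) := by
    intro k j
    rw [hW.Zst]
    congr 1
    exact (DFinsupp.single_neg (β := fun i => ZMod (pr i)) k j).symm
  have hZZ : ∀ κ κ', Z κ * Z κ' = Z κ' * Z κ := by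
    intro κ κ'
    rw [← hW.Zadd, ← hW.Zadd, add_comm]
  have hD : ∀ k (h : ZMod (pr k) → ℂ), Dg Z k h = Dw (fun j => Z (sg k j)) h := fun k h => rfl
  have hcZ : ∀ k (h : ZMod (pr k) → ℂ) κ, Dg Z k h * Z κ = Z κ * Dg Z k h := by
    intro k h κ
    rw [hD]
    exact Dw_comm h (Z κ) fun j => hZZ _ _
  refine ⟨?_, ?_, ?_, ?_, ?_, ?_, ?_, hcZ, ?_, ?_, ?_, ?_, ?_, ?_⟩
  · intro k
    rw [hD]
    exact Dw_one (W := fun j => Z (sg k j)) (hzero k)
  · intro k h h'
    rw [hD, hD, hD]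
    exact Dw_mul (W := fun j => Z (sg k j)) (hadd k) h h'
  · intro k h h'
    rw [hD, hD, hD, Dw_eq, Dw_eq, Dw_eq, ← Finset.sum_add_distrib]
    apply Finset.sum_congr rfl
    intro m _
    rw [add_smul]
  · intro k c h
    rw [hD, hD, Dw_eq, Dw_eq, Finset.smul_sum]
    apply Finset.sum_congr rfl
    intro m _
    rw [smul_smul]
  · intro k h
    rw [hD, hD]
    exact Dw_star (W := fun j => Z (sg k j)) (hstar k) h
  · intro k j
    rw [hD]
    exact Dw_chr (W := fun j => Z (sg k j)) (hadd k) (hzero k) j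
  · intro k l h
    rw [hD, hD]
    apply Dw_shift (W := fun j => Z (sg k j))
    intro j
    rw [hW.cm, om_single, DFinsupp.single_eq_same, smul_smul, e_neg_mul, one_smul]
  · intro k h γ hγ
    rw [hD]
    apply Dw_comm
    intro j
    rw [hW.cm, om_single, hγ, mul_zero, AddChar.map_zero_eq_one, one_smul]
  · intro k h c hc
    rw [hD]
    exact norm_le (W := fun j => Z (sg k j)) (hadd k) (hzero k) (hstar k) h c hc
  · intro k h
    have h1 : ∀ j : ZMod (pr k), ⟪Ω, Z (sg k j) Ω⟫_ℂ = if j = 0 then 1 else 0 := by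
      intro j
      have h2 := hW.orth 0 0 0 (sg k j)
      rw [hW.X0, hW.Z0, one_mul, one_mul] at h2
      rw [ContinuousLinearMap.one_apply] at h2
      rw [h2]
      by_cases hj : j = 0
      · rw [if_pos ⟨rfl, by rw [hj]; exact (DFinsupp.single_zero (β := fun i => ZMod (pr i)) k).symm⟩, if_pos hj]
      · rw [if_neg (fun h3 => hj ((DFinsupp.single_eq_zero (β := fun i => ZMod (pr i)) (i := k)).1 h3.2.symm)), if_neg hj]
    unfold Dg
    rw [ContinuousLinearMap.sum_apply, inner_sum, Finset.sum_eq_single 0]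
    · rw [ContinuousLinearMap.smul_apply, inner_smul_right, h1, if_pos rfl, mul_one]
      congr 1
      apply Finset.sum_congr rfl
      intro m _
      rw [zero_mul, neg_zero, AddChar.map_zero_eq_one, mul_one]
    · intro j _ hj
      rw [ContinuousLinearMap.smul_apply, inner_smul_right, h1, if_neg hj, mul_zero]
    · intro h0
      exact absurd (Finset.mem_univ _) h0
  · intro k h
    unfold Dg
    have : ∑ j : ZMod (pr k), (((pr k : ℂ))⁻¹ * ∑ m : ZMod (pr k), h m *
        ZMod.stdAddChar (-(j * m))) • Z (sg k j) ∈ M.toStarSubalgebra := by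
      apply sum_mem
      intro j _
      exact M.toStarSubalgebra.smul_mem (hW.Zm _) _
    exact this
  · intro k n h hkn
    unfold Dg
    apply Submodule.sum_mem
    intro j _
    apply Submodule.smul_mem
    apply Submodule.subset_span
    refine ⟨0, sg k j, fun _ _ => rfl, ?_, ?_⟩
    · intro i hi
      exact DFinsupp.single_eq_of_ne (by omega)
    · rw [hW.X0, one_mul]
  · intro k l h h'
    rw [hD l h']
    exact (Dw_comm h' (Dg Z k h) fun j => (hcZ k h _).symm).symm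

end Pool.Agent.H468R2.MA
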