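import Pool.Agent.H468R2.MA.Tasks2

/-!
# O_Enc: encoding of `L`-structures as relational structures
-/

set_option autoImplicit false

namespace Pool.Agent.H468R2.MA

namespace P_O_Enc

open FirstOrder

variable (L : FirstOrder.Language.{0, 0})

/-- index set -/
abbrev rho : Type := (Σ n, L.Functions n) ⊕ (Σ n, L.Relations n)

/-- arities -/
def ar : rho L → ℕ
  | Sum.inl p => p.1 + 1
  | Sum.inr p => p.1

/-- the encoding -/
def enc (𝔐 : L.Structure ℕ) : RS (rho L) (ar L)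
  | Sum.inl p => fun a : Fin (p.1 + 1) → ℕ =>
      𝔐.funMap p.2 (fun i : Fin p.1 => a i.castSucc) = a (Fin.last p.1)
  | Sum.inr p => fun a : Fin p.1 → ℕ => 𝔐.RelMap p.2 a

theorem iso_iff (𝔐 𝔑 : L.Structure ℕ) :
    Nonempty (@FirstOrder.Language.Equiv L ℕ ℕ 𝔐 𝔑) ↔ Iso (enc L 𝔐) (enc L 𝔑) := by
  constructor
  · rintro ⟨φ⟩
    refine ⟨@FirstOrder.Language.Equiv.toEquiv L ℕ ℕ 𝔐 𝔑 φ, ?_⟩
    have hf := fun (n : ℕ) (F : L.Functions n) (x : Fin n → ℕ) =>
      @FirstOrder.Language.Equiv.map_fun' L ℕ ℕ 𝔐 𝔑 φ n F x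
    have hr := fun (n : ℕ) (R : L.Relations n) (x : Fin n → ℕ) =>
      @FirstOrder.Language.Equiv.map_rel' L ℕ ℕ 𝔐 𝔑 φ n R x
    rintro (⟨n, F⟩ | ⟨n, R⟩) a
    · have h1 := hf n F (fun i : Fin n => a i.castSucc)
      change 𝔑.funMap F (fun i : Fin n => (@FirstOrder.Language.Equiv.toEquiv L ℕ ℕ 𝔐 𝔑 φ)
          (a i.castSucc)) = (@FirstOrder.Language.Equiv.toEquiv L ℕ ℕ 𝔐 𝔑 φ) (a (Fin.last n)) ↔
        𝔐.funMap F (fun i : Fin n => a i.castSucc) = a (Fin.last n)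
      constructor
      · intro h
        apply (@FirstOrder.Language.Equiv.toEquiv L ℕ ℕ 𝔐 𝔑 φ).injective
        exact h1.trans h
      · intro h
        exact h1.symm.trans (congrArg _ h)
    · exact hr n R a
  · rintro ⟨π, hπ⟩
    refine ⟨@FirstOrder.Language.Equiv.mk L ℕ ℕ 𝔐 𝔑 π ?_ ?_⟩
    · intro n F x
      have h1 := (hπ (Sum.inl ⟨n, F⟩) (Fin.snoc (α := fun _ => ℕ) x (𝔐.funMap F x))).2 (by
        change 𝔐.funMap F (fun i : Fin n =>
          (Fin.snoc (α := fun _ => ℕ) x (𝔐.funMap F x) : Fin (n + 1) → ℕ) i.castSucc) =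
          (Fin.snoc (α := fun _ => ℕ) x (𝔐.funMap F x) : Fin (n + 1) → ℕ) (Fin.last n)
        rw [Fin.snoc_last]
        congr 1
        funext i
        rw [Fin.snoc_castSucc])
      change 𝔑.funMap F (fun i : Fin n =>
        π ((Fin.snoc (α := fun _ => ℕ) x (𝔐.funMap F x) : Fin (n + 1) → ℕ) i.castSucc)) =
        π ((Fin.snoc (α := fun _ => ℕ) x (𝔐.funMap F x) : Fin (n + 1) → ℕ) (Fin.last n)) at h1
      rw [Fin.snoc_last] at h1
      refine h1.symm.trans ?_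
      congr 1
      funext i
      rw [Fin.snoc_castSucc]
      rfl
    · intro n R x
      exact hπ (Sum.inr ⟨n, R⟩) x

end P_O_Enc

open P_O_Enc in
theorem t_O_Enc : O_Enc := by
  intro L hF hR
  refine ⟨rho L, inferInstance, ar L, enc L, ?_, iso_iff L⟩
  rintro (⟨n, F⟩ | ⟨n, R⟩) a
  · exact MeasurableSpace.measurableSet_generateFrom (Or.inl ⟨n, F,
      (fun i : Fin n => (show Fin (n + 1) → ℕ from a) i.castSucc),
      (show Fin (n + 1) → ℕ from a) (Fin.last n), rfl⟩)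
  · exact MeasurableSpace.measurableSet_generateFrom (Or.inr ⟨n, R, a, rfl⟩)

end Pool.Agent.H468R2.MA
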