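import Pool.Agent.H468R2.MA.Tasks2

/-!
# O_Far: the masas `A_i`, `A_j` are far apart
-/

set_option autoImplicit false

open scoped InnerProductSpace
open Filter Topology

namespace Pool.Agent.H468R2.MA

namespace FarP

theorem om_sg (k : ℕ) (l : ZMod (pr k)) (γ : Gm) : om (sg k l) γ = ZMod.stdAddChar (l * γ k) := by
  unfold om
  by_cases hl : l = 0
  · subst hl
    have : (sg k (0 : ZMod (pr k))) = 0 := DFinsupp.single_zero k
    rw [this]
    simp
  · have h1 : DFinsupp.support (sg k l) = {k} :=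
      DFinsupp.support_single (β := fun i => ZMod (pr i)) hl
    have h2 : (sg k l) k = l := DFinsupp.single_eq_same (β := fun i => ZMod (pr i))
    rw [h1, Finset.prod_singleton, h2]

theorem sg_ne {k k' : ℕ} (h : k ≠ k') (l : ZMod (pr k)) : (sg k l) k' = 0 :=
  DFinsupp.single_eq_of_ne h.symm

section

variable {H : Type} [NormedAddCommGroup H] [InnerProductSpace ℂ H] [CompleteSpace H]
  {M : VonNeumannAlgebra H} {Ω : H} {X Z : Gm → (H →L[ℂ] H)}

theorem X_comm (hW : Wy M Ω X Z) (a b : Gm) : X a * X b = X b * X a := by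
  rw [← hW.Xadd, ← hW.Xadd, add_comm]

theorem Z_comm (hW : Wy M Ω X Z) (a b : Gm) : Z a * Z b = Z b * Z a := by
  rw [← hW.Zadd, ← hW.Zadd, add_comm]

theorem X_star (hW : Wy M Ω X Z) (a : Gm) : X a * star (X a) = 1 := by
  rw [hW.Xst, ← hW.Xadd, add_neg_cancel, hW.X0]

theorem star_X (hW : Wy M Ω X Z) (a : Gm) : star (X a) * X a = 1 := by
  rw [hW.Xst, ← hW.Xadd, neg_add_cancel, hW.X0]

theorem Z_star (hW : Wy M Ω X Z) (a : Gm) : Z a * star (Z a) = 1 := by
  rw [hW.Zst, ← hW.Zadd, add_neg_cancel, hW.Z0]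

theorem ZX (hW : Wy M Ω X Z) (k : ℕ) (s l : ZMod (pr k)) :
    Z (sg k s) * X (sg k l) = (ZMod.stdAddChar (s * l) : ℂ) • (X (sg k l) * Z (sg k s)) := by
  rw [hW.cm, om_sg, DFinsupp.single_eq_same]

theorem ZX_ne (hW : Wy M Ω X Z) {k k' : ℕ} (h : k ≠ k') (s : ZMod (pr k)) (l : ZMod (pr k')) :
    Z (sg k s) * X (sg k' l) = X (sg k' l) * Z (sg k s) := by
  rw [hW.cm, om_sg, sg_ne h.symm, mul_zero, AddChar.map_zero_eq_one, one_smul]

/-- the function of the site unitary -/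
noncomputable def fi (y : ℕ → ℝ) (i : ZMod (pr 0)) (k : ℕ) : ZMod (pr k) → ℂ :=
  if i = 1 then fun _ => 1 else ff k (y k)

theorem ff_unit (k : ℕ) (t : ℝ) (m : ZMod (pr k)) : ff k t m * star (ff k t m) = 1 := by
  unfold ff
  split_ifs
  · rw [Complex.star_def, Complex.mul_conj, Complex.normSq_eq_norm_sq,
      Complex.norm_exp_ofReal_mul_I]
    simp
  · simp

theorem fi_unit (y : ℕ → ℝ) (i : ZMod (pr 0)) (k : ℕ) (m : ZMod (pr k)) :
    fi y i k m * star (fi y i k m) = 1 := by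
  unfold fi
  split_ifs
  · simp
  · exact ff_unit k (y k) m

theorem D_star (hC : Calc M Ω X Z) (k : ℕ) (h : ZMod (pr k) → ℂ) (hh : ∀ m, h m * star (h m) = 1) :
    Dg Z k h * star (Dg Z k h) = 1 := by
  rw [hC.st, ← hC.mul, ← hC.one k]
  congr 1
  funext m
  exact hh m

theorem star_D (hC : Calc M Ω X Z) (k : ℕ) (h : ZMod (pr k) → ℂ) (hh : ∀ m, h m * star (h m) = 1) :
    star (Dg Z k h) * Dg Z k h = 1 := by
  rw [hC.st, ← hC.mul, ← hC.one k]
  congr 1
  funext m
  rw [mul_comm]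
  exact hh m

theorem vv_eq (hC : Calc M Ω X Z) (y : ℕ → ℝ) (i : ZMod (pr 0)) (hi : i ≠ 0) (k : ℕ)
    (l : ZMod (pr k)) :
    vv X Z y i k l = Dg Z k (fi y i k) * X (sg k l) * star (Dg Z k (fi y i k)) := by
  unfold vv fi FF
  rw [if_neg hi]
  split_ifs with h
  · rw [hC.one, one_mul, star_one, mul_one]
  · rfl

theorem vv_zero (y : ℕ → ℝ) (k : ℕ) (l : ZMod (pr k)) : vv X Z y 0 k l = Z (sg k l) := by
  unfold vv
  rw [if_pos rfl]

theorem Dg_sum (hC : Calc M Ω X Z) (k : ℕ) {ι : Type} (s : Finset ι) (h : ι → ZMod (pr k) → ℂ) :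
    ∑ r ∈ s, Dg Z k (h r) = Dg Z k (fun m => ∑ r ∈ s, h r m) := by
  classical
  induction s using Finset.induction_on with
  | empty =>
    have h0 := hC.smul k 0 (fun _ => 0)
    simp only [zero_mul, zero_smul] at h0
    simp [h0]
  | insert a s ha ih =>
    rw [Finset.sum_insert ha, ih, ← hC.add]
    congr 1
    funext m
    rw [Finset.sum_insert ha]

/-- averaging over the conjugations by the `X` -/
theorem avgX (hW : Wy M Ω X Z) (hC : Calc M Ω X Z) (k : ℕ) (g : ZMod (pr k) → ℂ)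
    (l : ZMod (pr k)) :
    ∑ s : ZMod (pr k), X (sg k s) * (Dg Z k g * X (sg k l)) * star (X (sg k s)) =
      (∑ m, g m) • X (sg k l) := by
  have e1 : ∀ s : ZMod (pr k), X (sg k s) * (Dg Z k g * X (sg k l)) * star (X (sg k s)) =
      Dg Z k (fun m => g (m - s)) * X (sg k l) := by
    intro s
    rw [← mul_assoc, hC.shift, mul_assoc (Dg Z k fun m => g (m - s)), X_comm hW, mul_assoc,
      mul_assoc, X_star hW, mul_one]
  rw [Finset.sum_congr rfl fun s _ => e1 s, ← Finset.sum_mul, Dg_sum hC]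
  have e2 : (fun m => ∑ s : ZMod (pr k), g (m - s)) = fun _ => (∑ m, g m) * 1 := by
    funext m
    rw [mul_one]
    exact Equiv.sum_comp (Equiv.subLeft m) g
  rw [e2, hC.smul, hC.one, smul_mul_assoc, one_mul]

theorem sum_char (k : ℕ) : ∑ s : ZMod (pr k), (ZMod.stdAddChar (s * 1) : ℂ) = 0 := by
  have h := AddChar.sum_mulShift (R := ZMod (pr k)) (1 : ZMod (pr k))
    (ZMod.isPrimitive_stdAddChar (pr k))
  rw [if_neg one_ne_zero] at h
  exact_mod_cast h

theorem sum_char' (k : ℕ) : ∑ s : ZMod (pr k), (ZMod.stdAddChar (1 * s) : ℂ)⁻¹ = 0 := by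
  have e : ∀ s : ZMod (pr k), (ZMod.stdAddChar (1 * s) : ℂ)⁻¹ = ZMod.stdAddChar (-s * 1) := by
    intro s
    rw [mul_one, one_mul, AddChar.map_neg_eq_inv]
  rw [Finset.sum_congr rfl fun s _ => e s]
  rw [← sum_char k]
  exact Equiv.sum_comp (Equiv.neg (ZMod (pr k))) (fun s => (ZMod.stdAddChar (s * 1) : ℂ))

/-- the three elements of `ZMod (pr 0)` -/
theorem three (i j : ZMod (pr 0)) (h : i ≠ j) (hi : i ≠ 0) (hj : j ≠ 0) :
    (i = 1 ∧ j ≠ 1) ∨ (i ≠ 1 ∧ j = 1) := by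
  have key : ∀ i j : Fin 3, i ≠ j → i ≠ 0 → j ≠ 0 → (i = 1 ∧ j ≠ 1) ∨ (i ≠ 1 ∧ j = 1) := by
    decide
  exact key i j h hi hj

theorem norm_unit (u : H →L[ℂ] H) (hu : IsU u) : ‖u‖ ≤ 1 := by
  have h : ‖star u * u‖ ≤ 1 := by
    rw [hu.1]
    exact ContinuousLinearMap.norm_id_le
  rw [CStarRing.norm_star_mul_self] at h
  nlinarith [norm_nonneg u]

/-- one site, `i = 0` -/
theorem site_left (hW : Wy M Ω X Z) (hC : Calc M Ω X Z) (y : ℕ → ℝ) (j : ZMod (pr 0)) (hj : j ≠ 0)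
    (k : ℕ) : ∑ s : ZMod (pr k), vv X Z y 0 k s * vv X Z y j k 1 * star (vv X Z y 0 k s) = 0 := by
  set D := Dg Z k (fi y j k) with hD
  have e : ∀ s : ZMod (pr k), vv X Z y 0 k s * vv X Z y j k 1 * star (vv X Z y 0 k s) =
      (ZMod.stdAddChar (s * 1) : ℂ) • (D * X (sg k 1) * star D) := by
    intro s
    rw [vv_zero, vv_eq hC y j hj, ← hD]
    have h1 : Z (sg k s) * D = D * Z (sg k s) := (hC.commZ k _ _).symm
    have h2 : star D * star (Z (sg k s)) = star (Z (sg k s)) * star D := by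
      rw [← star_mul, ← star_mul, h1]
    calc Z (sg k s) * (D * X (sg k 1) * star D) * star (Z (sg k s))
        = (Z (sg k s) * D) * X (sg k 1) * (star D * star (Z (sg k s))) := by
          simp only [mul_assoc]
      _ = D * (Z (sg k s) * X (sg k 1)) * star (Z (sg k s)) * star D := by
          rw [h1, h2]
          simp only [mul_assoc]
      _ = (ZMod.stdAddChar (s * 1) : ℂ) •
            (D * X (sg k 1) * (Z (sg k s) * star (Z (sg k s))) * star D) := by
          rw [ZX hW]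
          simp only [mul_assoc, smul_mul_assoc, mul_smul_comm]
      _ = _ := by
          rw [Z_star hW]
          simp only [mul_one]
  rw [Finset.sum_congr rfl fun s _ => e s, ← Finset.sum_smul, sum_char, zero_smul]

/-- one site, `j = 0` -/
theorem site_right (hW : Wy M Ω X Z) (hC : Calc M Ω X Z) (y : ℕ → ℝ) (i : ZMod (pr 0))
    (hi : i ≠ 0) (k : ℕ) :
    ∑ s : ZMod (pr k), vv X Z y i k s * vv X Z y 0 k 1 * star (vv X Z y i k s) = 0 := by
  set D := Dg Z k (fi y i k) with hD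
  have hDD : D * star D = 1 := D_star hC k _ (fi_unit y i k)
  have hDD' : star D * D = 1 := star_D hC k _ (fi_unit y i k)
  have e : ∀ s : ZMod (pr k), vv X Z y i k s * vv X Z y 0 k 1 * star (vv X Z y i k s) =
      (ZMod.stdAddChar (1 * s) : ℂ)⁻¹ • Z (sg k 1) := by
    intro s
    rw [vv_zero, vv_eq hC y i hi, ← hD]
    have h1 : Z (sg k 1) * D = D * Z (sg k 1) := (hC.commZ k _ _).symm
    have h3 : star D * Z (sg k 1) = Z (sg k 1) * star D := by
      rw [hD, hC.st]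
      exact hC.commZ k _ _
    have hne : (ZMod.stdAddChar (1 * s) : ℂ) ≠ 0 := by
      intro h0
      have h5 : (ZMod.stdAddChar (1 * s) : ℂ) * ZMod.stdAddChar (-(1 * s)) = 1 := by
        rw [← AddChar.map_add_eq_mul, add_neg_cancel, AddChar.map_zero_eq_one]
      rw [h0, zero_mul] at h5
      exact zero_ne_one h5
    have h4 : X (sg k s) * Z (sg k 1) =
        (ZMod.stdAddChar (1 * s) : ℂ)⁻¹ • (Z (sg k 1) * X (sg k s)) := by
      rw [ZX hW, smul_smul, inv_mul_cancel₀ hne, one_smul]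
    calc D * X (sg k s) * star D * Z (sg k 1) * star (D * X (sg k s) * star D)
        = D * X (sg k s) * (star D * Z (sg k 1)) * (D * (star (X (sg k s)) * star D)) := by
          rw [star_mul, star_mul, star_star]
          simp only [mul_assoc]
      _ = D * (X (sg k s) * Z (sg k 1)) * (star D * D) * (star (X (sg k s)) * star D) := by
          rw [h3]
          simp only [mul_assoc]
      _ = (ZMod.stdAddChar (1 * s) : ℂ)⁻¹ •
            ((D * Z (sg k 1)) * (X (sg k s) * star (X (sg k s))) * star D) := by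
          rw [h4, hDD', mul_one]
          simp only [mul_assoc, smul_mul_assoc, mul_smul_comm]
      _ = _ := by rw [X_star hW, mul_one, ← h1, mul_assoc, hDD, mul_one]
  rw [Finset.sum_congr rfl fun s _ => e s, ← Finset.sum_smul, sum_char', zero_smul]

/-- one site, `i, j ≠ 0` -/
theorem site_mid (hW : Wy M Ω X Z) (hC : Calc M Ω X Z) (y : ℕ → ℝ) (i j : ZMod (pr 0))
    (hi : i ≠ 0) (hj : j ≠ 0) (k : ℕ) (l : ZMod (pr k)) :
    ∑ s : ZMod (pr k), vv X Z y i k s * vv X Z y j k l * star (vv X Z y i k s) =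
      (∑ m, (star (fi y i k m) * fi y j k m) * star (star (fi y i k (m - l)) * fi y j k (m - l))) •
        vv X Z y i k l := by
  set h : ZMod (pr k) → ℂ := fun m => star (fi y i k m) * fi y j k m with hh
  set g : ZMod (pr k) → ℂ := fun m => h m * star (h (m - l)) with hg
  set D := Dg Z k (fi y i k) with hD
  set E := Dg Z k (fi y j k) with hE
  have e0 : star D * E = Dg Z k h := by
    rw [hD, hE, hC.st, ← hC.mul]
  have e1 : Dg Z k h * X (sg k l) * star (Dg Z k h) = Dg Z k g * X (sg k l) := by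
    rw [hC.st, mul_assoc, hC.shift, ← mul_assoc, ← hC.mul]
  have e : ∀ s : ZMod (pr k), vv X Z y i k s * vv X Z y j k l * star (vv X Z y i k s) =
      D * (X (sg k s) * (Dg Z k g * X (sg k l)) * star (X (sg k s))) * star D := by
    intro s
    rw [vv_eq hC y i hi, vv_eq hC y j hj, ← hD, ← hE, ← e1, ← e0]
    simp only [star_mul, star_star, mul_assoc]
  rw [Finset.sum_congr rfl fun s _ => e s, ← Finset.sum_mul, ← Finset.mul_sum, avgX hW hC,
    vv_eq hC y i hi, ← hD]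
  simp only [smul_mul_assoc, mul_smul_comm]

theorem norm_of_avg (p : ℕ) (hp : 0 < p) (z : ℂ) (h : ‖(p : ℂ)⁻¹ * z‖ ≤ 3 / 4) :
    ‖z‖ ≤ 3 / 4 * p := by
  rw [norm_mul, norm_inv, Complex.norm_natCast] at h
  have hp' : (0 : ℝ) < p := by exact_mod_cast hp
  rw [inv_mul_le_iff₀ hp'] at h
  linarith

/-- one site -/
theorem site (hW : Wy M Ω X Z) (hC : Calc M Ω X Z) (hS : Str M Ω X Z) (h4 : O_Half) (y : ℕ → ℝ)
    (i j : ZMod (pr 0)) (hij : i ≠ j) (k : ℕ) (hk : 1 ≤ k) (hy : |y k - Real.pi| ≤ 1 / 10) :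
    ∃ l : ZMod (pr k), ‖∑ s : ZMod (pr k), vv X Z y i k s * vv X Z y j k l *
      star (vv X Z y i k s)‖ ≤ 3 / 4 * (pr k : ℝ) := by
  by_cases hi : i = 0
  · subst hi
    refine ⟨1, ?_⟩
    rw [site_left hW hC y j (Ne.symm hij), norm_zero]
    positivity
  by_cases hj : j = 0
  · subst hj
    refine ⟨1, ?_⟩
    rw [site_right hW hC y i hi, norm_zero]
    positivity
  obtain ⟨l, -, hl⟩ := h4 k hk
  obtain ⟨hl1, hl2⟩ := hl (y k) hy
  have hp : 0 < pr k := (pr_prime k).pos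
  refine ⟨l, ?_⟩
  rw [site_mid hW hC y i j hi hj, norm_smul]
  have hn : ‖vv X Z y i k l‖ ≤ 1 := norm_unit _ (hS.aa_vv y i k hk l).2.1
  refine (mul_le_of_le_one_right (norm_nonneg _) hn).trans ?_
  rcases three i j hij hi hj with ⟨h1, h2⟩ | ⟨h1, h2⟩
  · have e1 : fi y i k = fun _ => 1 := by
      unfold fi
      rw [if_pos h1]
    have e2 : fi y j k = ff k (y k) := by
      unfold fi
      rw [if_neg h2]
    rw [e1, e2]
    have := norm_of_avg _ hp _ hl1
    simpa using this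
  · have e1 : fi y i k = ff k (y k) := by
      unfold fi
      rw [if_neg h1]
    have e2 : fi y j k = fun _ => 1 := by
      unfold fi
      rw [if_pos h2]
    rw [e1, e2]
    have := norm_of_avg _ hp _ hl2
    simpa using this

/-- commuting with the sites `≥ K` -/
def Cm (X Z : Gm → (H →L[ℂ] H)) (K : ℕ) (t : H →L[ℂ] H) : Prop :=
  ∀ k, K ≤ k → ∀ l : ZMod (pr k), Commute t (X (sg k l)) ∧ Commute t (Z (sg k l))

theorem Cm_mul {K : ℕ} {s t : H →L[ℂ] H} (hs : Cm X Z K s) (ht : Cm X Z K t) :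
    Cm X Z K (s * t) := fun k hk l =>
  ⟨(hs k hk l).1.mul_left (ht k hk l).1, (hs k hk l).2.mul_left (ht k hk l).2⟩

theorem Cm_mono {K K' : ℕ} (h : K ≤ K') {t : H →L[ℂ] H} (ht : Cm X Z K t) : Cm X Z K' t :=
  fun k hk l => ht k (h.trans hk) l

theorem Cm_Dg {K k : ℕ} (hk : K ≤ k) {t : H →L[ℂ] H} (ht : Cm X Z K t) (h : ZMod (pr k) → ℂ) :
    Commute t (Dg Z k h) := by
  unfold Dg
  exact Commute.sum_right _ _ _ fun j _ => (ht k hk j).2.smul_right _

theorem Cm_comm (hC : Calc M Ω X Z) {K k : ℕ} (hk : K ≤ k) {t : H →L[ℂ] H} (ht : Cm X Z K t)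
    (y : ℕ → ℝ) (i : ZMod (pr 0)) (l : ZMod (pr k)) : Commute t (vv X Z y i k l) := by
  by_cases hi : i = 0
  · subst hi
    rw [vv_zero]
    exact (ht k hk l).2
  · rw [vv_eq hC y i hi, hC.st]
    exact ((Cm_Dg hk ht _).mul_right (ht k hk l).1).mul_right (Cm_Dg hk ht _)

theorem Cm_vv (hW : Wy M Ω X Z) (hC : Calc M Ω X Z) (y : ℕ → ℝ) (i : ZMod (pr 0)) (k : ℕ)
    (l : ZMod (pr k)) : Cm X Z (k + 1) (vv X Z y i k l) := by
  intro k' hk' l'
  have hne : k ≠ k' := by omega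
  by_cases hi : i = 0
  · subst hi
    rw [vv_zero]
    exact ⟨ZX_ne hW hne l l', Z_comm hW _ _⟩
  · rw [vv_eq hC y i hi, hC.st]
    have h1 : ∀ h, Commute (Dg Z k h) (X (sg k' l')) := fun h =>
      hC.commX k h _ (sg_ne hne.symm l')
    have h2 : ∀ h, Commute (Dg Z k h) (Z (sg k' l')) := fun h => hC.commZ k h _
    exact ⟨((h1 _).mul_left (X_comm hW _ _)).mul_left (h1 _),
      ((h2 _).mul_left (ZX_ne hW hne.symm l' l).symm).mul_left (h2 _)⟩

theorem comm_star {u w : H →L[ℂ] H} (hu : IsU u) (h : Commute u w) : Commute (star u) w := by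
  have h' : u * w = w * u := h
  calc star u * w = star u * (w * (u * star u)) := by rw [hu.2, mul_one]
    _ = star u * (w * u) * star u := by simp only [mul_assoc]
    _ = (star u * u) * w * star u := by
        rw [← h']
        simp only [mul_assoc]
    _ = w * star u := by rw [hu.1, one_mul]

theorem IsU_mul {u w : H →L[ℂ] H} (hu : IsU u) (hw : IsU w) : IsU (u * w) := by
  constructor
  · rw [star_mul, mul_assoc, ← mul_assoc (star u), hu.1, one_mul, hw.1]
  · rw [star_mul, mul_assoc, ← mul_assoc w, hw.2, one_mul, hu.2]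

/-- the statement of the induction -/
def Pc (M : VonNeumannAlgebra H) (X Z : Gm → (H →L[ℂ] H)) (y : ℕ → ℝ) (i j : ZMod (pr 0)) (n K : ℕ)
    (c : ℝ) : Prop :=
  ∃ a : H →L[ℂ] H, (a ∈ AA M X Z y j ∧ a ∈ Tl M X Z n ∧ IsU a ∧ Cm X Z K a) ∧
    ∃ (ι : Type) (_ : Fintype ι) (_ : Nonempty ι) (u : ι → (H →L[ℂ] H)),
      (∀ s, u s ∈ AA M X Z y i ∧ u s ∈ Tl M X Z n ∧ IsU (u s) ∧ Cm X Z K (u s)) ∧
      ‖∑ s, u s * a * star (u s)‖ ≤ c * (Fintype.card ι : ℝ)

theorem Pc_zero (hW : Wy M Ω X Z) (hS : Str M Ω X Z) (y : ℕ → ℝ) (i j : ZMod (pr 0)) (n : ℕ) :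
    Pc M X Z y i j n 0 1 := by
  have h1 : (1 : H →L[ℂ] H) ∈ Tl M X Z n := by
    have h := (hS.tl_X n 0 (fun _ _ => rfl)).1
    rwa [hW.X0] at h
  have h2 : IsU (1 : H →L[ℂ] H) := by
    constructor <;> rw [star_one, one_mul]
  have h3 : Cm X Z 0 (1 : H →L[ℂ] H) := fun k _ l => ⟨Commute.one_left _, Commute.one_left _⟩
  refine ⟨1, ⟨hS.aa_one y j, h1, h2, h3⟩, Unit, inferInstance, inferInstance, fun _ => 1,
    fun _ => ⟨hS.aa_one y i, h1, h2, h3⟩, ?_⟩
  simp only [Finset.univ_unique, Finset.sum_singleton, mul_one, one_mul, star_one,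
    Fintype.card_unit, Nat.cast_one]
  exact norm_unit _ h2

theorem Pc_succ (hW : Wy M Ω X Z) (hC : Calc M Ω X Z) (hS : Str M Ω X Z) (h4 : O_Half)
    (y : ℕ → ℝ) (hy : Nr y) (i j : ZMod (pr 0)) (hij : i ≠ j) (n K : ℕ) (c : ℝ) (hc : 0 ≤ c)
    (h : Pc M X Z y i j n K c) : ∃ K', Pc M X Z y i j n K' (3 / 4 * c) := by
  obtain ⟨a, ⟨ha1, ha2, ha3, ha4⟩, ι, _, _, u, hu, hn⟩ := h
  obtain ⟨k, hk, hyk⟩ := hy (max (max K n) 10)
  have hkK : K ≤ k := (le_max_left K n).trans ((le_max_left _ _).trans hk)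
  have hkn : n ≤ k := (le_max_right K n).trans ((le_max_left _ _).trans hk)
  have hk10 : 10 ≤ k := (le_max_right _ _).trans hk
  have hyk' : |y k - Real.pi| ≤ 1 / 10 := by
    refine hyk.trans ?_
    apply one_div_le_one_div_of_le (by norm_num)
    have h5 : (10 : ℝ) ≤ ((max (max K n) 10 : ℕ) : ℝ) := by
      exact_mod_cast le_max_right _ _
    linarith
  obtain ⟨l, hl⟩ := site hW hC hS h4 y i j hij k (by omega) hyk'
  have hb := hS.aa_vv y j k (by omega) l
  have hv := fun s => hS.aa_vv y i k (by omega) s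
  have ca : ∀ s, Commute a (vv X Z y i k s) := fun s => Cm_comm hC hkK ha4 y i s
  refine ⟨k + 1, a * vv X Z y j k l, ⟨(hS.aa_alg y j _ ha1 _ hb.1).1,
    (hS.tl_alg n _ ha2 _ (hb.2.2 n hkn)).1, IsU_mul ha3 hb.2.1,
    Cm_mul (Cm_mono (by omega) ha4) (Cm_vv hW hC y j k l)⟩,
    ι × ZMod (pr k), inferInstance, inferInstance, fun q => u q.1 * vv X Z y i k q.2,
    fun q => ⟨(hS.aa_alg y i _ (hu q.1).1 _ (hv q.2).1).1,
      (hS.tl_alg n _ (hu q.1).2.1 _ ((hv q.2).2.2 n hkn)).1,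
      IsU_mul (hu q.1).2.2.1 (hv q.2).2.1,
      Cm_mul (Cm_mono (by omega) (hu q.1).2.2.2) (Cm_vv hW hC y i k q.2)⟩, ?_⟩
  have e : ∀ q : ι × ZMod (pr k), u q.1 * vv X Z y i k q.2 * (a * vv X Z y j k l) *
      star (u q.1 * vv X Z y i k q.2) = (u q.1 * a * star (u q.1)) *
        (vv X Z y i k q.2 * vv X Z y j k l * star (vv X Z y i k q.2)) := by
    intro q
    set v := vv X Z y i k q.2 with hvdef
    set b := vv X Z y j k l with hbdef
    have c1 : v * a = a * v := (ca q.2).symm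
    have cu : Commute (u q.1) v := Cm_comm hC hkK (hu q.1).2.2.2 y i q.2
    have cub : Commute (u q.1) b := Cm_comm hC hkK (hu q.1).2.2.2 y j l
    have cuv' : Commute (u q.1) (star v) := (comm_star (hv q.2).2.1 cu.symm).symm
    have c2 : star (u q.1) * (v * b * star v) = (v * b * star v) * star (u q.1) :=
      comm_star (hu q.1).2.2.1 ((cu.mul_right cub).mul_right cuv')
    calc u q.1 * v * (a * b) * star (u q.1 * v)
        = u q.1 * (v * a) * b * star v * star (u q.1) := by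
          rw [star_mul]
          simp only [mul_assoc]
      _ = u q.1 * a * ((v * b * star v) * star (u q.1)) := by
          rw [c1]
          simp only [mul_assoc]
      _ = _ := by
          rw [← c2]
          simp only [mul_assoc]
  rw [Finset.sum_congr rfl fun q _ => e q, Fintype.sum_prod_type]
  have e2 : ∑ r : ι, ∑ s : ZMod (pr k), (u r * a * star (u r)) *
      (vv X Z y i k s * vv X Z y j k l * star (vv X Z y i k s)) =
      (∑ r : ι, u r * a * star (u r)) *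
        ∑ s : ZMod (pr k), vv X Z y i k s * vv X Z y j k l * star (vv X Z y i k s) := by
    rw [Finset.sum_mul_sum]
  rw [e2]
  refine (norm_mul_le _ _).trans ?_
  have e3 : (Fintype.card (ι × ZMod (pr k)) : ℝ) = (Fintype.card ι : ℝ) * (pr k : ℝ) := by
    rw [Fintype.card_prod, ZMod.card]
    push_cast
    ring
  rw [e3]
  calc _ ≤ (c * (Fintype.card ι : ℝ)) * (3 / 4 * (pr k : ℝ)) :=
        mul_le_mul hn hl (norm_nonneg _) (by positivity)
    _ = _ := by ring

theorem Pc_all (hW : Wy M Ω X Z) (hC : Calc M Ω X Z) (hS : Str M Ω X Z) (h4 : O_Half)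
    (y : ℕ → ℝ) (hy : Nr y) (i j : ZMod (pr 0)) (hij : i ≠ j) (n N : ℕ) :
    ∃ K, Pc M X Z y i j n K ((3 / 4) ^ N) := by
  induction N with
  | zero => exact ⟨0, by rw [pow_zero]; exact Pc_zero hW hS y i j n⟩
  | succ N ih =>
    obtain ⟨K, hK⟩ := ih
    rw [pow_succ']
    exact Pc_succ hW hC hS h4 y hy i j hij n K _ (by positivity) hK

end

end FarP

theorem t_O_Far (h1 : O_Calc) (_h2 : O_Apx) (h3 : O_Str) (h4 : O_Half) : O_Far := by
  intro H _ _ _ M Ω X Z hW y hy i j hij n η hη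
  obtain ⟨N, hN⟩ := exists_pow_lt_of_lt_one hη (show (3 / 4 : ℝ) < 1 by norm_num)
  obtain ⟨K, a, ⟨ha1, ha2, ha3, -⟩, ι, _, _, u, hu, hn⟩ :=
    FarP.Pc_all hW (h1 H M Ω X Z hW) (h3 H M Ω X Z hW) h4 y hy i j hij n N
  refine ⟨a, ha1, ha2, ha3, Fintype.card ι, fun s => u ((Fintype.equivFin ι).symm s),
    Fintype.card_pos, fun s => ⟨(hu _).1, (hu _).2.1, (hu _).2.2.1⟩, ?_⟩
  have e : ∑ s : Fin (Fintype.card ι), u ((Fintype.equivFin ι).symm s) * a *
      star (u ((Fintype.equivFin ι).symm s)) = ∑ s, u s * a * star (u s) :=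
    Equiv.sum_comp (Fintype.equivFin ι).symm (fun s => u s * a * star (u s))
  rw [e]
  have hpos : (0 : ℝ) < (Fintype.card ι : ℝ) := by exact_mod_cast Fintype.card_pos
  refine (ContinuousLinearMap.le_opNorm _ _).trans ?_
  rw [hW.unit, mul_one, norm_smul, norm_inv, Complex.norm_natCast, inv_mul_le_iff₀ hpos]
  refine hn.trans ?_
  rw [mul_comm]
  exact mul_le_mul_of_nonneg_left hN.le hpos.le

end Pool.Agent.H468R2.MA
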