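import Pool.Agent.H468R2.MA.Tasks2

/-!
# O_Half: a finite sum estimate
-/

set_option autoImplicit false

open scoped InnerProductSpace
open Filter Topology

namespace Pool.Agent.H468R2.MA

namespace Half

theorem sum_zmod (p : ℕ) [NeZero p] (f : ZMod p → ℂ) :
    ∑ m : ZMod p, f m = ∑ i ∈ Finset.range p, f (i : ZMod p) := by
  rcases p with _ | n
  · exact absurd rfl (NeZero.ne (0 : ℕ))
  · have h := Fin.sum_univ_eq_sum_range (fun i => f (i : ZMod (n + 1))) (n + 1)
    rw [← h]
    apply Finset.sum_congr rfl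
    intro i _
    congr 1
    exact (Fin.cast_val_eq_self i).symm

theorem sum_val (p : ℕ) [NeZero p] (E : ℂ) (hE : E * star E = 1) (j h : ℕ) (hjh : j ≤ h)
    (hhp : h + j ≤ p) :
    ∑ m : ZMod p, (if m.val < h then E else 1) *
      star (if (m - (j : ZMod p)).val < h then E else (1 : ℂ)) =
      (p : ℂ) + j * (E - 1) + j * (star E - 1) := by
  rw [sum_zmod]
  have key : ∀ i ∈ Finset.range p, (if ((i : ZMod p)).val < h then E else 1) *
      star (if ((i : ZMod p) - (j : ZMod p)).val < h then E else (1 : ℂ)) =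
      1 + (if i < j then (E - 1) else 0) + (if h ≤ i ∧ i < h + j then (star E - 1) else 0) := by
    intro i hi
    rw [Finset.mem_range] at hi
    rw [ZMod.val_natCast_of_lt hi]
    have hv : ((i : ZMod p) - (j : ZMod p)).val = if j ≤ i then i - j else i + p - j := by
      split_ifs with h1
      · rw [← Nat.cast_sub h1, ZMod.val_natCast_of_lt (by omega)]
      · have h2 : (i : ZMod p) - (j : ZMod p) = ((i + p - j : ℕ) : ZMod p) := by
          rw [Nat.cast_sub (by omega), Nat.cast_add, ZMod.natCast_self, add_zero]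
        rw [h2, ZMod.val_natCast_of_lt (by omega)]
    rw [hv]
    by_cases h1 : i < j
    · rw [if_pos (by omega), if_neg (by omega : ¬ j ≤ i), if_neg (by omega), if_pos h1,
        if_neg (by omega)]
      simp
    · rw [if_neg h1, if_pos (by omega : j ≤ i)]
      by_cases h2 : i < h
      · rw [if_pos h2, if_pos (by omega), if_neg (by omega), hE]
        ring
      · rw [if_neg h2]
        by_cases h3 : i < h + j
        · rw [if_pos (by omega), if_pos ⟨by omega, h3⟩]
          ring
        · rw [if_neg (by omega), if_neg (by omega)]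
          simp
  rw [Finset.sum_congr rfl key, Finset.sum_add_distrib, Finset.sum_add_distrib,
    Finset.sum_const, Finset.card_range, nsmul_eq_mul, mul_one, ← Finset.sum_filter,
    ← Finset.sum_filter]
  have e1 : (Finset.range p).filter (fun i => i < j) = Finset.range j := by
    ext i
    simp only [Finset.mem_filter, Finset.mem_range]
    omega
  have e2 : (Finset.range p).filter (fun i => h ≤ i ∧ i < h + j) = Finset.Ico h (h + j) := by
    ext i
    simp only [Finset.mem_filter, Finset.mem_range, Finset.mem_Ico]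
    omega
  rw [e1, e2, Finset.sum_const, Finset.sum_const, Finset.card_range, Nat.card_Ico,
    nsmul_eq_mul, nsmul_eq_mul, Nat.add_sub_cancel_left]

theorem pr_odd5 (k : ℕ) (hk : 1 ≤ k) : 5 ≤ pr k ∧ pr k % 2 = 1 := by
  obtain ⟨i, rfl⟩ := Nat.exists_eq_add_of_le' hk
  have h0 : Nat.nth Nat.Prime 0 = 2 := Nat.nth_prime_zero_eq_two
  have h1 : Nat.nth Nat.Prime 1 = 3 := Nat.nth_prime_one_eq_three
  have hm : ∀ a b, a < b → Nat.nth Nat.Prime a < Nat.nth Nat.Prime b := fun a b hab =>
    Nat.nth_strictMono Nat.infinite_setOf_prime hab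
  have h2 : 3 < Nat.nth Nat.Prime (i + 2) := by
    rw [← h1]
    exact hm _ _ (by omega)
  have hp : (Nat.nth Nat.Prime (i + 2)).Prime := Nat.prime_nth_prime _
  have hodd := hp.eq_two_or_odd
  change 5 ≤ Nat.nth Nat.Prime (i + 2) ∧ Nat.nth Nat.Prime (i + 2) % 2 = 1
  omega

end Half

open Half in
theorem t_O_Half : O_Half := by
  intro k hk
  obtain ⟨hp5, hodd⟩ := pr_odd5 k hk
  set p := pr k with hp
  have hj1 : 1 ≤ p / 4 := by omega
  refine ⟨((p / 4 : ℕ) : ZMod p), ?_, ?_⟩
  · intro h0
    rw [ZMod.natCast_eq_zero_iff] at h0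
    have := Nat.le_of_dvd (by omega) h0
    omega
  intro t ht
  set E : ℂ := Complex.exp (t * Complex.I) with hE
  have hEs : star E = Complex.exp (-(t * Complex.I)) := by
    rw [hE, Complex.star_def, ← Complex.exp_conj, map_mul, Complex.conj_ofReal, Complex.conj_I,
      mul_neg]
  have hEE : E * star E = 1 := by
    rw [hEs, hE, ← Complex.exp_add, add_neg_cancel, Complex.exp_zero]
  have hcos : E + star E = ((2 * Real.cos t : ℝ) : ℂ) := by
    rw [hEs, hE]
    push_cast
    rw [Complex.two_cos, neg_mul]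
  have hsum : (pr k : ℂ)⁻¹ * ∑ m : ZMod (pr k), ff k t m *
      star (ff k t (m - ((p / 4 : ℕ) : ZMod p))) =
      ((1 - (2 * (p / 4 : ℕ) / p) * (1 - Real.cos t) : ℝ) : ℂ) := by
    have h1 := sum_val p E hEE (p / 4) (p / 2) (by omega) (by omega)
    have h2 : ∑ m : ZMod (pr k), ff k t m * star (ff k t (m - ((p / 4 : ℕ) : ZMod p))) =
        (p : ℂ) + (p / 4 : ℕ) * (E - 1) + (p / 4 : ℕ) * (star E - 1) := by
      rw [← h1]
      rfl
    rw [h2]
    have h3 : (p : ℂ) + (p / 4 : ℕ) * (E - 1) + (p / 4 : ℕ) * (star E - 1) =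
        p - (p / 4 : ℕ) * (2 - (E + star E)) := by ring
    rw [h3, hcos]
    have hp0 : (p : ℂ) ≠ 0 := by
      have : p ≠ 0 := by omega
      exact_mod_cast this
    rw [← hp]
    push_cast
    field_simp
  have hbound : ‖((1 - (2 * (p / 4 : ℕ) / p) * (1 - Real.cos t) : ℝ) : ℂ)‖ ≤ 3 / 4 := by
    rw [Complex.norm_real, Real.norm_eq_abs]
    have hc1 : Real.cos t ≤ -(99 / 100) := by
      have h1 : Real.cos t = -Real.cos (t - Real.pi) := by
        rw [Real.cos_sub_pi]; ring
      have h2 := Real.one_sub_sq_div_two_le_cos (x := t - Real.pi)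
      have h3 : (t - Real.pi) ^ 2 ≤ (1 / 10) ^ 2 := by
        rw [← sq_abs]
        exact pow_le_pow_left₀ (abs_nonneg _) ht 2
      rw [h1]
      linarith
    have hc2 := Real.neg_one_le_cos t
    have hp0 : (0 : ℝ) < p := by
      have : 0 < p := by omega
      exact_mod_cast this
    have ha1 : 2 * ((p / 4 : ℕ) : ℝ) / p ≤ 1 / 2 := by
      rw [div_le_div_iff₀ hp0 (by norm_num)]
      have : 4 * (p / 4) ≤ p := by omega
      have h4 : (4 : ℝ) * ((p / 4 : ℕ) : ℝ) ≤ p := by exact_mod_cast this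
      linarith
    have ha2 : 2 / 7 ≤ 2 * ((p / 4 : ℕ) : ℝ) / p := by
      rw [div_le_div_iff₀ (by norm_num) hp0]
      have : p ≤ 7 * (p / 4) := by omega
      have h4 : (p : ℝ) ≤ 7 * ((p / 4 : ℕ) : ℝ) := by exact_mod_cast this
      linarith
    set a : ℝ := 2 * ((p / 4 : ℕ) : ℝ) / p with ha
    rw [abs_le]
    constructor
    · nlinarith
    · nlinarith
  refine ⟨by rw [hsum]; exact hbound, ?_⟩
  have hconj : (pr k : ℂ)⁻¹ * ∑ m : ZMod (pr k), star (ff k t m) *
      ff k t (m - ((p / 4 : ℕ) : ZMod p)) =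
      star ((pr k : ℂ)⁻¹ * ∑ m : ZMod (pr k), ff k t m *
        star (ff k t (m - ((p / 4 : ℕ) : ZMod p)))) := by
    rw [star_mul', star_sum]
    congr 1
    · simp
    · apply Finset.sum_congr rfl
      intro m _
      rw [star_mul', star_star]
  rw [hconj, norm_star, hsum]
  exact hbound

end Pool.Agent.H468R2.MA
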