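import Pool.Agent.H468R2.MA.Tasks2

/-!
# Task O_II: the algebra of a Weyl system is the hyperfinite II₁ factor
-/

set_option autoImplicit false

open scoped InnerProductSpace
open Filter Topology

namespace Pool.Agent.H468R2.MA

namespace IIx

theorem om_single_right (κ : Gm) (k : ℕ) : om κ (sg k 1) = ZMod.stdAddChar (κ k) := by
  classical
  unfold om
  by_cases hk : k ∈ κ.support
  · rw [Finset.prod_eq_single k]
    · rw [DFinsupp.single_eq_same, mul_one]
    · intro i _ hi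
      rw [DFinsupp.single_eq_of_ne hi, mul_zero, AddChar.map_zero_eq_one]
    · intro h
      exact absurd hk h
  · have h0 : κ k = 0 := by simpa using hk
    rw [h0, AddChar.map_zero_eq_one]
    apply Finset.prod_eq_one
    intro i hi
    have hik : i ≠ k := fun h => hk (h ▸ hi)
    rw [DFinsupp.single_eq_of_ne hik, mul_zero, AddChar.map_zero_eq_one]

theorem om_single_left (γ : Gm) (k : ℕ) : om (sg k 1) γ = ZMod.stdAddChar (γ k) := by
  classical
  unfold om
  have hs : (sg k 1).support = {k} := by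
    ext i
    rw [DFinsupp.mem_support_iff, Finset.mem_singleton]
    constructor
    · intro h
      by_contra hik
      exact h (DFinsupp.single_eq_of_ne hik)
    · rintro rfl
      rw [DFinsupp.single_eq_same]
      exact one_ne_zero
  rw [hs, Finset.prod_singleton, DFinsupp.single_eq_same, one_mul]

theorem char_ne_one (k : ℕ) (a : ZMod (pr k)) (ha : a ≠ 0) :
    (ZMod.stdAddChar a : ℂ) ≠ 1 := by
  intro h
  apply ha
  apply ZMod.injective_stdAddChar
  rw [h, AddChar.map_zero_eq_one]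

variable {H : Type} [NormedAddCommGroup H] [InnerProductSpace ℂ H] [CompleteSpace H]

theorem inner_star_left (A : H →L[ℂ] H) (ξ η : H) : ⟪A ξ, η⟫_ℂ = ⟪ξ, (star A) η⟫_ℂ := by
  rw [ContinuousLinearMap.star_eq_adjoint, ContinuousLinearMap.adjoint_inner_right]

/-- central elements have no coefficients -/
theorem coef_zero (M : VonNeumannAlgebra H) (Ω : H)
    (tr : ∀ x ∈ M, ∀ y ∈ M, ⟪Ω, x (y Ω)⟫_ℂ = ⟪Ω, y (x Ω)⟫_ℂ) (u W z : H →L[ℂ] H) (c : ℂ)
    (hu : u ∈ M) (hW : W ∈ M) (hz : z ∈ M) (hzc : ∀ x ∈ M, z * x = x * z) (hWW : star W * W = 1)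
    (h : W * u * star W = c • u) (hc : c ≠ 1) : ⟪u Ω, z Ω⟫_ℂ = 0 := by
  have hWs : star W ∈ M := star_mem hW
  have hus : star u ∈ M := star_mem hu
  have h1 : W * star u * star W = star c • star u := by
    have h2 := congrArg star h
    rw [star_mul, star_mul, star_star, star_smul] at h2
    rw [← h2, mul_assoc]
  have h3 : ⟪Ω, (star u * z) Ω⟫_ℂ = star c * ⟪Ω, (star u * z) Ω⟫_ℂ := by
    calc ⟪Ω, (star u * z) Ω⟫_ℂ = ⟪Ω, (star u * z * (star W * W)) Ω⟫_ℂ := by rw [hWW, mul_one]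
      _ = ⟪Ω, (star u * z * star W) (W Ω)⟫_ℂ := by
        rw [← mul_assoc (star u * z)]
        rfl
      _ = ⟪Ω, W ((star u * z * star W) Ω)⟫_ℂ :=
        tr _ (mul_mem (mul_mem hus hz) hWs) _ hW
      _ = ⟪Ω, (W * star u * star W * z) Ω⟫_ℂ := by
        have h4 : z * star W = star W * z := hzc _ hWs
        have h5 : W * (star u * z * star W) = W * star u * star W * z := by
          rw [mul_assoc (star u), h4]
          simp only [mul_assoc]
        rw [← h5]
        rfl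
      _ = ⟪Ω, (star c • (star u * z)) Ω⟫_ℂ := by rw [h1, smul_mul_assoc]
      _ = star c * ⟪Ω, (star u * z) Ω⟫_ℂ := by
        rw [_root_.smul_apply, inner_smul_right]
  have h6 : ⟪u Ω, z Ω⟫_ℂ = ⟪Ω, (star u * z) Ω⟫_ℂ := by
    rw [inner_star_left]
    rfl
  rw [h6]
  have h7 : (1 - star c) * ⟪Ω, (star u * z) Ω⟫_ℂ = 0 := by
    rw [sub_mul, one_mul, ← h3, sub_self]
  rcases mul_eq_zero.1 h7 with h8 | h8
  · exfalso
    apply hc
    have h9 : star c = 1 := (sub_eq_zero.1 h8).symm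
    have h10 := congrArg star h9
    rwa [star_star, star_one] at h10
  · exact h8

theorem sup_finite (n : ℕ) : {γ : Gm | Sup n γ}.Finite := by
  classical
  have h1 : Function.Injective (fun (γ : {γ : Gm | Sup n γ}) (i : Fin n) => (γ : Gm) i) := by
    intro a b hab
    apply Subtype.ext
    apply DFinsupp.ext
    intro i
    by_cases hi : i < n
    · exact congrFun hab ⟨i, hi⟩
    · rw [a.2 i (by omega), b.2 i (by omega)]
  have h2 : Finite {γ : Gm | Sup n γ} := Finite.of_injective _ h1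
  exact Set.toFinite _

theorem fn_finite (X Z : Gm → (H →L[ℂ] H)) (n : ℕ) : FiniteDimensional ℂ (Fn X Z n) := by
  have h1 : {w | ∃ γ κ, Sup n γ ∧ Sup n κ ∧ w = X γ * Z κ} =
      (fun p : Gm × Gm => X p.1 * Z p.2) '' ({γ : Gm | Sup n γ} ×ˢ {κ : Gm | Sup n κ}) := by
    ext w
    constructor
    · rintro ⟨γ, κ, h1, h2, rfl⟩
      exact ⟨(γ, κ), ⟨h1, h2⟩, rfl⟩
    · rintro ⟨⟨γ, κ⟩, ⟨h1, h2⟩, rfl⟩
      exact ⟨γ, κ, h1, h2, rfl⟩
  unfold Fn
  rw [h1]
  exact FiniteDimensional.span_of_finite ℂ (((sup_finite n).prod (sup_finite n)).image _)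

/-- the algebra of the first sites -/
def Nn (M : VonNeumannAlgebra H) (Ω : H) (X Z : Gm → (H →L[ℂ] H)) (w : Wy M Ω X Z)
    (E : ℕ → (H →L[ℂ] H) → (H →L[ℂ] H)) (a : Apx M Ω X Z E) (n : ℕ) :
    StarSubalgebra ℂ (H →L[ℂ] H) where
  carrier := Fn X Z n
  mul_mem' := fun hx hy => a.fmul n _ hx _ hy
  one_mem' := Submodule.subset_span ⟨0, 0, fun _ _ => rfl, fun _ _ => rfl, by
    rw [w.X0, w.Z0, one_mul]⟩
  add_mem' := fun hx hy => (Fn X Z n).add_mem hx hy
  zero_mem' := (Fn X Z n).zero_mem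
  algebraMap_mem' := fun c => by
    rw [Algebra.algebraMap_eq_smul_one]
    refine (Fn X Z n).smul_mem c (Submodule.subset_span ⟨0, 0, fun _ _ => rfl, fun _ _ => rfl, ?_⟩)
    rw [w.X0, w.Z0, one_mul]
  star_mem' := fun hx => a.fst n _ hx

end IIx

open IIx in
/-- O_II -/
theorem t_O_II (hA : O_Apx) : O_II := by
  classical
  intro H _ _ _ M Ω X Z w
  obtain ⟨E, a⟩ := hA H M Ω X Z w
  have hone : X 0 * Z 0 = 1 := by rw [w.X0, w.Z0, one_mul]
  have hXX : ∀ γ, star (X γ) * X γ = 1 := fun γ => by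
    rw [w.Xst, ← w.Xadd, neg_add_cancel, w.X0]
  have hZZ : ∀ κ, star (Z κ) * Z κ = 1 := fun κ => by
    rw [w.Zst, ← w.Zadd, neg_add_cancel, w.Z0]
  refine ⟨⟨w.unit, w.tr, ?_, a.sep, ?_, ?_⟩, ?_⟩
  · rw [Metric.dense_iff]
    intro ξ ε hε
    obtain ⟨n, y, hy, hyξ⟩ := w.dns ξ ε hε
    refine ⟨y Ω, ?_, y, a.fmem n y hy, rfl⟩
    rw [Metric.mem_ball, dist_eq_norm]
    exact hyξ
  · intro z hz hzc
    refine ⟨⟪Ω, z Ω⟫_ℂ, ?_⟩
    set c : ℂ := ⟪Ω, z Ω⟫_ℂ with hc
    have hz' : z - c • (1 : H →L[ℂ] H) ∈ M := sub_mem hz (by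
      have h1 : c • (1 : H →L[ℂ] H) = algebraMap ℂ (H →L[ℂ] H) c :=
        (Algebra.algebraMap_eq_smul_one c).symm
      rw [h1]
      exact M.toStarSubalgebra.algebraMap_mem c)
    have happ : (z - c • (1 : H →L[ℂ] H)) Ω = z Ω - c • Ω := rfl
    have hcoef : ∀ γ κ : Gm, ⟪(X γ * Z κ) Ω, (z - c • (1 : H →L[ℂ] H)) Ω⟫_ℂ = 0 := by
      intro γ κ
      rw [happ, inner_sub_right, inner_smul_right]
      have h0 : ⟪(X γ * Z κ) Ω, Ω⟫_ℂ = if γ = 0 ∧ κ = 0 then 1 else 0 := by
        have h1 := w.orth γ κ 0 0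
        rw [hone] at h1
        by_cases hh : γ = 0 ∧ κ = 0
        · rw [if_pos hh] at h1 ⊢
          exact h1
        · rw [if_neg hh] at h1 ⊢
          exact h1
      by_cases hγκ : γ = 0 ∧ κ = 0
      · rw [h0, if_pos hγκ, hγκ.1, hγκ.2, hone, mul_one, sub_eq_zero]
        rfl
      · rw [h0, if_neg hγκ, mul_zero, sub_zero]
        have huM : X γ * Z κ ∈ M := mul_mem (w.Xm γ) (w.Zm κ)
        by_cases hκ : κ = 0
        · have hγ : γ ≠ 0 := fun h => hγκ ⟨h, hκ⟩
          obtain ⟨k, hk⟩ : ∃ k, γ k ≠ 0 := by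
            by_contra hcon
            push Not at hcon
            exact hγ (DFinsupp.ext hcon)
          refine coef_zero M Ω w.tr (X γ * Z κ) (Z (sg k 1)) z (ZMod.stdAddChar (γ k)) huM (w.Zm _)
            hz hzc (hZZ _) ?_ (char_ne_one k _ hk)
          rw [hκ, w.Z0, mul_one, w.cm, om_single_left, smul_mul_assoc, mul_assoc, w.Zst, ← w.Zadd,
            add_neg_cancel, w.Z0, mul_one]
        · obtain ⟨k, hk⟩ : ∃ k, κ k ≠ 0 := by
            by_contra hcon
            push Not at hcon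
            exact hκ (DFinsupp.ext hcon)
          refine coef_zero M Ω w.tr (X γ * Z κ) (X (-sg k 1)) z (ZMod.stdAddChar (κ k)) huM (w.Xm _)
            hz hzc (hXX _) ?_ (char_ne_one k _ hk)
          have h2 : star (X (-sg k 1)) = X (sg k 1) := by rw [w.Xst, neg_neg]
          rw [h2, mul_assoc, mul_assoc, w.cm, om_single_right, mul_smul_comm, mul_smul_comm,
            ← mul_assoc (X γ), ← w.Xadd, ← mul_assoc, ← w.Xadd]
          congr 3
          abel
    have hnorm := a.pars _ hz'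
    have h1 : (fun g : Gm × Gm => ‖⟪(X g.1 * Z g.2) Ω, (z - c • (1 : H →L[ℂ] H)) Ω⟫_ℂ‖ ^ 2) =
        fun _ => 0 := by
      funext g
      rw [hcoef]
      simp
    rw [h1] at hnorm
    have h2 : ‖(z - c • (1 : H →L[ℂ] H)) Ω‖ ^ 2 = 0 := (hasSum_zero.unique hnorm).symm
    have h3 : (z - c • (1 : H →L[ℂ] H)) Ω = 0 := by
      rw [← norm_eq_zero]
      exact pow_eq_zero_iff (two_ne_zero) |>.1 h2
    exact sub_eq_zero.1 (a.sep _ hz' h3)
  · intro hfd
    have hon : Orthonormal ℂ (fun k : ℕ => (X (sg k 1) * Z 0) Ω) := by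
      rw [orthonormal_iff_ite]
      intro i j
      rw [w.orth]
      by_cases hij : i = j
      · subst hij
        simp
      · rw [if_neg hij, if_neg]
        rintro ⟨h1, _⟩
        have h2 := congrArg (fun γ : Gm => γ i) h1
        simp only [DFinsupp.single_eq_same] at h2
        rw [DFinsupp.single_eq_of_ne hij] at h2
        exact one_ne_zero h2
    have hli := hon.linearIndependent
    have hfin : Finite ℕ := hli.finite
    exact not_finite ℕ
  · refine ⟨Nn M Ω X Z w E a, ?_, ?_, ?_, ?_⟩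
    · intro m n hmn x hx
      exact a.fmono m n hmn hx
    · intro n
      have h1 := fn_finite X Z n
      let f : Nn M Ω X Z w E a n →ₗ[ℂ] Fn X Z n :=
        { toFun := fun x => ⟨x.1, x.2⟩
          map_add' := fun _ _ => rfl
          map_smul' := fun _ _ => rfl }
      refine FiniteDimensional.of_injective f ?_
      intro x y hxy
      exact Subtype.ext (congrArg Subtype.val hxy)
    · intro n x hx
      exact a.fmem n x hx
    · intro x hx ε hε
      obtain ⟨n, hn⟩ := ((a.two x hx).eventually (gt_mem_nhds hε)).exists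
      refine ⟨n, E n x, a.mem n x hx, ?_⟩
      exact hn

end Pool.Agent.H468R2.MA
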