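import Pool.Agent.H468R2.MA.Tasks2

/-! Task O_L1 (helper268): summable perturbations of the parameter give unitarily conjugate
masas. -/

set_option autoImplicit false

open scoped InnerProductSpace
open Filter Topology

namespace Pool.Agent.H468R2.MA

section

variable {H : Type} [NormedAddCommGroup H] [InnerProductSpace ℂ H] [CompleteSpace H]

namespace OL1

theorem ff_norm (k : ℕ) (t : ℝ) (m : ZMod (pr k)) : ‖ff k t m‖ = 1 := by
  unfold ff
  split_ifs
  · exact Complex.norm_exp_ofReal_mul_I t
  · simp

theorem ff_add (k : ℕ) (t t' : ℝ) (m : ZMod (pr k)) : ff k (t + t') m = ff k t m * ff k t' m := by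
  unfold ff
  split_ifs
  · rw [← Complex.exp_add]
    congr 1
    push_cast
    ring
  · simp

theorem ff_star (k : ℕ) (t : ℝ) (m : ZMod (pr k)) : star (ff k t m) = ff k (-t) m := by
  unfold ff
  split_ifs
  · rw [Complex.star_def, ← Complex.exp_conj]
    congr 1
    simp
  · simp

theorem ff_zero (k : ℕ) (m : ZMod (pr k)) : ff k 0 m = 1 := by
  unfold ff
  split_ifs <;> simp

theorem ff_sub_one (k : ℕ) (t : ℝ) (m : ZMod (pr k)) : ‖ff k t m + -1‖ ≤ |t| := by
  unfold ff
  split_ifs
  · have := @Real.norm_exp_I_mul_ofReal_sub_one_le t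
    rw [← sub_eq_add_neg, mul_comm]
    exact this
  · simp

variable {M : VonNeumannAlgebra H} {Ω : H} {X Z : Gm → (H →L[ℂ] H)}

theorem FF_add (hC : Calc M Ω X Z) (k : ℕ) (t t' : ℝ) :
    FF Z k (t + t') = FF Z k t * FF Z k t' := by
  unfold FF
  rw [← hC.mul]
  congr 1
  funext m
  exact ff_add k t t' m

theorem FF_zero (hC : Calc M Ω X Z) (k : ℕ) : FF Z k 0 = 1 := by
  unfold FF
  rw [← hC.one k]
  congr 1
  funext m
  exact ff_zero k m

theorem FF_star (hC : Calc M Ω X Z) (k : ℕ) (t : ℝ) : star (FF Z k t) = FF Z k (-t) := by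
  unfold FF
  rw [hC.st]
  congr 1
  funext m
  exact ff_star k t m

theorem FF_mul_star (hC : Calc M Ω X Z) (k : ℕ) (t : ℝ) : FF Z k t * star (FF Z k t) = 1 := by
  rw [FF_star hC, ← FF_add hC, add_neg_cancel, FF_zero hC]

theorem FF_star_mul (hC : Calc M Ω X Z) (k : ℕ) (t : ℝ) : star (FF Z k t) * FF Z k t = 1 := by
  rw [FF_star hC, ← FF_add hC, neg_add_cancel, FF_zero hC]

theorem FF_sub_one (hC : Calc M Ω X Z) (k : ℕ) (t : ℝ) : ‖FF Z k t - 1‖ ≤ |t| := by
  have h1 : FF Z k t - 1 = Dg Z k (fun m => ff k t m + -1) := by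
    rw [hC.add]
    have h2 : Dg Z k (fun _ : ZMod (pr k) => (-1 : ℂ)) = (-1 : ℂ) • Dg Z k (fun _ => 1) := by
      rw [← hC.smul]
      simp
    rw [h2, hC.one]
    unfold FF
    simp [sub_eq_add_neg]
  rw [h1]
  exact hC.norm k _ _ (fun m => ff_sub_one k t m)

theorem FF_commDg (hC : Calc M Ω X Z) (k l : ℕ) (t : ℝ) (h : ZMod (pr l) → ℂ) :
    Commute (FF Z k t) (Dg Z l h) := hC.cc k l _ _

theorem FF_commX (hC : Calc M Ω X Z) {k l : ℕ} (hkl : k ≠ l) (t : ℝ) (j : ZMod (pr l)) :
    Commute (FF Z k t) (X (sg l j)) := by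
  refine hC.commX k _ _ ?_
  rw [DFinsupp.single_apply]
  exact dif_neg (fun h => hkl h.symm)

/-- the third site unitary -/
theorem comm_w (hC : Calc M Ω X Z) {k l : ℕ} (hkl : k ≠ l) (t a : ℝ) (j : ZMod (pr l)) :
    Commute (FF Z k t) (FF Z l a * X (sg l j) * star (FF Z l a)) := by
  refine Commute.mul_right (Commute.mul_right (FF_commDg hC _ _ _ _) (FF_commX hC hkl t j)) ?_
  rw [FF_star hC]
  exact FF_commDg hC _ _ _ _

/-- partial products -/
noncomputable def PP (Z : Gm → (H →L[ℂ] H)) (s : ℕ → ℝ) : ℕ → (H →L[ℂ] H)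
  | 0 => 1
  | (n + 1) => PP Z s n * (if n = 0 then 1 else FF Z n (s n))

theorem PP_unit (hC : Calc M Ω X Z) (s : ℕ → ℝ) (n : ℕ) :
    star (PP Z s n) * PP Z s n = 1 ∧ PP Z s n * star (PP Z s n) = 1 := by
  induction n with
  | zero => simp [PP]
  | succ n ih =>
    simp only [PP]
    split_ifs with h
    · simpa using ih
    · rw [star_mul]
      constructor
      · calc star (FF Z n (s n)) * star (PP Z s n) * (PP Z s n * FF Z n (s n))
            = star (FF Z n (s n)) * (star (PP Z s n) * PP Z s n) * FF Z n (s n) := by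
              simp only [mul_assoc]
          _ = 1 := by rw [ih.1, mul_one, FF_star_mul hC]
      · calc PP Z s n * FF Z n (s n) * (star (FF Z n (s n)) * star (PP Z s n))
            = PP Z s n * (FF Z n (s n) * star (FF Z n (s n))) * star (PP Z s n) := by
              simp only [mul_assoc]
          _ = 1 := by rw [FF_mul_star hC, mul_one, ih.2]

theorem PP_comm (hC : Calc M Ω X Z) (s : ℕ → ℝ) (a : H →L[ℂ] H)
    (ha : ∀ k, 1 ≤ k → Commute (FF Z k (s k)) a) (n : ℕ) : Commute (PP Z s n) a := by
  induction n with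
  | zero => exact Commute.one_left a
  | succ n ih =>
    simp only [PP]
    refine Commute.mul_left ih ?_
    split_ifs with h
    · exact Commute.one_left a
    · exact ha n (by omega)

theorem PP_norm (hC : Calc M Ω X Z) (s : ℕ → ℝ) (n : ℕ) : ‖PP Z s n‖ ≤ 1 := by
  have h := (PP_unit hC s n).1
  have h1 : ‖PP Z s n‖ * ‖PP Z s n‖ = ‖star (PP Z s n) * PP Z s n‖ :=
    (CStarRing.norm_star_mul_self).symm
  rw [h] at h1
  have h2 : ‖(1 : H →L[ℂ] H)‖ ≤ 1 := ContinuousLinearMap.norm_id_le
  nlinarith [norm_nonneg (PP Z s n)]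

theorem PP_mem (hC : Calc M Ω X Z) (s : ℕ → ℝ) (n : ℕ) : PP Z s n ∈ M := by
  induction n with
  | zero => exact one_mem M
  | succ n ih =>
    simp only [PP]
    refine mul_mem ih ?_
    split_ifs with h
    · exact one_mem M
    · exact hC.mem _ _

theorem PP_dist (hC : Calc M Ω X Z) (s : ℕ → ℝ) (n : ℕ) :
    dist (PP Z s n) (PP Z s n.succ) ≤ |s n| := by
  rw [dist_comm, dist_eq_norm]
  simp only [PP]
  split_ifs with h
  · simp
  · have : PP Z s n * FF Z n (s n) - PP Z s n = PP Z s n * (FF Z n (s n) - 1) := by
      rw [mul_sub, mul_one]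
    rw [this]
    calc ‖PP Z s n * (FF Z n (s n) - 1)‖ ≤ ‖PP Z s n‖ * ‖FF Z n (s n) - 1‖ := norm_mul_le _ _
      _ ≤ 1 * |s n| := by
          gcongr
          · exact PP_norm hC s n
          · exact FF_sub_one hC n _
      _ = _ := one_mul _

/-- conjugation by the partial products -/
theorem PP_conj (hC : Calc M Ω X Z) (x y : ℕ → ℝ) {k : ℕ} (hk : 1 ≤ k) (j : ZMod (pr k)) (n : ℕ)
    (hn : k + 1 ≤ n) :
    PP Z (fun k => y k - x k) n * (FF Z k (x k) * X (sg k j) * star (FF Z k (x k))) *
      star (PP Z (fun k => y k - x k) n) = FF Z k (y k) * X (sg k j) * star (FF Z k (y k)) := by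
  set s : ℕ → ℝ := fun k => y k - x k with hs
  set w := FF Z k (x k) * X (sg k j) * star (FF Z k (x k)) with hw
  set w' := FF Z k (y k) * X (sg k j) * star (FF Z k (y k)) with hw'
  have hlow : ∀ m, m ≤ k → Commute (PP Z s m) w' := by
    intro m
    induction m with
    | zero => intro _; exact Commute.one_left _
    | succ m ih =>
      intro hm
      simp only [PP]
      refine Commute.mul_left (ih (by omega)) ?_
      split_ifs with h
      · exact Commute.one_left _
      · exact comm_w hC (by omega) _ _ _
  have hstep : FF Z k (s k) * w * star (FF Z k (s k)) = w' := by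
    have h1 : FF Z k (y k) = FF Z k (s k) * FF Z k (x k) := by
      rw [← FF_add hC]
      congr 1
      simp [hs]
    rw [hw', h1, hw, star_mul]
    simp only [mul_assoc]
  obtain ⟨d, rfl⟩ : ∃ d, n = k + 1 + d := ⟨n - (k + 1), by omega⟩
  clear hn
  induction d with
  | zero =>
    simp only [add_zero, PP]
    rw [if_neg (by omega), star_mul]
    calc PP Z s k * FF Z k (s k) * w * (star (FF Z k (s k)) * star (PP Z s k))
        = PP Z s k * (FF Z k (s k) * w * star (FF Z k (s k))) * star (PP Z s k) := by
          simp only [mul_assoc]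
      _ = PP Z s k * w' * star (PP Z s k) := by rw [hstep]
      _ = w' * (PP Z s k * star (PP Z s k)) := by
          rw [(hlow k le_rfl).eq, mul_assoc]
      _ = w' := by rw [(PP_unit hC s k).2, mul_one]
  | succ d ih =>
    have e : k + 1 + (d + 1) = (k + 1 + d) + 1 := by ring
    rw [e]
    simp only [PP]
    rw [if_neg (by omega), star_mul]
    have hc : Commute (FF Z (k + 1 + d) (s (k + 1 + d))) w := comm_w hC (by omega) _ _ _
    calc PP Z s (k + 1 + d) * FF Z (k + 1 + d) (s (k + 1 + d)) * w *
          (star (FF Z (k + 1 + d) (s (k + 1 + d))) * star (PP Z s (k + 1 + d)))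
        = PP Z s (k + 1 + d) * (FF Z (k + 1 + d) (s (k + 1 + d)) * w *
          star (FF Z (k + 1 + d) (s (k + 1 + d)))) * star (PP Z s (k + 1 + d)) := by
          simp only [mul_assoc]
      _ = PP Z s (k + 1 + d) * w * star (PP Z s (k + 1 + d)) := by
          rw [hc.eq, mul_assoc w, FF_mul_star hC, mul_one]
      _ = w' := ih

end OL1

open OL1

theorem t_O_L1 (h1 : O_Calc) (h3 : O_Str) : O_L1 := by
  intro H _ _ _ M Ω X Z hW x y hsum
  have hC := h1 H M Ω X Z hW
  have hS := h3 H M Ω X Z hW
  set s : ℕ → ℝ := fun k => y k - x k with hs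
  have hsum' : Summable (fun n => |s n|) := by
    refine hsum.congr fun n => ?_
    simp only [hs]
    exact abs_sub_comm _ _
  obtain ⟨P, hP⟩ := cauchySeq_tendsto_of_complete
    (cauchySeq_of_dist_le_of_summable (fun n => |s n|) (PP_dist hC s) hsum')
  -- properties of the limit
  have hlimC : ∀ a : H →L[ℂ] H, (∀ n, Commute (PP Z s n) a) → Commute P a := by
    intro a ha
    have e1 : Tendsto (fun n => PP Z s n * a) atTop (𝓝 (P * a)) := hP.mul_const a
    have e2 : Tendsto (fun n => a * PP Z s n) atTop (𝓝 (a * P)) := hP.const_mul a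
    have e3 : (fun n => PP Z s n * a) = fun n => a * PP Z s n := by
      funext n; exact (ha n).eq
    rw [e3] at e1
    exact tendsto_nhds_unique e1 e2
  have hPst : Tendsto (fun n => star (PP Z s n)) atTop (𝓝 (star P)) := hP.star
  have hP1 : star P * P = 1 := by
    have e1 := hPst.mul hP
    have e2 : (fun n => star (PP Z s n) * PP Z s n) = fun _ => 1 := by
      funext n; exact (PP_unit hC s n).1
    rw [e2] at e1
    exact (tendsto_nhds_unique e1 tendsto_const_nhds)
  have hP2 : P * star P = 1 := by
    have e1 := hP.mul hPst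
    have e2 : (fun n => PP Z s n * star (PP Z s n)) = fun _ => 1 := by
      funext n; exact (PP_unit hC s n).2
    rw [e2] at e1
    exact (tendsto_nhds_unique e1 tendsto_const_nhds)
  have hPM : P ∈ M := by
    rw [← VonNeumannAlgebra.commutant_commutant M, VonNeumannAlgebra.mem_commutant_iff]
    intro g hg
    rw [VonNeumannAlgebra.mem_commutant_iff] at hg
    exact (hlimC g (fun n => hg _ (PP_mem hC s n))).symm.eq
  have hPee : ∀ i, Commute P (ee Z i) := fun i =>
    hlimC _ (fun n => PP_comm hC s _ (fun k _ => FF_commDg hC _ _ _ _) n)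
  have hPconj : ∀ k, 1 ≤ k → ∀ j : ZMod (pr k),
      P * (FF Z k (x k) * X (sg k j) * star (FF Z k (x k))) * star P =
        FF Z k (y k) * X (sg k j) * star (FF Z k (y k)) := by
    intro k hk j
    have e1 := (hP.mul_const (FF Z k (x k) * X (sg k j) * star (FF Z k (x k)))).mul hPst
    refine tendsto_nhds_unique e1 ?_
    refine tendsto_const_nhds.congr' ?_
    filter_upwards [eventually_ge_atTop (k + 1)] with n hn
    exact (PP_conj hC x y hk j n hn).symm
  -- the unitary
  set e := ee Z 2 with he
  have hee := hS.ee_idem 2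
  have hes := hS.ee_star 2
  rw [← he] at hee hes
  have hPe : P * e = e * P := (hPee 2).eq
  have hsPe : star P * e = e * star P := by
    have := congrArg star hPe
    rw [star_mul, star_mul, hes] at this
    exact this.symm
  set V : H →L[ℂ] H := (1 - e) + e * P with hV
  have hVs : star V = (1 - e) + e * star P := by
    rw [hV, star_add, star_sub, star_one, star_mul, hes, hsPe]
  have heM : e ∈ M := hS.ee_mem 2
  have hVM : V ∈ M := add_mem (sub_mem (one_mem M) heM) (mul_mem heM hPM)
  have o1 : (1 - e) * e = 0 := by rw [sub_mul, one_mul, hee, sub_self]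
  have o2 : e * (1 - e) = 0 := by rw [mul_sub, mul_one, hee, sub_self]
  have o3 : (1 - e) * (1 - e) = 1 - e := by rw [mul_sub, mul_one, o1, sub_zero]
  have hVV : ∀ A B : H →L[ℂ] H, A * e = e * A → A * B = 1 →
      ((1 - e) + e * A) * ((1 - e) + e * B) = 1 := by
    intro A B hA hAB
    have e1 : (1 - e) * (e * B) = 0 := by rw [← mul_assoc, o1, zero_mul]
    have e2 : e * A * (1 - e) = 0 := by rw [← hA, mul_assoc, o2, mul_zero]
    have e3 : e * A * (e * B) = e := by
      calc e * A * (e * B) = e * (A * e) * B := by simp only [mul_assoc]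
        _ = (e * e) * (A * B) := by rw [hA]; simp only [mul_assoc]
        _ = e := by rw [hee, hAB, mul_one]
    rw [add_mul, mul_add, mul_add, o3, e1, e2, e3]
    abel
  have hU1 : star V * V = 1 := by rw [hVs, hV]; exact hVV _ _ hsPe hP1
  have hU2 : V * star V = 1 := by rw [hVs, hV]; exact hVV _ _ hPe hP2
  -- action on the projections
  have hVee : ∀ i, V * ee Z i = ee Z i * V := by
    intro i
    have h2 : e * ee Z i = ee Z i * e := hC.cc 0 0 _ _
    rw [hV, add_mul, mul_add, sub_mul, mul_sub, one_mul, mul_one, h2]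
    congr 1
    rw [mul_assoc, (hPee i).eq, ← mul_assoc, h2, mul_assoc]
  have hconj : ∀ i, ∀ k, 1 ≤ k → ∀ l : ZMod (pr k),
      V * (ee Z i * vv X Z x i k l) * star V = ee Z i * vv X Z y i k l := by
    intro i k hk l
    have hvt : vv X Z x i k l * ee Z i = ee Z i * vv X Z x i k l :=
      hS.ee_tl i _ ((hS.aa_vv x i k hk l).2.2 1 hk)
    have hi : i = 0 ∨ i = 1 ∨ i = 2 := by
      have : ∀ i : ZMod 3, i = 0 ∨ i = 1 ∨ i = 2 := by decide
      exact this i
    by_cases hi2 : i = 2
    · subst hi2
      have hne0 : (2 : ZMod (pr 0)) ≠ 0 := by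
        have : (2 : ZMod 3) ≠ 0 := by decide
        exact this
      have hne1 : (2 : ZMod (pr 0)) ≠ 1 := by
        have : (2 : ZMod 3) ≠ 1 := by decide
        exact this
      have hvx : vv X Z x 2 k l = FF Z k (x k) * X (sg k l) * star (FF Z k (x k)) := by
        unfold vv; rw [if_neg hne0, if_neg hne1]
      have hvy : vv X Z y 2 k l = FF Z k (y k) * X (sg k l) * star (FF Z k (y k)) := by
        unfold vv; rw [if_neg hne0, if_neg hne1]
      rw [← he] at hvt ⊢
      set w := vv X Z x 2 k l with hw
      have hVe : V * e = e * P := by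
        rw [hV, add_mul, o1, zero_add, mul_assoc, hPe, ← mul_assoc, hee]
      have heV : e * star V = e * star P := by
        rw [hVs, mul_add, o2, zero_add, ← mul_assoc, hee]
      calc V * (e * w) * star V = (V * e) * w * star V := by simp only [mul_assoc]
        _ = e * P * w * star V := by rw [hVe]
        _ = P * (w * (e * star V)) := by
            rw [← hPe]
            calc P * e * w * star V = P * (e * w) * star V := by simp only [mul_assoc]
              _ = P * (w * e) * star V := by rw [hvt]
              _ = _ := by simp only [mul_assoc]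
        _ = P * (w * (e * star P)) := by rw [heV]
        _ = P * (e * w) * star P := by rw [← mul_assoc w, hvt]; simp only [mul_assoc]
        _ = e * (P * w * star P) := by
            rw [← mul_assoc P, hPe]; simp only [mul_assoc]
        _ = e * vv X Z y 2 k l := by
            rw [hvx, hvy, hPconj k hk l]
    · have h0 : e * ee Z i = 0 := hS.ee_orth 2 i (fun h => hi2 h.symm)
      have h0' : ee Z i * e = 0 := hS.ee_orth i 2 hi2
      have hvv : vv X Z x i k l = vv X Z y i k l := by
        unfold vv
        rcases hi with h | h | h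
        · rw [if_pos h, if_pos h]
        · by_cases h' : i = 0
          · rw [if_pos h', if_pos h']
          · rw [if_neg h', if_neg h', if_pos h, if_pos h]
        · exact absurd h hi2
      have hVe : V * ee Z i = ee Z i := by
        rw [hVee, hV, mul_add, mul_sub, mul_one, h0', sub_zero, ← mul_assoc, h0', zero_mul,
          add_zero]
      have heV : ee Z i * star V = ee Z i := by
        rw [hVs, mul_add, mul_sub, mul_one, h0', sub_zero, ← mul_assoc, h0', zero_mul, add_zero]
      calc V * (ee Z i * vv X Z x i k l) * star V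
          = (V * ee Z i) * vv X Z x i k l * star V := by simp only [mul_assoc]
        _ = ee Z i * vv X Z x i k l * star V := by rw [hVe]
        _ = vv X Z x i k l * (ee Z i * star V) := by rw [← hvt, mul_assoc]
        _ = ee Z i * vv X Z y i k l := by rw [heV, hvt, hvv]
  have hVee' : ∀ i, V * ee Z i * star V = ee Z i := by
    intro i
    rw [hVee, mul_assoc, hU2, mul_one]
  -- conjugation preserves commutation
  have hcomm : ∀ d a a' : H →L[ℂ] H, V * a * star V = a' →
      (d * a = a * d ↔ V * d * star V * a' = a' * (V * d * star V)) := by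
    intro d a a' ha
    subst ha
    have e1 : V * d * star V * (V * a * star V) = V * (d * a) * star V := by
      calc V * d * star V * (V * a * star V) = V * d * (star V * V) * a * star V := by
            simp only [mul_assoc]
        _ = _ := by rw [hU1, mul_one]; simp only [mul_assoc]
    have e2 : V * a * star V * (V * d * star V) = V * (a * d) * star V := by
      calc V * a * star V * (V * d * star V) = V * a * (star V * V) * d * star V := by
            simp only [mul_assoc]
        _ = _ := by rw [hU1, mul_one]; simp only [mul_assoc]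
    rw [e1, e2]
    constructor
    · intro h; rw [h]
    · intro h
      have := congrArg (fun z => star V * z * V) h
      have e3 : ∀ z : H →L[ℂ] H, star V * (V * z * star V) * V = z := by
        intro z
        calc star V * (V * z * star V) * V = (star V * V) * z * (star V * V) := by
              simp only [mul_assoc]
          _ = z := by rw [hU1, one_mul, mul_one]
      rwa [e3, e3] at this
  have hmem : ∀ d : H →L[ℂ] H, d ∈ M ↔ V * d * star V ∈ M := by
    intro d
    constructor
    · intro h; exact mul_mem (mul_mem hVM h) (star_mem hVM)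
    · intro h
      have h2 := mul_mem (mul_mem (star_mem hVM) h) hVM
      have e3 : star V * (V * d * star V) * V = d := by
        calc star V * (V * d * star V) * V = (star V * V) * d * (star V * V) := by
              simp only [mul_assoc]
          _ = d := by rw [hU1, one_mul, mul_one]
      rwa [e3] at h2
  refine ⟨V, hVM, ⟨hU1, hU2⟩, fun d => ?_⟩
  unfold DD
  constructor
  · rintro ⟨g1, g2, g3⟩
    exact ⟨(hmem d).mp g1, fun i => (hcomm d _ _ (hVee' i)).mp (g2 i),
      fun i k hk l => (hcomm d _ _ (hconj i k hk l)).mp (g3 i k hk l)⟩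
  · rintro ⟨g1, g2, g3⟩
    exact ⟨(hmem d).mpr g1, fun i => (hcomm d _ _ (hVee' i)).mpr (g2 i),
      fun i k hk l => (hcomm d _ _ (hconj i k hk l)).mpr (g3 i k hk l)⟩

end

end Pool.Agent.H468R2.MA
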