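import Pool.Agent.H468R2.MA.Tasks2

/-!
Task O_Masa: `DD x` is a masa.
-/

set_option autoImplicit false

open scoped InnerProductSpace
open Filter Topology

namespace Pool.Agent.H468R2.MA

section

variable {H : Type} [NormedAddCommGroup H] [InnerProductSpace ℂ H] [CompleteSpace H]
  {M : VonNeumannAlgebra H} {Ω : H} {X Z : Gm → (H →L[ℂ] H)}

theorem masa_aux_comm (hS : Str M Ω X Z) (x : ℕ → ℝ) (d : H →L[ℂ] H) (hd : d ∈ DD M X Z x)
    (d' : H →L[ℂ] H) (hd' : d' ∈ DD M X Z x) : d * d' = d' * d := by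
  obtain ⟨t, ht, rfl⟩ := (hS.dd_iff x d).1 hd
  obtain ⟨s, hs, rfl⟩ := (hS.dd_iff x d').1 hd'
  have key : ∀ (t s : ZMod (pr 0) → (H →L[ℂ] H)), (∀ i, t i ∈ AA M X Z x i) →
      (∀ i, s i ∈ AA M X Z x i) →
      (∑ i, ee Z i * t i) * (∑ i, ee Z i * s i) = ∑ i, ee Z i * (t i * s i) := by
    intro t s ht hs
    rw [Finset.sum_mul]
    apply Finset.sum_congr rfl
    intro i _
    rw [Finset.mul_sum, Finset.sum_eq_single i]
    · have h1 := hS.ee_tl i (t i) (ht i).1
      calc ee Z i * t i * (ee Z i * s i) = ee Z i * (t i * ee Z i) * s i := by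
            simp only [mul_assoc]
        _ = ee Z i * (ee Z i * t i) * s i := by rw [h1]
        _ = (ee Z i * ee Z i) * (t i * s i) := by simp only [mul_assoc]
        _ = ee Z i * (t i * s i) := by rw [hS.ee_idem]
    · intro j _ hj
      have h1 := hS.ee_tl j (t i) (ht i).1
      calc ee Z i * t i * (ee Z j * s j) = ee Z i * (t i * ee Z j) * s j := by
            simp only [mul_assoc]
        _ = ee Z i * (ee Z j * t i) * s j := by rw [h1]
        _ = (ee Z i * ee Z j) * (t i * s j) := by simp only [mul_assoc]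
        _ = 0 := by rw [hS.ee_orth i j (Ne.symm hj), zero_mul]
    · intro h
      exact absurd (Finset.mem_univ i) h
  rw [key t s ht hs, key s t hs ht]
  apply Finset.sum_congr rfl
  intro i _
  rw [(hS.aa_alg x i (t i) (ht i) (s i) (hs i)).2.2.2.2]

/-- `DD x` as a star subalgebra -/
def masaSub (hS : Str M Ω X Z) (x : ℕ → ℝ) : StarSubalgebra ℂ (H →L[ℂ] H) where
  carrier := DD M X Z x
  mul_mem' := by
    rintro a b ⟨ha, ha1, ha2⟩ ⟨hb, hb1, hb2⟩
    refine ⟨M.mul_mem ha hb, fun i => ?_, fun i k hk l => ?_⟩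
    · rw [mul_assoc, hb1, ← mul_assoc, ha1, mul_assoc]
    · rw [mul_assoc, hb2 i k hk l, ← mul_assoc, ha2 i k hk l, mul_assoc]
  add_mem' := by
    rintro a b ⟨ha, ha1, ha2⟩ ⟨hb, hb1, hb2⟩
    refine ⟨M.add_mem ha hb, fun i => ?_, fun i k hk l => ?_⟩
    · rw [add_mul, mul_add, ha1, hb1]
    · rw [add_mul, mul_add, ha2 i k hk l, hb2 i k hk l]
  algebraMap_mem' := by
    intro r
    refine ⟨M.toStarSubalgebra.algebraMap_mem r, fun i => ?_, fun i k hk l => ?_⟩
    · exact Algebra.commutes r _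
    · exact Algebra.commutes r _
  star_mem' := by
    intro a ha
    obtain ⟨t, ht, rfl⟩ := (hS.dd_iff x a).1 ha
    refine (hS.dd_iff x _).2 ⟨fun i => star (t i), fun i =>
      (hS.aa_alg x i (t i) (ht i) (t i) (ht i)).2.2.1, ?_⟩
    rw [star_sum]
    apply Finset.sum_congr rfl
    intro i _
    rw [star_mul, hS.ee_star]
    exact hS.ee_tl i _ ((hS.aa_alg x i (t i) (ht i) (t i) (ht i)).2.2.1).1

end

/-- O4: `DD x` is a masa. -/
theorem t_O_Masa (h1 : O_Str) : O_Masa := by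
  intro H _ _ _ M Ω X Z hW x
  have hS := h1 H M Ω X Z hW
  refine ⟨⟨masaSub hS x, fun d hd => hd.1, fun a ha b hb => masa_aux_comm hS x a ha b hb, ?_⟩, rfl⟩
  intro B hBM hBc hAB b hb
  refine ⟨hBM b hb, fun i => ?_, fun i k hk l => ?_⟩
  · exact hBc b hb _ (hAB _ (hS.dd_ee x i))
  · exact hBc b hb _ (hAB _ (hS.dd_mul x i _ (hS.aa_vv x i k hk l).1))

end Pool.Agent.H468R2.MA
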