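import Pool.Agent.H468R2.MA.Tasks2

/-! Task O_ModB (helper485): the conditional expectation of the model. -/

set_option autoImplicit false

open scoped InnerProductSpace
open Filter Topology

namespace Pool.Agent.H468R2.MA

namespace ModB

/-- the basis -/
noncomputable def bs : HilbertBasis GG ℂ HH := HilbertBasis.ofRepr (LinearIsometryEquiv.refl ℂ HH)

theorem bs_apply (g : GG) : bs g = dl g := by
  have h : bs.repr (bs g) = lp.single 2 g (1 : ℂ) := bs.repr_self g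
  have h2 : bs.repr (bs g) = bs g := rfl
  rw [h2] at h
  rw [h]
  unfold dl
  congr

open Classical in
theorem inner_dl (g h : GG) : (⟪dl g, dl h⟫_ℂ : ℂ) = if g = h then 1 else 0 := by
  have := (orthonormal_iff_ite.1 bs.orthonormal) g h
  rw [bs_apply, bs_apply] at this
  exact this

theorem dense_dl : Dense ((Submodule.span ℂ (Set.range dl) : Submodule ℂ HH) : Set HH) := by
  have h := bs.dense_span
  have h2 : Set.range (bs : GG → HH) = Set.range dl := by
    congr 1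
    funext g
    exact bs_apply g
  rw [h2] at h
  exact (Submodule.dense_iff_topologicalClosure_eq_top).2 h

/-- Pythagoras -/
theorem pyth {ι : Type} (s : Finset ι) (u : ι → HH)
    (h : ∀ i ∈ s, ∀ j ∈ s, i ≠ j → ⟪u i, u j⟫_ℂ = 0) : ‖∑ i ∈ s, u i‖ ^ 2 = ∑ i ∈ s, ‖u i‖ ^ 2 := by
  classical
  induction s using Finset.induction_on with
  | empty => simp
  | insert a s ha ih =>
    rw [Finset.sum_insert ha, Finset.sum_insert ha]
    have h1 : ⟪u a, ∑ i ∈ s, u i⟫_ℂ = 0 := by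
      rw [inner_sum]
      apply Finset.sum_eq_zero
      intro i hi
      exact h a (Finset.mem_insert_self _ _) i (Finset.mem_insert_of_mem hi)
        (fun he => ha (he ▸ hi))
    have h2 := norm_add_sq (𝕜 := ℂ) (u a) (∑ i ∈ s, u i)
    rw [h1] at h2
    have h3 := ih (fun i hi j hj => h i (Finset.mem_insert_of_mem hi) j (Finset.mem_insert_of_mem hj))
    rw [← h3, h2]
    simp

/-- the sites `≥ n` -/
noncomputable def pj (n : ℕ) (g : GG) : GG :=
  (g.1.filter (fun i => n ≤ i), g.2.filter (fun i => n ≤ i))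

theorem pj_eq (n : ℕ) (g h : GG) : pj n g = pj n h ↔ Sup n (g - h).1 ∧ Sup n (g - h).2 := by
  unfold pj Sup
  rw [Prod.ext_iff]
  simp only [DFinsupp.ext_iff, DFinsupp.filter_apply]
  constructor
  · rintro ⟨h1, h2⟩
    refine ⟨fun i hi => ?_, fun i hi => ?_⟩
    · have := h1 i
      rw [if_pos hi, if_pos hi] at this
      rw [Prod.fst_sub, DFinsupp.sub_apply, this, sub_self]
    · have := h2 i
      rw [if_pos hi, if_pos hi] at this
      rw [Prod.snd_sub, DFinsupp.sub_apply, this, sub_self]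
  · rintro ⟨h1, h2⟩
    refine ⟨fun i => ?_, fun i => ?_⟩
    · split_ifs with hi
      · have := h1 i hi
        rw [Prod.fst_sub, DFinsupp.sub_apply] at this
        exact sub_eq_zero.1 this
      · rfl
    · split_ifs with hi
      · have := h2 i hi
        rw [Prod.snd_sub, DFinsupp.sub_apply] at this
        exact sub_eq_zero.1 this
      · rfl

theorem fin_Sup (n : ℕ) : {γ : Gm | Sup n γ}.Finite := by
  apply Set.Finite.of_finite_image (f := fun γ : Gm => (fun i : Fin n => γ (i : ℕ)))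
    (Set.toFinite _)
  intro γ hγ γ' hγ' he
  apply DFinsupp.ext
  intro i
  by_cases hi : i < n
  · exact congrFun he ⟨i, hi⟩
  · rw [hγ i (not_lt.1 hi), hγ' i (not_lt.1 hi)]

theorem fin_G (n : ℕ) : {g : GG | Sup n g.1 ∧ Sup n g.2}.Finite := by
  have := (fin_Sup n).prod (fin_Sup n)
  refine this.subset ?_
  rintro ⟨a, b⟩ ⟨h1, h2⟩
  exact ⟨h1, h2⟩

section main

variable {lam rho : GG → (HH →L[ℂ] HH)} {M : VonNeumannAlgebra HH}

theorem lam_act (hp : OmP) (hO : Ops lam rho M) (γ κ : Gm) (k : GG) :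
    (lam (γ, 0) * lam (0, κ)) (dl k) = om κ k.1 • dl ((γ, κ) + k) := by
  show lam (γ, 0) (lam (0, κ) (dl k)) = _
  rw [hO.l, map_smul, hO.l]
  have h1 : sgm (0, κ) k = om κ k.1 := rfl
  have h2 : sgm (γ, 0) ((0, κ) + k) = 1 := hp.zl _
  have h3 : ((γ, 0) : GG) + ((0, κ) + k) = (γ, κ) + k := by
    have e : ((γ, 0) : GG) + (0, κ) = (γ, κ) := Prod.ext (add_zero γ) (zero_add κ)
    rw [← add_assoc, e]
  rw [h1, h2, h3, one_smul]

theorem rho_zero (hp : OmP) (hO : Ops lam rho M) (k : GG) : rho k (dl 0) = dl k := by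
  rw [hO.r]
  have : sgm 0 k = 1 := hp.zl _
  rw [this, one_smul, zero_add]

theorem x_dl (hp : OmP) (hO : Ops lam rho M) {x : HH →L[ℂ] HH} (hx : x ∈ M) (k : GG) :
    x (dl k) = rho k (x (dl 0)) := by
  have h1 := (hO.mem x).1 hx k
  rw [← rho_zero hp hO k]
  exact congrArg (fun T : HH →L[ℂ] HH => T (dl 0)) h1

theorem inner_rho (hp : OmP) (hO : Ops lam rho M) (k k' : GG) (ξ : HH) :
    ⟪dl k', rho k ξ⟫_ℂ = sgm (k' - k) k * ⟪dl (k' - k), ξ⟫_ℂ := by
  have h1 : rho k (dl (k' - k)) = sgm (k' - k) k • dl k' := by rw [hO.r, sub_add_cancel]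
  have h2 : ⟪rho k (dl (k' - k)), rho k ξ⟫_ℂ = ⟪dl (k' - k), ξ⟫_ℂ := by
    rw [← ContinuousLinearMap.adjoint_inner_right]
    have h3 := (hO.ru k).1
    have h4 := congrArg (fun T : HH →L[ℂ] HH => T ξ) h3
    have h5 : (ContinuousLinearMap.adjoint (rho k)) (rho k ξ) = ξ := h4
    rw [h5]
  rw [h1, inner_smul_left] at h2
  have h6 : sgm (k' - k) k * (starRingEnd ℂ) (sgm (k' - k) k) = 1 := by
    rw [Complex.mul_conj, Complex.normSq_eq_norm_sq]
    have : ‖sgm (k' - k) k‖ = 1 := hp.nrm _ _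
    rw [this]
    simp
  rw [← h2, ← mul_assoc, h6, one_mul]

/-- the conditional expectation -/
noncomputable def ce (lam : GG → (HH →L[ℂ] HH)) (x : HH →L[ℂ] HH) (n : ℕ) : HH →L[ℂ] HH :=
  ∑ g ∈ (fin_G n).toFinset, ⟪dl g, x (dl 0)⟫_ℂ • (lam (g.1, 0) * lam (0, g.2))

theorem mem_G (n : ℕ) (g : GG) : g ∈ (fin_G n).toFinset ↔ Sup n g.1 ∧ Sup n g.2 := by
  rw [Set.Finite.mem_toFinset]
  rfl

theorem ce_dl (hp : OmP) (hO : Ops lam rho M) (x : HH →L[ℂ] HH) (n : ℕ) (k : GG) :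
    ce lam x n (dl k) =
      ∑ g ∈ (fin_G n).toFinset, (⟪dl g, x (dl 0)⟫_ℂ * om g.2 k.1) • dl (g + k) := by
  unfold ce
  rw [sum_apply]
  apply Finset.sum_congr rfl
  intro g _
  show ⟪dl g, x (dl 0)⟫_ℂ • ((lam (g.1, 0) * lam (0, g.2)) (dl k)) = _
  rw [lam_act hp hO, smul_smul]

theorem coefA (hp : OmP) (hO : Ops lam rho M) {x : HH →L[ℂ] HH} (hx : x ∈ M) (n : ℕ)
    {k k' : GG} (h : pj n k' = pj n k) : ⟪dl k', x (dl k) - ce lam x n (dl k)⟫_ℂ = 0 := by
  classical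
  have hG : k' - k ∈ (fin_G n).toFinset := (mem_G n _).2 ((pj_eq n _ _).1 h)
  rw [inner_sub_right, x_dl hp hO hx, inner_rho hp hO, ce_dl hp hO, inner_sum,
    Finset.sum_eq_single (k' - k)]
  · rw [inner_smul_right, inner_dl, if_pos (by rw [sub_add_cancel])]
    show om (k' - k).2 k.1 * _ - _ = 0
    ring
  · intro g _ hg
    rw [inner_smul_right, inner_dl, if_neg, mul_zero]
    intro h'
    apply hg
    rw [h', add_sub_cancel_right]
  · intro h'
    exact absurd hG h'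

theorem coefB (hp : OmP) (hO : Ops lam rho M) (x : HH →L[ℂ] HH) (n : ℕ)
    {k k' : GG} (h : pj n k' ≠ pj n k) : ⟪dl k', ce lam x n (dl k)⟫_ℂ = 0 := by
  classical
  rw [ce_dl hp hO, inner_sum]
  apply Finset.sum_eq_zero
  intro g hg
  rw [inner_smul_right, inner_dl, if_neg, mul_zero]
  intro h'
  apply h
  rw [pj_eq, h', add_sub_cancel_right]
  exact (mem_G n _).1 hg

theorem pj_add (n : ℕ) {g : GG} (hg : g ∈ (fin_G n).toFinset) (k : GG) :
    pj n (g + k) = pj n k := by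
  rw [pj_eq, add_sub_cancel_right]
  exact (mem_G n _).1 hg

theorem orthC (hp : OmP) (hO : Ops lam rho M) {x : HH →L[ℂ] HH} (hx : x ∈ M) (n : ℕ)
    {k l : GG} (h : pj n k = pj n l) :
    ⟪ce lam x n (dl k), x (dl l) - ce lam x n (dl l)⟫_ℂ = 0 := by
  rw [ce_dl hp hO x n k, sum_inner]
  apply Finset.sum_eq_zero
  intro g hg
  rw [inner_smul_left, coefA hp hO hx n ((pj_add n hg k).trans h), mul_zero]

theorem orthD (hp : OmP) (hO : Ops lam rho M) (x : HH →L[ℂ] HH) (n : ℕ)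
    {k l : GG} (h : pj n k ≠ pj n l) : ⟪ce lam x n (dl k), ce lam x n (dl l)⟫_ℂ = 0 := by
  rw [ce_dl hp hO x n k, sum_inner]
  apply Finset.sum_eq_zero
  intro g hg
  rw [inner_smul_left, coefB hp hO x n (by rw [pj_add n hg]; exact h), mul_zero]

theorem inner_ss (s t : Finset GG) (c : GG → ℂ) (u v : GG → HH)
    (h : ∀ k ∈ s, ∀ l ∈ t, ⟪u k, v l⟫_ℂ = 0) :
    ⟪∑ k ∈ s, c k • u k, ∑ l ∈ t, c l • v l⟫_ℂ = 0 := by
  rw [sum_inner]
  apply Finset.sum_eq_zero
  intro k hk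
  rw [inner_sum]
  apply Finset.sum_eq_zero
  intro l hl
  rw [inner_smul_left, inner_smul_right, h k hk l hl]
  simp

theorem norm_fin (hp : OmP) (hO : Ops lam rho M) {x : HH →L[ℂ] HH} (hx : x ∈ M) (n : ℕ)
    (S : Finset GG) (c : GG → ℂ) :
    ‖ce lam x n (∑ k ∈ S, c k • dl k)‖ ≤ ‖x‖ * ‖∑ k ∈ S, c k • dl k‖ := by
  classical
  set y := ce lam x n with hy
  set V : GG → HH := fun q => ∑ k ∈ S with pj n k = q, c k • dl k with hV
  have hsum : ∑ k ∈ S, c k • dl k = ∑ q ∈ S.image (pj n), V q :=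
    (Finset.sum_fiberwise_of_maps_to (fun k hk => Finset.mem_image_of_mem _ hk) _).symm
  have hyV : ∀ q, y (V q) = ∑ k ∈ S with pj n k = q, c k • y (dl k) := by
    intro q
    rw [hV]
    simp only [map_sum, map_smul]
  have hxV : ∀ q, x (V q) - y (V q) =
      ∑ k ∈ S with pj n k = q, c k • (x (dl k) - y (dl k)) := by
    intro q
    rw [hV]
    simp only [map_sum, map_smul, smul_sub, Finset.sum_sub_distrib]
  have h1 : ∀ q, ‖y (V q)‖ ≤ ‖x‖ * ‖V q‖ := by
    intro q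
    have h2 : ⟪y (V q), x (V q) - y (V q)⟫_ℂ = 0 := by
      rw [hxV, hyV]
      apply inner_ss
      intro k hk l hl
      apply orthC hp hO hx n
      rw [(Finset.mem_filter.1 hk).2, (Finset.mem_filter.1 hl).2]
    rw [inner_sub_right, sub_eq_zero] at h2
    have h3 : ‖y (V q)‖ * ‖y (V q)‖ ≤ ‖y (V q)‖ * (‖x‖ * ‖V q‖) := by
      have h4 : ‖⟪y (V q), y (V q)⟫_ℂ‖ = ‖y (V q)‖ * ‖y (V q)‖ := by
        rw [inner_self_eq_norm_sq_to_K, ← pow_two]
        simp
      rw [← h4, ← h2]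
      refine (norm_inner_le_norm _ _).trans ?_
      exact mul_le_mul_of_nonneg_left (x.le_opNorm _) (norm_nonneg _)
    rcases eq_or_lt_of_le (norm_nonneg (y (V q))) with h5 | h5
    · rw [← h5]; positivity
    · exact le_of_mul_le_mul_left h3 h5
  have h2 : ‖y (∑ k ∈ S, c k • dl k)‖ ^ 2 ≤ (‖x‖ * ‖∑ k ∈ S, c k • dl k‖) ^ 2 := by
    rw [hsum, map_sum, pyth, mul_pow, pyth, Finset.mul_sum]
    · apply Finset.sum_le_sum
      intro q _
      rw [← mul_pow]
      exact pow_le_pow_left₀ (norm_nonneg _) (h1 q) 2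
    · intro q _ q' _ hqq
      apply inner_ss
      intro k hk l hl
      rw [inner_dl, if_neg]
      rintro rfl
      exact hqq ((Finset.mem_filter.1 hk).2.symm.trans (Finset.mem_filter.1 hl).2)
    · intro q _ q' _ hqq
      rw [hyV, hyV]
      apply inner_ss
      intro k hk l hl
      apply orthD hp hO
      rw [(Finset.mem_filter.1 hk).2, (Finset.mem_filter.1 hl).2]
      exact hqq
  exact le_of_sq_le_sq h2 (by positivity)

theorem norm_ce (hp : OmP) (hO : Ops lam rho M) {x : HH →L[ℂ] HH} (hx : x ∈ M) (n : ℕ) :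
    ‖ce lam x n‖ ≤ ‖x‖ := by
  apply ContinuousLinearMap.opNorm_le_bound _ (norm_nonneg _)
  have hcl : IsClosed {v : HH | ‖ce lam x n v‖ ≤ ‖x‖ * ‖v‖} :=
    isClosed_le (by fun_prop) (by fun_prop)
  have hsub : ((Submodule.span ℂ (Set.range dl) : Submodule ℂ HH) : Set HH) ⊆
      {v : HH | ‖ce lam x n v‖ ≤ ‖x‖ * ‖v‖} := by
    intro v hv
    obtain ⟨c, hc⟩ := (Finsupp.mem_span_range_iff_exists_finsupp).1 hv
    rw [← hc]
    exact norm_fin hp hO hx n c.support c
  intro v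
  have h1 : v ∈ closure ((Submodule.span ℂ (Set.range dl) : Submodule ℂ HH) : Set HH) := by
    rw [dense_dl.closure_eq]; trivial
  exact closure_minimal hsub hcl h1

end main

end ModB

open ModB in
theorem t_O_ModB (hp : OmP) : O_ModB := by
  classical
  intro lam rho M hO x hx n
  refine ⟨ce lam x n, ?_, norm_ce hp hO hx n, ?_⟩
  · unfold ce
    apply Submodule.sum_mem
    intro g hg
    apply Submodule.smul_mem
    apply Submodule.subset_span
    exact ⟨g.1, g.2, ((mem_G n g).1 hg).1, ((mem_G n g).1 hg).2, rfl⟩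
  · intro γ κ hγ hκ
    rw [lam_act hp hO, inner_smul_left, coefA hp hO hx n, mul_zero]
    rw [pj_eq]
    simpa using ⟨hγ, hκ⟩

end Pool.Agent.H468R2.MA
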