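import Pool.Agent.H468R2.MA.Tasks2

/-! O_Mono: monotone convergence of operators (helper642). -/

set_option autoImplicit false

open scoped InnerProductSpace
open Filter Topology

namespace Pool.Agent.H468R2.MA

namespace P_O_Monoaux

variable {H : Type} [NormedAddCommGroup H] [InnerProductSpace ℂ H] [CompleteSpace H]

theorem pos_of_tendsto (A : ℕ → (H →L[ℂ] H)) (B : H →L[ℂ] H) (m : ℕ)
    (hA : ∀ l, m ≤ l → 0 ≤ A l) (h : ∀ ξ, Tendsto (fun l => A l ξ) atTop (𝓝 (B ξ))) : 0 ≤ B := by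
  rw [ContinuousLinearMap.nonneg_iff_isPositive, ContinuousLinearMap.isPositive_iff_complex]
  intro ξ
  have t : Tendsto (fun l => ⟪A l ξ, ξ⟫_ℂ) atTop (𝓝 ⟪B ξ, ξ⟫_ℂ) :=
    (h ξ).inner tendsto_const_nhds
  have tr : Tendsto (fun l => RCLike.re ⟪A l ξ, ξ⟫_ℂ) atTop (𝓝 (RCLike.re ⟪B ξ, ξ⟫_ℂ)) :=
    (RCLike.continuous_re.tendsto _).comp t
  have hp : ∀ l, m ≤ l → ((RCLike.re ⟪A l ξ, ξ⟫_ℂ : ℝ) : ℂ) = ⟪A l ξ, ξ⟫_ℂ ∧
      0 ≤ RCLike.re ⟪A l ξ, ξ⟫_ℂ := by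
    intro l hl
    have := hA l hl
    rw [ContinuousLinearMap.nonneg_iff_isPositive,
      ContinuousLinearMap.isPositive_iff_complex] at this
    exact this ξ
  constructor
  · have t2 : Tendsto (fun l => ((RCLike.re ⟪A l ξ, ξ⟫_ℂ : ℝ) : ℂ)) atTop
        (𝓝 ((RCLike.re ⟪B ξ, ξ⟫_ℂ : ℝ) : ℂ)) :=
      (Complex.continuous_ofReal.tendsto _).comp tr
    refine tendsto_nhds_unique t2 (t.congr' ?_)
    filter_upwards [eventually_ge_atTop m] with l hl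
    exact (hp l hl).1.symm
  · refine ge_of_tendsto tr ?_
    filter_upwards [eventually_ge_atTop m] with l hl
    exact (hp l hl).2

/-- `A² ≤ A` for `0 ≤ A ≤ 1` -/
theorem sq_le (A : H →L[ℂ] H) (h0 : 0 ≤ A) (h1 : A ≤ 1) (ξ : H) :
    ‖A ξ‖ ^ 2 ≤ RCLike.re ⟪A ξ, ξ⟫_ℂ := by
  rw [ContinuousLinearMap.nonneg_iff_isPositive] at h0
  rw [ContinuousLinearMap.le_def] at h1
  have e1 := h1.re_inner_nonneg_left (A ξ)
  have e0 := h0.re_inner_nonneg_left (ξ - A ξ)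
  have hs : ∀ x y : H, ⟪A x, y⟫_ℂ = ⟪x, A y⟫_ℂ := fun x y => h0.inner_left_eq_inner_right x y
  have key : ⟪(1 - A) (A ξ), A ξ⟫_ℂ + ⟪A (ξ - A ξ), ξ - A ξ⟫_ℂ =
      ⟪A ξ, ξ⟫_ℂ - ⟪A ξ, A ξ⟫_ℂ := by
    have h2 : (1 - A) (A ξ) = A ξ - A (A ξ) := rfl
    have h3 : A (ξ - A ξ) = A ξ - A (A ξ) := map_sub A _ _
    rw [h2, h3, ← inner_add_right, add_sub_cancel, inner_sub_left, hs (A ξ) ξ]
  have key2 : RCLike.re ⟪(1 - A) (A ξ), A ξ⟫_ℂ + RCLike.re ⟪A (ξ - A ξ), ξ - A ξ⟫_ℂ =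
      RCLike.re ⟪A ξ, ξ⟫_ℂ - RCLike.re ⟪A ξ, A ξ⟫_ℂ := by
    have := congrArg RCLike.re key
    rwa [AddMonoidHom.map_add, AddMonoidHom.map_sub] at this
  rw [inner_self_eq_norm_sq (𝕜 := ℂ) (A ξ)] at key2
  linarith

end P_O_Monoaux

open P_O_Monoaux

theorem t_O_Mono : O_Mono := by
  intro H _ _ _ T h0 hmono h1
  have hle : ∀ m l, m ≤ l → T m ≤ T l := fun m l hml => monotone_nat_of_le_succ hmono hml
  have hdiff : ∀ m l, m ≤ l → 0 ≤ T l - T m := fun m l hml => sub_nonneg.2 (hle m l hml)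
  have hdiff1 : ∀ m l, T l - T m ≤ 1 := fun m l => (sub_le_self _ (h0 m)).trans (h1 l)
  -- the numbers
  have hf : ∀ ξ : H, ∃ c : ℝ, Tendsto (fun m => RCLike.re ⟪T m ξ, ξ⟫_ℂ) atTop (𝓝 c) := by
    intro ξ
    have hm : Monotone fun m => RCLike.re ⟪T m ξ, ξ⟫_ℂ := by
      refine monotone_nat_of_le_succ fun m => ?_
      have := hmono m
      rw [ContinuousLinearMap.le_def] at this
      have h2 := this.re_inner_nonneg_left ξ
      rw [show (T (m + 1) - T m) ξ = T (m + 1) ξ - T m ξ from rfl, inner_sub_left, map_sub] at h2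
      linarith
    have hb : BddAbove (Set.range fun m => RCLike.re ⟪T m ξ, ξ⟫_ℂ) := by
      refine ⟨RCLike.re ⟪ξ, ξ⟫_ℂ, ?_⟩
      rintro _ ⟨m, rfl⟩
      have := h1 m
      rw [ContinuousLinearMap.le_def] at this
      have h2 := this.re_inner_nonneg_left ξ
      rw [show (1 - T m) ξ = ξ - T m ξ from rfl, inner_sub_left, map_sub] at h2
      show RCLike.re ⟪T m ξ, ξ⟫_ℂ ≤ _
      linarith
    exact ⟨_, tendsto_atTop_ciSup hm hb⟩
  have hcau : ∀ ξ : H, CauchySeq fun m => T m ξ := by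
    intro ξ
    obtain ⟨c, hc⟩ := hf ξ
    rw [Metric.cauchySeq_iff']
    intro ε hε
    obtain ⟨N, hN⟩ := Metric.cauchySeq_iff'.1 hc.cauchySeq (ε ^ 2) (by positivity)
    refine ⟨N, fun l hl => ?_⟩
    have h2 := sq_le (T l - T N) (hdiff N l hl) (hdiff1 N l) ξ
    have h3 := hN l hl
    rw [Real.dist_eq] at h3
    have h4 := (abs_lt.1 h3).2
    rw [show (T l - T N) ξ = T l ξ - T N ξ from rfl, inner_sub_left, map_sub] at h2
    rw [dist_eq_norm]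
    exact lt_of_pow_lt_pow_left₀ 2 hε.le (lt_of_le_of_lt h2 h4)
  choose f hf' using fun ξ => cauchySeq_tendsto_of_complete (hcau ξ)
  have hpt : Tendsto (fun (m : ℕ) (ξ : H) => T m ξ) atTop (𝓝 f) := tendsto_pi_nhds.2 hf'
  obtain ⟨S, hS⟩ : ∃ S : H →L[ℂ] H, ∀ ξ, S ξ = f ξ :=
    ⟨continuousLinearMapOfTendsto T hpt, fun ξ => rfl⟩
  have hlim : ∀ ξ, Tendsto (fun m => T m ξ) atTop (𝓝 (S ξ)) := by
    intro ξ
    rw [hS]
    exact hf' ξ
  refine ⟨S, ?_, ?_, ?_, hlim⟩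
  · exact pos_of_tendsto T S 0 (fun l _ => h0 l) hlim
  · refine sub_nonneg.1 (pos_of_tendsto (fun l => 1 - T l) (1 - S) 0
      (fun l _ => sub_nonneg.2 (h1 l)) fun ξ => ?_)
    exact tendsto_const_nhds.sub (hlim ξ)
  · intro m
    refine sub_nonneg.1 (pos_of_tendsto (fun l => T l - T m) (S - T m) m
      (fun l hl => hdiff m l hl) fun ξ => ?_)
    exact (hlim ξ).sub tendsto_const_nhds

end Pool.Agent.H468R2.MA
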