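import Pool.Agent.H468R2.MA.Tasks2

/-!
# Task O_Nbr: a unitary normalising `A_0` and close to `A_1` is close to some `c X^γ`
-/

set_option autoImplicit false

open scoped InnerProductSpace ComplexConjugate
open Filter Topology

namespace Pool.Agent.H468R2.MA.NbrAux

/-! ### characters of `Gm` -/

/-- finitely many group elements are supported on finitely many sites -/
theorem fin_sup (N : ℕ) : {κ : Gm | Sup N κ ∧ κ 0 = 0}.Finite := by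
  refine Set.Finite.of_finite_image (f := fun (κ : Gm) (i : Fin N) => κ i) (Set.toFinite _) ?_
  intro κ hκ κ' hκ' h
  ext1 i
  by_cases hi : i < N
  · exact congrFun h ⟨i, hi⟩
  · rw [hκ.1 i (by omega), hκ'.1 i (by omega)]

/-- orthogonality of characters -/
theorem avg (hO : OmP) {N : ℕ} (K : Finset Gm) (hK : ∀ κ, κ ∈ K ↔ Sup N κ ∧ κ 0 = 0) (d : Gm)
    (hd : Sup N d) (hd0 : d 0 = 0) (hne : d ≠ 0) : ∑ κ ∈ K, om κ d = 0 := by
  obtain ⟨k, hk⟩ : ∃ k, d k ≠ 0 := by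
    by_contra h
    push Not at h
    exact hne (by ext1 i; exact h i)
  have hkN : k < N := by
    by_contra h
    exact hk (hd k (by omega))
  have hk0 : k ≠ 0 := by
    intro h
    rw [h] at hk
    exact hk hd0
  have hne0 : ∀ i, i ≠ k → (sg k 1 : Gm) i = 0 := fun i hi => by
    rw [DFinsupp.single_apply, dif_neg (Ne.symm hi)]
  have hmem : ∀ κ : Gm, κ ∈ K ↔ κ + sg k 1 ∈ K := by
    intro κ
    rw [hK, hK]
    constructor
    · rintro ⟨h1, h2⟩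
      refine ⟨fun i hi => ?_, ?_⟩
      · rw [DFinsupp.add_apply, h1 i hi, hne0 i (by omega), add_zero]
      · rw [DFinsupp.add_apply, h2, hne0 0 (Ne.symm hk0), add_zero]
    · rintro ⟨h1, h2⟩
      refine ⟨fun i hi => ?_, ?_⟩
      · have := h1 i hi
        rwa [DFinsupp.add_apply, hne0 i (by omega), add_zero] at this
      · rwa [DFinsupp.add_apply, hne0 0 (Ne.symm hk0), add_zero] at h2
  have h1 : ∑ κ ∈ K, om κ d = ∑ κ ∈ K, om (κ + sg k 1) d := by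
    symm
    refine Finset.sum_equiv (Equiv.addRight (sg k 1 : Gm)) (fun κ => ?_) (fun κ _ => rfl)
    simpa using hmem κ
  have h2 : ∑ κ ∈ K, om (κ + sg k 1) d = (∑ κ ∈ K, om κ d) * om (sg k 1) d := by
    rw [Finset.sum_mul]
    exact Finset.sum_congr rfl fun κ _ => hO.addl _ _ _
  have h3 : om (sg k 1) d ≠ 1 := by
    rw [hO.sgl, one_mul]
    intro h
    apply hk
    apply ZMod.injective_stdAddChar
    rw [h, AddChar.map_zero_eq_one]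
  have h4 : (∑ κ ∈ K, om κ d) * (om (sg k 1) d - 1) = 0 := by
    rw [mul_sub, mul_one, ← h2, ← h1, sub_self]
  rcases mul_eq_zero.1 h4 with h | h
  · exact h
  · exact absurd (sub_eq_zero.1 h) h3

/-- second moment of a trigonometric sum -/
theorem avg_sq (hO : OmP) {N : ℕ} (K : Finset Gm) (hK : ∀ κ, κ ∈ K ↔ Sup N κ ∧ κ 0 = 0)
    (F : Finset Gm) (hF : ∀ γ ∈ F, Sup N γ ∧ γ 0 = 0) (g : Gm → ℝ) :
    ∑ κ ∈ K, ‖∑ γ ∈ F, (g γ : ℂ) * om κ γ‖ ^ 2 = K.card * ∑ γ ∈ F, g γ ^ 2 := by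
  have key : (∑ κ ∈ K, ((‖∑ γ ∈ F, (g γ : ℂ) * om κ γ‖ : ℂ)) ^ 2) =
      (K.card : ℂ) * ∑ γ ∈ F, (g γ : ℂ) ^ 2 := by
    have e1 : ∀ κ ∈ K, ((‖∑ γ ∈ F, (g γ : ℂ) * om κ γ‖ : ℂ)) ^ 2 =
        ∑ γ ∈ F, ∑ γ' ∈ F, (g γ : ℂ) * (g γ' : ℂ) * om κ (γ + -γ') := by
      intro κ _
      rw [← Complex.mul_conj', map_sum, Finset.sum_mul_sum]
      refine Finset.sum_congr rfl fun γ _ => Finset.sum_congr rfl fun γ' _ => ?_
      rw [map_mul, Complex.conj_ofReal, hO.addr, hO.negr, Complex.star_def]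
      ring
    rw [Finset.sum_congr rfl e1, Finset.sum_comm, Finset.mul_sum]
    refine Finset.sum_congr rfl fun γ hγ => ?_
    rw [Finset.sum_comm, Finset.sum_eq_single γ]
    · rw [← Finset.mul_sum]
      have : ∀ κ ∈ K, om κ (γ + -γ) = 1 := fun κ _ => by rw [add_neg_cancel, hO.zr]
      rw [Finset.sum_congr rfl this, Finset.sum_const, nsmul_eq_mul, mul_one]
      ring
    · intro γ' hγ' hne
      rw [← Finset.mul_sum]
      obtain ⟨a1, a2⟩ := hF γ hγ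
      obtain ⟨b1, b2⟩ := hF γ' hγ'
      rw [avg hO K hK (γ + -γ') (fun i hi => by
        rw [DFinsupp.add_apply, DFinsupp.neg_apply, a1 i hi, b1 i hi, neg_zero, add_zero])
        (by rw [DFinsupp.add_apply, DFinsupp.neg_apply, a2, b2, neg_zero, add_zero])
        (fun h => hne (add_neg_eq_zero.1 h).symm), mul_zero]
    · intro h
      exact absurd hγ h
  exact_mod_cast key

/-- tails of an absolutely convergent sum -/
theorem tail_le {g : Gm → ℝ} {h : Gm → ℂ} {f : ℂ} (hg : HasSum g 1) (hg0 : ∀ γ, 0 ≤ g γ)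
    (hh : HasSum h f) (hle : ∀ γ, ‖h γ‖ ≤ g γ) (F : Finset Gm) :
    ‖f - ∑ γ ∈ F, h γ‖ ≤ 1 - ∑ γ ∈ F, g γ := by
  have h1 : Tendsto (fun s : Finset Gm => ‖∑ γ ∈ s, h γ - ∑ γ ∈ F, h γ‖) atTop
      (𝓝 ‖f - ∑ γ ∈ F, h γ‖) := (hh.sub_const _).norm
  refine le_of_tendsto h1 ?_
  filter_upwards [eventually_ge_atTop F] with s hs
  rw [← Finset.sum_sdiff hs, add_sub_cancel_right]
  have h2 : ∑ γ ∈ s \ F, g γ + ∑ γ ∈ F, g γ ≤ 1 := by
    rw [Finset.sum_sdiff hs]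
    exact sum_le_hasSum s (fun i _ => hg0 i) hg
  have h3 : ‖∑ γ ∈ s \ F, h γ‖ ≤ ∑ γ ∈ s \ F, g γ :=
    (norm_sum_le _ _).trans (Finset.sum_le_sum fun i _ => hle i)
  linarith

/-- a bound for the support -/
theorem exists_N (F : Finset Gm) : ∃ N : ℕ, ∀ γ ∈ F, Sup N γ := by
  classical
  refine ⟨(F.sup fun γ => γ.support.sup id) + 1, fun γ hγ i hi => ?_⟩
  by_contra hne
  have h1 : i ≤ γ.support.sup id :=
    Finset.le_sup (f := id) (DFinsupp.mem_support_iff.2 hne)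
  have h2 : γ.support.sup id ≤ F.sup fun γ => γ.support.sup id :=
    Finset.le_sup (f := fun γ : Gm => γ.support.sup id) hγ
  omega

/-- a probability measure whose characteristic function is almost unimodular has a large atom -/
theorem atom (hO : OmP) {g : Gm → ℝ} (hg : HasSum g 1) (hg0 : ∀ γ, 0 ≤ g γ)
    (hgs : ∀ γ, γ 0 ≠ 0 → g γ = 0) {f : Gm → ℂ} {s : ℝ}
    (hf : ∀ κ : Gm, κ 0 = 0 → HasSum (fun γ => (g γ : ℂ) * om κ γ) (f κ))
    (hs : ∀ κ : Gm, κ 0 = 0 → s ≤ ‖f κ‖) {δ : ℝ} (hδ : 0 < δ) (hδs : δ ≤ s) :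
    ∃ γ, (s - δ) ^ 2 ≤ g γ := by
  classical
  have hev : ∀ᶠ F : Finset Gm in atTop, 1 - δ < ∑ γ ∈ F, g γ :=
    hg.eventually_const_lt (by linarith)
  obtain ⟨F₀, hF₀⟩ := hev.exists
  set F := F₀.filter (fun γ => γ 0 = 0) with hFdef
  have hsumF : ∑ γ ∈ F, g γ = ∑ γ ∈ F₀, g γ := by
    rw [hFdef]
    refine Finset.sum_filter_of_ne fun γ _ h => ?_
    by_contra h0
    exact h (hgs γ h0)
  obtain ⟨N, hN⟩ := exists_N F
  have hF : ∀ γ ∈ F, Sup N γ ∧ γ 0 = 0 := fun γ hγ => ⟨hN γ hγ, (Finset.mem_filter.1 hγ).2⟩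
  set K := (fin_sup N).toFinset with hKdef
  have hK : ∀ κ, κ ∈ K ↔ Sup N κ ∧ κ 0 = 0 := fun κ => by
    rw [hKdef, Set.Finite.mem_toFinset]
    rfl
  have h0K : (0 : Gm) ∈ K := (hK 0).2 ⟨fun i _ => rfl, rfl⟩
  have hKpos : (0 : ℝ) < K.card := by exact_mod_cast Finset.card_pos.2 ⟨0, h0K⟩
  have hlow : ∀ κ ∈ K, (s - δ) ^ 2 ≤ ‖∑ γ ∈ F, (g γ : ℂ) * om κ γ‖ ^ 2 := by
    intro κ hκ
    have h0 := ((hK κ).1 hκ).2
    have h1 := tail_le hg hg0 (hf κ h0) (fun γ => by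
      rw [norm_mul, hO.nrm, mul_one, Complex.norm_real, Real.norm_of_nonneg (hg0 γ)]) F
    rw [hsumF] at h1
    have h2 := hs κ h0
    have h3 := norm_sub_norm_le (f κ) (∑ γ ∈ F, (g γ : ℂ) * om κ γ)
    exact pow_le_pow_left₀ (by linarith) (by linarith) 2
  have h4 := Finset.card_nsmul_le_sum K _ _ hlow
  rw [avg_sq hO K hK F hF g, nsmul_eq_mul] at h4
  have h5 : (s - δ) ^ 2 ≤ ∑ γ ∈ F, g γ ^ 2 := le_of_mul_le_mul_left h4 hKpos
  rcases F.eq_empty_or_nonempty with hE | hE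
  · rw [hE, Finset.sum_empty] at h5
    exact ⟨0, h5.trans (hg0 0)⟩
  · obtain ⟨γ, hγ, hmax⟩ := Finset.exists_max_image F g hE
    refine ⟨γ, h5.trans ?_⟩
    have h6 : ∑ γ' ∈ F, g γ' ^ 2 ≤ ∑ γ' ∈ F, g γ * g γ' := by
      refine Finset.sum_le_sum fun γ' hγ' => ?_
      rw [sq]
      exact mul_le_mul_of_nonneg_right (hmax γ' hγ') (hg0 γ')
    rw [← Finset.mul_sum] at h6
    have h7 : ∑ γ' ∈ F, g γ' ≤ 1 := sum_le_hasSum F (fun i _ => hg0 i) hg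
    nlinarith [hg0 γ]

/-- the exact form -/
theorem atom_exact (hO : OmP) {g : Gm → ℝ} (hg : HasSum g 1) (hg0 : ∀ γ, 0 ≤ g γ)
    (hgs : ∀ γ, γ 0 ≠ 0 → g γ = 0) {f : Gm → ℂ} {s : ℝ} (hs9 : 9 / 10 ≤ s) (hs1 : s ≤ 1)
    (hf : ∀ κ : Gm, κ 0 = 0 → HasSum (fun γ => (g γ : ℂ) * om κ γ) (f κ))
    (hs : ∀ κ : Gm, κ 0 = 0 → s ≤ ‖f κ‖) : ∃ γ, s ^ 2 ≤ g γ := by
  classical
  obtain ⟨γ, hγ⟩ := atom hO hg hg0 hgs hf hs (δ := 1 / 10) (by norm_num) (by linarith)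
  have hγ' : 1 / 2 < g γ := by nlinarith
  refine ⟨γ, le_of_forall_pos_le_add fun ε hε => ?_⟩
  set δ := min (1 / 10) (ε / 2) with hδ
  have hδ0 : 0 < δ := lt_min (by norm_num) (by linarith)
  have hδ1 : δ ≤ 1 / 10 := min_le_left _ _
  have hδ2 : δ ≤ ε / 2 := min_le_right _ _
  obtain ⟨γ₂, hγ₂⟩ := atom hO hg hg0 hgs hf hs hδ0 (by linarith)
  have h2 : 1 / 2 < g γ₂ := by nlinarith
  have he : γ₂ = γ := by
    by_contra hne
    have h3 : ∑ x ∈ {γ₂, γ}, g x ≤ 1 := sum_le_hasSum _ (fun i _ => hg0 i) hg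
    rw [Finset.sum_pair hne] at h3
    linarith
  rw [he] at hγ₂
  nlinarith

/-! ### operators -/

variable {H : Type} [NormedAddCommGroup H] [InnerProductSpace ℂ H] [CompleteSpace H]

theorem norm_le_one {u : H →L[ℂ] H} (hu : IsU u) : ‖u‖ ≤ 1 := by
  have h1 : ‖star u * u‖ = ‖u‖ * ‖u‖ := CStarRing.norm_star_mul_self
  rw [hu.1] at h1
  have h2 : ‖(1 : H →L[ℂ] H)‖ ≤ 1 := ContinuousLinearMap.norm_id_le
  nlinarith [norm_nonneg u]

theorem isU_mul {u v : H →L[ℂ] H} (hu : IsU u) (hv : IsU v) : IsU (u * v) := by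
  refine ⟨?_, ?_⟩
  · rw [star_mul, mul_assoc, ← mul_assoc (star u), hu.1, one_mul, hv.1]
  · rw [star_mul, mul_assoc, ← mul_assoc v, hv.2, one_mul, hu.2]

theorem isU_star {u : H →L[ℂ] H} (hu : IsU u) : IsU (star u) := by
  refine ⟨?_, ?_⟩
  · rw [star_star, hu.2]
  · rw [star_star, hu.1]

theorem inner_star (u : H →L[ℂ] H) (x y : H) : ⟪u x, y⟫_ℂ = ⟪x, (star u) y⟫_ℂ := by
  rw [ContinuousLinearMap.star_eq_adjoint, ContinuousLinearMap.adjoint_inner_right]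

theorem norm_U {u : H →L[ℂ] H} (hu : IsU u) (x : H) : ‖u x‖ = ‖x‖ := by
  have h1 : ⟪u x, u x⟫_ℂ = ⟪x, x⟫_ℂ := by
    rw [inner_star, ← mul_apply_eq_comp, hu.1, one_apply_eq_self]
  rw [inner_self_eq_norm_sq_to_K, inner_self_eq_norm_sq_to_K] at h1
  have h2 : ‖u x‖ ^ 2 = ‖x‖ ^ 2 := by exact_mod_cast h1
  exact (pow_left_inj₀ (norm_nonneg _) (norm_nonneg _) (by norm_num)).1 h2

section

variable {M : VonNeumannAlgebra H} {Ω : H} {X Z : Gm → (H →L[ℂ] H)}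

theorem isU_X (W : Wy M Ω X Z) (γ : Gm) : IsU (X γ) := by
  refine ⟨?_, ?_⟩
  · rw [W.Xst, ← W.Xadd, neg_add_cancel, W.X0]
  · rw [W.Xst, ← W.Xadd, add_neg_cancel, W.X0]

theorem isU_Z (W : Wy M Ω X Z) (γ : Gm) : IsU (Z γ) := by
  refine ⟨?_, ?_⟩
  · rw [W.Zst, ← W.Zadd, neg_add_cancel, W.Z0]
  · rw [W.Zst, ← W.Zadd, add_neg_cancel, W.Z0]

theorem vv0 (x : ℕ → ℝ) (k : ℕ) (l : ZMod (pr k)) : vv X Z x 0 k l = Z (sg k l) := by
  simp [vv]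

theorem vv1 (x : ℕ → ℝ) (k : ℕ) (l : ZMod (pr k)) : vv X Z x 1 k l = X (sg k l) := by
  have h : (1 : ZMod (pr 0)) ≠ 0 := one_ne_zero
  simp [vv]

/-- coefficients after conjugation by `Z κ` -/
theorem coef_conj (W : Wy M Ω X Z) (hO : OmP) {b : H →L[ℂ] H} (hb : b ∈ M) (κ γ : Gm) :
    ⟪X γ Ω, (Z κ * b * Z (-κ)) Ω⟫_ℂ = om κ γ * ⟪X γ Ω, b Ω⟫_ℂ := by
  have e1 : ⟪X γ Ω, (Z κ * b * Z (-κ)) Ω⟫_ℂ = ⟪Ω, (X (-γ) * (Z κ * b)) (Z (-κ) Ω)⟫_ℂ := by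
    rw [inner_star, W.Xst]
    rfl
  have e2 : ⟪X γ Ω, b Ω⟫_ℂ = ⟪Ω, (X (-γ) * b) Ω⟫_ℂ := by
    rw [inner_star, W.Xst]
    rfl
  rw [e1, W.tr _ (mul_mem (W.Xm _) (mul_mem (W.Zm _) hb)) _ (W.Zm _), e2]
  have e3 : Z (-κ) * (X (-γ) * (Z κ * b)) = om κ γ • (X (-γ) * b) := by
    rw [← mul_assoc, W.cm, hO.negl, hO.negr, star_star, smul_mul_assoc, mul_assoc (X (-γ)),
      ← mul_assoc (Z (-κ)), ← W.Zadd, neg_add_cancel, W.Z0, one_mul]
  have e4 : (Z (-κ)) ((X (-γ) * (Z κ * b)) Ω) = (om κ γ • (X (-γ) * b)) Ω := by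
    rw [← e3]
    rfl
  rw [e4, smul_apply, inner_smul_right]

end

omit [CompleteSpace H] in
/-- distance to a partial sum of the orthogonal expansion -/
theorem norm_sub_partial {ι : Type} [DecidableEq ι] {e : ι → H} (he : Orthonormal ℂ e) (x : H)
    (s : Finset ι) : ‖x - ∑ i ∈ s, ⟪e i, x⟫_ℂ • e i‖ ^ 2 = ‖x‖ ^ 2 - ∑ i ∈ s, ‖⟪e i, x⟫_ℂ‖ ^ 2 := by
  set y := ∑ i ∈ s, ⟪e i, x⟫_ℂ • e i with hy
  have h1 : ∀ i ∈ s, ⟪e i, y⟫_ℂ = ⟪e i, x⟫_ℂ := by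
    intro i hi
    rw [hy, he.inner_right_sum _ hi]
  have h2 : ⟪y, y⟫_ℂ = ⟪y, x⟫_ℂ := by
    conv_lhs => rw [hy]
    conv_rhs => rw [hy]
    rw [sum_inner, sum_inner]
    refine Finset.sum_congr rfl fun i hi => ?_
    rw [inner_smul_left, inner_smul_left, ← hy, h1 i hi]
  have h3 : ⟪y, x⟫_ℂ = ((∑ i ∈ s, ‖⟪e i, x⟫_ℂ‖ ^ 2 : ℝ) : ℂ) := by
    rw [hy, sum_inner]
    push_cast
    refine Finset.sum_congr rfl fun i _ => ?_
    rw [inner_smul_left, Complex.conj_mul']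
  have h4 := @norm_sub_sq ℂ H _ _ _ x y
  have h5 : RCLike.re ⟪x, y⟫_ℂ = ∑ i ∈ s, ‖⟪e i, x⟫_ℂ‖ ^ 2 := by
    rw [← inner_conj_symm, h3, RCLike.conj_re]
    exact Complex.ofReal_re _
  have h6 : ‖y‖ ^ 2 = ∑ i ∈ s, ‖⟪e i, x⟫_ℂ‖ ^ 2 := by
    have h7 := h2
    rw [h3, inner_self_eq_norm_sq_to_K] at h7
    exact Complex.ofReal_injective (by rw [← h7]; push_cast; rfl)
  rw [h4, h5, h6]
  ring

omit [CompleteSpace H] in
/-- expansion in an orthonormal family -/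
theorem hasSum_of_parseval {ι : Type} [DecidableEq ι] {e : ι → H} (he : Orthonormal ℂ e) (x : H)
    (hp : HasSum (fun i => ‖⟪e i, x⟫_ℂ‖ ^ 2) (‖x‖ ^ 2)) :
    HasSum (fun i => ⟪e i, x⟫_ℂ • e i) x := by
  have h1 : Tendsto (fun s : Finset ι => ‖x‖ ^ 2 - ∑ i ∈ s, ‖⟪e i, x⟫_ℂ‖ ^ 2) atTop
      (𝓝 (‖x‖ ^ 2 - ‖x‖ ^ 2)) := tendsto_const_nhds.sub hp
  rw [sub_self] at h1
  have h2 : Tendsto (fun s : Finset ι => ‖x - ∑ i ∈ s, ⟪e i, x⟫_ℂ • e i‖) atTop (𝓝 0) := by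
    have h3 := h1.sqrt
    rw [Real.sqrt_zero] at h3
    refine h3.congr fun s => ?_
    rw [← norm_sub_partial he x s, Real.sqrt_sq (norm_nonneg _)]
  rw [HasSum, tendsto_iff_norm_sub_tendsto_zero]
  refine h2.congr fun s => ?_
  rw [norm_sub_rev]

end Pool.Agent.H468R2.MA.NbrAux

namespace Pool.Agent.H468R2.MA

open NbrAux

theorem t_O_Nbr (hA : O_Apx) (hS : O_Str) (hO : OmP) : O_Nbr := by
  classical
  intro H _ _ _ M Ω X Z W x v hv hvU hnorm b hb hbU η hη0 hη1 hvb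
  obtain ⟨E, A⟩ := hA H M Ω X Z W
  have S := hS H M Ω X Z W
  have hvM : v ∈ M := hv.1
  have hbT : b ∈ Tl M X Z 1 := hb.1
  have hbM : b ∈ M := hbT.1
  -- the orthonormal family
  set e : Gm → H := fun γ => X γ Ω with he
  have horth : Orthonormal ℂ e := by
    rw [orthonormal_iff_ite]
    intro γ γ'
    have h1 := W.orth γ 0 γ' 0
    rw [W.Z0, mul_one, mul_one] at h1
    rw [he, h1]
    by_cases h : γ = γ'
    · simp [h]
    · simp [h]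
  set bh : Gm → ℂ := fun γ => ⟪e γ, b Ω⟫_ℂ with hbh
  have hnb : ‖b Ω‖ = 1 := by rw [norm_U hbU, W.unit]
  -- Parseval
  have hpars : HasSum (fun γ => ‖bh γ‖ ^ 2) 1 := by
    have h1 := A.pars b hbM
    rw [hnb, one_pow] at h1
    have hinj : Function.Injective (fun γ : Gm => ((γ, 0) : Gm × Gm)) := fun a c h => by
      simpa using h
    have h2 := (hinj.hasSum_iff (f := fun g : Gm × Gm => ‖⟪(X g.1 * Z g.2) Ω, b Ω⟫_ℂ‖ ^ 2)
      (a := 1) (by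
        rintro ⟨γ, κ⟩ hg
        have hκ : κ ≠ 0 := by
          rintro rfl
          exact hg ⟨γ, rfl⟩
        simp only [S.aa_coefX x b hb γ κ hκ]
        simp)).2 h1
    refine h2.congr_fun ?_ |> fun h => h
    intro γ
    simp only [Function.comp, hbh, he, W.Z0, mul_one]
  have hexp : HasSum (fun γ => bh γ • e γ) (b Ω) := by
    refine hasSum_of_parseval horth (b Ω) ?_
    rw [hnb, one_pow]
    exact hpars
  have hsupp : ∀ γ, γ 0 ≠ 0 → bh γ = 0 := by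
    intro γ hγ
    have h1 := S.aa_coef0 x 1 b hb γ 0 (Or.inl hγ)
    rw [W.Z0, mul_one] at h1
    exact h1
  -- closure properties
  have hTmul : ∀ s ∈ Tl M X Z 1, ∀ t ∈ Tl M X Z 1, s * t ∈ Tl M X Z 1 := fun s hs t ht =>
    (S.tl_alg 1 s hs t ht).1
  have hTst : ∀ s ∈ Tl M X Z 1, star s ∈ Tl M X Z 1 := fun s hs => (S.tl_alg 1 s hs s hs).2.2.1
  have hAmul : ∀ i, ∀ s ∈ AA M X Z x i, ∀ t ∈ AA M X Z x i, s * t ∈ AA M X Z x i :=
    fun i s hs t ht => (S.aa_alg x i s hs t ht).1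
  have hAst : ∀ i, ∀ s ∈ AA M X Z x i, star s ∈ AA M X Z x i :=
    fun i s hs => (S.aa_alg x i s hs s hs).2.2.1
  have hZT : ∀ κ : Gm, κ 0 = 0 → Z κ ∈ Tl M X Z 1 := fun κ hκ => (S.tl_X 1 κ (fun k hk => by
    have : k = 0 := by omega
    rw [this]
    exact hκ)).2
  have hZA : ∀ κ : Gm, κ 0 = 0 → Z κ ∈ AA M X Z x 0 := by
    intro κ hκ
    refine ⟨hZT κ hκ, fun k _ l => ?_⟩
    rw [vv0, ← W.Zadd, ← W.Zadd, add_comm]
  have hneg0 : ∀ κ : Gm, κ 0 = 0 → (-κ) 0 = 0 := fun κ hκ => by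
    rw [DFinsupp.neg_apply, hκ, neg_zero]
  -- the main estimate
  have hmain : ∀ κ : Gm, κ 0 = 0 → 1 - 2 * η ^ 2 ≤ ‖⟪(Z κ * b * Z (-κ)) Ω, b Ω⟫_ℂ‖ := by
    intro κ hκ
    have hκ' := hneg0 κ hκ
    set u := v * Z κ * star v * Z (-κ) with hu
    set c := b * (Z κ * star b * Z (-κ)) with hc
    have huA : u ∈ AA M X Z x 0 := hAmul 0 _ (hnorm _ (hZA κ hκ)) _ (hZA _ hκ')
    have hcA' : Z κ * star b * Z (-κ) ∈ AA M X Z x 1 := by
      refine ⟨hTmul _ (hTmul _ (hZT κ hκ) _ (hTst _ hbT)) _ (hZT _ hκ'), fun k hk l => ?_⟩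
      rw [vv1]
      have hb' := (hAst 1 b hb).2 k hk l
      rw [vv1] at hb'
      have h1 : Z (-κ) * X (sg k l) = om (-κ) (sg k l) • (X (sg k l) * Z (-κ)) := W.cm _ _
      have h2 : Z κ * X (sg k l) = om κ (sg k l) • (X (sg k l) * Z κ) := W.cm _ _
      have h3 : om (-κ) (sg k l) * om κ (sg k l) = 1 := by
        rw [← hO.addl, neg_add_cancel, hO.zl]
      calc Z κ * star b * Z (-κ) * X (sg k l) = Z κ * star b * (Z (-κ) * X (sg k l)) := by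
            rw [mul_assoc]
        _ = om (-κ) (sg k l) • (Z κ * (star b * X (sg k l)) * Z (-κ)) := by
            rw [h1, mul_smul_comm]
            simp only [mul_assoc]
        _ = om (-κ) (sg k l) • ((Z κ * X (sg k l)) * star b * Z (-κ)) := by
            rw [hb']
            simp only [mul_assoc]
        _ = (om (-κ) (sg k l) * om κ (sg k l)) • (X (sg k l) * Z κ * star b * Z (-κ)) := by
            rw [h2, smul_mul_assoc, smul_mul_assoc, smul_smul]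
        _ = X (sg k l) * (Z κ * star b * Z (-κ)) := by
            rw [h3, one_smul]
            simp only [mul_assoc]
    have hcA : c ∈ AA M X Z x 1 := hAmul 1 _ hb _ hcA'
    have hvbM : v - b ∈ M := sub_mem hvM hbM
    have hw : IsU (Z κ * star v * Z (-κ)) :=
      isU_mul (isU_mul (isU_Z W κ) (isU_star hvU)) (isU_Z W _)
    have hwM : Z κ * star v * Z (-κ) ∈ M :=
      mul_mem (mul_mem (W.Zm _) (star_mem hvM)) (W.Zm _)
    have huU : IsU u := by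
      rw [hu]
      exact isU_mul (isU_mul (isU_mul hvU (isU_Z W κ)) (isU_star hvU)) (isU_Z W _)
    have hcU : IsU c := by
      rw [hc]
      exact isU_mul hbU (isU_mul (isU_mul (isU_Z W κ) (isU_star hbU)) (isU_Z W _))
    have hdiff : u - c = (v - b) * (Z κ * star v * Z (-κ)) +
        b * Z κ * (star (v - b) * Z (-κ)) := by
      rw [hu, hc, star_sub]
      noncomm_ring
    have hd : ‖(u - c) Ω‖ ≤ 2 * η := by
      rw [hdiff, add_apply]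
      refine (norm_add_le _ _).trans ?_
      have h1 : ‖((v - b) * (Z κ * star v * Z (-κ))) Ω‖ ≤ η := by
        refine (A.nr _ hvbM _ hwM).trans ?_
        have := norm_le_one hw
        nlinarith [norm_nonneg ((v - b) Ω), norm_nonneg (Z κ * star v * Z (-κ))]
      have h2 : ‖(b * Z κ * (star (v - b) * Z (-κ))) Ω‖ ≤ η := by
        refine (A.nl _ _).trans ?_
        have h3 := norm_le_one (isU_mul hbU (isU_Z W κ))
        have h4 : ‖(star (v - b) * Z (-κ)) Ω‖ ≤ η := by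
          refine (A.nr _ (star_mem hvbM) _ (W.Zm _)).trans ?_
          rw [A.nst _ hvbM]
          have := norm_le_one (isU_Z W (-κ))
          nlinarith [norm_nonneg ((v - b) Ω), norm_nonneg (Z (-κ))]
        nlinarith [norm_nonneg ((star (v - b) * Z (-κ)) Ω), norm_nonneg (b * Z κ)]
      linarith
    have horth2 := S.aa_orth x 0 1 (by
      have : (0 : ZMod (pr 0)) ≠ 1 := zero_ne_one
      exact this) (Or.inl rfl) u huA c hcA
    have hnu : ‖u Ω‖ = 1 := by rw [norm_U huU, W.unit]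
    have hnc : ‖c Ω‖ = 1 := by rw [norm_U hcU, W.unit]
    have h5 := @norm_sub_sq ℂ H _ _ _ (u Ω) (c Ω)
    rw [← sub_apply, hnu, hnc, horth2] at h5
    have h6 : RCLike.re (⟪u Ω, Ω⟫_ℂ * ⟪Ω, c Ω⟫_ℂ) ≤ ‖⟪Ω, c Ω⟫_ℂ‖ := by
      refine (RCLike.re_le_norm _).trans ?_
      rw [norm_mul]
      have h7 : ‖⟪u Ω, Ω⟫_ℂ‖ ≤ 1 := by
        refine (norm_inner_le_norm _ _).trans ?_
        rw [hnu, W.unit, mul_one]
      nlinarith [norm_nonneg (⟪Ω, c Ω⟫_ℂ), norm_nonneg (⟪u Ω, Ω⟫_ℂ)]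
    have h8 : ‖(u - c) Ω‖ ^ 2 ≤ (2 * η) ^ 2 := pow_le_pow_left₀ (norm_nonneg _) hd 2
    have h9 : ⟪Ω, c Ω⟫_ℂ = ⟪(Z κ * b * Z (-κ)) Ω, b Ω⟫_ℂ := by
      have hz : Z κ * star b * Z (-κ) ∈ M := mul_mem (mul_mem (W.Zm _) (star_mem hbM)) (W.Zm _)
      have h10 : ⟪Ω, c Ω⟫_ℂ = ⟪Ω, b ((Z κ * star b * Z (-κ)) Ω)⟫_ℂ := rfl
      rw [h10, W.tr b hbM _ hz, inner_star (Z κ * b * Z (-κ))]
      congr 2
      rw [star_mul, star_mul, W.Zst, W.Zst, neg_neg, mul_assoc]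
    rw [← h9]
    nlinarith
  -- the expansion of the characteristic function
  have hF : ∀ κ : Gm, κ 0 = 0 →
      HasSum (fun γ => ((‖bh γ‖ ^ 2 : ℝ) : ℂ) * om κ γ) (conj ⟪(Z κ * b * Z (-κ)) Ω, b Ω⟫_ℂ) := by
    intro κ _
    have h1 := (hexp.mapL (innerSL ℂ ((Z κ * b * Z (-κ)) Ω)))
    have h2 := h1.mapL (Complex.conjCLE : ℂ →L[ℝ] ℂ)
    have h3 : ∀ γ, conj (⟪(Z κ * b * Z (-κ)) Ω, bh γ • e γ⟫_ℂ) =
        ((‖bh γ‖ ^ 2 : ℝ) : ℂ) * om κ γ := by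
      intro γ
      have h5 : conj (⟪(Z κ * b * Z (-κ)) Ω, e γ⟫_ℂ) = om κ γ * bh γ := by
        rw [inner_conj_symm]
        exact coef_conj W hO hbM κ γ
      rw [inner_smul_right, map_mul, h5]
      push_cast
      rw [← Complex.conj_mul']
      ring
    have h4 : HasSum (fun γ => conj (⟪(Z κ * b * Z (-κ)) Ω, bh γ • e γ⟫_ℂ))
        (conj ⟪(Z κ * b * Z (-κ)) Ω, b Ω⟫_ℂ) := h2
    rwa [funext h3] at h4
  obtain ⟨γ, hγ⟩ := atom_exact hO hpars (fun γ => by positivity) (fun γ h => by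
    rw [hsupp γ h]; simp) (s := 1 - 2 * η ^ 2) (by nlinarith) (by nlinarith) hF
    (fun κ hκ => by
      rw [RCLike.norm_conj]
      exact hmain κ hκ)
  have hc1 : ‖bh γ‖ ^ 2 ≤ 1 := by
    have := sum_le_hasSum {γ} (fun i _ => by positivity) hpars
    simpa using this
  have hc2 : 1 - 4 * η ^ 2 ≤ ‖bh γ‖ ^ 2 := by nlinarith [sq_nonneg (η ^ 2)]
  have hc3 : ‖bh γ‖ ≤ 1 := by nlinarith [norm_nonneg (bh γ)]
  refine ⟨γ, bh γ, ?_, hc3, hc2, ?_⟩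
  · by_contra h
    rw [hsupp γ h, norm_zero] at hc2
    nlinarith
  · have h1 := norm_sub_partial horth (b Ω) {γ}
    rw [Finset.sum_singleton, Finset.sum_singleton, hnb] at h1
    have h2 : ‖b Ω - bh γ • X γ Ω‖ ^ 2 ≤ (2 * η) ^ 2 := by
      have h3 : ‖b Ω - bh γ • X γ Ω‖ ^ 2 = 1 ^ 2 - ‖bh γ‖ ^ 2 := h1
      rw [h3]
      linarith
    have h4 : ‖b Ω - bh γ • X γ Ω‖ ≤ 2 * η :=
      (pow_le_pow_iff_left₀ (norm_nonneg _) (by linarith) (by norm_num)).1 h2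
    have h5 : (v - bh γ • X γ) Ω = (v - b) Ω + (b Ω - bh γ • X γ Ω) := by
      simp only [sub_apply, smul_apply]
      abel
    rw [h5]
    refine (norm_add_le _ _).trans ?_
    linarith

end Pool.Agent.H468R2.MA
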