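import Pool.Agent.H468R2.MA.Tasks2

/-! Normalisers of `DD y` are block diagonal. -/

set_option autoImplicit false

open scoped InnerProductSpace
open Filter Topology

namespace Pool.Agent.H468R2.MA

section

variable {H : Type} [NormedAddCommGroup H] [InnerProductSpace ℂ H] [CompleteSpace H]

theorem onrm_proj (e : H →L[ℂ] H) (h1 : e * e = e) (h2 : star e = e) : ‖e‖ ≤ 1 := by
  have h3 : ‖star e * e‖ = ‖e‖ * ‖e‖ := CStarRing.norm_star_mul_self
  rw [h2, h1] at h3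
  by_contra h
  rw [not_le] at h
  nlinarith

theorem onrm_unit (u : H →L[ℂ] H) (h1 : IsU u) : ‖u‖ ≤ 1 := by
  have h3 : ‖star u * u‖ = ‖u‖ * ‖u‖ := CStarRing.norm_star_mul_self
  rw [h1.1] at h3
  have h4 : ‖(1 : H →L[ℂ] H)‖ ≤ 1 := ContinuousLinearMap.norm_id_le
  by_contra h
  rw [not_le] at h
  nlinarith

theorem onrm_star (u : H →L[ℂ] H) (h1 : IsU u) : IsU (star u) := by
  refine ⟨?_, ?_⟩
  · rw [star_star]
    exact h1.2
  · rw [star_star]
    exact h1.1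

/-- an isometry does not change norms -/
theorem onrm_iso (u : H →L[ℂ] H) (h1 : IsU u) (ξ : H) : ‖u ξ‖ = ‖ξ‖ := by
  apply le_antisymm
  · calc ‖u ξ‖ ≤ ‖u‖ * ‖ξ‖ := u.le_opNorm ξ
      _ ≤ 1 * ‖ξ‖ := by
        apply mul_le_mul_of_nonneg_right (onrm_unit u h1) (norm_nonneg _)
      _ = ‖ξ‖ := one_mul _
  · have h2 : star u (u ξ) = ξ := by
      have : (star u * u) ξ = ξ := by
        rw [h1.1]
        rfl
      exact this
    calc ‖ξ‖ = ‖star u (u ξ)‖ := by rw [h2]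
      _ ≤ ‖star u‖ * ‖u ξ‖ := (star u).le_opNorm _
      _ ≤ 1 * ‖u ξ‖ := by
        apply mul_le_mul_of_nonneg_right (onrm_unit _ (onrm_star u h1)) (norm_nonneg _)
      _ = ‖u ξ‖ := one_mul _

theorem onrm_inner_star (x : H →L[ℂ] H) (ξ ζ : H) : ⟪ξ, star x ζ⟫_ℂ = ⟪x ξ, ζ⟫_ℂ := by
  rw [ContinuousLinearMap.star_eq_adjoint, ContinuousLinearMap.adjoint_inner_right]

/-- averaging argument -/
theorem onrm_avg (M : VonNeumannAlgebra H) (Ω : H) (X Z : Gm → (H →L[ℂ] H)) (hW : Wy M Ω X Z)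
    (a r : H →L[ℂ] H) (ha : a ∈ M) (hr : r ∈ M) (m : ℕ) (hm : 0 < m)
    (u : Fin m → (H →L[ℂ] H)) (hu : ∀ s, u s ∈ M) (hU : ∀ s, IsU (u s))
    (hc : ∀ s, u s * r = r * u s) (η : ℝ)
    (hη : ‖((m : ℂ)⁻¹ • ∑ s, u s * a * star (u s)) Ω‖ ≤ η) :
    ‖⟪a Ω, r Ω⟫_ℂ‖ ≤ η * ‖r Ω‖ := by
  have h1 : ∀ s, ⟪(u s * a * star (u s)) Ω, r Ω⟫_ℂ = ⟪a Ω, r Ω⟫_ℂ := by
    intro s
    have hc2 : star (u s) * r = r * star (u s) := by
      have h2 : star (u s) * (u s * r) * star (u s) = star (u s) * (r * u s) * star (u s) := by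
        rw [hc s]
      have h3 : star (u s) * (u s * r) * star (u s) = r * star (u s) := by
        rw [← mul_assoc (star (u s)) (u s) r, (hU s).1, one_mul]
      have h4 : star (u s) * (r * u s) * star (u s) = star (u s) * r := by
        rw [mul_assoc, mul_assoc, (hU s).2, mul_one]
      rw [h3, h4] at h2
      exact h2.symm
    have e1 : ⟪(u s * a * star (u s)) Ω, r Ω⟫_ℂ = ⟪Ω, (u s) ((star a * star (u s) * r) Ω)⟫_ℂ := by
      have e2 : (u s) ((star a * star (u s) * r) Ω) = (star (u s * a * star (u s))) (r Ω) := by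
        rw [star_mul, star_mul, star_star]
        rfl
      rw [e2, onrm_inner_star]
    have hm1 : star a * star (u s) * r ∈ M :=
      mul_mem (mul_mem (star_mem ha) (star_mem (hu s))) hr
    rw [e1, hW.tr _ (hu s) _ hm1]
    have e3 : (star a * star (u s) * r) ((u s) Ω) = star a (r Ω) := by
      have e4 : star a * star (u s) * r * u s = star a * r := by
        rw [mul_assoc (star a), hc2, mul_assoc (star a), mul_assoc r, (hU s).1, mul_one]
      have e5 : (star a * star (u s) * r * u s) Ω = (star a * r) Ω := by rw [e4]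
      exact e5
    rw [e3, onrm_inner_star]
  have h2 : ⟪((m : ℂ)⁻¹ • ∑ s, u s * a * star (u s)) Ω, r Ω⟫_ℂ = ⟪a Ω, r Ω⟫_ℂ := by
    rw [_root_.smul_apply, _root_.sum_apply, inner_smul_left, sum_inner]
    rw [Finset.sum_congr rfl (fun s _ => h1 s), Finset.sum_const, Finset.card_univ,
      Fintype.card_fin, nsmul_eq_mul, ← mul_assoc]
    have h3 : (starRingEnd ℂ) ((m : ℂ)⁻¹) * (m : ℂ) = 1 := by
      rw [map_inv₀, Complex.conj_natCast]
      apply inv_mul_cancel₀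
      exact_mod_cast hm.ne'
    rw [h3, one_mul]
  rw [← h2]
  calc ‖⟪((m : ℂ)⁻¹ • ∑ s, u s * a * star (u s)) Ω, r Ω⟫_ℂ‖
      ≤ ‖((m : ℂ)⁻¹ • ∑ s, u s * a * star (u s)) Ω‖ * ‖r Ω‖ := norm_inner_le_norm _ _
    _ ≤ η * ‖r Ω‖ := mul_le_mul_of_nonneg_right hη (norm_nonneg _)

/-- the main estimate -/
theorem onrm_main (M : VonNeumannAlgebra H) (Ω : H) (X Z : Gm → (H →L[ℂ] H)) (hW : Wy M Ω X Z)
    (E : ℕ → (H →L[ℂ] H) → (H →L[ℂ] H)) (hE : Apx M Ω X Z E) (hS : Str M Ω X Z)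
    (y : ℕ → ℝ) (hF : Far M Ω X Z y) (w : H →L[ℂ] H) (hw : w ∈ M) (hwU : IsU w)
    (hN : ∀ d ∈ DD M X Z y, w * d * star w ∈ DD M X Z y) (i j : ZMod (pr 0)) (hij : i ≠ j)
    (n : ℕ) (hn : 1 ≤ n) (η : ℝ) (hη : 0 < η) :
    ‖(E n (ee Z i * w * ee Z j)) Ω‖ ^ 2 ≤
      16 * ‖((ee Z i * w * ee Z j) - E n (ee Z i * w * ee Z j)) Ω‖ ^ 2 + 2 * η := by
  obtain ⟨a, haA, haT, haU, m, u, hm, hu, hav⟩ := hF i j hij n η hη
  set v : H →L[ℂ] H := ee Z i * w * ee Z j with hv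
  set v0 : H →L[ℂ] H := E n v with hv0
  have hei : ee Z i ∈ M := hS.ee_mem i
  have hej : ee Z j ∈ M := hS.ee_mem j
  have hvM : v ∈ M := mul_mem (mul_mem hei hw) hej
  have hv0F : v0 ∈ Fn X Z n := hE.mem n v hvM
  have hv0M : v0 ∈ M := hE.fmem n _ hv0F
  have haM : a ∈ M := haT.1
  have hni : ‖ee Z i‖ ≤ 1 := onrm_proj _ (hS.ee_idem i) (hS.ee_star i)
  have hnj : ‖ee Z j‖ ≤ 1 := onrm_proj _ (hS.ee_idem j) (hS.ee_star j)
  have hnw : ‖w‖ ≤ 1 := onrm_unit w hwU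
  have hna : ‖a‖ ≤ 1 := onrm_unit a haU
  have hnv : ‖v‖ ≤ 1 := by
    calc ‖v‖ ≤ ‖ee Z i * w‖ * ‖ee Z j‖ := norm_mul_le _ _
      _ ≤ (‖ee Z i‖ * ‖w‖) * ‖ee Z j‖ :=
        mul_le_mul_of_nonneg_right (norm_mul_le _ _) (norm_nonneg _)
      _ ≤ (1 * 1) * 1 := by
        apply mul_le_mul _ hnj (norm_nonneg _) (by norm_num)
        exact mul_le_mul hni hnw (norm_nonneg _) (by norm_num)
      _ = 1 := by norm_num
  have hnv0 : ‖v0‖ ≤ 1 := le_trans (hE.le n v hvM) hnv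
  -- `ee i v0 = v0`
  have heiF : ee Z i ∈ Fn X Z n := hE.fmono 1 n hn (hS.ee_fin i)
  have hev : ee Z i * v = v := by
    rw [hv, ← mul_assoc, ← mul_assoc, hS.ee_idem]
  have hvj : v * ee Z j = v := by
    rw [hv, mul_assoc, hS.ee_idem]
  have hev0 : ee Z i * v0 = v0 := by
    rw [hv0, ← hE.bil n v hvM _ heiF, hev]
  -- membership of `a` and the `u s` in `Tl 1`
  have haT1 : a ∈ Tl M X Z 1 := haA.1
  -- the element b
  set b : H →L[ℂ] H := w * (ee Z j * a) * star w with hb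
  have hbD : b ∈ DD M X Z y := hN _ (hS.dd_mul y j a haA)
  have hbM : b ∈ M := hbD.1
  have hbe : b * ee Z i = ee Z i * b := hbD.2.1 i
  have hbw : b * w = w * (ee Z j * a) := by
    rw [hb, mul_assoc, hwU.1, mul_one]
  have hja : a * ee Z j = ee Z j * a := hS.ee_tl j a haT1
  have hvab : v * a = b * v := by
    have h1 : b * v = (b * ee Z i) * w * ee Z j := by
      rw [hv]
      simp only [mul_assoc]
    have h2 : (b * ee Z i) * w * ee Z j = ee Z i * (b * w) * ee Z j := by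
      rw [hbe]
      simp only [mul_assoc]
    have h3 : ee Z i * (b * w) * ee Z j = ee Z i * w * (ee Z j * (a * ee Z j)) := by
      rw [hbw]
      simp only [mul_assoc]
    have h4 : ee Z j * (a * ee Z j) = ee Z j * a := by
      rw [hja, ← mul_assoc, hS.ee_idem]
    rw [h1, h2, h3, h4, hv]
    simp only [mul_assoc]
  have hnb : ‖b‖ ≤ 1 := by
    have hnws : ‖star w‖ ≤ 1 := by
      rw [norm_star]
      exact hnw
    calc ‖b‖ ≤ ‖w * (ee Z j * a)‖ * ‖star w‖ := norm_mul_le _ _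
      _ ≤ (‖w‖ * ‖ee Z j * a‖) * ‖star w‖ :=
        mul_le_mul_of_nonneg_right (norm_mul_le _ _) (norm_nonneg _)
      _ ≤ (‖w‖ * (‖ee Z j‖ * ‖a‖)) * ‖star w‖ := by
        apply mul_le_mul_of_nonneg_right _ (norm_nonneg _)
        exact mul_le_mul_of_nonneg_left (norm_mul_le _ _) (norm_nonneg _)
      _ ≤ (1 * (1 * 1)) * 1 := by
        apply mul_le_mul _ hnws (norm_nonneg _) (by norm_num)
        apply mul_le_mul hnw _ (by positivity) (by norm_num)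
        exact mul_le_mul hnj hna (norm_nonneg _) (by norm_num)
      _ = 1 := by norm_num
  have hav0 : a * v0 = v0 * a := hE.tail n v0 hv0F a haT
  -- the estimate by 4 δ
  set δ : ℝ := ‖(v - v0) Ω‖ with hδ
  have hδ' : ‖(v0 - v) Ω‖ = δ := by
    rw [hδ, ← neg_sub v v0, _root_.neg_apply, norm_neg]
  have hδ0 : 0 ≤ δ := norm_nonneg _
  have hdM : v - v0 ∈ M := sub_mem hvM hv0M
  have h4 : ‖(a * v0) Ω - (b * v0) Ω‖ ≤ 4 * δ := by
    have e1 : (a * v0) - (b * v0) = a * (v0 - v) - b * (v0 - v) + a * (v - v0) - (v - v0) * a := by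
      rw [mul_sub, mul_sub, mul_sub, sub_mul, hvab, ← hav0]
      abel
    have e2 : (a * v0) Ω - (b * v0) Ω = (a * (v0 - v)) Ω - (b * (v0 - v)) Ω + (a * (v - v0)) Ω -
        ((v - v0) * a) Ω := by
      have e3 : (a * v0) Ω - (b * v0) Ω = ((a * v0) - (b * v0)) Ω := by
        rw [_root_.sub_apply]
      rw [e3, e1, _root_.sub_apply, _root_.add_apply, _root_.sub_apply]
    have b1 : ‖(a * (v0 - v)) Ω‖ ≤ δ := by
      calc ‖(a * (v0 - v)) Ω‖ ≤ ‖a‖ * ‖(v0 - v) Ω‖ := hE.nl _ _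
        _ ≤ 1 * δ := by
          rw [hδ']
          exact mul_le_mul_of_nonneg_right hna hδ0
        _ = δ := one_mul _
    have b2 : ‖(b * (v0 - v)) Ω‖ ≤ δ := by
      calc ‖(b * (v0 - v)) Ω‖ ≤ ‖b‖ * ‖(v0 - v) Ω‖ := hE.nl _ _
        _ ≤ 1 * δ := by
          rw [hδ']
          exact mul_le_mul_of_nonneg_right hnb hδ0
        _ = δ := one_mul _
    have b3 : ‖(a * (v - v0)) Ω‖ ≤ δ := by
      calc ‖(a * (v - v0)) Ω‖ ≤ ‖a‖ * ‖(v - v0) Ω‖ := hE.nl _ _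
        _ ≤ 1 * δ := mul_le_mul_of_nonneg_right hna hδ0
        _ = δ := one_mul _
    have b4 : ‖((v - v0) * a) Ω‖ ≤ δ := by
      calc ‖((v - v0) * a) Ω‖ ≤ ‖(v - v0) Ω‖ * ‖a‖ := hE.nr _ hdM _ haM
        _ ≤ δ * 1 := mul_le_mul_of_nonneg_left hna hδ0
        _ = δ := mul_one _
    rw [e2]
    calc ‖(a * (v0 - v)) Ω - (b * (v0 - v)) Ω + (a * (v - v0)) Ω - ((v - v0) * a) Ω‖
        ≤ ‖(a * (v0 - v)) Ω - (b * (v0 - v)) Ω + (a * (v - v0)) Ω‖ + ‖((v - v0) * a) Ω‖ :=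
          norm_sub_le _ _
      _ ≤ (‖(a * (v0 - v)) Ω - (b * (v0 - v)) Ω‖ + ‖(a * (v - v0)) Ω‖) + ‖((v - v0) * a) Ω‖ :=
          add_le_add_left (norm_add_le _ _) _
      _ ≤ ((‖(a * (v0 - v)) Ω‖ + ‖(b * (v0 - v)) Ω‖) + ‖(a * (v - v0)) Ω‖) +
          ‖((v - v0) * a) Ω‖ :=
          add_le_add_left (add_le_add_left (norm_sub_le _ _) _) _
      _ ≤ 4 * δ := by linarith
  -- the inner product
  have hiso : ‖(a * v0) Ω‖ = ‖v0 Ω‖ := onrm_iso a haU (v0 Ω)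
  have hq : v0 * star v0 ∈ Fn X Z n := hE.fmul n _ hv0F _ (hE.fst n _ hv0F)
  have hqM : v0 * star v0 ∈ M := hE.fmem n _ hq
  have hrM : b * (v0 * star v0) ∈ M := mul_mem hbM hqM
  obtain ⟨t, htA, hbt⟩ := (hS.dd_iff y b).1 hbD
  have hebt : ee Z i * b = ee Z i * t i := by
    rw [hbt, Finset.mul_sum]
    rw [Finset.sum_eq_single i]
    · rw [← mul_assoc, hS.ee_idem]
    · intro k _ hk
      rw [← mul_assoc, hS.ee_orth i k (Ne.symm hk), zero_mul]
    · intro h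
      exact absurd (Finset.mem_univ i) h
  have hr : b * (v0 * star v0) = ee Z i * t i * (v0 * star v0) := by
    have h5 : v0 * star v0 = ee Z i * (v0 * star v0) := by
      rw [← mul_assoc, hev0]
    have h6 : b * (v0 * star v0) = (b * ee Z i) * (v0 * star v0) := by
      rw [mul_assoc b (ee Z i) (v0 * star v0), ← h5]
    rw [h6, hbe, hebt]
  have hcomm : ∀ s, u s * (b * (v0 * star v0)) = (b * (v0 * star v0)) * u s := by
    intro s
    have c1 : u s * ee Z i = ee Z i * u s := hS.ee_tl i (u s) (hu s).1.1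
    have c2 : u s * t i = t i * u s := (hS.aa_alg y i _ (hu s).1 _ (htA i)).2.2.2.2
    have c3 : u s * (v0 * star v0) = (v0 * star v0) * u s :=
      hE.tail n _ hq (u s) (hu s).2.1
    rw [hr]
    calc u s * (ee Z i * t i * (v0 * star v0)) = (u s * ee Z i) * t i * (v0 * star v0) := by
          simp only [mul_assoc]
      _ = ee Z i * (u s * t i) * (v0 * star v0) := by
          rw [c1]
          simp only [mul_assoc]
      _ = ee Z i * t i * (u s * (v0 * star v0)) := by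
          rw [c2]
          simp only [mul_assoc]
      _ = ee Z i * t i * (v0 * star v0) * u s := by
          rw [c3]
          simp only [mul_assoc]
  have hav2 := onrm_avg M Ω X Z hW a (b * (v0 * star v0)) haM hrM m hm u
    (fun s => (hu s).2.1.1) (fun s => (hu s).2.2) hcomm η hav
  have hip : ⟪(a * v0) Ω, (b * v0) Ω⟫_ℂ = ⟪a Ω, (b * (v0 * star v0)) Ω⟫_ℂ := by
    have f1 : ⟪(a * v0) Ω, (b * v0) Ω⟫_ℂ = ⟪Ω, (star v0) ((star a * b * v0) Ω)⟫_ℂ := by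
      have f2 : (star v0) ((star a * b * v0) Ω) = (star (a * v0)) ((b * v0) Ω) := by
        rw [star_mul]
        rfl
      rw [f2, onrm_inner_star]
    have f3 : star a * b * v0 ∈ M := mul_mem (mul_mem (star_mem haM) hbM) hv0M
    rw [f1, hW.tr _ (star_mem hv0M) _ f3]
    have f4 : (star a * b * v0) ((star v0) Ω) = (star a) ((b * (v0 * star v0)) Ω) := rfl
    rw [f4, onrm_inner_star]
  have hnr : ‖(b * (v0 * star v0)) Ω‖ ≤ 1 := by
    calc ‖(b * (v0 * star v0)) Ω‖ ≤ ‖b * (v0 * star v0)‖ * ‖Ω‖ :=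
          (b * (v0 * star v0)).le_opNorm Ω
      _ ≤ 1 * 1 := by
        rw [hW.unit]
        apply mul_le_mul_of_nonneg_right _ (by norm_num)
        calc ‖b * (v0 * star v0)‖ ≤ ‖b‖ * ‖v0 * star v0‖ := norm_mul_le _ _
          _ ≤ ‖b‖ * (‖v0‖ * ‖star v0‖) :=
            mul_le_mul_of_nonneg_left (norm_mul_le _ _) (norm_nonneg _)
          _ ≤ 1 * (1 * 1) := by
            rw [norm_star]
            apply mul_le_mul hnb _ (by positivity) (by norm_num)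
            exact mul_le_mul hnv0 hnv0 (norm_nonneg _) (by norm_num)
          _ = 1 := by norm_num
      _ = 1 := by norm_num
  have hfin : ‖⟪(a * v0) Ω, (b * v0) Ω⟫_ℂ‖ ≤ η := by
    rw [hip]
    refine le_trans hav2 ?_
    calc η * ‖(b * (v0 * star v0)) Ω‖ ≤ η * 1 := mul_le_mul_of_nonneg_left hnr hη.le
      _ = η := mul_one _
  -- expansion
  have hexp : ‖(a * v0) Ω - (b * v0) Ω‖ ^ 2 = ‖(a * v0) Ω‖ ^ 2 -
      2 * (⟪(a * v0) Ω, (b * v0) Ω⟫_ℂ).re + ‖(b * v0) Ω‖ ^ 2 := by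
    have := @norm_sub_sq ℂ H _ _ _ ((a * v0) Ω) ((b * v0) Ω)
    exact this
  have hre : (⟪(a * v0) Ω, (b * v0) Ω⟫_ℂ).re ≤ η :=
    le_trans (Complex.re_le_norm _) hfin
  have hsq : ‖(a * v0) Ω - (b * v0) Ω‖ ^ 2 ≤ (4 * δ) ^ 2 :=
    pow_le_pow_left₀ (norm_nonneg _) h4 2
  rw [hiso] at hexp
  have hpos : 0 ≤ ‖(b * v0) Ω‖ ^ 2 := by positivity
  nlinarith

end

theorem t_O_Nrm (h1 : O_Apx) (h2 : O_Str) : O_Nrm := by
  intro H _ _ _ M Ω X Z hW y hF w hw hwU hN i j hij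
  obtain ⟨E, hE⟩ := h1 H M Ω X Z hW
  have hS := h2 H M Ω X Z hW
  have hvM : ee Z i * w * ee Z j ∈ M := mul_mem (mul_mem (hS.ee_mem i) hw) (hS.ee_mem j)
  have hbound : ∀ n : ℕ, 1 ≤ n → ‖(ee Z i * w * ee Z j) Ω‖ ≤
      5 * ‖((ee Z i * w * ee Z j) - E n (ee Z i * w * ee Z j)) Ω‖ := by
    intro n hn
    set δ := ‖((ee Z i * w * ee Z j) - E n (ee Z i * w * ee Z j)) Ω‖ with hδ
    have hδ0 : 0 ≤ δ := norm_nonneg _
    have h3 : ‖(E n (ee Z i * w * ee Z j)) Ω‖ ^ 2 ≤ (4 * δ) ^ 2 := by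
      have h4 : ∀ η : ℝ, 0 < η → ‖(E n (ee Z i * w * ee Z j)) Ω‖ ^ 2 ≤ (4 * δ) ^ 2 + η := by
        intro η hη
        have := onrm_main M Ω X Z hW E hE hS y hF w hw hwU hN i j hij n hn (η / 2) (by linarith)
        nlinarith
      exact le_of_forall_pos_le_add h4
    have h5 : ‖(E n (ee Z i * w * ee Z j)) Ω‖ ≤ 4 * δ :=
      le_of_sq_le_sq h3 (by linarith)
    have h6 : (ee Z i * w * ee Z j) Ω =
        ((ee Z i * w * ee Z j) - E n (ee Z i * w * ee Z j)) Ω + (E n (ee Z i * w * ee Z j)) Ω := by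
      rw [_root_.sub_apply, sub_add_cancel]
    calc ‖(ee Z i * w * ee Z j) Ω‖ = _ := by rw [h6]
      _ ≤ δ + ‖(E n (ee Z i * w * ee Z j)) Ω‖ := norm_add_le _ _
      _ ≤ 5 * δ := by linarith
  have hlim := hE.two _ hvM
  have hz : ‖(ee Z i * w * ee Z j) Ω‖ ≤ 5 * 0 := by
    apply ge_of_tendsto (hlim.const_mul 5)
    filter_upwards [eventually_ge_atTop 1] with n hn
    exact hbound n hn
  apply hE.sep _ hvM
  rw [mul_zero] at hz
  exact norm_le_zero_iff.1 hz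

end Pool.Agent.H468R2.MA
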