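import Pool.Agent.H468R2.MA.Tasks2

/-!
# O5: lower semicontinuity of `x ↦ DD x` (Borel dependence)
-/

set_option autoImplicit false

open scoped InnerProductSpace
open Filter Topology

namespace Pool.Agent.H468R2.MA

namespace OpenAux

section

variable {H : Type} [NormedAddCommGroup H] [InnerProductSpace ℂ H] [CompleteSpace H]

/-- `∏_{1 ≤ k ≤ n} FF k (s k)` -/
noncomputable def PP (Z : Gm → (H →L[ℂ] H)) (s : ℕ → ℝ) : ℕ → (H →L[ℂ] H)
  | 0 => 1
  | (n + 1) => FF Z (n + 1) (s (n + 1)) * PP Z s n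

/-- the site unitary of `A_2` with parameter `t` -/
noncomputable def vt (X Z : Gm → (H →L[ℂ] H)) (k : ℕ) (l : ZMod (pr k)) (t : ℝ) : H →L[ℂ] H :=
  FF Z k t * X (sg k l) * star (FF Z k t)

/-- the interpolating unitary -/
noncomputable def WW (Z : Gm → (H →L[ℂ] H)) (s : ℕ → ℝ) (n : ℕ) : H →L[ℂ] H :=
  1 - ee Z 2 + ee Z 2 * PP Z s n

theorem ff_mul (k : ℕ) (s t : ℝ) (m : ZMod (pr k)) : ff k s m * ff k t m = ff k (s + t) m := by
  unfold ff
  split_ifs
  · rw [← Complex.exp_add]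
    congr 1
    push_cast
    ring
  · simp

theorem ff_star (k : ℕ) (s : ℝ) (m : ZMod (pr k)) : star (ff k s m) = ff k (-s) m := by
  unfold ff
  split_ifs
  · rw [Complex.star_def, ← Complex.exp_conj]
    congr 1
    simp
  · simp

variable {M : VonNeumannAlgebra H} {Ω : H} {X Z : Gm → (H →L[ℂ] H)}

theorem FF_mul (hC : Calc M Ω X Z) (k : ℕ) (s t : ℝ) : FF Z k s * FF Z k t = FF Z k (s + t) := by
  unfold FF
  rw [← hC.mul]
  congr 1
  funext m
  exact ff_mul k s t m

theorem FF_star (hC : Calc M Ω X Z) (k : ℕ) (s : ℝ) : star (FF Z k s) = FF Z k (-s) := by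
  unfold FF
  rw [hC.st]
  congr 1
  funext m
  exact ff_star k s m

theorem FF_zero (hC : Calc M Ω X Z) (k : ℕ) : FF Z k 0 = 1 := by
  unfold FF
  rw [← hC.one k]
  congr 1
  funext m
  simp [ff]

theorem FF_star_mul (hC : Calc M Ω X Z) (k : ℕ) (s : ℝ) : star (FF Z k s) * FF Z k s = 1 := by
  rw [FF_star hC, FF_mul hC, neg_add_cancel, FF_zero hC]

theorem FF_mul_star (hC : Calc M Ω X Z) (k : ℕ) (s : ℝ) : FF Z k s * star (FF Z k s) = 1 := by
  rw [FF_star hC, FF_mul hC, add_neg_cancel, FF_zero hC]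

theorem FF_int_same (hC : Calc M Ω X Z) (k : ℕ) (l : ZMod (pr k)) (a t : ℝ) :
    FF Z k a * vt X Z k l t = vt X Z k l (t + a) * FF Z k a := by
  unfold vt
  rw [FF_star hC, FF_star hC, mul_assoc (FF Z k (t + a) * X (sg k l)), FF_mul hC,
    ← mul_assoc, ← mul_assoc, FF_mul hC, add_comm a t]
  congr 2
  ring

theorem FF_int_ne (hC : Calc M Ω X Z) (j k : ℕ) (h : j ≠ k) (l : ZMod (pr k)) (a t : ℝ) :
    FF Z j a * vt X Z k l t = vt X Z k l t * FF Z j a := by
  have h1 : Commute (FF Z j a) (FF Z k t) := hC.cc j k _ _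
  have h2 : Commute (FF Z j a) (FF Z k (-t)) := hC.cc j k _ _
  have h3 : Commute (FF Z j a) (X (sg k l)) := by
    refine hC.commX j _ _ ?_
    exact DFinsupp.single_eq_of_ne h
  unfold vt
  rw [FF_star hC]
  exact ((h1.mul_right h3).mul_right h2).eq

theorem PP_star_mul (hC : Calc M Ω X Z) (s : ℕ → ℝ) (n : ℕ) :
    star (PP Z s n) * PP Z s n = 1 := by
  induction n with
  | zero => simp [PP]
  | succ n ih =>
    show star (FF Z (n + 1) (s (n + 1)) * PP Z s n) * (FF Z (n + 1) (s (n + 1)) * PP Z s n) = 1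
    rw [star_mul, mul_assoc, ← mul_assoc (star (FF Z (n + 1) (s (n + 1)))), FF_star_mul hC,
      one_mul, ih]

theorem PP_mul_star (hC : Calc M Ω X Z) (s : ℕ → ℝ) (n : ℕ) :
    PP Z s n * star (PP Z s n) = 1 := by
  induction n with
  | zero => simp [PP]
  | succ n ih =>
    show (FF Z (n + 1) (s (n + 1)) * PP Z s n) * star (FF Z (n + 1) (s (n + 1)) * PP Z s n) = 1
    rw [star_mul, mul_assoc, ← mul_assoc (PP Z s n), ih, one_mul, FF_mul_star hC]

theorem PP_ee (hC : Calc M Ω X Z) (s : ℕ → ℝ) (n : ℕ) (i : ZMod (pr 0)) :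
    ee Z i * PP Z s n = PP Z s n * ee Z i := by
  induction n with
  | zero => simp [PP]
  | succ n ih =>
    have h1 : Commute (ee Z i) (FF Z (n + 1) (s (n + 1))) := hC.cc 0 (n + 1) _ _
    have h2 : Commute (ee Z i) (PP Z s n) := ih
    exact (h1.mul_right h2).eq

theorem one_Fn (hW : Wy M Ω X Z) (n : ℕ) : (1 : H →L[ℂ] H) ∈ Fn X Z n := by
  refine Submodule.subset_span ⟨0, 0, fun i _ => rfl, fun i _ => rfl, ?_⟩
  rw [hW.X0, hW.Z0, mul_one]

theorem sg_sup (k n : ℕ) (hk : k < n) (l : ZMod (pr k)) : Sup n (sg k l) := by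
  intro i hi
  exact DFinsupp.single_eq_of_ne (by omega)

theorem Z_Fn (hW : Wy M Ω X Z) (k n : ℕ) (hk : k < n) (l : ZMod (pr k)) :
    Z (sg k l) ∈ Fn X Z n := by
  refine Submodule.subset_span ⟨0, sg k l, fun i _ => rfl, sg_sup k n hk l, ?_⟩
  rw [hW.X0, one_mul]

theorem X_Fn (hW : Wy M Ω X Z) (k n : ℕ) (hk : k < n) (l : ZMod (pr k)) :
    X (sg k l) ∈ Fn X Z n := by
  refine Submodule.subset_span ⟨sg k l, 0, sg_sup k n hk l, fun i _ => rfl, ?_⟩
  rw [hW.Z0, mul_one]

variable {E : ℕ → (H →L[ℂ] H) → (H →L[ℂ] H)}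

theorem PP_Fn (hW : Wy M Ω X Z) (hC : Calc M Ω X Z) (hA : Apx M Ω X Z E) (s : ℕ → ℝ) (n : ℕ) :
    PP Z s n ∈ Fn X Z (n + 1) := by
  induction n with
  | zero => exact one_Fn hW 1
  | succ n ih =>
    refine hA.fmul _ _ ?_ _ (hA.fmono (n + 1) (n + 2) (by omega) ih)
    exact hC.fin (n + 1) (n + 2) _ (by omega)

theorem vv_Fn (hW : Wy M Ω X Z) (hC : Calc M Ω X Z) (hA : Apx M Ω X Z E) (x : ℕ → ℝ)
    (i : ZMod (pr 0)) (k n : ℕ) (hk : k < n) (l : ZMod (pr k)) : vv X Z x i k l ∈ Fn X Z n := by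
  unfold vv
  split_ifs
  · exact Z_Fn hW k n hk l
  · exact X_Fn hW k n hk l
  · exact hA.fmul _ _ (hA.fmul _ _ (hC.fin k n _ hk) _ (X_Fn hW k n hk l)) _
      (hA.fst _ _ (hC.fin k n _ hk))

theorem PP_int (hC : Calc M Ω X Z) (s : ℕ → ℝ) (n k : ℕ) (hk : 1 ≤ k) (l : ZMod (pr k)) (t : ℝ) :
    PP Z s n * vt X Z k l t = vt X Z k l (t + if k ≤ n then s k else 0) * PP Z s n := by
  induction n with
  | zero =>
    rw [if_neg (by omega)]
    simp [PP]
  | succ n ih =>
    show (FF Z (n + 1) (s (n + 1)) * PP Z s n) * vt X Z k l t =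
      vt X Z k l (t + if k ≤ n + 1 then s k else 0) * (FF Z (n + 1) (s (n + 1)) * PP Z s n)
    rw [mul_assoc, ih, ← mul_assoc, ← mul_assoc]
    congr 1
    by_cases h : k = n + 1
    · subst h
      rw [if_neg (by omega), if_pos le_rfl, add_zero, FF_int_same hC]
    · have h' : (k ≤ n + 1) ↔ (k ≤ n) := by omega
      rw [FF_int_ne hC _ _ (Ne.symm h)]
      simp only [h']

theorem z3 (i : ZMod (pr 0)) : i = 0 ∨ i = 1 ∨ i = 2 := by
  have h : ∀ i : ZMod 3, i = 0 ∨ i = 1 ∨ i = 2 := by decide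
  exact h i

theorem z20 : (2 : ZMod (pr 0)) ≠ 0 := by
  have h : (2 : ZMod 3) ≠ 0 := by decide
  exact h

theorem z21 : (2 : ZMod (pr 0)) ≠ 1 := by
  have h : (2 : ZMod 3) ≠ 1 := by decide
  exact h

theorem vv_two (x : ℕ → ℝ) (k : ℕ) (l : ZMod (pr k)) :
    vv X Z x 2 k l = vt X Z k l (x k) := by
  unfold vv vt
  rw [if_neg z20, if_neg z21]

theorem vv_ne (x y : ℕ → ℝ) (i : ZMod (pr 0)) (hi : i ≠ 2) (k : ℕ) (l : ZMod (pr k)) :
    vv X Z x i k l = vv X Z y i k l := by
  unfold vv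
  rcases z3 i with h | h | h
  · rw [if_pos h, if_pos h]
  · by_cases h0 : i = 0
    · rw [if_pos h0, if_pos h0]
    · rw [if_neg h0, if_neg h0, if_pos h, if_pos h]
  · exact absurd h hi

theorem vv_ee (hS : Str M Ω X Z) (x : ℕ → ℝ) (i j : ZMod (pr 0)) (k : ℕ) (hk : 1 ≤ k)
    (l : ZMod (pr k)) : vv X Z x i k l * ee Z j = ee Z j * vv X Z x i k l :=
  hS.ee_tl j _ ((hS.aa_vv x i k hk l).2.2 1 hk)

theorem WW_star (hC : Calc M Ω X Z) (hS : Str M Ω X Z) (s : ℕ → ℝ) (n : ℕ) :
    star (WW Z s n) = 1 - ee Z 2 + star (PP Z s n) * ee Z 2 := by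
  unfold WW
  rw [star_add, star_sub, star_one, star_mul, hS.ee_star]

theorem PPs_ee (hC : Calc M Ω X Z) (hS : Str M Ω X Z) (s : ℕ → ℝ) (n : ℕ) (i : ZMod (pr 0)) :
    ee Z i * star (PP Z s n) = star (PP Z s n) * ee Z i := by
  have h := congrArg star (PP_ee hC s n i)
  rw [star_mul, star_mul, hS.ee_star] at h
  exact h.symm

theorem WW_mul_star (hC : Calc M Ω X Z) (hS : Str M Ω X Z) (s : ℕ → ℝ) (n : ℕ) :
    WW Z s n * star (WW Z s n) = 1 := by
  rw [WW_star hC hS]
  unfold WW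
  set e := ee Z 2 with he
  set P := PP Z s n with hP
  have h1 : e * e = e := hS.ee_idem 2
  have h2 : P * star P = 1 := PP_mul_star hC s n
  have h3 : e * P = P * e := PP_ee hC s n 2
  have h4 : e * star P = star P * e := PPs_ee hC hS s n 2
  calc (1 - e + e * P) * (1 - e + star P * e)
      = (1 - e) * (1 - e) + (1 - e) * (star P * e) + (e * P) * (1 - e) +
        e * (P * star P) * e := by noncomm_ring
    _ = (1 - e) * (1 - e) + (1 - e) * (e * star P) + (P * e) * (1 - e) + e * 1 * e := by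
        rw [h2, h3, h4]
    _ = (1 - e - e + e * e) + (e - e * e) * star P + P * (e - e * e) + e * e := by
        noncomm_ring
    _ = 1 := by
        rw [h1, sub_self, zero_mul, mul_zero]
        noncomm_ring

theorem WW_star_mul (hC : Calc M Ω X Z) (hS : Str M Ω X Z) (s : ℕ → ℝ) (n : ℕ) :
    star (WW Z s n) * WW Z s n = 1 := by
  rw [WW_star hC hS]
  unfold WW
  set e := ee Z 2 with he
  set P := PP Z s n with hP
  have h1 : e * e = e := hS.ee_idem 2
  have h2 : star P * P = 1 := PP_star_mul hC s n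
  have h3 : e * P = P * e := PP_ee hC s n 2
  have h4 : e * star P = star P * e := PPs_ee hC hS s n 2
  calc (1 - e + star P * e) * (1 - e + e * P)
      = (1 - e) * (1 - e) + (1 - e) * e * P + star P * (e * (1 - e)) +
        star P * (e * e) * P := by noncomm_ring
    _ = (1 - e) * (1 - e) + (1 - e) * e * P + star P * (e * (1 - e)) + e * (star P * P) := by
        rw [h1, ← mul_assoc e, h4]
    _ = (1 - e - e + e * e) + (e - e * e) * P + star P * (e - e * e) + e := by
        rw [h2]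
        noncomm_ring
    _ = 1 := by
        rw [h1, sub_self, zero_mul, mul_zero]
        noncomm_ring

theorem ee_comm (hC : Calc M Ω X Z) (i j : ZMod (pr 0)) : ee Z i * ee Z j = ee Z j * ee Z i :=
  hC.cc 0 0 _ _

theorem WW_ee (hC : Calc M Ω X Z) (s : ℕ → ℝ) (n : ℕ) (i : ZMod (pr 0)) :
    WW Z s n * ee Z i = ee Z i * WW Z s n := by
  have h1 : Commute (ee Z i) (ee Z 2) := ee_comm hC i 2
  have h2 : Commute (ee Z i) (PP Z s n) := PP_ee hC s n i
  have h3 : Commute (ee Z i) (WW Z s n) :=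
    ((Commute.one_right _).sub_right h1).add_right (h1.mul_right h2)
  exact h3.eq.symm

theorem WW_Fn (hW : Wy M Ω X Z) (hC : Calc M Ω X Z) (hA : Apx M Ω X Z E) (hS : Str M Ω X Z)
    (s : ℕ → ℝ) (n : ℕ) : WW Z s n ∈ Fn X Z (n + 1) := by
  have h2 : ee Z 2 ∈ Fn X Z (n + 1) := hA.fmono 1 (n + 1) (by omega) (hS.ee_fin 2)
  exact Submodule.add_mem _ (Submodule.sub_mem _ (one_Fn hW _) h2)
    (hA.fmul _ _ h2 _ (PP_Fn hW hC hA s n))

/-- intertwining -/
theorem WW_int (hC : Calc M Ω X Z) (hS : Str M Ω X Z) (x y : ℕ → ℝ) (n k : ℕ) (hk : 1 ≤ k)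
    (hkn : k ≤ n) (i : ZMod (pr 0)) (l : ZMod (pr k)) :
    WW Z (fun j => y j - x j) n * (ee Z i * vv X Z x i k l) =
      (ee Z i * vv X Z y i k l) * WW Z (fun j => y j - x j) n := by
  by_cases hi : i = 2
  · subst hi
    have h1 : ee Z 2 * ee Z 2 = ee Z 2 := hS.ee_idem 2
    have h3 := PP_ee hC (fun j => y j - x j) n 2
    have h5 : PP Z (fun j => y j - x j) n * vv X Z x 2 k l =
        vv X Z y 2 k l * PP Z (fun j => y j - x j) n := by
      rw [vv_two, vv_two, PP_int hC _ n k hk l, if_pos hkn]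
      congr 2
      ring
    have h6 := vv_ee hS y 2 2 k hk l
    unfold WW
    set e := ee Z 2 with he
    set P := PP Z (fun j => y j - x j) n with hP
    set v := vv X Z x 2 k l with hv
    set v' := vv X Z y 2 k l with hv'
    calc (1 - e + e * P) * (e * v) = (e - e * e) * v + e * (P * e) * v := by noncomm_ring
      _ = e * (e * P) * v := by rw [h1, sub_self, zero_mul, zero_add, h3]
      _ = (e * e) * (P * v) := by noncomm_ring
      _ = e * v' * P := by rw [h1, h5, mul_assoc]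
      _ = e * v' * P := rfl
      _ = v' * (e - e * e) + v' * (e * e) * P := by
        rw [h1, sub_self, mul_zero, zero_add, h6]
      _ = (v' * e) * (1 - e + e * P) := by noncomm_ring
      _ = (e * v') * (1 - e + e * P) := by rw [h6]
  · have h1 : ee Z 2 * ee Z i = 0 := hS.ee_orth 2 i (Ne.symm hi)
    have h1' : ee Z i * ee Z 2 = 0 := hS.ee_orth i 2 hi
    have h3 := PP_ee hC (fun j => y j - x j) n i
    have h6 := vv_ee hS y i i k hk l
    rw [vv_ne x y i hi k l]
    unfold WW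
    set e := ee Z 2 with he
    set a := ee Z i with ha
    set P := PP Z (fun j => y j - x j) n with hP
    set v' := vv X Z y i k l with hv'
    calc (1 - e + e * P) * (a * v') = a * v' - (e * a) * v' + e * (P * a) * v' := by noncomm_ring
      _ = a * v' - (e * a) * v' + (e * a) * P * v' := by rw [← h3]; noncomm_ring
      _ = a * v' := by rw [h1]; noncomm_ring
      _ = v' * a := h6.symm
      _ = v' * a - v' * (a * e) + v' * (a * e) * P := by rw [h1']; noncomm_ring
      _ = (v' * a) * (1 - e + e * P) := by noncomm_ring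
      _ = (a * v') * (1 - e + e * P) := by rw [h6]

theorem FF_cont (k : ℕ) : Continuous (fun t : ℝ => FF Z k t) := by
  unfold FF Dg
  have h0 : ∀ m : ZMod (pr k), Continuous (fun t : ℝ => ff k t m) := by
    intro m
    unfold ff
    split_ifs
    · fun_prop
    · fun_prop
  have h1 : ∀ j : ZMod (pr k), Continuous (fun t : ℝ => ((pr k : ℂ))⁻¹ *
      ∑ m : ZMod (pr k), ff k t m * ZMod.stdAddChar (-(j * m))) := by
    intro j
    refine Continuous.mul continuous_const ?_
    refine continuous_finset_sum _ fun m _ => ?_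
    exact (h0 m).mul continuous_const
  refine continuous_finset_sum _ fun j _ => ?_
  exact (h1 j).smul continuous_const

theorem PP_cont (x : ℕ → ℝ) (n : ℕ) :
    Continuous (fun y : ℕ → ℝ => PP Z (fun j => y j - x j) n) := by
  induction n with
  | zero => exact continuous_const
  | succ n ih =>
    refine Continuous.mul ?_ ih
    exact (FF_cont (Z := Z) (n + 1)).comp ((continuous_apply (n + 1)).sub continuous_const)

theorem WW_cont (x : ℕ → ℝ) (n : ℕ) :
    Continuous (fun y : ℕ → ℝ => WW Z (fun j => y j - x j) n) := by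
  unfold WW
  exact continuous_const.add (continuous_const.mul (PP_cont x n))

theorem PP_zero (hC : Calc M Ω X Z) (x : ℕ → ℝ) (n : ℕ) :
    PP Z (fun j => x j - x j) n = 1 := by
  induction n with
  | zero => rfl
  | succ n ih =>
    show FF Z (n + 1) (x (n + 1) - x (n + 1)) * PP Z (fun j => x j - x j) n = 1
    rw [ih, sub_self, FF_zero hC, one_mul]

theorem WW_zero (hC : Calc M Ω X Z) (x : ℕ → ℝ) (n : ℕ) :
    WW Z (fun j => x j - x j) n = 1 := by
  unfold WW
  rw [PP_zero hC, mul_one, sub_add_cancel]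

theorem norm_le_one_of {u : H →L[ℂ] H} (h : star u * u = 1) : ‖u‖ ≤ 1 := by
  have h1 : ‖star u * u‖ = ‖u‖ * ‖u‖ := CStarRing.norm_star_mul_self
  rw [h] at h1
  have h2 : ‖(1 : H →L[ℂ] H)‖ ≤ 1 := ContinuousLinearMap.norm_id_le
  nlinarith [norm_nonneg u]

/-- moving an element of `DD x ∩ Fn (n+1)` to `DD y`. -/
theorem move (hW : Wy M Ω X Z) (hC : Calc M Ω X Z) (hA : Apx M Ω X Z E) (hS : Str M Ω X Z)
    (x y : ℕ → ℝ) (n : ℕ) (d : H →L[ℂ] H) (hd : d ∈ DD M X Z x) (hdF : d ∈ Fn X Z (n + 1)) :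
    WW Z (fun j => y j - x j) n * d * star (WW Z (fun j => y j - x j) n) ∈ DD M X Z y := by
  have hint := fun k hk hkn i l => WW_int hC hS x y n k hk hkn i l
  have hWee := fun i => WW_ee hC (fun j => y j - x j) n i
  have hWF := WW_Fn hW hC hA hS (fun j => y j - x j) n
  have hWs := WW_star_mul hC hS (fun j => y j - x j) n
  have hWs' := WW_mul_star hC hS (fun j => y j - x j) n
  set W := WW Z (fun j => y j - x j) n with hWd
  have hWsee : ∀ i, star W * ee Z i = ee Z i * star W := by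
    intro i
    have h := congrArg star (hWee i)
    rw [star_mul, star_mul, hS.ee_star] at h
    exact h.symm
  have hF : W * d * star W ∈ Fn X Z (n + 1) :=
    hA.fmul _ _ (hA.fmul _ _ hWF _ hdF) _ (hA.fst _ _ hWF)
  have hcee : ∀ i, (W * d * star W) * ee Z i = ee Z i * (W * d * star W) := by
    intro i
    have h1 : Commute (ee Z i) W := (hWee i).symm
    have h2 : Commute (ee Z i) d := (hd.2.1 i).symm
    have h3 : Commute (ee Z i) (star W) := (hWsee i).symm
    exact ((h1.mul_right h2).mul_right h3).eq.symm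
  refine ⟨hA.fmem _ _ hF, hcee, ?_⟩
  intro i k hk l
  by_cases hkn : k ≤ n
  · have h1 := hint k hk hkn i l
    have h2 := hd.2.2 i k hk l
    set g := ee Z i * vv X Z x i k l with hg
    set g' := ee Z i * vv X Z y i k l with hg'
    have h3 : star W * g' = g * star W := by
      calc star W * g' = star W * g' * (W * star W) := by rw [hWs', mul_one]
        _ = star W * (g' * W) * star W := by simp only [mul_assoc]
        _ = star W * (W * g) * star W := by rw [h1]
        _ = (star W * W) * g * star W := by simp only [mul_assoc]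
        _ = g * star W := by rw [hWs, one_mul]
    calc (W * d * star W) * g' = W * d * (star W * g') := by simp only [mul_assoc]
      _ = W * (d * g) * star W := by rw [h3]; simp only [mul_assoc]
      _ = W * (g * d) * star W := by rw [h2]
      _ = (W * g) * d * star W := by simp only [mul_assoc]
      _ = (g' * W) * d * star W := by rw [h1]
      _ = g' * (W * d * star W) := by simp only [mul_assoc]
  · have h1 : vv X Z y i k l ∈ Tl M X Z (n + 1) := (hS.aa_vv y i k hk l).2.2 (n + 1) (by omega)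
    have h2 := hA.tail (n + 1) _ hF _ h1
    have h3 : Commute (W * d * star W) (ee Z i) := hcee i
    have h4 : Commute (W * d * star W) (vv X Z y i k l) := h2.symm
    exact (h3.mul_right h4).eq

end

end OpenAux

open OpenAux in
/-- O_Open from O_Calc, O_Apx, O_Str. -/
theorem t_O_Open (h1 : O_Calc) (h2 : O_Apx) (h3 : O_Str) : O_Open := by
  intro H _ _ _ M Ω X Z hW U hU
  have hC := h1 H M Ω X Z hW
  obtain ⟨E, hA⟩ := h2 H M Ω X Z hW
  have hS := h3 H M Ω X Z hW
  unfold WOpen at hU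
  rw [isOpen_induced_iff] at hU
  obtain ⟨V, hV, rfl⟩ := hU
  rw [isOpen_iff_mem_nhds]
  rintro x ⟨d₀, hd₀, hn₀, hdV⟩
  -- approximate by an element of a finite stage
  have hM₀ : d₀ ∈ M := hd₀.1
  have hlim : Tendsto (fun n => (fun p : H × H => ⟪p.1, (E n d₀) p.2⟫_ℂ)) atTop
      (𝓝 (fun p : H × H => ⟪p.1, d₀ p.2⟫_ℂ)) := by
    rw [tendsto_pi_nhds]
    intro p
    exact Tendsto.inner tendsto_const_nhds (hA.sot d₀ hM₀ p.2)
  have hev := (hlim.eventually (hV.mem_nhds hdV)).and (eventually_ge_atTop 1)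
  obtain ⟨N, hNV, hN1⟩ := hev.exists
  obtain ⟨n, rfl⟩ : ∃ n, N = n + 1 := ⟨N - 1, by omega⟩
  set d := E (n + 1) d₀ with hd
  have hdF : d ∈ Fn X Z (n + 1) := hA.mem (n + 1) d₀ hM₀
  have hdn : ‖d‖ ≤ 1 := (hA.le (n + 1) d₀ hM₀).trans hn₀
  have hdee : ∀ i, d * ee Z i = ee Z i * d := by
    intro i
    have he : ee Z i ∈ Fn X Z (n + 1) := hA.fmono 1 (n + 1) (by omega) (hS.ee_fin i)
    rw [hd, ← hA.bir (n + 1) d₀ hM₀ _ he, ← hA.bil (n + 1) d₀ hM₀ _ he, hd₀.2.1 i]
  have hdD : d ∈ DD M X Z x := by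
    refine ⟨hA.fmem _ _ hdF, hdee, ?_⟩
    intro i k hk l
    by_cases hkn : k ≤ n
    · have he : ee Z i ∈ Fn X Z (n + 1) := hA.fmono 1 (n + 1) (by omega) (hS.ee_fin i)
      have hg : ee Z i * vv X Z x i k l ∈ Fn X Z (n + 1) :=
        hA.fmul _ _ he _ (vv_Fn hW hC hA x i k (n + 1) (by omega) l)
      rw [hd, ← hA.bir (n + 1) d₀ hM₀ _ hg, ← hA.bil (n + 1) d₀ hM₀ _ hg, hd₀.2.2 i k hk l]
    · have h1 : vv X Z x i k l ∈ Tl M X Z (n + 1) :=
        (hS.aa_vv x i k hk l).2.2 (n + 1) (by omega)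
      have h2 := hA.tail (n + 1) _ hdF _ h1
      have h3 : Commute d (ee Z i) := hdee i
      have h4 : Commute d (vv X Z x i k l) := h2.symm
      exact (h3.mul_right h4).eq
  -- the moved elements
  have hcont : Continuous (fun y : ℕ → ℝ => (fun p : H × H =>
      ⟪p.1, (WW Z (fun j => y j - x j) n * d * star (WW Z (fun j => y j - x j) n)) p.2⟫_ℂ)) := by
    refine continuous_pi fun p => ?_
    refine Continuous.inner continuous_const ?_
    have h1 : Continuous (fun y : ℕ → ℝ =>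
        WW Z (fun j => y j - x j) n * d * star (WW Z (fun j => y j - x j) n)) :=
      ((WW_cont x n).mul continuous_const).mul (WW_cont x n).star
    exact h1.clm_apply continuous_const
  have hopen := hV.preimage hcont
  have hx : x ∈ (fun y : ℕ → ℝ => (fun p : H × H =>
      ⟪p.1, (WW Z (fun j => y j - x j) n * d *
        star (WW Z (fun j => y j - x j) n)) p.2⟫_ℂ)) ⁻¹' V := by
    show (fun p : H × H => ⟪p.1, (WW Z (fun j => x j - x j) n * d *
        star (WW Z (fun j => x j - x j) n)) p.2⟫_ℂ) ∈ V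
    rw [WW_zero hC, star_one, one_mul, mul_one]
    exact hNV
  refine mem_of_superset (hopen.mem_nhds hx) ?_
  intro y hy
  refine ⟨_, move hW hC hA hS x y n d hdD hdF, ?_, hy⟩
  have hu1 : ‖WW Z (fun j => y j - x j) n‖ ≤ 1 := norm_le_one_of (WW_star_mul hC hS _ n)
  have hu2 : ‖star (WW Z (fun j => y j - x j) n)‖ ≤ 1 := by rw [norm_star]; exact hu1
  calc ‖WW Z (fun j => y j - x j) n * d * star (WW Z (fun j => y j - x j) n)‖
      ≤ ‖WW Z (fun j => y j - x j) n * d‖ * ‖star (WW Z (fun j => y j - x j) n)‖ :=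
        norm_mul_le _ _
    _ ≤ (‖WW Z (fun j => y j - x j) n‖ * ‖d‖) * ‖star (WW Z (fun j => y j - x j) n)‖ := by
        gcongr
        exact norm_mul_le _ _
    _ ≤ (1 * 1) * 1 := by gcongr
    _ = 1 := by norm_num

end Pool.Agent.H468R2.MA
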