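import Pool.Agent.H468R2.MA.Tasks2

/-!
# O_Ops: the operators of the model (twisted translations on `ℓ²`)
-/

set_option autoImplicit false

open scoped InnerProductSpace
open Filter Topology

namespace Pool.Agent.H468R2.MA

namespace OOps

section W

variable {Γ : Type}

theorem mem (f : lp (fun _ : Γ => ℂ) 2) (e : Γ ≃ Γ) (g : Γ → ℂ)
    (h : ∀ i, ‖g i‖ = ‖(f : Γ → ℂ) (e i)‖) : Memℓp g 2 := by
  have hp : (0 : ℝ) < (2 : ENNReal).toReal := by norm_num
  apply memℓp_gen
  have h1 := (lp.memℓp f).summable hp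
  have h2 := (e.summable_iff).2 h1
  refine h2.congr fun i => ?_
  simp only [Function.comp_apply]
  rw [h i]

theorem nrm (f G : lp (fun _ : Γ => ℂ) 2) (e : Γ ≃ Γ)
    (h : ∀ i, ‖(G : Γ → ℂ) i‖ = ‖(f : Γ → ℂ) (e i)‖) : ‖G‖ = ‖f‖ := by
  have hp : (0 : ℝ) < (2 : ENNReal).toReal := by norm_num
  have e1 := lp.norm_rpow_eq_tsum hp G
  have e2 := lp.norm_rpow_eq_tsum hp f
  have e3 : ∑' i, ‖(G : Γ → ℂ) i‖ ^ (2 : ENNReal).toReal =
      ∑' i, ‖(f : Γ → ℂ) i‖ ^ (2 : ENNReal).toReal := by
    simp_rw [h]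
    exact e.tsum_eq (fun i => ‖(f : Γ → ℂ) i‖ ^ (2 : ENNReal).toReal)
  rw [e3, ← e2] at e1
  exact Real.rpow_left_injOn hp.ne' (norm_nonneg G) (norm_nonneg f) e1

theorem lin (c : Γ → ℂ) (hc : ∀ h, ‖c h‖ = 1) (e : Γ ≃ Γ) :
    ∃ T : lp (fun _ : Γ => ℂ) 2 →L[ℂ] lp (fun _ : Γ => ℂ) 2,
      ∀ f h, (T f : Γ → ℂ) h = c h * f (e h) := by
  have hn : ∀ (f : lp (fun _ : Γ => ℂ) 2) (i : Γ), ‖c i * f (e i)‖ = ‖(f : Γ → ℂ) (e i)‖ := by
    intro f i
    rw [norm_mul, hc, one_mul]
  let T : lp (fun _ : Γ => ℂ) 2 →ₗ[ℂ] lp (fun _ : Γ => ℂ) 2 :=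
    { toFun := fun f => ⟨fun h => c h * f (e h), mem f e _ (hn f)⟩
      map_add' := by
        intro f g
        apply lp.ext
        funext h
        show c h * ((f + g : lp (fun _ : Γ => ℂ) 2) : Γ → ℂ) (e h) =
          c h * (f : Γ → ℂ) (e h) + c h * (g : Γ → ℂ) (e h)
        rw [lp.coeFn_add, Pi.add_apply, mul_add]
      map_smul' := by
        intro a f
        apply lp.ext
        funext h
        show c h * ((a • f : lp (fun _ : Γ => ℂ) 2) : Γ → ℂ) (e h) =
          a * (c h * (f : Γ → ℂ) (e h))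
        rw [lp.coeFn_smul, Pi.smul_apply, smul_eq_mul]
        ring }
  refine ⟨T.mkContinuous 1 fun f => ?_, fun f h => rfl⟩
  rw [one_mul]
  exact (nrm f (T f) e (hn f)).le

/-- weighted permutations are unitary -/
theorem wU (c : Γ → ℂ) (hc : ∀ h, ‖c h‖ = 1) (e : Γ ≃ Γ) :
    ∃ T : lp (fun _ : Γ => ℂ) 2 →L[ℂ] lp (fun _ : Γ => ℂ) 2,
      (∀ f h, (T f : Γ → ℂ) h = c h * f (e h)) ∧ IsU T := by
  obtain ⟨T, hT⟩ := lin c hc e
  obtain ⟨T', hT'⟩ := lin (fun h => (c (e.symm h))⁻¹) (fun h => by rw [norm_inv, hc, inv_one])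
    e.symm
  have hc0 : ∀ h, c h ≠ 0 := by
    intro h h0
    have := hc h
    rw [h0, norm_zero] at this
    exact zero_ne_one this
  have h1 : T * T' = 1 := by
    apply ContinuousLinearMap.ext
    intro f
    apply lp.ext
    funext h
    rw [ContinuousLinearMap.mul_apply, hT, hT', Equiv.symm_apply_apply, ← mul_assoc,
      mul_inv_cancel₀ (hc0 h), one_mul]
    rfl
  have h2 : star T * T = 1 := by
    have h3 : ∀ x, ‖T x‖ = ‖x‖ := by
      intro x
      apply nrm x (T x) e
      intro i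
      rw [hT, norm_mul, hc, one_mul]
    have h4 := (ContinuousLinearMap.norm_map_iff_adjoint_comp_self T).1 h3
    exact h4
  have h5 : star T = T' := by
    calc star T = star T * (T * T') := by rw [h1, mul_one]
      _ = T' := by rw [← mul_assoc, h2, one_mul]
  refine ⟨T, hT, h2, ?_⟩
  rw [h5]
  exact h1

end W

theorem om_norm (κ γ : Gm) : ‖om κ γ‖ = 1 := by
  unfold om
  rw [norm_prod]
  apply Finset.prod_eq_one
  intro i _
  exact AddChar.norm_apply _ _

theorem sgm_norm (g h : GG) : ‖sgm g h‖ = 1 := om_norm _ _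

theorem dl_apply (k x : GG) : (dl k : GG → ℂ) x = (by classical exact if x = k then 1 else 0) := by
  classical
  unfold dl
  rw [lp.single_apply, Pi.single_apply]

section

variable {H : Type} [NormedAddCommGroup H] [InnerProductSpace ℂ H] [CompleteSpace H]

/-- the commutant of a star closed set -/
noncomputable def vn (S : Set (H →L[ℂ] H)) (hS : ∀ a ∈ S, star a ∈ S) : VonNeumannAlgebra H where
  toSubalgebra := Subalgebra.centralizer ℂ S
  star_mem' := by
    intro a ha
    exact Set.star_mem_centralizer' hS ha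
  centralizer_centralizer' := by
    show Set.centralizer (Set.centralizer (Set.centralizer S)) = Set.centralizer S
    rw [Set.centralizer_centralizer_centralizer]

theorem mem_vn (S : Set (H →L[ℂ] H)) (hS : ∀ a ∈ S, star a ∈ S) (x : H →L[ℂ] H) :
    x ∈ vn S hS ↔ x ∈ Set.centralizer S := Iff.rfl

theorem comm_star {u x : H →L[ℂ] H} (hu : IsU u) (h : x * u = u * x) :
    x * star u = star u * x := by
  calc x * star u = star u * u * (x * star u) := by rw [hu.1, one_mul]
    _ = star u * (u * x) * star u := by simp only [mul_assoc]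
    _ = star u * (x * u) * star u := by rw [h]
    _ = star u * x * (u * star u) := by simp only [mul_assoc]
    _ = star u * x := by rw [hu.2, mul_one]

end

end OOps

theorem t_O_Ops : O_Ops := by
  classical
  choose lam hl hlu using fun g : GG => OOps.wU (fun x => sgm g (x - g))
    (fun x => OOps.sgm_norm g (x - g)) (Equiv.subRight g)
  choose rho hr hru using fun g : GG => OOps.wU (fun x => sgm (x - g) g)
    (fun x => OOps.sgm_norm (x - g) g) (Equiv.subRight g)
  set S : Set (HH →L[ℂ] HH) := {a | ∃ g, a = rho g ∨ a = star (rho g)} with hS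
  have hSs : ∀ a ∈ S, star a ∈ S := by
    rintro a ⟨g, rfl | rfl⟩
    · exact ⟨g, Or.inr rfl⟩
    · exact ⟨g, Or.inl (star_star _)⟩
  refine ⟨lam, rho, OOps.vn S hSs, ?_, ?_, hlu, hru, ?_⟩
  · intro g h
    apply lp.ext
    funext x
    rw [hl, lp.coeFn_smul, Pi.smul_apply, OOps.dl_apply, OOps.dl_apply, smul_eq_mul]
    have e1 : (Equiv.subRight g) x = x - g := rfl
    rw [e1]
    by_cases hx : x = g + h
    · have h2 : x - g = h := by rw [hx, add_sub_cancel_left]
      rw [if_pos h2, if_pos hx, h2]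
    · have h2 : x - g ≠ h := by
        intro h3
        apply hx
        rw [← h3, add_sub_cancel]
      rw [if_neg h2, if_neg hx, mul_zero, mul_zero]
  · intro g h
    apply lp.ext
    funext x
    rw [hr, lp.coeFn_smul, Pi.smul_apply, OOps.dl_apply, OOps.dl_apply, smul_eq_mul]
    have e1 : (Equiv.subRight g) x = x - g := rfl
    rw [e1]
    by_cases hx : x = h + g
    · have h2 : x - g = h := by rw [hx, add_sub_cancel_right]
      rw [if_pos h2, if_pos hx, h2]
    · have h2 : x - g ≠ h := by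
        intro h3
        apply hx
        rw [← h3, sub_add_cancel]
      rw [if_neg h2, if_neg hx, mul_zero, mul_zero]
  · intro x
    rw [OOps.mem_vn]
    constructor
    · intro hx g
      exact (hx (rho g) ⟨g, Or.inl rfl⟩).symm
    · rintro hx a ⟨g, rfl | rfl⟩
      · exact (hx g).symm
      · exact (OOps.comm_star (hru g) (hx g)).symm

end Pool.Agent.H468R2.MA
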