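import Pool.Agent.H468R2.MA.Tasks2

/-!
# Automorphisms are order preserving
-/

set_option autoImplicit false

open scoped InnerProductSpace
open Filter Topology

namespace Pool.Agent.H468R2.MA

namespace OrdAux

/-- the square root of a positive element of `M` is in `M` -/
theorem sqrt_mem {H : Type} [NormedAddCommGroup H] [InnerProductSpace ℂ H] [CompleteSpace H]
    (M : VonNeumannAlgebra H) (z : H →L[ℂ] H) (hz : z ∈ M) : CFC.sqrt z ∈ M := by
  rw [← SetLike.mem_coe, ← M.centralizer_centralizer, Set.mem_centralizer_iff]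
  intro y hy
  rw [Set.mem_centralizer_iff] at hy
  have h1 : Commute z y := hy z hz
  exact (h1.cfcₙ_nnreal _).symm

end OrdAux

theorem t_O_Ord : O_Ord := by
  intro H _ _ _ M θ z hz
  set b : H →L[ℂ] H := CFC.sqrt (z : H →L[ℂ] H) with hb
  have hbM : b ∈ M := OrdAux.sqrt_mem M _ z.2
  have hb0 : 0 ≤ b := CFC.sqrt_nonneg _
  have hbs : star b = b := (IsSelfAdjoint.of_nonneg hb0).star_eq
  have hbb : star b * b = (z : H →L[ℂ] H) := by
    rw [hbs]
    exact CFC.sqrt_mul_sqrt_self _ hz
  let c : M.toStarSubalgebra := ⟨b, hbM⟩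
  have hc : star c * c = z := Subtype.ext hbb
  have h2 : ((θ z : M.toStarSubalgebra) : H →L[ℂ] H) =
      star ((θ c : M.toStarSubalgebra) : H →L[ℂ] H) * ((θ c : M.toStarSubalgebra) : H →L[ℂ] H) := by
    rw [← hc, map_mul, map_star]
    rfl
  rw [h2]
  exact star_mul_self_nonneg _

end Pool.Agent.H468R2.MA
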