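import Pool.Agent.H468R2.MA.Tasks2

/-! O_Psi: the maps `ψ i` (helper747). -/

set_option autoImplicit false

open scoped InnerProductSpace
open Filter Topology

namespace Pool.Agent.H468R2.MA

namespace OPsi

variable {H : Type} [NormedAddCommGroup H] [InnerProductSpace ℂ H] [CompleteSpace H]
  {M : VonNeumannAlgebra H} {Ω : H} {X Z : Gm → (H →L[ℂ] H)}

open Classical in
/-- the automorphism as a map of operators -/
noncomputable def TT (θ : Au M) (m : H →L[ℂ] H) : H →L[ℂ] H :=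
  if h : m ∈ M then ((θ ⟨m, h⟩ : M.toStarSubalgebra) : H →L[ℂ] H) else 0

theorem TT_of (θ : Au M) {m : H →L[ℂ] H} (h : m ∈ M) :
    TT θ m = ((θ ⟨m, h⟩ : M.toStarSubalgebra) : H →L[ℂ] H) := dif_pos h

theorem TT_mem (θ : Au M) {m : H →L[ℂ] H} (h : m ∈ M) : TT θ m ∈ M := by
  rw [TT_of θ h]
  exact (θ ⟨m, h⟩ : M.toStarSubalgebra).2

theorem smul_mem' (c : ℂ) {m : H →L[ℂ] H} (h : m ∈ M) : c • m ∈ M :=
  M.toStarSubalgebra.smul_mem h c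

theorem TT_mul (θ : Au M) {s t : H →L[ℂ] H} (hs : s ∈ M) (ht : t ∈ M) :
    TT θ (s * t) = TT θ s * TT θ t := by
  rw [TT_of θ hs, TT_of θ ht, TT_of θ (mul_mem hs ht)]
  have h : (⟨s * t, mul_mem hs ht⟩ : M.toStarSubalgebra) = ⟨s, hs⟩ * ⟨t, ht⟩ := rfl
  rw [h, map_mul]
  rfl

theorem TT_add (θ : Au M) {s t : H →L[ℂ] H} (hs : s ∈ M) (ht : t ∈ M) :
    TT θ (s + t) = TT θ s + TT θ t := by
  rw [TT_of θ hs, TT_of θ ht, TT_of θ (add_mem hs ht)]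
  have h : (⟨s + t, add_mem hs ht⟩ : M.toStarSubalgebra) = ⟨s, hs⟩ + ⟨t, ht⟩ := rfl
  rw [h, map_add]
  rfl

theorem TT_sub (θ : Au M) {s t : H →L[ℂ] H} (hs : s ∈ M) (ht : t ∈ M) :
    TT θ (s - t) = TT θ s - TT θ t := by
  rw [TT_of θ hs, TT_of θ ht, TT_of θ (sub_mem hs ht)]
  have h : (⟨s - t, sub_mem hs ht⟩ : M.toStarSubalgebra) = ⟨s, hs⟩ - ⟨t, ht⟩ := rfl
  rw [h, map_sub]
  rfl

theorem TT_star (θ : Au M) {s : H →L[ℂ] H} (hs : s ∈ M) : TT θ (star s) = star (TT θ s) := by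
  rw [TT_of θ hs, TT_of θ (star_mem hs)]
  have h : (⟨star s, star_mem hs⟩ : M.toStarSubalgebra) = star ⟨s, hs⟩ := rfl
  rw [h, map_star]
  rfl

theorem TT_one (θ : Au M) : TT θ 1 = 1 := by
  rw [TT_of θ (one_mem M)]
  have h : (⟨1, one_mem M⟩ : M.toStarSubalgebra) = 1 := rfl
  rw [h, map_one]
  rfl

theorem TT_inj (θ : Au M) {s t : H →L[ℂ] H} (hs : s ∈ M) (ht : t ∈ M) (h : TT θ s = TT θ t) :
    s = t := by
  rw [TT_of θ hs, TT_of θ ht] at h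
  have h1 := θ.injective (Subtype.ext h)
  exact congrArg Subtype.val h1

theorem TT_surj (θ : Au M) {s : H →L[ℂ] H} (hs : s ∈ M) : ∃ t ∈ M, TT θ t = s := by
  obtain ⟨t, ht⟩ := θ.surjective ⟨s, hs⟩
  refine ⟨(t : H →L[ℂ] H), t.2, ?_⟩
  rw [TT_of θ t.2]
  exact congrArg Subtype.val ht

/-- the map to `Tl 1` -/
noncomputable def PP (X Z : Gm → (H →L[ℂ] H)) (j : ZMod (pr 0)) (m : H →L[ℂ] H) : H →L[ℂ] H :=
  ∑ l : ZMod (pr 0), X (sg 0 l) * (ee Z j * m) * X (sg 0 (-l))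

section str

variable {E : ℕ → (H →L[ℂ] H) → (H →L[ℂ] H)}

theorem tl_sub (hS : Str M Ω X Z) {n : ℕ} {s t : H →L[ℂ] H} (hs : s ∈ Tl M X Z n)
    (ht : t ∈ Tl M X Z n) : s - t ∈ Tl M X Z n := by
  have h1 := (hS.tl_alg n t ht t ht).2.2.2 (-1)
  have h2 := (hS.tl_alg n s hs _ h1).2.1
  have e : s + (-1 : ℂ) • t = s - t := by
    rw [neg_smul, one_smul, sub_eq_add_neg]
  rwa [e] at h2

theorem tl_uniq (hS : Str M Ω X Z) (hE : Apx M Ω X Z E) {s t : H →L[ℂ] H}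
    (hs : s ∈ Tl M X Z 1) (ht : t ∈ Tl M X Z 1) (j : ZMod (pr 0))
    (h : ee Z j * s = ee Z j * t) : s = t := by
  have h1 := tl_sub hS hs ht
  have h2 := hS.ee_norm j _ h1
  have h3 : ee Z j * (s - t) = 0 := by rw [mul_sub, h, sub_self]
  rw [h3] at h2
  have h4 : ‖(s - t) Ω‖ = 0 := by
    have : ‖(s - t) Ω‖ ^ 2 = 0 := by
      have h5 : ‖(0 : H →L[ℂ] H) Ω‖ = 0 := by simp
      rw [h5] at h2
      linarith
    exact pow_eq_zero_iff (two_ne_zero) |>.1 this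
  have h5 := hE.sep _ h1.1 (norm_eq_zero.1 h4)
  exact sub_eq_zero.1 h5

theorem one_tl : (1 : H →L[ℂ] H) ∈ Tl M X Z 1 :=
  ⟨one_mem M, fun k _ l => ⟨by rw [one_mul, mul_one], by rw [one_mul, mul_one]⟩⟩

end str

/-- the data -/
structure Dat (M : VonNeumannAlgebra H) (Ω : H) (X Z : Gm → (H →L[ℂ] H))
    (E : ℕ → (H →L[ℂ] H) → (H →L[ℂ] H)) (x y : ℕ → ℝ) (θ : Au M)
    (π : Equiv.Perm (ZMod (pr 0))) : Prop where
  wy : Wy M Ω X Z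
  S : Str M Ω X Z
  A : Apx M Ω X Z E
  iso : ∀ t ∈ M, ‖TT θ t Ω‖ = ‖t Ω‖
  e : ∀ i, TT θ (ee Z i) = ee Z (π i)
  img : ∀ t ∈ M, t ∈ DD M X Z x ↔ TT θ t ∈ DD M X Z y

variable {E : ℕ → (H →L[ℂ] H) → (H →L[ℂ] H)} {x y : ℕ → ℝ} {θ : Au M}
  {π : Equiv.Perm (ZMod (pr 0))}

theorem Dat.comm (h : Dat M Ω X Z E x y θ π) (i : ZMod (pr 0)) {t : H →L[ℂ] H}
    (ht : t ∈ Tl M X Z 1) : TT θ t * ee Z (π i) = ee Z (π i) * TT θ t := by
  rw [← h.e i, ← TT_mul θ ht.1 (h.S.ee_mem i), ← TT_mul θ (h.S.ee_mem i) ht.1, h.S.ee_tl i t ht]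

/-- the maps -/
noncomputable def psi (X Z : Gm → (H →L[ℂ] H)) (θ : Au M) (π : Equiv.Perm (ZMod (pr 0)))
    (i : ZMod (pr 0)) (t : H →L[ℂ] H) : H →L[ℂ] H := PP X Z (π i) (TT θ t)

theorem Dat.mem (h : Dat M Ω X Z E x y θ π) (i : ZMod (pr 0)) {t : H →L[ℂ] H}
    (ht : t ∈ Tl M X Z 1) : psi X Z θ π i t ∈ Tl M X Z 1 :=
  (h.S.corner _ (TT_mem θ ht.1) (π i) (h.comm i ht)).1

theorem Dat.cut (h : Dat M Ω X Z E x y θ π) (i : ZMod (pr 0)) {t : H →L[ℂ] H}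
    (ht : t ∈ Tl M X Z 1) : ee Z (π i) * psi X Z θ π i t = ee Z (π i) * TT θ t :=
  (h.S.corner _ (TT_mem θ ht.1) (π i) (h.comm i ht)).2

theorem Dat.cut' (h : Dat M Ω X Z E x y θ π) (i : ZMod (pr 0)) {t : H →L[ℂ] H}
    (ht : t ∈ Tl M X Z 1) : ee Z (π i) * psi X Z θ π i t = TT θ (ee Z i * t) := by
  rw [h.cut i ht, TT_mul θ (h.S.ee_mem i) ht.1, h.e]

theorem Dat.mul (h : Dat M Ω X Z E x y θ π) (i : ZMod (pr 0)) {s t : H →L[ℂ] H}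
    (hs : s ∈ Tl M X Z 1) (ht : t ∈ Tl M X Z 1) :
    psi X Z θ π i (s * t) = psi X Z θ π i s * psi X Z θ π i t := by
  have hst := (h.S.tl_alg 1 s hs t ht).1
  refine tl_uniq h.S h.A (h.mem i hst) (h.S.tl_alg 1 _ (h.mem i hs) _ (h.mem i ht)).1 (π i) ?_
  rw [h.cut i hst, TT_mul θ hs.1 ht.1, ← mul_assoc, ← mul_assoc, h.cut i hs, ← h.comm i hs,
    mul_assoc, mul_assoc, h.cut i ht]

theorem Dat.star (h : Dat M Ω X Z E x y θ π) (i : ZMod (pr 0)) {t : H →L[ℂ] H}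
    (ht : t ∈ Tl M X Z 1) : psi X Z θ π i (star t) = Star.star (psi X Z θ π i t) := by
  have hst := (h.S.tl_alg 1 t ht t ht).2.2.1
  have hps := h.mem i ht
  refine tl_uniq h.S h.A (h.mem i hst) (h.S.tl_alg 1 _ hps _ hps).2.2.1 (π i) ?_
  have e1 : ee Z (π i) * Star.star (psi X Z θ π i t) =
      Star.star (psi X Z θ π i t * ee Z (π i)) := by
    rw [star_mul, h.S.ee_star]
  rw [e1, h.S.ee_tl _ _ hps, h.cut i ht, star_mul, h.S.ee_star, h.cut i hst, TT_star θ ht.1]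
  have h2 := h.comm i hst
  rw [TT_star θ ht.1] at h2
  exact h2.symm

theorem Dat.one (h : Dat M Ω X Z E x y θ π) (i : ZMod (pr 0)) : psi X Z θ π i 1 = 1 := by
  refine tl_uniq h.S h.A (h.mem i one_tl) one_tl (π i) ?_
  rw [h.cut i one_tl, TT_one]

theorem Dat.isom (h : Dat M Ω X Z E x y θ π) (i : ZMod (pr 0)) {s t : H →L[ℂ] H}
    (hs : s ∈ Tl M X Z 1) (ht : t ∈ Tl M X Z 1) :
    ‖(psi X Z θ π i s - psi X Z θ π i t) Ω‖ = ‖(s - t) Ω‖ := by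
  have h1 := tl_sub h.S hs ht
  have h2 := tl_sub h.S (h.mem i hs) (h.mem i ht)
  have h3 := h.S.ee_norm (π i) _ h2
  have h4 := h.S.ee_norm i _ h1
  have e1 : ee Z (π i) * (psi X Z θ π i s - psi X Z θ π i t) = TT θ (ee Z i * (s - t)) := by
    rw [mul_sub, h.cut' i hs, h.cut' i ht, mul_sub,
      TT_sub θ (mul_mem (h.S.ee_mem i) hs.1) (mul_mem (h.S.ee_mem i) ht.1)]
  rw [e1, h.iso _ (mul_mem (h.S.ee_mem i) h1.1), h4] at h3
  have h5 : ‖(psi X Z θ π i s - psi X Z θ π i t) Ω‖ ^ 2 = ‖(s - t) Ω‖ ^ 2 := by linarith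
  exact (sq_eq_sq₀ (norm_nonneg _) (norm_nonneg _)).1 h5

theorem Dat.aa (h : Dat M Ω X Z E x y θ π) (i : ZMod (pr 0)) {t : H →L[ℂ] H}
    (ht : t ∈ AA M X Z x i) : psi X Z θ π i t ∈ AA M X Z y (π i) := by
  refine h.S.dd_cut y (π i) _ (h.mem i ht.1) ?_
  rw [h.cut' i ht.1]
  exact (h.img _ (mul_mem (h.S.ee_mem i) ht.1.1)).1 (h.S.dd_mul x i t ht)

theorem Dat.surj (h : Dat M Ω X Z E x y θ π) (i : ZMod (pr 0)) {s : H →L[ℂ] H}
    (hs : s ∈ AA M X Z y (π i)) : ∃ t ∈ AA M X Z x i, psi X Z θ π i t = s := by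
  have hsM : ee Z (π i) * s ∈ M := mul_mem (h.S.ee_mem _) hs.1.1
  obtain ⟨d, hd, hds⟩ := TT_surj θ hsM
  have hdd : d ∈ DD M X Z x := by
    rw [h.img d hd, hds]
    exact h.S.dd_mul y (π i) s hs
  have h1 : ee Z i * d = d := by
    refine TT_inj θ (mul_mem (h.S.ee_mem i) hd) hd ?_
    rw [TT_mul θ (h.S.ee_mem i) hd, h.e, hds, ← mul_assoc, h.S.ee_idem]
  obtain ⟨t, ht, hdt⟩ := (h.S.dd_iff x d).1 hdd
  have h2 : ee Z i * d = ee Z i * t i := by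
    rw [hdt, Finset.mul_sum, Finset.sum_eq_single i]
    · rw [← mul_assoc, h.S.ee_idem]
    · intro k _ hk
      rw [← mul_assoc, h.S.ee_orth i k (Ne.symm hk), zero_mul]
    · intro hi
      exact absurd (Finset.mem_univ _) hi
  refine ⟨t i, ht i, ?_⟩
  refine tl_uniq h.S h.A (h.mem i (ht i).1) hs.1 (π i) ?_
  rw [h.cut' i (ht i).1, ← h2, h1, hds]

theorem Dat.com (h : Dat M Ω X Z E x y θ π) {w : H →L[ℂ] H} (hw : w ∈ M) (δ : ℝ) (hδ : 0 < δ) :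
    ∃ n : ℕ, ∀ t ∈ Tl M X Z n, ‖t‖ ≤ 1 → ‖(TT θ t * w - w * TT θ t) Ω‖ ≤ δ := by
  obtain ⟨z, hz, rfl⟩ := TT_surj θ hw
  have h1 := h.A.two z hz
  have h2 : ∀ᶠ n in atTop, ‖(z - E n z) Ω‖ < δ / 2 :=
    h1.eventually (gt_mem_nhds (by positivity))
  obtain ⟨n, hn⟩ := h2.exists
  refine ⟨n, fun t ht ht1 => ?_⟩
  have htM : t ∈ M := ht.1
  have hEM : E n z ∈ M := h.A.fmem n _ (h.A.mem n z hz)
  have hEt := h.A.tail n _ (h.A.mem n z hz) t ht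
  rw [← TT_mul θ htM hz, ← TT_mul θ hz htM, ← TT_sub θ (mul_mem htM hz) (mul_mem hz htM),
    h.iso _ (sub_mem (mul_mem htM hz) (mul_mem hz htM))]
  have e1 : t * z - z * t = t * (z - E n z) - (z - E n z) * t := by
    rw [mul_sub, sub_mul, hEt]
    abel
  rw [e1]
  have h3 : ‖(t * (z - E n z)) Ω‖ ≤ ‖(z - E n z) Ω‖ := by
    refine (h.A.nl _ _).trans ?_
    calc ‖t‖ * ‖(z - E n z) Ω‖ ≤ 1 * ‖(z - E n z) Ω‖ := by gcongr
      _ = _ := one_mul _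
  have h4 : ‖((z - E n z) * t) Ω‖ ≤ ‖(z - E n z) Ω‖ := by
    refine (h.A.nr _ (sub_mem hz hEM) _ htM).trans ?_
    calc ‖(z - E n z) Ω‖ * ‖t‖ ≤ ‖(z - E n z) Ω‖ * 1 := by gcongr
      _ = _ := mul_one _
  calc ‖(t * (z - E n z) - (z - E n z) * t) Ω‖ =
        ‖(t * (z - E n z)) Ω - ((z - E n z) * t) Ω‖ := rfl
    _ ≤ ‖(t * (z - E n z)) Ω‖ + ‖((z - E n z) * t) Ω‖ := norm_sub_le _ _
    _ ≤ δ := by linarith

theorem tl_anti {m n : ℕ} (hmn : m ≤ n) {t : H →L[ℂ] H} (ht : t ∈ Tl M X Z n) :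
    t ∈ Tl M X Z m := ⟨ht.1, fun k hk l => ht.2 k (hk.trans_le hmn) l⟩

theorem Dat.close (h : Dat M Ω X Z E x y θ π) (i : ZMod (pr 0)) (ε : ℝ) (hε : 0 < ε) :
    ∃ n : ℕ, ∀ t ∈ Tl M X Z n, ‖t‖ ≤ 1 →
      ‖(psi X Z θ π i t - TT θ t) Ω‖ ≤ ε := by
  obtain ⟨K, hK⟩ : ∃ K : ℝ, K = ∑ l : ZMod (pr 0), ‖X (sg 0 l) * ee Z (π i)‖ := ⟨_, rfl⟩
  have hK0 : 0 ≤ K := by
    rw [hK]
    exact Finset.sum_nonneg fun _ _ => norm_nonneg _
  have hδ : 0 < ε / (K + 1) := by positivity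
  choose n hn using fun l : ZMod (pr 0) => h.com (h.wy.Xm (sg 0 (-l))) (ε / (K + 1)) hδ
  refine ⟨Finset.univ.sup n, fun t ht ht1 => ?_⟩
  have e1 : (1 : H →L[ℂ] H) = ∑ l : ZMod (pr 0),
      X (sg 0 l) * ee Z (π i) * X (sg 0 (-l)) := by
    rw [← h.S.ee_sum, Finset.sum_congr rfl fun l _ => h.S.ee_shift (π i) l]
    exact (Equiv.sum_comp (Equiv.addLeft (π i)) (fun k => ee Z k)).symm
  have e2 : psi X Z θ π i t - TT θ t = ∑ l : ZMod (pr 0), (X (sg 0 l) * ee Z (π i)) *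
      (TT θ t * X (sg 0 (-l)) - X (sg 0 (-l)) * TT θ t) := by
    have e3 : TT θ t = ∑ l : ZMod (pr 0),
        (X (sg 0 l) * ee Z (π i)) * (X (sg 0 (-l)) * TT θ t) := by
      conv_lhs => rw [← one_mul (TT θ t), e1, Finset.sum_mul]
      refine Finset.sum_congr rfl fun l _ => ?_
      rw [mul_assoc]
    have e4 : psi X Z θ π i t = ∑ l : ZMod (pr 0),
        (X (sg 0 l) * ee Z (π i)) * (TT θ t * X (sg 0 (-l))) := by
      unfold psi PP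
      refine Finset.sum_congr rfl fun l _ => ?_
      simp only [mul_assoc]
    conv_lhs => rw [e4, e3]
    rw [← Finset.sum_sub_distrib]
    refine Finset.sum_congr rfl fun l _ => ?_
    rw [← mul_sub]
    congr 2
    rw [← e3]
  rw [e2, sum_apply]
  refine (norm_sum_le _ _).trans ?_
  have h5 : ∀ l : ZMod (pr 0), ‖((X (sg 0 l) * ee Z (π i)) *
      (TT θ t * X (sg 0 (-l)) - X (sg 0 (-l)) * TT θ t)) Ω‖ ≤
      ‖X (sg 0 l) * ee Z (π i)‖ * (ε / (K + 1)) := by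
    intro l
    refine (h.A.nl _ _).trans ?_
    have h6 := hn l t (tl_anti (Finset.le_sup (Finset.mem_univ l)) ht) ht1
    gcongr
  refine (Finset.sum_le_sum fun l _ => h5 l).trans ?_
  rw [← Finset.sum_mul, ← hK, mul_div_assoc', div_le_iff₀ (by positivity)]
  nlinarith

end OPsi

open OPsi in
theorem t_O_Psi (h1 : O_Aut) (h2 : O_Apx) (h3 : O_Str) : O_Psi := by
  intro H _ _ _ M Ω X Z hW x y θ hImg π hπ
  obtain ⟨E, hE⟩ := h2 H M Ω X Z hW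
  have hS := h3 H M Ω X Z hW
  have hD : Dat M Ω X Z E x y θ π := by
    refine ⟨hW, hS, hE, ?_, ?_, ?_⟩
    · intro t ht
      rw [TT_of θ ht]
      exact h1 H M Ω X Z hW θ ⟨t, ht⟩
    · intro i
      rw [TT_of θ (hS.ee_mem i)]
      exact hπ i (hS.ee_mem i)
    · intro t ht
      rw [TT_of θ ht]
      exact hImg ⟨t, ht⟩
  refine ⟨psi X Z θ π, fun i t ht => hD.mem i ht, fun i s hs t ht => hD.mul i hs ht,
    fun i t ht => hD.star i ht, fun i => hD.one i, fun i s hs t ht => hD.isom i hs ht,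
    fun i t ht => hD.aa i ht, fun i s hs => hD.surj i hs, fun i j ε hε => ?_⟩
  obtain ⟨n1, hn1⟩ := hD.close i (ε / 2) (by positivity)
  obtain ⟨n2, hn2⟩ := hD.close j (ε / 2) (by positivity)
  refine ⟨max n1 n2, fun t ht _ ht1 => ?_⟩
  have h4 := hn1 t (tl_anti (le_max_left _ _) ht) ht1
  have h5 := hn2 t (tl_anti (le_max_right _ _) ht) ht1
  have e : (psi X Z θ π i t - psi X Z θ π j t) Ω =
      (psi X Z θ π i t - TT θ t) Ω - (psi X Z θ π j t - TT θ t) Ω := by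
    rw [← sub_apply]
    congr 1
    abel
  rw [e]
  exact (norm_sub_le _ _).trans (by linarith)

end Pool.Agent.H468R2.MA
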