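import Pool.Agent.H468R2.MA.Tasks2

/-! Task O_Res (helper338): the operator monotone function `t / (1 + t)`. -/

set_option autoImplicit false

open scoped InnerProductSpace
open Filter Topology

namespace Pool.Agent.H468R2.MA

namespace POres

section gen

variable {A : Type} [CStarAlgebra A] [PartialOrder A] [StarOrderedRing A]

theorem unit_one_add {S : A} (hS : 0 ≤ S) : IsUnit (1 + S) :=
  CStarAlgebra.isUnit_of_le (1 : A) (le_add_of_nonneg_right hS)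

theorem gen1 {S T : A} (hS : 0 ≤ S) (hST : S ≤ T) :
    0 ≤ 1 - Ring.inverse (1 + S) ∧
      1 - Ring.inverse (1 + S) ≤ 1 - Ring.inverse (1 + T) ∧
      1 - Ring.inverse (1 + T) ≤ 1 ∧ 1 - Ring.inverse (1 + S) ≤ S := by
  have hT : 0 ≤ T := hS.trans hST
  obtain ⟨u, hu⟩ := unit_one_add hS
  obtain ⟨v, hv⟩ := unit_one_add hT
  rw [← hu, ← hv, Ring.inverse_unit, Ring.inverse_unit]
  have h1u : (1 : A) ≤ u := by rw [hu]; exact le_add_of_nonneg_right hS
  have h1v : (1 : A) ≤ v := by rw [hv]; exact le_add_of_nonneg_right hT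
  have h0u : (0 : A) ≤ u := zero_le_one.trans h1u
  have h0v : (0 : A) ≤ v := zero_le_one.trans h1v
  have huv : (u : A) ≤ v := by rw [hu, hv]; exact add_le_add_right hST 1
  have hiu : (↑u⁻¹ : A) ≤ 1 := CStarAlgebra.inv_le_one h1u
  have hivu : (↑v⁻¹ : A) ≤ ↑u⁻¹ := CStarAlgebra.inv_le_inv h0u huv
  have hiv0 : (0 : A) ≤ ↑v⁻¹ := CFC.inv_nonneg_of_nonneg v h0v
  have hiu0 : (0 : A) ≤ ↑u⁻¹ := CFC.inv_nonneg_of_nonneg u h0u
  refine ⟨sub_nonneg.2 hiu, sub_le_sub_left hivu 1, sub_le_self 1 hiv0, ?_⟩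
  have hsa : star S = S := (IsSelfAdjoint.of_nonneg hS).star_eq
  have hSu : S = (u : A) - 1 := by rw [hu]; abel
  have key : S - (1 - (↑u⁻¹ : A)) = star S * ↑u⁻¹ * S := by
    rw [hsa, hSu]
    have e1 : (u : A) * (↑u⁻¹ : A) = 1 := u.mul_inv
    have e2 : (↑u⁻¹ : A) * (u : A) = 1 := u.inv_mul
    have : ((u : A) - 1) * (↑u⁻¹ : A) * ((u : A) - 1) =
        ((u : A) * ↑u⁻¹) * u - (u : A) * ↑u⁻¹ - ↑u⁻¹ * u + ↑u⁻¹ := by noncomm_ring
    rw [this, e1, e2]
    noncomm_ring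
  rw [← sub_nonneg, key]
  exact star_left_conjugate_nonneg hiu0 S

theorem gen2 {S : A} (hS : 0 ≤ S) (hS1 : S ≤ 1) :
    0 ≤ 2 * (1 - Ring.inverse (1 + S)) - S := by
  obtain ⟨u, hu⟩ := unit_one_add hS
  rw [← hu, Ring.inverse_unit]
  have h1u : (1 : A) ≤ u := by rw [hu]; exact le_add_of_nonneg_right hS
  have h0u : (0 : A) ≤ u := zero_le_one.trans h1u
  have hiu0 : (0 : A) ≤ ↑u⁻¹ := CFC.inv_nonneg_of_nonneg u h0u
  have hsa : star S = S := (IsSelfAdjoint.of_nonneg hS).star_eq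
  have hsi : star (↑u⁻¹ : A) = ↑u⁻¹ := (IsSelfAdjoint.of_nonneg hiu0).star_eq
  have hsb : star (1 - S) = 1 - S := by rw [star_sub, star_one, hsa]
  have h1S : 0 ≤ 1 - S := sub_nonneg.2 hS1
  have a1 : 0 ≤ S * (1 - S) * S := by
    have := star_left_conjugate_nonneg h1S S
    rwa [hsa] at this
  have a2 : 0 ≤ (1 - S) * S * (1 - S) := by
    have := star_left_conjugate_nonneg hS (1 - S)
    rwa [hsb] at this
  have a3 : 0 ≤ S * (1 - S) * S + (1 - S) * S * (1 - S) + S * (1 - S) * S :=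
    add_nonneg (add_nonneg a1 a2) a1
  have a4 : 0 ≤ (↑u⁻¹ : A) * (S * (1 - S) * S + (1 - S) * S * (1 - S) + S * (1 - S) * S) *
      ↑u⁻¹ := by
    have := star_left_conjugate_nonneg a3 (↑u⁻¹ : A)
    rwa [hsi] at this
  have hSu : S = (u : A) - 1 := by rw [hu]; abel
  have e1 : (u : A) * (↑u⁻¹ : A) = 1 := u.mul_inv
  have e2 : (↑u⁻¹ : A) * (u : A) = 1 := u.inv_mul
  have key : (↑u⁻¹ : A) * (S * (1 - S) * S + (1 - S) * S * (1 - S) + S * (1 - S) * S) *
      ↑u⁻¹ = 2 * (1 - (↑u⁻¹ : A)) - S := by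
    have b1 : S * (1 - S) * S + (1 - S) * S * (1 - S) + S * (1 - S) * S =
        (u : A) * (3 - (u : A)) * u - 2 * (u : A) := by
      rw [hSu]
      noncomm_ring
    rw [b1]
    have b2 : (↑u⁻¹ : A) * ((u : A) * (3 - (u : A)) * u - 2 * (u : A)) * ↑u⁻¹ =
        (↑u⁻¹ * (u : A)) * (3 - (u : A)) * ((u : A) * ↑u⁻¹) - 2 * (↑u⁻¹ * (u : A)) * ↑u⁻¹ := by
      noncomm_ring
    rw [b2, e1, e2, hSu]
    noncomm_ring
  rw [← key]
  exact a4

end gen

end POres

open POres in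
theorem t_O_Res : O_Res := by
  intro H _ _ _
  refine ⟨fun S T hS hST => gen1 hS hST, ?_, ?_⟩
  · intro S hS hS1
    have := gen2 hS hS1
    rw [sub_nonneg] at this
    refine this.trans (le_of_eq ?_)
    show 2 * rs S = (2 : ℂ) • rs S
    rw [two_mul, two_smul]
  · intro M S hS hM
    rw [← M.commutant_commutant, VonNeumannAlgebra.mem_commutant_iff]
    intro g hg
    have hgS : S * g = g * S := VonNeumannAlgebra.mem_commutant_iff.1 hg S hM
    obtain ⟨u, hu⟩ := unit_one_add hS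
    unfold rs
    rw [← hu, Ring.inverse_unit]
    have hc : Commute g (u : H →L[ℂ] H) := by
      show g * (u : H →L[ℂ] H) = u * g
      rw [hu, mul_add, add_mul, hgS, mul_one, one_mul]
    have hc2 : Commute g (↑u⁻¹ : H →L[ℂ] H) := hc.units_inv_right
    rw [mul_sub, sub_mul, mul_one, one_mul, hc2.eq]

end Pool.Agent.H468R2.MA
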