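import Pool.Agent.H468R2.MA.Tasks2

/-!
# The Hilbert space of the model is separable
-/

set_option autoImplicit false

namespace Pool.Agent.H468R2.MA

theorem sep_countable : Countable GG := by
  have : ∀ i, Countable (ZMod (pr i)) := fun i => inferInstance
  infer_instance

theorem t_Sep : TopologicalSpace.SeparableSpace HH := by
  have hc : Countable GG := sep_countable
  let b : HilbertBasis GG ℂ HH := HilbertBasis.ofRepr (LinearIsometryEquiv.refl ℂ HH)
  have h1 : TopologicalSpace.IsSeparable (Set.range b) := (Set.countable_range b).isSeparable
  have h2 : TopologicalSpace.IsSeparable (Submodule.span ℂ (Set.range b) : Set HH) := h1.span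
  have h3 := h2.closure
  have h4 : closure (Submodule.span ℂ (Set.range b) : Set HH) = Set.univ := by
    rw [← Submodule.topologicalClosure_coe, b.dense_span]
    rfl
  rw [h4] at h3
  exact TopologicalSpace.isSeparable_univ_iff.mp h3

end Pool.Agent.H468R2.MA
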