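import Pool.Agent.H468R2.MA.Tasks2

/-!
# O_StrA: the fields `ee_*`, `tl_*`, `corner`, `centre` of `Str`

Prover: helper676.
-/

set_option autoImplicit false

open scoped InnerProductSpace
open Filter Topology

namespace Pool.Agent.H468R2.MA

/-! ### the pairing -/

theorem strA_om_one (κ γ : Gm) (h : ∀ i, κ i = 0 ∨ γ i = 0) : om κ γ = 1 := by
  unfold om
  apply Finset.prod_eq_one
  intro i _
  rcases h i with h | h
  · rw [h, zero_mul, AddChar.map_zero_eq_one]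
  · rw [h, mul_zero, AddChar.map_zero_eq_one]

theorem strA_om_left (i : ℕ) (l : ZMod (pr i)) (γ : Gm) :
    om (sg i l) γ = ZMod.stdAddChar (l * γ i) := by
  unfold om
  have hsub : (sg i l).support ⊆ {i} := DFinsupp.support_single_subset
  rw [Finset.prod_subset hsub]
  · rw [Finset.prod_singleton, DFinsupp.single_eq_same]
  · intro j _ hj
    rw [DFinsupp.notMem_support_iff] at hj
    rw [hj, zero_mul, AddChar.map_zero_eq_one]

theorem strA_om_right (i : ℕ) (l : ZMod (pr i)) (κ : Gm) :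
    om κ (sg i l) = ZMod.stdAddChar (κ i * l) := by
  unfold om
  rw [Finset.prod_eq_single i]
  · rw [DFinsupp.single_eq_same]
  · intro j _ hj
    rw [DFinsupp.single_eq_of_ne hj, mul_zero, AddChar.map_zero_eq_one]
  · intro hi
    rw [DFinsupp.notMem_support_iff] at hi
    rw [hi, zero_mul, AddChar.map_zero_eq_one]

theorem strA_char_ne (i : ℕ) (l : ZMod (pr i)) (h : l ≠ 0) :
    ZMod.stdAddChar l ≠ (1 : ℂ) := by
  intro h1
  apply h
  apply ZMod.injective_stdAddChar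
  rw [h1, AddChar.map_zero_eq_one]

section

variable {H : Type} [NormedAddCommGroup H] [InnerProductSpace ℂ H] [CompleteSpace H]
  {M : VonNeumannAlgebra H} {Ω : H} {X Z : Gm → (H →L[ℂ] H)}
  {E : ℕ → (H →L[ℂ] H) → (H →L[ℂ] H)}

/-! ### the projections -/

theorem str_ee_idem (hC : Calc M Ω X Z) (i : ZMod (pr 0)) : ee Z i * ee Z i = ee Z i := by
  unfold ee
  rw [← hC.mul]
  congr 1
  funext m
  split_ifs <;> simp

theorem str_ee_star (hC : Calc M Ω X Z) (i : ZMod (pr 0)) : star (ee Z i) = ee Z i := by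
  unfold ee
  rw [hC.st]
  congr 1
  funext m
  split_ifs <;> simp

theorem strA_Dg_zero (hC : Calc M Ω X Z) (k : ℕ) : Dg Z k (fun _ => 0) = 0 := by
  have := hC.smul k 0 (fun _ => 1)
  rw [zero_smul] at this
  simpa using this

theorem str_ee_orth (hC : Calc M Ω X Z) (i j : ZMod (pr 0)) (h : i ≠ j) :
    ee Z i * ee Z j = 0 := by
  unfold ee
  rw [← hC.mul, ← strA_Dg_zero hC 0]
  congr 1
  funext m
  split_ifs with h1 h2
  · exact absurd (h1.symm.trans h2) h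
  · simp
  · simp
  · simp

theorem strA_Dg_sum (hC : Calc M Ω X Z) {ι : Type} (s : Finset ι) (k : ℕ)
    (h : ι → ZMod (pr k) → ℂ) :
    Dg Z k (fun m => ∑ i ∈ s, h i m) = ∑ i ∈ s, Dg Z k (h i) := by
  classical
  induction s using Finset.induction_on with
  | empty => simpa using strA_Dg_zero hC k
  | insert a s ha ih =>
    simp only [Finset.sum_insert ha]
    rw [hC.add, ih]

theorem str_ee_sum (hC : Calc M Ω X Z) : ∑ i, ee Z i = 1 := by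
  unfold ee
  rw [← strA_Dg_sum hC, ← hC.one 0]
  congr 1
  funext m
  simp

theorem str_ee_mem (hC : Calc M Ω X Z) (i : ZMod (pr 0)) : ee Z i ∈ M := hC.mem _ _

theorem str_ee_fin (hC : Calc M Ω X Z) (i : ZMod (pr 0)) : ee Z i ∈ Fn X Z 1 :=
  hC.fin 0 1 _ one_pos

theorem strA_Xinv (hW : Wy M Ω X Z) (l : ZMod (pr 0)) :
    X (sg 0 l) * X (sg 0 (-l)) = 1 := by
  rw [← hW.Xadd, ← DFinsupp.single_add, add_neg_cancel, DFinsupp.single_zero, hW.X0]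

theorem strA_Xinv' (hW : Wy M Ω X Z) (l : ZMod (pr 0)) :
    X (sg 0 (-l)) * X (sg 0 l) = 1 := by
  rw [← hW.Xadd, ← DFinsupp.single_add, neg_add_cancel, DFinsupp.single_zero, hW.X0]

theorem strA_Xst (hW : Wy M Ω X Z) (l : ZMod (pr 0)) :
    star (X (sg 0 l)) = X (sg 0 (-l)) := by
  rw [hW.Xst, ← DFinsupp.single_neg]

theorem strA_shift (hC : Calc M Ω X Z) (i l : ZMod (pr 0)) :
    X (sg 0 l) * ee Z i = ee Z (i + l) * X (sg 0 l) := by
  unfold ee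
  rw [hC.shift]
  congr 2
  funext m
  simp only [sub_eq_iff_eq_add]

theorem str_ee_shift (hW : Wy M Ω X Z) (hC : Calc M Ω X Z) (i l : ZMod (pr 0)) :
    X (sg 0 l) * ee Z i * X (sg 0 (-l)) = ee Z (i + l) := by
  rw [strA_shift hC, mul_assoc, strA_Xinv hW, mul_one]

theorem str_ee_tl (hC : Calc M Ω X Z) (hA : Apx M Ω X Z E) (i : ZMod (pr 0))
    (t : H →L[ℂ] H) (ht : t ∈ Tl M X Z 1) : t * ee Z i = ee Z i * t :=
  hA.tail 1 _ (str_ee_fin hC i) t ht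

theorem strA_iso {u : H →L[ℂ] H} (hu : star u * u = 1) (v : H) : ‖u v‖ = ‖v‖ := by
  have h1 : ⟪u v, u v⟫_ℂ = ⟪v, v⟫_ℂ := by
    rw [← ContinuousLinearMap.adjoint_inner_left, ← ContinuousLinearMap.star_eq_adjoint]
    have : (star u) (u v) = (star u * u) v := rfl
    rw [this, hu]
    rfl
  rw [inner_self_eq_norm_sq_to_K, inner_self_eq_norm_sq_to_K] at h1
  have h2 : ‖u v‖ ^ 2 = ‖v‖ ^ 2 := by exact_mod_cast h1
  exact (sq_eq_sq₀ (norm_nonneg _) (norm_nonneg _)).1 h2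

theorem str_ee_norm (hW : Wy M Ω X Z) (hC : Calc M Ω X Z) (hA : Apx M Ω X Z E)
    (i : ZMod (pr 0)) (t : H →L[ℂ] H) (ht : t ∈ Tl M X Z 1) :
    ‖(ee Z i * t) Ω‖ ^ 2 = ‖t Ω‖ ^ 2 / 3 := by
  have hXu : ∀ l : ZMod (pr 0), star (X (sg 0 l)) * X (sg 0 l) = 1 := fun l => by
    rw [strA_Xst hW, strA_Xinv' hW]
  have htM := ht.1
  have heq : ∀ l : ZMod (pr 0), ‖(ee Z (i + l) * t) Ω‖ = ‖(ee Z i * t) Ω‖ := by
    intro l
    have e1 : ee Z (i + l) * t = X (sg 0 l) * (ee Z i * t * X (sg 0 (-l))) := by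
      rw [← str_ee_shift hW hC i l]
      rw [mul_assoc, mul_assoc, ← (ht.2 0 one_pos (-l)).1, mul_assoc]
    have hm : ee Z i * t * X (sg 0 (-l)) ∈ M :=
      mul_mem (mul_mem (str_ee_mem hC i) htM) (hW.Xm _)
    have e2 : ‖(ee Z (i + l) * t) Ω‖ = ‖(ee Z i * t * X (sg 0 (-l))) Ω‖ := by
      rw [e1]
      exact strA_iso (hXu l) _
    rw [e2, ← hA.nst _ hm, star_mul, strA_Xst hW, neg_neg]
    have e3 : ‖(X (sg 0 l) * star (ee Z i * t)) Ω‖ = ‖(star (ee Z i * t)) Ω‖ :=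
      strA_iso (hXu l) _
    rw [e3, hA.nst _ (mul_mem (str_ee_mem hC i) htM)]
  have hall : ∀ j : ZMod (pr 0), ‖(ee Z j * t) Ω‖ = ‖(ee Z i * t) Ω‖ := by
    intro j
    have := heq (j - i)
    rwa [add_sub_cancel] at this
  have hin : ∀ j : ZMod (pr 0), ((‖(ee Z j * t) Ω‖ ^ 2 : ℝ) : ℂ) = ⟪t Ω, ee Z j (t Ω)⟫_ℂ := by
    intro j
    have h1 : ⟪(ee Z j * t) Ω, (ee Z j * t) Ω⟫_ℂ = ⟪t Ω, ee Z j (t Ω)⟫_ℂ := by
      have h2 : ⟪(ee Z j) (t Ω), (ee Z j) (t Ω)⟫_ℂ = ⟪t Ω, ee Z j (t Ω)⟫_ℂ := by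
        rw [← ContinuousLinearMap.adjoint_inner_right, ← ContinuousLinearMap.star_eq_adjoint,
          str_ee_star hC]
        have : (ee Z j) ((ee Z j) (t Ω)) = (ee Z j * ee Z j) (t Ω) := rfl
        rw [this, str_ee_idem hC]
      exact h2
    rw [← h1, inner_self_eq_norm_sq_to_K]
    push_cast
    rfl
  have hsum : ∑ j : ZMod (pr 0), ‖(ee Z j * t) Ω‖ ^ 2 = ‖t Ω‖ ^ 2 := by
    have h1 : ((∑ j : ZMod (pr 0), ‖(ee Z j * t) Ω‖ ^ 2 : ℝ) : ℂ) = ((‖t Ω‖ ^ 2 : ℝ) : ℂ) := by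
      rw [Complex.ofReal_sum]
      rw [Finset.sum_congr rfl fun j _ => hin j, ← inner_sum]
      have : ∑ j : ZMod (pr 0), (ee Z j) (t Ω) = (∑ j : ZMod (pr 0), ee Z j) (t Ω) := by
        rw [sum_apply]
      rw [this, str_ee_sum hC, one_apply_eq_self, inner_self_eq_norm_sq_to_K]
      push_cast
      rfl
    exact_mod_cast h1
  rw [Finset.sum_congr rfl fun j _ => by rw [hall j], Finset.sum_const, Finset.card_univ,
    ZMod.card] at hsum
  have h3 : pr 0 = 3 := rfl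
  have h5 : ((3 : ℕ) : ℝ) = 3 := by norm_num
  rw [h3, nsmul_eq_mul, h5] at hsum
  linarith

/-! ### the tails -/

theorem str_tl_alg (hW : Wy M Ω X Z) (n : ℕ) (s : H →L[ℂ] H) (hs : s ∈ Tl M X Z n)
    (t : H →L[ℂ] H) (ht : t ∈ Tl M X Z n) : s * t ∈ Tl M X Z n ∧ s + t ∈ Tl M X Z n ∧
    star s ∈ Tl M X Z n ∧ ∀ c : ℂ, c • s ∈ Tl M X Z n := by
  have hmul : ∀ a : H →L[ℂ] H, s * a = a * s → t * a = a * t → s * t * a = a * (s * t) := by
    intro a h1 h2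
    rw [mul_assoc, h2, ← mul_assoc, h1, mul_assoc]
  refine ⟨⟨mul_mem hs.1 ht.1, fun k hk l => ⟨hmul _ (hs.2 k hk l).1 (ht.2 k hk l).1,
    hmul _ (hs.2 k hk l).2 (ht.2 k hk l).2⟩⟩, ⟨add_mem hs.1 ht.1, fun k hk l => ⟨?_, ?_⟩⟩,
    ⟨star_mem hs.1, fun k hk l => ⟨?_, ?_⟩⟩, fun c => ⟨M.toStarSubalgebra.smul_mem hs.1 c,
    fun k hk l => ⟨?_, ?_⟩⟩⟩
  · rw [add_mul, mul_add, (hs.2 k hk l).1, (ht.2 k hk l).1]
  · rw [add_mul, mul_add, (hs.2 k hk l).2, (ht.2 k hk l).2]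
  · have h1 := congrArg star (hs.2 k hk (-l)).1
    rw [star_mul, star_mul, hW.Xst, ← DFinsupp.single_neg, neg_neg] at h1
    exact h1.symm
  · have h1 := congrArg star (hs.2 k hk (-l)).2
    rw [star_mul, star_mul, hW.Zst, ← DFinsupp.single_neg, neg_neg] at h1
    exact h1.symm
  · rw [smul_mul_assoc, mul_smul_comm, (hs.2 k hk l).1]
  · rw [smul_mul_assoc, mul_smul_comm, (hs.2 k hk l).2]

theorem str_tl_X (hW : Wy M Ω X Z) (n : ℕ) (γ : Gm) (h : ∀ k < n, γ k = 0) :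
    X γ ∈ Tl M X Z n ∧ Z γ ∈ Tl M X Z n := by
  refine ⟨⟨hW.Xm _, fun k hk l => ⟨?_, ?_⟩⟩, ⟨hW.Zm _, fun k hk l => ⟨?_, ?_⟩⟩⟩
  · rw [← hW.Xadd, add_comm, hW.Xadd]
  · rw [hW.cm, strA_om_left, h k hk, mul_zero, AddChar.map_zero_eq_one, one_smul]
  · rw [hW.cm, strA_om_right, h k hk, zero_mul, AddChar.map_zero_eq_one, one_smul]
  · rw [← hW.Zadd, add_comm, hW.Zadd]

/-! ### the corner -/

theorem strA_Zee (hC : Calc M Ω X Z) (i j : ZMod (pr 0)) :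
    Z (sg 0 j) * ee Z i = (ZMod.stdAddChar (j * i) : ℂ) • ee Z i := by
  rw [← hC.chr 0 j]
  unfold ee
  rw [← hC.mul, ← hC.smul]
  congr 1
  funext m
  split_ifs with h
  · rw [h]
  · simp

theorem strA_eeZ (hC : Calc M Ω X Z) (i j : ZMod (pr 0)) :
    ee Z i * Z (sg 0 j) = (ZMod.stdAddChar (j * i) : ℂ) • ee Z i := by
  rw [← strA_Zee hC]
  exact hC.commZ 0 _ _

theorem str_corner (hW : Wy M Ω X Z) (hC : Calc M Ω X Z) (m : H →L[ℂ] H) (hm : m ∈ M)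
    (i : ZMod (pr 0)) (hmi : m * ee Z i = ee Z i * m) :
    (∑ l : ZMod (pr 0), X (sg 0 l) * (ee Z i * m) * X (sg 0 (-l))) ∈ Tl M X Z 1 ∧
    ee Z i * (∑ l : ZMod (pr 0), X (sg 0 l) * (ee Z i * m) * X (sg 0 (-l))) = ee Z i * m := by
  -- the terms
  have hl : ∀ l : ZMod (pr 0), X (sg 0 l) * (ee Z i * m) * X (sg 0 (-l)) =
      ee Z (i + l) * (X (sg 0 l) * m * X (sg 0 (-l))) := by
    intro l
    rw [← mul_assoc, strA_shift hC, mul_assoc, mul_assoc, mul_assoc]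
  have hr : ∀ l : ZMod (pr 0), X (sg 0 l) * (ee Z i * m) * X (sg 0 (-l)) =
      (X (sg 0 l) * m * X (sg 0 (-l))) * ee Z (i + l) := by
    intro l
    have h1 := strA_shift hC (i + l) (-l)
    rw [add_neg_cancel_right] at h1
    rw [← hmi, mul_assoc, mul_assoc, ← h1, ← mul_assoc, ← mul_assoc]
  refine ⟨⟨sum_mem fun l _ => mul_mem (mul_mem (hW.Xm _) (mul_mem (str_ee_mem hC i) hm))
    (hW.Xm _), ?_⟩, ?_⟩
  · intro k hk l'
    have hk0 : k = 0 := by omega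
    subst hk0
    constructor
    · rw [Finset.sum_mul, Finset.mul_sum,
        ← Equiv.sum_comp (Equiv.addLeft l')
          (fun l : ZMod (pr 0) => X (sg 0 l) * (ee Z i * m) * X (sg 0 (-l)) * X (sg 0 l'))]
      refine Finset.sum_congr rfl fun l _ => ?_
      simp only [Equiv.coe_addLeft]
      have e1 : X (sg 0 (l' + l)) = X (sg 0 l') * X (sg 0 l) := by
        rw [← hW.Xadd, ← DFinsupp.single_add]
      have e2 : X (sg 0 (-(l' + l))) * X (sg 0 l') = X (sg 0 (-l)) := by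
        rw [← hW.Xadd, ← DFinsupp.single_add]
        congr 2
        ring
      rw [mul_assoc _ (X (sg 0 (-(l' + l)))), e2, e1]
      simp only [mul_assoc]
    · rw [Finset.sum_mul, Finset.mul_sum]
      refine Finset.sum_congr rfl fun l _ => ?_
      have e1 : X (sg 0 l) * (ee Z i * m) * X (sg 0 (-l)) * Z (sg 0 l') =
          (ZMod.stdAddChar (l' * (i + l)) : ℂ) • (X (sg 0 l) * (ee Z i * m) * X (sg 0 (-l))) := by
        rw [hr l, mul_assoc, strA_eeZ hC, mul_smul_comm]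
      have e2 : Z (sg 0 l') * (X (sg 0 l) * (ee Z i * m) * X (sg 0 (-l))) =
          (ZMod.stdAddChar (l' * (i + l)) : ℂ) • (X (sg 0 l) * (ee Z i * m) * X (sg 0 (-l))) := by
        rw [hl l, ← mul_assoc, strA_Zee hC, smul_mul_assoc]
      rw [e1, e2]
  · rw [Finset.mul_sum, Finset.sum_eq_single (0 : ZMod (pr 0))]
    · have e0 : X (sg 0 (0 : ZMod (pr 0))) = 1 := by
        rw [show (sg 0 (0 : ZMod (pr 0)) : Gm) = 0 from DFinsupp.single_zero 0]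
        exact hW.X0
      rw [neg_zero, e0, one_mul, mul_one, ← mul_assoc, str_ee_idem hC]
    · intro l _ hl0
      rw [hl l, ← mul_assoc, str_ee_orth hC i (i + l) (fun h => hl0 (by simpa using h.symm)), zero_mul]
    · intro h
      exact absurd (Finset.mem_univ _) h

/-! ### the centre -/

theorem strA_coef (hW : Wy M Ω X Z) (W a z : H →L[ℂ] H) (hWM : W ∈ M) (haM : a ∈ M)
    (hzM : z ∈ M) (ha : a * star a = 1) (haz : a * z = z * a) :
    ⟪(star a * W * a) Ω, z Ω⟫_ℂ = ⟪W Ω, z Ω⟫_ℂ := by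
  have h1 : ∀ (A : H →L[ℂ] H), ⟪A Ω, z Ω⟫_ℂ = ⟪Ω, (star A * z) Ω⟫_ℂ := by
    intro A
    have : ⟪Ω, (star A) (z Ω)⟫_ℂ = ⟪A Ω, z Ω⟫_ℂ := by
      rw [ContinuousLinearMap.star_eq_adjoint, ContinuousLinearMap.adjoint_inner_right]
    exact this.symm
  rw [h1, h1]
  have e1 : star (star a * W * a) * z = star a * (star W * a * z) := by
    rw [star_mul, star_mul, star_star]
    simp only [mul_assoc]
  have e2 : (star W * a * z) * star a = star W * z := by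
    rw [mul_assoc (star W), haz, mul_assoc, mul_assoc, ha, mul_one]
  rw [e1]
  have h2 := hW.tr (star a) (star_mem haM) (star W * a * z)
    (mul_mem (mul_mem (star_mem hWM) haM) hzM)
  have h3 : ⟪Ω, (star a * (star W * a * z)) Ω⟫_ℂ = ⟪Ω, ((star W * a * z) * star a) Ω⟫_ℂ := h2
  rw [h3, e2]

theorem str_centre (hW : Wy M Ω X Z) (hA : Apx M Ω X Z E) (z : H →L[ℂ] H)
    (hz : z ∈ Tl M X Z 1) (hcom : ∀ t ∈ Tl M X Z 1, z * t = t * z) :
    ∃ c : ℂ, z = c • (1 : H →L[ℂ] H) := by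
  have hzM := hz.1
  -- `z` commutes with the generators
  have hXz : ∀ (i : ℕ) (l : ZMod (pr i)), X (sg i l) * z = z * X (sg i l) ∧
      Z (sg i l) * z = z * Z (sg i l) := by
    intro i l
    rcases Nat.eq_zero_or_pos i with h0 | h0
    · subst h0
      exact ⟨((hz.2 0 one_pos l).1).symm, ((hz.2 0 one_pos l).2).symm⟩
    · have h1 := str_tl_X hW 1 (sg i l) (fun k hk => by
        rw [DFinsupp.single_eq_of_ne]
        omega)
      exact ⟨(hcom _ h1.1).symm, (hcom _ h1.2).symm⟩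
  have hXX : ∀ γ, X γ * star (X γ) = 1 := by
    intro γ
    rw [hW.Xst, ← hW.Xadd, add_neg_cancel, hW.X0]
  have hZZ : ∀ γ, Z γ * star (Z γ) = 1 := by
    intro γ
    rw [hW.Zst, ← hW.Zadd, add_neg_cancel, hW.Z0]
  have hcoef : ∀ γ κ : Gm, ¬ (γ = 0 ∧ κ = 0) → ⟪(X γ * Z κ) Ω, z Ω⟫_ℂ = 0 := by
    intro γ κ hne
    have key : ∀ (a : H →L[ℂ] H) (lam : ℂ), a ∈ M → a * star a = 1 → a * z = z * a →
        star a * (X γ * Z κ) * a = lam • (X γ * Z κ) → lam ≠ 1 →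
        ⟪(X γ * Z κ) Ω, z Ω⟫_ℂ = 0 := by
      intro a lam haM haa haz hl hl1
      have h1 := strA_coef hW (X γ * Z κ) a z (mul_mem (hW.Xm _) (hW.Zm _)) haM hzM haa haz
      rw [hl, smul_apply, inner_smul_left] at h1
      have h2 : ((starRingEnd ℂ) lam - 1) * ⟪(X γ * Z κ) Ω, z Ω⟫_ℂ = 0 := by
        rw [sub_mul, h1, one_mul, sub_self]
      rcases mul_eq_zero.1 h2 with h3 | h3
      · exfalso
        apply hl1
        have h4 : (starRingEnd ℂ) lam = 1 := by linear_combination h3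
        have h5 := congrArg (starRingEnd ℂ) h4
        rwa [Complex.conj_conj, map_one] at h5
      · exact h3
    by_cases hγ : γ = 0
    · have hκ : κ ≠ 0 := fun h => hne ⟨hγ, h⟩
      obtain ⟨i, hi⟩ := DFinsupp.ne_iff.1 hκ
      refine key (X (sg i 1)) (om κ (sg i 1)) (hW.Xm _) (hXX _) (hXz i 1).1 ?_ ?_
      · rw [hW.Xst, mul_assoc, mul_assoc, hW.cm, mul_smul_comm, mul_smul_comm]
        congr 1
        rw [← mul_assoc, ← mul_assoc, ← hW.Xadd, ← hW.Xadd]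
        congr 2
        abel
      · rw [strA_om_right, mul_one]
        exact strA_char_ne i _ hi
    · obtain ⟨i, hi⟩ := DFinsupp.ne_iff.1 hγ
      refine key (Z (sg i (-1))) (om (sg i 1) γ) (hW.Zm _) (hZZ _) (hXz i (-1)).2 ?_ ?_
      · rw [hW.Zst, ← DFinsupp.single_neg, neg_neg, ← mul_assoc, hW.cm, smul_mul_assoc,
          smul_mul_assoc]
        congr 1
        rw [mul_assoc, mul_assoc, ← hW.Zadd, ← hW.Zadd]
        congr 2
        rw [add_comm κ, ← add_assoc, ← DFinsupp.single_add, add_neg_cancel,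
          DFinsupp.single_zero, zero_add]
      · rw [strA_om_left, one_mul]
        exact strA_char_ne i _ hi
  refine ⟨⟪Ω, z Ω⟫_ℂ, ?_⟩
  have hone : (1 : H →L[ℂ] H) ∈ M := one_mem _
  have hcM : ⟪Ω, z Ω⟫_ℂ • (1 : H →L[ℂ] H) ∈ M := M.toStarSubalgebra.smul_mem hone _
  rw [← sub_eq_zero]
  apply hA.sep _ (sub_mem hzM hcM)
  have h1 := hA.pars _ (sub_mem hzM hcM)
  have h2 : ∀ g : Gm × Gm, ‖⟪(X g.1 * Z g.2) Ω, (z - ⟪Ω, z Ω⟫_ℂ • (1 : H →L[ℂ] H)) Ω⟫_ℂ‖ ^ 2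
      = 0 := by
    rintro ⟨γ, κ⟩
    have h3 : ⟪(X γ * Z κ) Ω, (z - ⟪Ω, z Ω⟫_ℂ • (1 : H →L[ℂ] H)) Ω⟫_ℂ = 0 := by
      rw [sub_apply, smul_apply,
        one_apply_eq_self, inner_sub_right, inner_smul_right]
      have h4 := hW.orth γ κ 0 0
      rw [hW.X0, hW.Z0, one_mul, one_apply_eq_self] at h4
      rw [h4]
      by_cases h5 : γ = 0 ∧ κ = 0
      · rw [if_pos h5, h5.1, h5.2, hW.X0, hW.Z0, one_mul, one_apply_eq_self, mul_one,
          sub_self]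
      · rw [if_neg h5, mul_zero, hcoef γ κ h5, sub_zero]
    rw [h3, norm_zero]
    norm_num
  simp only [h2] at h1
  have h3 := h1.unique hasSum_zero
  have h4 : ‖(z - ⟪Ω, z Ω⟫_ℂ • (1 : H →L[ℂ] H)) Ω‖ = 0 := by
    simpa using h3
  exact norm_eq_zero.1 h4

end

/-- all fields of part A -/
theorem t_StrA (hC : O_Calc) (hA : O_Apx) : ∀ (H : Type) [NormedAddCommGroup H]
    [InnerProductSpace ℂ H] [CompleteSpace H] (M : VonNeumannAlgebra H) (Ω : H)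
    (X Z : Gm → (H →L[ℂ] H)), Wy M Ω X Z →
    (∀ i, ee Z i * ee Z i = ee Z i) ∧ (∀ i, star (ee Z i) = ee Z i) ∧
    (∀ i j, i ≠ j → ee Z i * ee Z j = 0) ∧ (∑ i, ee Z i = 1) ∧ (∀ i, ee Z i ∈ M) ∧
    (∀ i, ee Z i ∈ Fn X Z 1) ∧
    (∀ i l, X (sg 0 l) * ee Z i * X (sg 0 (-l)) = ee Z (i + l)) ∧
    (∀ i, ∀ t ∈ Tl M X Z 1, t * ee Z i = ee Z i * t) ∧
    (∀ i, ∀ t ∈ Tl M X Z 1, ‖(ee Z i * t) Ω‖ ^ 2 = ‖t Ω‖ ^ 2 / 3) ∧
    (∀ n, ∀ s ∈ Tl M X Z n, ∀ t ∈ Tl M X Z n, s * t ∈ Tl M X Z n ∧ s + t ∈ Tl M X Z n ∧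
      star s ∈ Tl M X Z n ∧ ∀ c : ℂ, c • s ∈ Tl M X Z n) ∧
    (∀ n γ, (∀ k < n, γ k = 0) → X γ ∈ Tl M X Z n ∧ Z γ ∈ Tl M X Z n) ∧
    (∀ m ∈ M, ∀ i, m * ee Z i = ee Z i * m →
      (∑ l : ZMod (pr 0), X (sg 0 l) * (ee Z i * m) * X (sg 0 (-l))) ∈ Tl M X Z 1 ∧
      ee Z i * (∑ l : ZMod (pr 0), X (sg 0 l) * (ee Z i * m) * X (sg 0 (-l))) = ee Z i * m) ∧
    (∀ z ∈ Tl M X Z 1, (∀ t ∈ Tl M X Z 1, z * t = t * z) →
      ∃ c : ℂ, z = c • (1 : H →L[ℂ] H)) := by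
  intro H _ _ _ M Ω X Z hW
  have hc := hC H M Ω X Z hW
  obtain ⟨E, ha⟩ := hA H M Ω X Z hW
  exact ⟨str_ee_idem hc, str_ee_star hc, str_ee_orth hc, str_ee_sum hc, str_ee_mem hc,
    str_ee_fin hc, str_ee_shift hW hc, str_ee_tl hc ha, str_ee_norm hW hc ha, str_tl_alg hW,
    str_tl_X hW, str_corner hW hc, str_centre hW ha⟩

end Pool.Agent.H468R2.MA
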