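import Pool.Agent.H468R2.MA.Tasks2

set_option autoImplicit false

open Filter Topology

namespace Pool.Agent.H468R2.MA

open Classical in
private theorem om_eq (κ γ : Gm) (s : Finset ℕ) (hs : κ.support ⊆ s) :
    om κ γ = ∏ i ∈ s, ZMod.stdAddChar (κ i * γ i) := by
  unfold om
  refine Finset.prod_subset (fun i hi => hs (by convert hi)) ?_
  intro i _ hi
  have h0 : κ i = 0 := by
    by_contra h
    exact hi (by rw [DFinsupp.mem_support_iff]; exact h)
  simp [h0]

private theorem om_addr (κ γ γ' : Gm) : om κ (γ + γ') = om κ γ * om κ γ' := by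
  classical
  unfold om
  rw [← Finset.prod_mul_distrib]
  refine Finset.prod_congr rfl fun i _ => ?_
  rw [DFinsupp.add_apply, mul_add, AddChar.map_add_eq_mul]

private theorem om_addl (κ κ' γ : Gm) : om (κ + κ') γ = om κ γ * om κ' γ := by
  classical
  set s : Finset ℕ := κ.support ∪ κ'.support ∪ (κ + κ').support with hs
  rw [om_eq (κ + κ') γ s (by intro i hi; rw [hs]; simp only [Finset.mem_union]; right; convert hi),
    om_eq κ γ s (by
      intro i hi; rw [hs]; simp only [Finset.mem_union]; left; left; convert hi),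
    om_eq κ' γ s (by
      intro i hi; rw [hs]; simp only [Finset.mem_union]; left; right; convert hi),
    ← Finset.prod_mul_distrib]
  refine Finset.prod_congr rfl fun i _ => ?_
  rw [DFinsupp.add_apply, add_mul, AddChar.map_add_eq_mul]

private theorem om_nrm (κ γ : Gm) : ‖om κ γ‖ = 1 := by
  classical
  unfold om
  rw [norm_prod]
  exact Finset.prod_eq_one fun i _ => AddChar.norm_apply _ _

private theorem om_zl (γ : Gm) : om 0 γ = 1 := by
  classical
  have h := om_addl 0 0 γ
  rw [add_zero] at h
  have h1 : om 0 γ ≠ 0 := by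
    intro h0
    have := om_nrm 0 γ
    rw [h0] at this
    simp at this
  exact mul_left_cancel₀ h1 (by rw [mul_one]; exact h.symm)

private theorem om_zr (κ : Gm) : om κ 0 = 1 := by
  have h := om_addr κ 0 0
  rw [add_zero] at h
  have h1 : om κ 0 ≠ 0 := by
    intro h0
    have := om_nrm κ 0
    rw [h0] at this
    simp at this
  exact mul_left_cancel₀ h1 (by rw [mul_one]; exact h.symm)

private theorem star_of {a b : ℂ} (hab : a * b = 1) (ha : ‖a‖ = 1) : b = star a := by
  have h1 : star a * a = 1 := by
    rw [Complex.star_def, ← Complex.normSq_eq_conj_mul_self, Complex.normSq_eq_norm_sq, ha]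
    simp
  calc b = (star a * a) * b := by rw [h1, one_mul]
    _ = star a := by rw [mul_assoc, hab, mul_one]

private theorem pr_ge (k : ℕ) (hk : 1 ≤ k) : 5 ≤ pr k := by
  obtain ⟨j, rfl⟩ : ∃ j, k = j + 1 := ⟨k - 1, by omega⟩
  show 5 ≤ Nat.nth Nat.Prime (j + 2)
  have h5 : Nat.nth Nat.Prime 2 = 5 := Nat.nth_prime_two_eq_five
  calc 5 = Nat.nth Nat.Prime 2 := h5.symm
    _ ≤ Nat.nth Nat.Prime (j + 2) :=
      (Nat.nth_strictMono Nat.infinite_setOfPred_prime).monotone (by omega)

theorem t_OmP : OmP where
  addl := om_addl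
  addr := om_addr
  nrm := om_nrm
  zl := om_zl
  zr := om_zr
  negl κ γ := by
    refine star_of ?_ (om_nrm κ γ)
    rw [← om_addl, add_neg_cancel, om_zl]
  negr κ γ := by
    refine star_of ?_ (om_nrm κ γ)
    rw [← om_addr, add_neg_cancel, om_zr]
  sgl k l γ := by
    classical
    rw [om_eq (sg k l) γ {k} (by
      intro i hi
      have := (DFinsupp.support_single_subset (i := k) (b := l)) (by convert hi)
      simpa using this)]
    simp [sg]
  sgr κ k l := by
    classical
    rw [om_eq κ (sg k l) (κ.support ∪ {k}) (by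
      intro i hi
      simp only [Finset.mem_union]
      left
      convert hi)]
    rw [Finset.prod_eq_single k]
    · simp [sg]
    · intro i _ hi
      simp [sg, DFinsupp.single_apply, Ne.symm hi]
    · intro h
      exact absurd (by simp) h
  prs := pr_ge
  inj := by
    intro i j hij
    rcases Nat.eq_zero_or_pos i with hi | hi <;> rcases Nat.eq_zero_or_pos j with hj | hj
    · rw [hi, hj]
    · subst hi
      have := pr_ge j hj
      rw [← hij] at this
      exact absurd this (by simp [pr])
    · subst hj
      have := pr_ge i hi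
      rw [hij] at this
      exact absurd this (by simp [pr])
    · obtain ⟨a, rfl⟩ : ∃ a, i = a + 1 := ⟨i - 1, by omega⟩
      obtain ⟨b, rfl⟩ : ∃ b, j = b + 1 := ⟨j - 1, by omega⟩
      have h : Nat.nth Nat.Prime (a + 2) = Nat.nth Nat.Prime (b + 2) := hij
      have := (Nat.nth_strictMono Nat.infinite_setOfPred_prime).injective h
      omega
  odd k := by
    refine (pr_prime k).odd_of_ne_two ?_
    rcases Nat.eq_zero_or_pos k with hk | hk
    · subst hk; simp [pr]
    · have := pr_ge k hk
      omega

end Pool.Agent.H468R2.MA
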