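import Pool.Agent.H468R2.MA.Tasks2

/-! T_GEN: every comeager set contains a generic pair (helper642). -/

set_option autoImplicit false

open scoped InnerProductSpace
open Filter Topology

namespace Pool.Agent.H468R2.MA

namespace P_T_GENaux

/-- the open sets -/
def Gs (N : ℕ) : Set ((ℕ → ℝ) × (ℕ → ℝ)) :=
  {p | ∃ k, N ≤ k ∧ |p.1 k| < 1 / ((N : ℝ) + 1) ∧ |p.2 k - Real.pi| < 1 / ((N : ℝ) + 1)}

theorem open_Gs (N : ℕ) : IsOpen (Gs N) := by
  have h : Gs N = ⋃ k ∈ {k | N ≤ k}, ({p | |p.1 k| < 1 / ((N : ℝ) + 1)} ∩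
      {p | |p.2 k - Real.pi| < 1 / ((N : ℝ) + 1)}) := by
    ext p
    simp only [Gs, Set.mem_setOf_eq, Set.mem_iUnion, Set.mem_inter_iff, exists_prop]
  rw [h]
  refine isOpen_biUnion fun k _ => IsOpen.inter ?_ ?_
  · exact isOpen_lt (((continuous_apply k).comp continuous_fst).abs) continuous_const
  · exact isOpen_lt ((((continuous_apply k).comp continuous_snd).sub continuous_const).abs)
      continuous_const

theorem tendsto_update (x : ℕ → ℝ) (c : ℝ) :
    Tendsto (fun k => Function.update x k c) atTop (𝓝 x) := by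
  rw [tendsto_pi_nhds]
  intro i
  refine tendsto_const_nhds.congr' ?_
  filter_upwards [eventually_gt_atTop i] with k hk
  rw [Function.update_of_ne hk.ne]

theorem dense_Gs (N : ℕ) : Dense (Gs N) := by
  rintro ⟨x, y⟩
  have h := (tendsto_update x 0).prodMk_nhds (tendsto_update y Real.pi)
  refine mem_closure_of_tendsto h ?_
  filter_upwards [eventually_ge_atTop N] with k hk
  have hN : (0 : ℝ) < 1 / ((N : ℝ) + 1) := by positivity
  refine ⟨k, hk, ?_, ?_⟩
  · simp only [Function.update_self, abs_zero]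
    exact hN
  · simp only [Function.update_self, sub_self, abs_zero]
    exact hN

end P_T_GENaux

open P_T_GENaux

theorem t_T_GEN : T_GEN := by
  intro C hC
  have h1 : (Prod.fst : (ℕ → ℝ) × (ℕ → ℝ) → (ℕ → ℝ)) ⁻¹' C ∈ residual ((ℕ → ℝ) × (ℕ → ℝ)) :=
    tendsto_residual_of_isOpenMap continuous_fst isOpenMap_fst hC
  have h2 : (Prod.snd : (ℕ → ℝ) × (ℕ → ℝ) → (ℕ → ℝ)) ⁻¹' C ∈ residual ((ℕ → ℝ) × (ℕ → ℝ)) :=
    tendsto_residual_of_isOpenMap continuous_snd isOpenMap_snd hC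
  have h3 : (⋂ N, Gs N) ∈ residual ((ℕ → ℝ) × (ℕ → ℝ)) :=
    countable_iInter_mem.2 fun N => residual_of_dense_open (open_Gs N) (dense_Gs N)
  have h4 := dense_of_mem_residual (inter_mem (inter_mem h1 h2) h3)
  obtain ⟨p, ⟨⟨hp1, hp2⟩, hp3⟩⟩ := h4.nonempty
  refine ⟨p.1, hp1, p.2, hp2, fun N => ?_⟩
  obtain ⟨k, hk, ha, hb⟩ := Set.mem_iInter.1 hp3 N
  exact ⟨k, hk, ha.le, hb.le⟩

end Pool.Agent.H468R2.MA
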