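import Pool.Agent.H468R2.MA.Tasks3
import Pool.Agent.H468R2.MA.P_O_Anti
import Pool.Agent.H468R2.MA.P_O_Apx
import Pool.Agent.H468R2.MA.P_O_Aut
import Pool.Agent.H468R2.MA.P_O_AutC
import Pool.Agent.H468R2.MA.P_O_Calc
import Pool.Agent.H468R2.MA.P_O_Enc
import Pool.Agent.H468R2.MA.P_O_Far
import Pool.Agent.H468R2.MA.P_O_Half
import Pool.Agent.H468R2.MA.P_O_II
import Pool.Agent.H468R2.MA.P_O_L1
import Pool.Agent.H468R2.MA.P_O_Masa
import Pool.Agent.H468R2.MA.P_O_ModA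
import Pool.Agent.H468R2.MA.P_O_ModB
import Pool.Agent.H468R2.MA.P_O_Mono
import Pool.Agent.H468R2.MA.P_O_Nbr
import Pool.Agent.H468R2.MA.P_O_Nrm
import Pool.Agent.H468R2.MA.P_O_Open
import Pool.Agent.H468R2.MA.P_O_Ops
import Pool.Agent.H468R2.MA.P_O_Ord
import Pool.Agent.H468R2.MA.P_O_Psi
import Pool.Agent.H468R2.MA.P_O_Res
import Pool.Agent.H468R2.MA.P_O_Sep
import Pool.Agent.H468R2.MA.P_O_StrA
import Pool.Agent.H468R2.MA.P_OmP
import Pool.Agent.H468R2.MA.P_T_BF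
import Pool.Agent.H468R2.MA.P_T_C
import Pool.Agent.H468R2.MA.P_T_CH
import Pool.Agent.H468R2.MA.P_T_GEN
import Pool.Agent.H468R2.MA.P_T_LOC
import Pool.Agent.H468R2.MA.P_T_LOC1
import Pool.Agent.H468R2.MA.P_T_SC

/-!
# Assembly
-/

set_option autoImplicit false

open scoped InnerProductSpace
open Filter Topology

namespace Pool.Agent.H468R2.MA

theorem o_StrA : O_StrA := by
  intro H _ _ _ M Ω X Z w
  obtain ⟨h1, h2, h3, h4, h5, h6, h7, h8, h9, h10, h11, h12, h13⟩ :=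
    t_StrA t_O_Calc t_O_Apx H M Ω X Z w
  exact ⟨h1, h2, h3, h4, h5, h6, h7, h8, h9, h10, h11, h12, h13⟩

theorem o_Aut : O_Aut :=
  t_O_Aut (t_O_AutC t_O_Mono (t_Anti t_O_Mono) t_O_Res t_O_Ord t_O_Apx) t_O_Apx

theorem t_erg : T_ERG :=
  t_T_ERG (t_T_C t_T_SC (t_T_LOC t_T_SC (t_T_LOC1 t_T_SC))) t_T_CH

theorem o_Model : O_Model :=
  model_of t_O_Ops (t_O_ModA t_OmP) (t_O_ModB t_OmP) t_Sep

theorem final0 (hS : O_Str) (hLB : O_LB) :
    ∃ (H : Type) (_ : NormedAddCommGroup H) (_ : InnerProductSpace ℂ H) (_ : CompleteSpace H)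
      (M : VonNeumannAlgebra H) (Ω : H), TopologicalSpace.SeparableSpace H ∧ IsStdII1 M Ω ∧
        Hyperfinite M Ω ∧ ¬ Classifiable (Conj (M := M)) :=
  main (t_O_Masa hS) (t_O_Open t_O_Calc t_O_Apx hS) (t_O_L1 t_O_Calc hS) hLB o_Model
    (t_O_II t_O_Apx) t_O_Enc t_erg t_T_GEN

end Pool.Agent.H468R2.MA
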