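import Pool.Agent.H468R2.MA.Tasks2

/-!
# The model: algebra
-/

set_option autoImplicit false

open scoped InnerProductSpace
open Filter Topology

namespace Pool.Agent.H468R2.MA

namespace ModAx

/-! ### basis vectors -/

theorem inner_dl (g : GG) (f : HH) : ⟪dl g, f⟫_ℂ = f g := by
  classical
  unfold dl
  rw [lp.inner_single_left]
  simp

theorem dl_apply (g h : GG) : (dl g : HH) h = if g = h then 1 else 0 := by
  classical
  unfold dl
  rw [lp.single_apply, Pi.single_apply]
  by_cases c : g = h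
  · rw [if_pos c, if_pos c.symm]
  · rw [if_neg c, if_neg (fun e => c e.symm)]

theorem inner_dl_dl (g h : GG) : ⟪dl g, dl h⟫_ℂ = if g = h then 1 else 0 := by
  rw [inner_dl, dl_apply]
  by_cases c : g = h
  · rw [if_pos c, if_pos c.symm]
  · rw [if_neg c, if_neg (fun e => c e.symm)]

theorem norm_dl (g : GG) : ‖(dl g : HH)‖ = 1 := by
  classical
  unfold dl
  rw [lp.norm_single (by norm_num), norm_one]

theorem hasSum_dl (f : HH) : HasSum (fun g : GG => f g • dl g) f := by
  classical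
  have h := lp.hasSum_single (p := 2) (by norm_num) f
  refine h.congr_fun ?_ 
  intro g
  unfold dl
  rw [← lp.single_smul, smul_eq_mul, mul_one]

theorem ext_dl {T S : HH →L[ℂ] HH} (h : ∀ g, T (dl g) = S (dl g)) : T = S := by
  ext1 f
  have h1 := (hasSum_dl f).mapL T
  have h2 := (hasSum_dl f).mapL S
  refine h1.unique ?_
  refine h2.congr_fun ?_
  intro g
  rw [map_smul, map_smul, h g]

theorem approx (f : HH) {ε : ℝ} (hε : 0 < ε) :
    ∃ s : Finset GG, ‖(∑ g ∈ s, f g • dl g) - f‖ < ε := by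
  have h := hasSum_dl f
  have h1 := (Metric.tendsto_nhds.1 h ε hε).exists
  obtain ⟨s, hs⟩ := h1
  exact ⟨s, by rwa [dist_eq_norm] at hs⟩

/-! ### the operators -/

section

variable {lam rho : GG → (HH →L[ℂ] HH)} {M : VonNeumannAlgebra HH}

theorem lam_mul (hp : OmP) (hO : Ops lam rho M) (g h : GG) :
    lam g * lam h = sgm g h • lam (g + h) := by
  apply ext_dl
  intro k
  rw [mul_apply_eq_comp, hO.l, map_smul, hO.l, smul_apply, hO.l,
    smul_smul, smul_smul, add_assoc]
  congr 1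
  unfold sgm
  rw [Prod.fst_add, Prod.snd_add, hp.addr, hp.addl]
  ring

theorem lam_rho (hp : OmP) (hO : Ops lam rho M) (g h : GG) :
    lam g * rho h = rho h * lam g := by
  apply ext_dl
  intro k
  rw [mul_apply_eq_comp, mul_apply_eq_comp, hO.l, hO.r, map_smul,
    map_smul, hO.l, hO.r, smul_smul, smul_smul, add_assoc]
  congr 1
  unfold sgm
  rw [Prod.fst_add, Prod.snd_add, hp.addr, hp.addl]
  ring

theorem lam_mem (hp : OmP) (hO : Ops lam rho M) (g : GG) : lam g ∈ M :=
  (hO.mem _).2 fun h => lam_rho hp hO g h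

theorem lam_zero (hp : OmP) (hO : Ops lam rho M) : lam 0 = 1 := by
  apply ext_dl
  intro k
  rw [hO.l, zero_add, one_apply_eq_self]
  unfold sgm
  rw [Prod.snd_zero, hp.zl, one_smul]

theorem lam_dl0 (hp : OmP) (hO : Ops lam rho M) (g : GG) : lam g (dl 0) = dl g := by
  rw [hO.l, add_zero]
  unfold sgm
  rw [Prod.fst_zero, hp.zr, one_smul]

theorem rho_dl0 (hp : OmP) (hO : Ops lam rho M) (g : GG) : rho g (dl 0) = dl g := by
  rw [hO.r, zero_add]
  unfold sgm
  rw [Prod.snd_zero, hp.zl, one_smul]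

theorem XZ (hp : OmP) (hO : Ops lam rho M) (γ κ : Gm) :
    lam (γ, 0) * lam (0, κ) = lam (γ, κ) := by
  rw [lam_mul hp hO]
  unfold sgm
  rw [hp.zl, one_smul, Prod.mk_add_mk, add_zero, zero_add]

theorem star_of (hO : Ops lam rho M) {g h : GG} (e : lam g * lam h = 1) :
    star (lam g) = lam h := by
  have h1 := (hO.lu g).1
  calc star (lam g) = star (lam g) * (lam g * lam h) := by rw [e, mul_one]
    _ = lam h := by rw [← mul_assoc, h1, one_mul]

/-- the coefficients of `x^* Ω` -/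
theorem coef (hp : OmP) (hO : Ops lam rho M) {x : HH →L[ℂ] HH} (hx : x ∈ M) (g : GG) :
    ⟪dl g, (star x) (dl 0)⟫_ℂ = star (sgm (-g) g * (x (dl 0) : HH) (-g)) := by
  have e1 : x (dl g) = rho g (x (dl 0)) := by
    rw [← rho_dl0 hp hO g, ← mul_apply_eq_comp, (hO.mem x).1 hx g,
      mul_apply_eq_comp]
  rw [ContinuousLinearMap.star_eq_adjoint, ContinuousLinearMap.adjoint_inner_right, e1,
    ← ContinuousLinearMap.adjoint_inner_right, ← ContinuousLinearMap.star_eq_adjoint]
  have e2 : rho g (dl (-g)) = sgm (-g) g • dl 0 := by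
    rw [hO.r, neg_add_cancel]
  have hn : ‖sgm (-g) g‖ = 1 := hp.nrm _ _
  have hcc : star (sgm (-g) g) * sgm (-g) g = 1 := by
    have := RCLike.conj_mul (sgm (-g) g)
    rw [hn] at this
    simpa using this
  have e3 : star (rho g) (dl 0) = star (sgm (-g) g) • dl (-g) := by
    have e4 : star (rho g) (rho g (dl (-g))) = dl (-g) := by
      rw [← mul_apply_eq_comp, (hO.ru g).1, one_apply_eq_self]
    rw [e2, map_smul] at e4
    rw [← e4, smul_smul, hcc, one_smul]
  rw [e3, inner_smul_right, star_mul', ← inner_dl]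
  congr 1
  exact (inner_conj_symm _ _).symm

theorem tr_sum (hp : OmP) (hO : Ops lam rho M) {x y : HH →L[ℂ] HH} (hx : x ∈ M) :
    ⟪(dl 0 : HH), x (y (dl 0))⟫_ℂ =
      ∑' g : GG, sgm (-g) g * (x (dl 0) : HH) (-g) * (y (dl 0) : HH) g := by
  have h1 : ⟪(dl 0 : HH), x (y (dl 0))⟫_ℂ = ⟪(star x) (dl 0), y (dl 0)⟫_ℂ := by
    rw [ContinuousLinearMap.star_eq_adjoint, ContinuousLinearMap.adjoint_inner_left]
  rw [h1, lp.inner_eq_tsum]
  refine tsum_congr fun g => ?_
  have h2 : ((star x) (dl 0) : HH) g = star (sgm (-g) g * (x (dl 0) : HH) (-g)) := by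
    rw [← inner_dl]
    exact coef hp hO hx g
  rw [h2, RCLike.inner_apply]
  simp only [star_star, starRingEnd_apply]
  ring

theorem sgm_symm (hp : OmP) (g : GG) : sgm (-g) g = sgm g (-g) := by
  unfold sgm
  rw [Prod.snd_neg, Prod.fst_neg, hp.negl, hp.negr]

theorem tr_symm (hp : OmP) (hO : Ops lam rho M) {x y : HH →L[ℂ] HH} (hx : x ∈ M) (hy : y ∈ M) :
    ⟪(dl 0 : HH), x (y (dl 0))⟫_ℂ = ⟪(dl 0 : HH), y (x (dl 0))⟫_ℂ := by
  rw [tr_sum hp hO hx, tr_sum hp hO hy]
  rw [← (Equiv.neg GG).tsum_eq]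
  refine tsum_congr fun g => ?_
  rw [Equiv.neg_apply, neg_neg, ← sgm_symm hp]
  ring

theorem Sup_exists (s : Finset GG) : ∃ n, ∀ g ∈ s, Sup n g.1 ∧ Sup n g.2 := by
  classical
  have h1 : ∀ γ : Gm, ∃ n, Sup n γ := by
    intro γ
    refine ⟨γ.support.sup id + 1, ?_⟩
    intro i hi
    by_contra hne
    have h2 : i ∈ γ.support := DFinsupp.mem_support_iff.2 hne
    have h3 : i ≤ γ.support.sup id := Finset.le_sup (f := id) h2
    omega
  choose N hN using h1
  refine ⟨s.sup (fun g => max (N g.1) (N g.2)), ?_⟩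
  intro g hg
  have h2 : max (N g.1) (N g.2) ≤ s.sup (fun g => max (N g.1) (N g.2)) :=
    Finset.le_sup (f := fun g : GG => max (N g.1) (N g.2)) hg
  exact ⟨fun i hi => hN _ i (((le_max_left _ _).trans h2).trans hi),
    fun i hi => hN _ i (((le_max_right _ _).trans h2).trans hi)⟩

end

end ModAx

open ModAx in
theorem t_O_ModA (hp : OmP) : O_ModA := by
  intro lam rho M hO hce
  refine
    { unit := norm_dl 0
      tr := fun x hx y hy => tr_symm hp hO hx hy
      Xm := fun γ => lam_mem hp hO _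
      Zm := fun κ => lam_mem hp hO _
      X0 := lam_zero hp hO
      Z0 := lam_zero hp hO
      Xadd := ?_
      Zadd := ?_
      Xst := ?_
      Zst := ?_
      cm := ?_
      orth := ?_
      std := ?_
      dns := ?_
      cexp := hce }
  · intro γ γ'
    rw [lam_mul hp hO]
    unfold sgm
    rw [hp.zl, one_smul, Prod.mk_add_mk, add_zero]
  · intro κ κ'
    rw [lam_mul hp hO]
    unfold sgm
    rw [hp.zr, one_smul, Prod.mk_add_mk, add_zero]
  · intro γ
    apply star_of hO
    rw [lam_mul hp hO]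
    unfold sgm
    rw [hp.zl, one_smul, Prod.mk_add_mk, add_neg_cancel, add_zero]
    exact lam_zero hp hO
  · intro κ
    apply star_of hO
    rw [lam_mul hp hO]
    unfold sgm
    rw [hp.zr, one_smul, Prod.mk_add_mk, add_neg_cancel, add_zero]
    exact lam_zero hp hO
  · intro κ γ
    rw [lam_mul hp hO, XZ hp hO]
    unfold sgm
    rw [Prod.mk_add_mk, add_zero, zero_add]
  · intro γ κ γ' κ'
    rw [XZ hp hO, XZ hp hO, lam_dl0 hp hO, lam_dl0 hp hO, inner_dl_dl]
    simp only [Prod.mk.injEq]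
  · intro ξ ε hε
    obtain ⟨s, hs⟩ := approx ξ hε
    refine ⟨∑ g ∈ s, ξ g • rho g, ?_, ?_⟩
    · intro x hx
      rw [Finset.sum_mul, Finset.mul_sum]
      refine Finset.sum_congr rfl fun g _ => ?_
      rw [smul_mul_assoc, mul_smul_comm, (hO.mem x).1 hx g]
    · have e : (∑ g ∈ s, ξ g • rho g) (dl 0) = ∑ g ∈ s, ξ g • dl g := by
        rw [sum_apply]
        refine Finset.sum_congr rfl fun g _ => ?_
        rw [smul_apply, rho_dl0 hp hO]
      rw [e]
      exact hs
  · intro ξ ε hε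
    obtain ⟨s, hs⟩ := approx ξ hε
    obtain ⟨n, hn⟩ := Sup_exists s
    refine ⟨n, ∑ g ∈ s, ξ g • lam g, ?_, ?_⟩
    · refine Submodule.sum_mem _ fun g hg => Submodule.smul_mem _ _ (Submodule.subset_span ?_)
      exact ⟨g.1, g.2, (hn g hg).1, (hn g hg).2, (XZ hp hO g.1 g.2).symm⟩
    · have e : (∑ g ∈ s, ξ g • lam g) (dl 0) = ∑ g ∈ s, ξ g • dl g := by
        rw [sum_apply]
        refine Finset.sum_congr rfl fun g _ => ?_
        rw [smul_apply, lam_dl0 hp hO]
      rw [e]
      exact hs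

end Pool.Agent.H468R2.MA
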