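import Pool.Agent.H468R2.MA.P_O_StrA
import Pool.Agent.H468R2.MA.P_O_StrB

/-! Task O_Str: assembly of the structure `Str`. -/

set_option autoImplicit false

open scoped InnerProductSpace
open Filter Topology

namespace Pool.Agent.H468R2.MA

theorem t_Str (hO : OmP) (hC : O_Calc) (hA : O_Apx) : O_Str := by
  intro H _ _ _ M Ω X Z w
  obtain ⟨a1, a2, a3, a4, a5, a6, a7, a8, a9, a10, a11, a12, a13⟩ := t_StrA hC hA H M Ω X Z w
  have b := t_StrB hO hC hA H M Ω X Z w
    { ee_idem := a1, ee_orth := a3, ee_sum := a4, ee_mem := a5, ee_tl := a8, ee_norm := a9,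
      corner := a12 }
  exact
    { ee_idem := a1, ee_star := a2, ee_orth := a3, ee_sum := a4, ee_mem := a5, ee_fin := a6,
      ee_shift := a7, ee_tl := a8, ee_norm := a9, tl_alg := a10, tl_X := a11, corner := a12,
      centre := a13, aa_alg := b.aa_alg, aa_one := b.aa_one, aa_vv := b.aa_vv,
      dd_iff := b.dd_iff, dd_ee := b.dd_ee, dd_mul := b.dd_mul, dd_cut := b.dd_cut,
      aa_orth := b.aa_orth, aa_coefX := b.aa_coefX, aa_coef0 := b.aa_coef0 }

end Pool.Agent.H468R2.MA
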