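import Pool.Agent.H468R2.MA.Tasks

/-!
# Final statement: masas of the hyperfinite II₁ factor
-/

set_option autoImplicit false

open scoped InnerProductSpace
open Filter Topology

namespace Pool.Agent.H468R2.MA

section

variable {H : Type} [NormedAddCommGroup H] [InnerProductSpace ℂ H] [CompleteSpace H]

/-- `M` is a II₁ factor in standard form on `H`, with trace vector `Ω`. -/
structure IsStdII1 (M : VonNeumannAlgebra H) (Ω : H) : Prop where
  unit : ‖Ω‖ = 1
  tr : ∀ x ∈ M, ∀ y ∈ M, ⟪Ω, x (y Ω)⟫_ℂ = ⟪Ω, y (x Ω)⟫_ℂ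
  cyc : Dense {ξ : H | ∃ x ∈ M, ξ = x Ω}
  sep : ∀ x ∈ M, x Ω = 0 → x = 0
  fac : ∀ z ∈ M, (∀ x ∈ M, z * x = x * z) → ∃ c : ℂ, z = c • (1 : H →L[ℂ] H)
  inf : ¬ FiniteDimensional ℂ H

/-- `M` is hyperfinite: there is an increasing sequence of finite dimensional *-subalgebras of `M`
whose union is dense for the 2-norm. -/
def Hyperfinite (M : VonNeumannAlgebra H) (Ω : H) : Prop :=
  ∃ N : ℕ → StarSubalgebra ℂ (H →L[ℂ] H), Monotone N ∧ (∀ n, FiniteDimensional ℂ (N n)) ∧
    (∀ n, ∀ x ∈ N n, x ∈ M) ∧ ∀ x ∈ M, ∀ ε : ℝ, 0 < ε → ∃ n, ∃ y ∈ N n, ‖x Ω - y Ω‖ < ε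

end

/-- O16: `M` is the hyperfinite II₁ factor. -/
def O_II : Prop := ∀ (H : Type) [NormedAddCommGroup H] [InnerProductSpace ℂ H] [CompleteSpace H]
  (M : VonNeumannAlgebra H) (Ω : H) (X Z : Gm → (H →L[ℂ] H)), Wy M Ω X Z →
  IsStdII1 M Ω ∧ Hyperfinite M Ω

/-- The Borel structure of the space `Mod(L)` of `L`-structures with universe `ℕ`. -/
@[reducible] def modMS (L : FirstOrder.Language.{0, 0}) : MeasurableSpace (L.Structure ℕ) :=
  MeasurableSpace.generateFrom
    ({S | ∃ (n : ℕ) (F : L.Functions n) (a : Fin n → ℕ) (b : ℕ),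
        S = {𝔐 : L.Structure ℕ | 𝔐.funMap F a = b}} ∪
      {S | ∃ (n : ℕ) (R : L.Relations n) (a : Fin n → ℕ),
        S = {𝔐 : L.Structure ℕ | 𝔐.RelMap R a}})

/-- The relation `E` on `Y` is classifiable by countable structures. -/
def Classifiable {Y : Type} [MeasurableSpace Y] (E : Y → Y → Prop) : Prop :=
  ∃ (L : FirstOrder.Language.{0, 0}) (_ : Countable (Σ n, L.Functions n))
    (_ : Countable (Σ n, L.Relations n)) (f : Y → L.Structure ℕ),
    @Measurable _ _ _ (modMS L) f ∧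
      ∀ x y, E x y ↔ Nonempty (@FirstOrder.Language.Equiv L ℕ ℕ (f x) (f y))

/-- O17: encoding of `L`-structures by relational structures. -/
def O_Enc : Prop := ∀ (L : FirstOrder.Language.{0, 0}), Countable (Σ n, L.Functions n) →
  Countable (Σ n, L.Relations n) → ∃ (ρ : Type) (_ : Countable ρ) (k : ρ → ℕ)
    (e : L.Structure ℕ → RS ρ k), (∀ r a, @MeasurableSet _ (modMS L) {𝔐 | e 𝔐 r a}) ∧
      ∀ 𝔐 𝔑 : L.Structure ℕ, Nonempty (@FirstOrder.Language.Equiv L ℕ ℕ 𝔐 𝔑) ↔ Iso (e 𝔐) (e 𝔑)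

theorem main (hM : O_Masa) (hO : O_Open) (hL : O_L1) (hLB : O_LB) (hmod : O_Model) (hII : O_II)
    (hE : O_Enc) (hT : T_ERG) (hG : T_GEN) :
    ∃ (H : Type) (_ : NormedAddCommGroup H) (_ : InnerProductSpace ℂ H) (_ : CompleteSpace H)
      (M : VonNeumannAlgebra H) (Ω : H), TopologicalSpace.SeparableSpace H ∧ IsStdII1 M Ω ∧
        Hyperfinite M Ω ∧ ¬ Classifiable (Conj (M := M)) := by
  obtain ⟨H, i1, i2, i3, M, Ω, X, Z, hsep, w⟩ := hmod
  refine ⟨H, i1, i2, i3, M, Ω, hsep, (hII H M Ω X Z w).1, (hII H M Ω X Z w).2, ?_⟩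
  rintro ⟨L, cF, cR, f, hf, hE'⟩
  obtain ⟨ρ, hρ, k, e, he, hiso⟩ := hE L cF cR
  choose A hA using hM H M Ω X Z w
  have hAm : Measurable A := by
    refine measurable_generateFrom ?_
    rintro S ⟨U, hU, rfl⟩
    have h1 : (A ⁻¹' {A : Masa M | ∃ a ∈ A.1, ‖a‖ ≤ 1 ∧ a ∈ U}) =
        {x : ℕ → ℝ | ∃ d ∈ DD M X Z x, ‖d‖ ≤ 1 ∧ d ∈ U} := by
      ext x
      simp only [Set.mem_preimage, Set.mem_setOf_eq, ← hA x, SetLike.mem_coe]
    rw [h1]
    exact (hO H M Ω X Z w U hU).measurableSet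
  have hHm : Hm (fun x => e (f (A x))) := by
    refine ⟨fun r a => ?_, fun x y hxy => ?_⟩
    · have h2 := (@Measurable.comp _ _ _ _ _ (modMS L) _ _ hf hAm) (he r a)
      exact h2
    · rw [← hiso, ← hE']
      obtain ⟨V, hVM, hV, hD⟩ := hL H M Ω X Z w x y hxy
      have hVs : star V ∈ M := star_mem hVM
      let θ : Au M :=
        { toFun := fun z => ⟨V * z.1 * star V, mul_mem (mul_mem hVM z.2) hVs⟩
          invFun := fun z => ⟨star V * z.1 * V, mul_mem (mul_mem hVs z.2) hVM⟩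
          left_inv := fun z => Subtype.ext (by
            have : star V * (V * z.1 * star V) * V = (star V * V) * z.1 * (star V * V) := by
              simp only [mul_assoc]
            simp [this, hV.1])
          right_inv := fun z => Subtype.ext (by
            have : V * (star V * z.1 * V) * star V = (V * star V) * z.1 * (V * star V) := by
              simp only [mul_assoc]
            simp [this, hV.2])
          map_mul' := fun z z' => Subtype.ext (by
            have h5 : V * z.1 * star V * (V * z'.1 * star V) =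
                V * z.1 * (star V * V) * z'.1 * star V := by
              simp only [mul_assoc]
            have h6 : V * (z.1 * z'.1) * star V = V * z.1 * star V * (V * z'.1 * star V) := by
              rw [h5, hV.1, mul_one]
              simp only [mul_assoc]
            exact h6)
          map_add' := fun z z' => Subtype.ext (by simp [mul_add, add_mul])
          map_star' := fun z => Subtype.ext (by simp [mul_assoc])
          map_smul' := fun c z => Subtype.ext (by simp) }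
      refine ⟨θ, fun z => ?_⟩
      rw [hA x, hA y]
      exact hD z.1
  obtain ⟨C, hC, hCi⟩ := hT ρ k _ hHm
  obtain ⟨x, hx, y, hy, hg⟩ := hG C hC
  have h3 := hCi x hx y hy
  rw [← hiso, ← hE'] at h3
  obtain ⟨θ, hθ⟩ := h3
  rw [hA x, hA y] at hθ
  exact hLB H M Ω X Z w x y hg ⟨θ, hθ⟩

end Pool.Agent.H468R2.MA
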