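import Pool.Agent.H468R2.MA.Defs

/-!
# Statements of the tasks (masas of the hyperfinite II₁ factor)
-/

set_option autoImplicit false

open scoped InnerProductSpace
open Filter Topology

namespace Pool.Agent.H468R2.MA

section

variable {H : Type} [NormedAddCommGroup H] [InnerProductSpace ℂ H] [CompleteSpace H]

/-- O1: functional calculus at the sites. -/
structure Calc (M : VonNeumannAlgebra H) (Ω : H) (X Z : Gm → (H →L[ℂ] H)) : Prop where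
  one : ∀ k, Dg Z k (fun _ => 1) = 1
  mul : ∀ k h h', Dg Z k (fun m => h m * h' m) = Dg Z k h * Dg Z k h'
  add : ∀ k h h', Dg Z k (fun m => h m + h' m) = Dg Z k h + Dg Z k h'
  smul : ∀ k (c : ℂ) h, Dg Z k (fun m => c * h m) = c • Dg Z k h
  st : ∀ k h, star (Dg Z k h) = Dg Z k (fun m => star (h m))
  chr : ∀ k j, Dg Z k (fun m => ZMod.stdAddChar (j * m)) = Z (sg k j)
  shift : ∀ k l h, X (sg k l) * Dg Z k h = Dg Z k (fun m => h (m - l)) * X (sg k l)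
  commZ : ∀ k h κ, Dg Z k h * Z κ = Z κ * Dg Z k h
  commX : ∀ k h (γ : Gm), γ k = 0 → Dg Z k h * X γ = X γ * Dg Z k h
  norm : ∀ k h (c : ℝ), (∀ m, ‖h m‖ ≤ c) → ‖Dg Z k h‖ ≤ c
  tr : ∀ k h, ⟪Ω, Dg Z k h Ω⟫_ℂ = (pr k : ℂ)⁻¹ * ∑ m, h m
  mem : ∀ k h, Dg Z k h ∈ M
  fin : ∀ k n h, k < n → Dg Z k h ∈ Fn X Z n
  cc : ∀ k l h h', Dg Z k h * Dg Z l h' = Dg Z l h' * Dg Z k h

/-- O2: two-norm and conditional expectations `E n` onto the algebra of the sites `< n`. -/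
structure Apx (M : VonNeumannAlgebra H) (Ω : H) (X Z : Gm → (H →L[ℂ] H))
    (E : ℕ → (H →L[ℂ] H) → (H →L[ℂ] H)) : Prop where
  fmem : ∀ n, ∀ y ∈ Fn X Z n, y ∈ M
  fmul : ∀ n, ∀ y ∈ Fn X Z n, ∀ z ∈ Fn X Z n, y * z ∈ Fn X Z n
  fst : ∀ n, ∀ y ∈ Fn X Z n, star y ∈ Fn X Z n
  fmono : ∀ m n, m ≤ n → Fn X Z m ≤ Fn X Z n
  tail : ∀ n, ∀ y ∈ Fn X Z n, ∀ t ∈ Tl M X Z n, t * y = y * t
  mem : ∀ n, ∀ x ∈ M, E n x ∈ Fn X Z n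
  le : ∀ n, ∀ x ∈ M, ‖E n x‖ ≤ ‖x‖
  coef : ∀ n, ∀ x ∈ M, ∀ γ κ, Sup n γ → Sup n κ →
    ⟪(X γ * Z κ) Ω, E n x Ω⟫_ℂ = ⟪(X γ * Z κ) Ω, x Ω⟫_ℂ
  bil : ∀ n, ∀ x ∈ M, ∀ w ∈ Fn X Z n, E n (w * x) = w * E n x
  bir : ∀ n, ∀ x ∈ M, ∀ w ∈ Fn X Z n, E n (x * w) = E n x * w
  fix : ∀ n, ∀ w ∈ Fn X Z n, E n w = w
  lin : ∀ n, ∀ x ∈ M, ∀ y ∈ M, E n (x + y) = E n x + E n y
  two : ∀ x ∈ M, Tendsto (fun n => ‖(x - E n x) Ω‖) atTop (𝓝 0)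
  sot : ∀ x ∈ M, ∀ ξ : H, Tendsto (fun n => E n x ξ) atTop (𝓝 (x ξ))
  nst : ∀ x ∈ M, ‖star x Ω‖ = ‖x Ω‖
  nl : ∀ x : H →L[ℂ] H, ∀ y : H →L[ℂ] H, ‖(x * y) Ω‖ ≤ ‖x‖ * ‖y Ω‖
  nr : ∀ x ∈ M, ∀ y ∈ M, ‖(x * y) Ω‖ ≤ ‖x Ω‖ * ‖y‖
  sep : ∀ x ∈ M, x Ω = 0 → x = 0
  pars : ∀ x ∈ M, HasSum (fun g : Gm × Gm => ‖⟪(X g.1 * Z g.2) Ω, x Ω⟫_ℂ‖ ^ 2) (‖x Ω‖ ^ 2)

/-- O3: structure of the sets `AA`, `DD`, `Tl 1`. -/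
structure Str (M : VonNeumannAlgebra H) (Ω : H) (X Z : Gm → (H →L[ℂ] H)) : Prop where
  ee_idem : ∀ i, ee Z i * ee Z i = ee Z i
  ee_star : ∀ i, star (ee Z i) = ee Z i
  ee_orth : ∀ i j, i ≠ j → ee Z i * ee Z j = 0
  ee_sum : ∑ i, ee Z i = 1
  ee_mem : ∀ i, ee Z i ∈ M
  ee_fin : ∀ i, ee Z i ∈ Fn X Z 1
  ee_shift : ∀ i l, X (sg 0 l) * ee Z i * X (sg 0 (-l)) = ee Z (i + l)
  ee_tl : ∀ i, ∀ t ∈ Tl M X Z 1, t * ee Z i = ee Z i * t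
  ee_norm : ∀ i, ∀ t ∈ Tl M X Z 1, ‖(ee Z i * t) Ω‖ ^ 2 = ‖t Ω‖ ^ 2 / 3
  tl_alg : ∀ n, ∀ s ∈ Tl M X Z n, ∀ t ∈ Tl M X Z n, s * t ∈ Tl M X Z n ∧ s + t ∈ Tl M X Z n ∧
    star s ∈ Tl M X Z n ∧ ∀ c : ℂ, c • s ∈ Tl M X Z n
  tl_X : ∀ n γ, (∀ k < n, γ k = 0) → X γ ∈ Tl M X Z n ∧ Z γ ∈ Tl M X Z n
  corner : ∀ m ∈ M, ∀ i, m * ee Z i = ee Z i * m →
    (∑ l : ZMod (pr 0), X (sg 0 l) * (ee Z i * m) * X (sg 0 (-l))) ∈ Tl M X Z 1 ∧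
    ee Z i * (∑ l : ZMod (pr 0), X (sg 0 l) * (ee Z i * m) * X (sg 0 (-l))) = ee Z i * m
  centre : ∀ z ∈ Tl M X Z 1, (∀ t ∈ Tl M X Z 1, z * t = t * z) →
    ∃ c : ℂ, z = c • (1 : H →L[ℂ] H)
  aa_alg : ∀ x i, ∀ s ∈ AA M X Z x i, ∀ t ∈ AA M X Z x i, s * t ∈ AA M X Z x i ∧
    s + t ∈ AA M X Z x i ∧ star s ∈ AA M X Z x i ∧ (∀ c : ℂ, c • s ∈ AA M X Z x i) ∧
    s * t = t * s
  aa_one : ∀ x i, (1 : H →L[ℂ] H) ∈ AA M X Z x i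
  aa_vv : ∀ x i k, 1 ≤ k → ∀ l, vv X Z x i k l ∈ AA M X Z x i ∧ IsU (vv X Z x i k l) ∧
    ∀ n, n ≤ k → vv X Z x i k l ∈ Tl M X Z n
  dd_iff : ∀ x (d : H →L[ℂ] H), d ∈ DD M X Z x ↔
    ∃ t : ZMod (pr 0) → (H →L[ℂ] H), (∀ i, t i ∈ AA M X Z x i) ∧ d = ∑ i, ee Z i * t i
  dd_ee : ∀ x i, ee Z i ∈ DD M X Z x
  dd_mul : ∀ x i, ∀ t ∈ AA M X Z x i, ee Z i * t ∈ DD M X Z x
  dd_cut : ∀ x i, ∀ t ∈ Tl M X Z 1, ee Z i * t ∈ DD M X Z x → t ∈ AA M X Z x i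
  aa_orth : ∀ x i j, i ≠ j → (i = 0 ∨ j = 0) → ∀ s ∈ AA M X Z x i, ∀ t ∈ AA M X Z x j,
    ⟪s Ω, t Ω⟫_ℂ = ⟪s Ω, Ω⟫_ℂ * ⟪Ω, t Ω⟫_ℂ
  aa_coefX : ∀ x, ∀ t ∈ AA M X Z x 1, ∀ γ κ, κ ≠ 0 → ⟪(X γ * Z κ) Ω, t Ω⟫_ℂ = 0
  aa_coef0 : ∀ x i, ∀ t ∈ AA M X Z x i, ∀ γ κ, (γ 0 ≠ 0 ∨ κ 0 ≠ 0) →
    ⟪(X γ * Z κ) Ω, t Ω⟫_ℂ = 0

end

/-- O1. -/
def O_Calc : Prop := ∀ (H : Type) [NormedAddCommGroup H] [InnerProductSpace ℂ H] [CompleteSpace H]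
  (M : VonNeumannAlgebra H) (Ω : H) (X Z : Gm → (H →L[ℂ] H)), Wy M Ω X Z → Calc M Ω X Z

/-- O2. -/
def O_Apx : Prop := ∀ (H : Type) [NormedAddCommGroup H] [InnerProductSpace ℂ H] [CompleteSpace H]
  (M : VonNeumannAlgebra H) (Ω : H) (X Z : Gm → (H →L[ℂ] H)), Wy M Ω X Z → ∃ E, Apx M Ω X Z E

/-- O3. -/
def O_Str : Prop := ∀ (H : Type) [NormedAddCommGroup H] [InnerProductSpace ℂ H] [CompleteSpace H]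
  (M : VonNeumannAlgebra H) (Ω : H) (X Z : Gm → (H →L[ℂ] H)), Wy M Ω X Z → Str M Ω X Z

/-- O4: `DD x` is a masa. -/
def O_Masa : Prop := ∀ (H : Type) [NormedAddCommGroup H] [InnerProductSpace ℂ H] [CompleteSpace H]
  (M : VonNeumannAlgebra H) (Ω : H) (X Z : Gm → (H →L[ℂ] H)), Wy M Ω X Z →
  ∀ x : ℕ → ℝ, ∃ A : Masa M, (A.1 : Set (H →L[ℂ] H)) = DD M X Z x

/-- O5: Borel dependence. -/
def O_Open : Prop := ∀ (H : Type) [NormedAddCommGroup H] [InnerProductSpace ℂ H] [CompleteSpace H]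
  (M : VonNeumannAlgebra H) (Ω : H) (X Z : Gm → (H →L[ℂ] H)), Wy M Ω X Z →
  ∀ U : Set (H →L[ℂ] H), WOpen U → IsOpen {x : ℕ → ℝ | ∃ d ∈ DD M X Z x, ‖d‖ ≤ 1 ∧ d ∈ U}

/-- O6: `ℓ¹`-equivalent parameters give unitarily conjugate masas. -/
def O_L1 : Prop := ∀ (H : Type) [NormedAddCommGroup H] [InnerProductSpace ℂ H] [CompleteSpace H]
  (M : VonNeumannAlgebra H) (Ω : H) (X Z : Gm → (H →L[ℂ] H)), Wy M Ω X Z →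
  ∀ x y : ℕ → ℝ, Summable (fun n => |x n - y n|) →
    ∃ V ∈ M, IsU V ∧ ∀ d : H →L[ℂ] H, d ∈ DD M X Z x ↔ V * d * star V ∈ DD M X Z y

/-- O7: automorphisms preserve the trace. -/
def O_Aut : Prop := ∀ (H : Type) [NormedAddCommGroup H] [InnerProductSpace ℂ H] [CompleteSpace H]
  (M : VonNeumannAlgebra H) (Ω : H) (X Z : Gm → (H →L[ℂ] H)), Wy M Ω X Z →
  ∀ (θ : Au M) (z : M.toStarSubalgebra),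
    ‖((θ z : M.toStarSubalgebra) : H →L[ℂ] H) Ω‖ = ‖(z : H →L[ℂ] H) Ω‖

/-- O7a: continuity of automorphisms in the two-norm on bounded sets (normality). -/
def O_AutC : Prop := ∀ (H : Type) [NormedAddCommGroup H] [InnerProductSpace ℂ H] [CompleteSpace H]
  (M : VonNeumannAlgebra H) (Ω : H) (X Z : Gm → (H →L[ℂ] H)), Wy M Ω X Z →
  ∀ (θ : Au M) (z : ℕ → M.toStarSubalgebra), (∀ n, ‖(z n : H →L[ℂ] H)‖ ≤ 1) →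
    Tendsto (fun n => ‖(z n : H →L[ℂ] H) Ω‖) atTop (𝓝 0) →
    Tendsto (fun n => ‖((θ (z n) : M.toStarSubalgebra) : H →L[ℂ] H) Ω‖) atTop (𝓝 0)

/-- O8: for every site `k ≥ 1` there is a shift which moves `ff k t`, `t` near `π`, far away. -/
def O_Half : Prop := ∀ k : ℕ, 1 ≤ k → ∃ j : ZMod (pr k), j ≠ 0 ∧ ∀ t : ℝ, |t - Real.pi| ≤ 1 / 10 →
  ‖(pr k : ℂ)⁻¹ * ∑ m : ZMod (pr k), ff k t m * star (ff k t (m - j))‖ ≤ 3 / 4 ∧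
  ‖(pr k : ℂ)⁻¹ * ∑ m : ZMod (pr k), star (ff k t m) * ff k t (m - j)‖ ≤ 3 / 4

/-- O9: far-apart property. -/
def O_Far : Prop := ∀ (H : Type) [NormedAddCommGroup H] [InnerProductSpace ℂ H] [CompleteSpace H]
  (M : VonNeumannAlgebra H) (Ω : H) (X Z : Gm → (H →L[ℂ] H)), Wy M Ω X Z →
  ∀ y : ℕ → ℝ, Nr y → Far M Ω X Z y

/-- O10: normalizers of `DD y` are block diagonal. -/
def O_Nrm : Prop := ∀ (H : Type) [NormedAddCommGroup H] [InnerProductSpace ℂ H] [CompleteSpace H]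
  (M : VonNeumannAlgebra H) (Ω : H) (X Z : Gm → (H →L[ℂ] H)), Wy M Ω X Z →
  ∀ y : ℕ → ℝ, Far M Ω X Z y → ∀ w ∈ M, IsU w → (∀ d ∈ DD M X Z y, w * d * star w ∈ DD M X Z y) →
    ∀ i j, i ≠ j → ee Z i * w * ee Z j = 0

/-- O11: an automorphism with `θ(DD x) = DD y` permutes the three projections. -/
def O_Perm : Prop := ∀ (H : Type) [NormedAddCommGroup H] [InnerProductSpace ℂ H] [CompleteSpace H]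
  (M : VonNeumannAlgebra H) (Ω : H) (X Z : Gm → (H →L[ℂ] H)), Wy M Ω X Z →
  ∀ (x y : ℕ → ℝ) (θ : Au M), Img θ (DD M X Z x) (DD M X Z y) →
    (∀ w ∈ M, IsU w → (∀ d ∈ DD M X Z y, w * d * star w ∈ DD M X Z y) →
      ∀ i j, i ≠ j → ee Z i * w * ee Z j = 0) →
    ∃ π : Equiv.Perm (ZMod (pr 0)), ∀ (i : ZMod (pr 0)) (hi : ee Z i ∈ M),
      ((θ ⟨ee Z i, hi⟩ : M.toStarSubalgebra) : H →L[ℂ] H) = ee Z (π i)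

/-- O12: the maps `ψ i : Tl 1 → Tl 1`. -/
def O_Psi : Prop := ∀ (H : Type) [NormedAddCommGroup H] [InnerProductSpace ℂ H] [CompleteSpace H]
  (M : VonNeumannAlgebra H) (Ω : H) (X Z : Gm → (H →L[ℂ] H)), Wy M Ω X Z →
  ∀ (x y : ℕ → ℝ) (θ : Au M), Img θ (DD M X Z x) (DD M X Z y) →
    ∀ π : Equiv.Perm (ZMod (pr 0)), (∀ (i : ZMod (pr 0)) (hi : ee Z i ∈ M),
      ((θ ⟨ee Z i, hi⟩ : M.toStarSubalgebra) : H →L[ℂ] H) = ee Z (π i)) →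
    ∃ ψ : ZMod (pr 0) → (H →L[ℂ] H) → (H →L[ℂ] H),
      (∀ i, ∀ t ∈ Tl M X Z 1, ψ i t ∈ Tl M X Z 1) ∧
      (∀ i, ∀ s ∈ Tl M X Z 1, ∀ t ∈ Tl M X Z 1, ψ i (s * t) = ψ i s * ψ i t) ∧
      (∀ i, ∀ t ∈ Tl M X Z 1, ψ i (star t) = star (ψ i t)) ∧
      (∀ i, ψ i 1 = 1) ∧
      (∀ i, ∀ s ∈ Tl M X Z 1, ∀ t ∈ Tl M X Z 1, ‖(ψ i s - ψ i t) Ω‖ = ‖(s - t) Ω‖) ∧
      (∀ i, ∀ t ∈ AA M X Z x i, ψ i t ∈ AA M X Z y (π i)) ∧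
      (∀ i, ∀ s ∈ AA M X Z y (π i), ∃ t ∈ AA M X Z x i, ψ i t = s) ∧
      (∀ i j, ∀ ε : ℝ, 0 < ε → ∃ n : ℕ, ∀ t ∈ Tl M X Z n, t ∈ Tl M X Z 1 → ‖t‖ ≤ 1 →
        ‖(ψ i t - ψ j t) Ω‖ ≤ ε)

/-- O13: a unitary normalizing `A_0` and close to `A_1` is close to some `c X^γ`. -/
def O_Nbr : Prop := ∀ (H : Type) [NormedAddCommGroup H] [InnerProductSpace ℂ H] [CompleteSpace H]
  (M : VonNeumannAlgebra H) (Ω : H) (X Z : Gm → (H →L[ℂ] H)), Wy M Ω X Z →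
  ∀ (x : ℕ → ℝ), ∀ v ∈ Tl M X Z 1, IsU v → (∀ a ∈ AA M X Z x 0, v * a * star v ∈ AA M X Z x 0) →
    ∀ b ∈ AA M X Z x 1, IsU b → ∀ η : ℝ, 0 ≤ η → η ≤ 1 / 10 → ‖(v - b) Ω‖ ≤ η →
    ∃ (γ : Gm) (c : ℂ), γ 0 = 0 ∧ ‖c‖ ≤ 1 ∧ 1 - 4 * η ^ 2 ≤ ‖c‖ ^ 2 ∧
      ‖(v - c • X γ) Ω‖ ≤ 3 * η

/-- O14: the masas of a generic pair are not conjugate. -/
def O_LB : Prop := ∀ (H : Type) [NormedAddCommGroup H] [InnerProductSpace ℂ H] [CompleteSpace H]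
  (M : VonNeumannAlgebra H) (Ω : H) (X Z : Gm → (H →L[ℂ] H)), Wy M Ω X Z →
  ∀ x y : ℕ → ℝ, Gen x y → ¬ ∃ θ : Au M, Img θ (DD M X Z x) (DD M X Z y)

/-- O15: the model. -/
def O_Model : Prop := ∃ (H : Type) (_ : NormedAddCommGroup H) (_ : InnerProductSpace ℂ H)
  (_ : CompleteSpace H) (M : VonNeumannAlgebra H) (Ω : H) (X Z : Gm → (H →L[ℂ] H)),
  TopologicalSpace.SeparableSpace H ∧ Wy M Ω X Z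

end Pool.Agent.H468R2.MA
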