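import Pool.Agent.H468R2.MA.Stmt

/-!
# More statements of tasks (order tools; pieces of the model)
-/

set_option autoImplicit false

open scoped InnerProductSpace
open Filter Topology

namespace Pool.Agent.H468R2.MA

/-- Monotone convergence of operators. -/
def O_Mono : Prop := ∀ (H : Type) [NormedAddCommGroup H] [InnerProductSpace ℂ H] [CompleteSpace H]
  (T : ℕ → (H →L[ℂ] H)), (∀ m, 0 ≤ T m) → (∀ m, T m ≤ T (m + 1)) → (∀ m, T m ≤ 1) →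
    ∃ S : H →L[ℂ] H, 0 ≤ S ∧ S ≤ 1 ∧ (∀ m, T m ≤ S) ∧
      ∀ ξ, Tendsto (fun m => T m ξ) atTop (𝓝 (S ξ))

/-- Monotone convergence of operators, decreasing case. -/
def O_Anti : Prop := ∀ (H : Type) [NormedAddCommGroup H] [InnerProductSpace ℂ H] [CompleteSpace H]
  (T : ℕ → (H →L[ℂ] H)), (∀ m, 0 ≤ T m) → (∀ m, T (m + 1) ≤ T m) → (∀ m, T m ≤ 1) →
    ∃ S : H →L[ℂ] H, 0 ≤ S ∧ S ≤ 1 ∧ (∀ m, S ≤ T m) ∧
      ∀ ξ, Tendsto (fun m => T m ξ) atTop (𝓝 (S ξ))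

/-- `S (1 + S)⁻¹` -/
noncomputable def rs {H : Type} [NormedAddCommGroup H] [InnerProductSpace ℂ H] [CompleteSpace H]
    (S : H →L[ℂ] H) : H →L[ℂ] H := 1 - Ring.inverse (1 + S)

/-- The operator monotone function `t / (1 + t)`. -/
def O_Res : Prop := ∀ (H : Type) [NormedAddCommGroup H] [InnerProductSpace ℂ H] [CompleteSpace H],
  (∀ S T : H →L[ℂ] H, 0 ≤ S → S ≤ T → 0 ≤ rs S ∧ rs S ≤ rs T ∧ rs T ≤ 1 ∧ rs S ≤ S) ∧
  (∀ S : H →L[ℂ] H, 0 ≤ S → S ≤ 1 → S ≤ (2 : ℂ) • rs S) ∧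
  (∀ (M : VonNeumannAlgebra H) (S : H →L[ℂ] H), 0 ≤ S → S ∈ M → rs S ∈ M)

/-- Automorphisms are order preserving. -/
def O_Ord : Prop := ∀ (H : Type) [NormedAddCommGroup H] [InnerProductSpace ℂ H] [CompleteSpace H]
  (M : VonNeumannAlgebra H) (θ : Au M) (z : M.toStarSubalgebra), 0 ≤ (z : H →L[ℂ] H) →
    0 ≤ ((θ z : M.toStarSubalgebra) : H →L[ℂ] H)

/-! ### the model -/

abbrev GG : Type := Gm × Gm

/-- the cocycle -/
noncomputable def sgm (g h : GG) : ℂ := om g.2 h.1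

abbrev HH : Type := lp (fun _ : GG => ℂ) 2

open Classical in
/-- the basis vectors -/
noncomputable def dl (h : GG) : HH := lp.single 2 h (1 : ℂ)

/-- twisted left and right translations, and the commutant of the right translations -/
structure Ops (lam rho : GG → (HH →L[ℂ] HH)) (M : VonNeumannAlgebra HH) : Prop where
  l : ∀ g h, lam g (dl h) = sgm g h • dl (g + h)
  r : ∀ g h, rho g (dl h) = sgm h g • dl (h + g)
  lu : ∀ g, IsU (lam g)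
  ru : ∀ g, IsU (rho g)
  mem : ∀ x : HH →L[ℂ] HH, x ∈ M ↔ ∀ g, x * rho g = rho g * x

/-- existence of the operators -/
def O_Ops : Prop := ∃ (lam rho : GG → (HH →L[ℂ] HH)) (M : VonNeumannAlgebra HH), Ops lam rho M

/-- algebra of the model: everything in `Wy` except `cexp` -/
def O_ModA : Prop := ∀ (lam rho : GG → (HH →L[ℂ] HH)) (M : VonNeumannAlgebra HH), Ops lam rho M →
  (∀ x ∈ M, ∀ n, ∃ y ∈ Fn (fun γ => lam (γ, 0)) (fun κ => lam (0, κ)) n, ‖y‖ ≤ ‖x‖ ∧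
    ∀ γ κ, Sup n γ → Sup n κ →
      ⟪(lam (γ, 0) * lam (0, κ)) (dl 0), x (dl 0) - y (dl 0)⟫_ℂ = 0) →
  Wy M (dl 0) (fun γ => lam (γ, 0)) (fun κ => lam (0, κ))

/-- the conditional expectation of the model -/
def O_ModB : Prop := ∀ (lam rho : GG → (HH →L[ℂ] HH)) (M : VonNeumannAlgebra HH), Ops lam rho M →
  ∀ x ∈ M, ∀ n, ∃ y ∈ Fn (fun γ => lam (γ, 0)) (fun κ => lam (0, κ)) n, ‖y‖ ≤ ‖x‖ ∧
    ∀ γ κ, Sup n γ → Sup n κ →
      ⟪(lam (γ, 0) * lam (0, κ)) (dl 0), x (dl 0) - y (dl 0)⟫_ℂ = 0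

/-- properties of the pairing -/
structure OmP : Prop where
  addl : ∀ κ κ' γ, om (κ + κ') γ = om κ γ * om κ' γ
  addr : ∀ κ γ γ', om κ (γ + γ') = om κ γ * om κ γ'
  nrm : ∀ κ γ, ‖om κ γ‖ = 1
  zl : ∀ γ, om 0 γ = 1
  zr : ∀ κ, om κ 0 = 1
  negl : ∀ κ γ, om (-κ) γ = star (om κ γ)
  negr : ∀ κ γ, om κ (-γ) = star (om κ γ)
  sgl : ∀ k l γ, om (sg k l) γ = ZMod.stdAddChar (l * γ k)
  sgr : ∀ κ k l, om κ (sg k l) = ZMod.stdAddChar (κ k * l)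
  prs : ∀ k, 1 ≤ k → 5 ≤ pr k
  inj : Function.Injective pr
  odd : ∀ k, Odd (pr k)

theorem model_of (h1 : O_Ops) (h2 : O_ModA) (h3 : O_ModB)
    (hs : TopologicalSpace.SeparableSpace HH) : O_Model := by
  obtain ⟨lam, rho, M, hO⟩ := h1
  exact ⟨HH, inferInstance, inferInstance, inferInstance, M, dl 0, _, _, hs,
    h2 lam rho M hO (h3 lam rho M hO)⟩

end Pool.Agent.H468R2.MA
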