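import Pool.Agent.H468R2.MA.Tasks2

/-!
# The structure `Str` split in two parts
-/

set_option autoImplicit false

open scoped InnerProductSpace
open Filter Topology

namespace Pool.Agent.H468R2.MA

section

variable {H : Type} [NormedAddCommGroup H] [InnerProductSpace ℂ H] [CompleteSpace H]

/-- part A of `Str` -/
structure StrA (M : VonNeumannAlgebra H) (Ω : H) (X Z : Gm → (H →L[ℂ] H)) : Prop where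
  ee_idem : ∀ i, ee Z i * ee Z i = ee Z i
  ee_star : ∀ i, star (ee Z i) = ee Z i
  ee_orth : ∀ i j, i ≠ j → ee Z i * ee Z j = 0
  ee_sum : ∑ i, ee Z i = 1
  ee_mem : ∀ i, ee Z i ∈ M
  ee_fin : ∀ i, ee Z i ∈ Fn X Z 1
  ee_shift : ∀ i l, X (sg 0 l) * ee Z i * X (sg 0 (-l)) = ee Z (i + l)
  ee_tl : ∀ i, ∀ t ∈ Tl M X Z 1, t * ee Z i = ee Z i * t
  ee_norm : ∀ i, ∀ t ∈ Tl M X Z 1, ‖(ee Z i * t) Ω‖ ^ 2 = ‖t Ω‖ ^ 2 / 3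
  tl_alg : ∀ n, ∀ s ∈ Tl M X Z n, ∀ t ∈ Tl M X Z n, s * t ∈ Tl M X Z n ∧ s + t ∈ Tl M X Z n ∧
    star s ∈ Tl M X Z n ∧ ∀ c : ℂ, c • s ∈ Tl M X Z n
  tl_X : ∀ n γ, (∀ k < n, γ k = 0) → X γ ∈ Tl M X Z n ∧ Z γ ∈ Tl M X Z n
  corner : ∀ m ∈ M, ∀ i, m * ee Z i = ee Z i * m →
    (∑ l : ZMod (pr 0), X (sg 0 l) * (ee Z i * m) * X (sg 0 (-l))) ∈ Tl M X Z 1 ∧
    ee Z i * (∑ l : ZMod (pr 0), X (sg 0 l) * (ee Z i * m) * X (sg 0 (-l))) = ee Z i * m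
  centre : ∀ z ∈ Tl M X Z 1, (∀ t ∈ Tl M X Z 1, z * t = t * z) →
    ∃ c : ℂ, z = c • (1 : H →L[ℂ] H)

/-- part B of `Str` -/
structure StrB (M : VonNeumannAlgebra H) (Ω : H) (X Z : Gm → (H →L[ℂ] H)) : Prop where
  aa_alg : ∀ x i, ∀ s ∈ AA M X Z x i, ∀ t ∈ AA M X Z x i, s * t ∈ AA M X Z x i ∧
    s + t ∈ AA M X Z x i ∧ star s ∈ AA M X Z x i ∧ (∀ c : ℂ, c • s ∈ AA M X Z x i) ∧
    s * t = t * s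
  aa_one : ∀ x i, (1 : H →L[ℂ] H) ∈ AA M X Z x i
  aa_vv : ∀ x i k, 1 ≤ k → ∀ l, vv X Z x i k l ∈ AA M X Z x i ∧ IsU (vv X Z x i k l) ∧
    ∀ n, n ≤ k → vv X Z x i k l ∈ Tl M X Z n
  dd_iff : ∀ x (d : H →L[ℂ] H), d ∈ DD M X Z x ↔
    ∃ t : ZMod (pr 0) → (H →L[ℂ] H), (∀ i, t i ∈ AA M X Z x i) ∧ d = ∑ i, ee Z i * t i
  dd_ee : ∀ x i, ee Z i ∈ DD M X Z x
  dd_mul : ∀ x i, ∀ t ∈ AA M X Z x i, ee Z i * t ∈ DD M X Z x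
  dd_cut : ∀ x i, ∀ t ∈ Tl M X Z 1, ee Z i * t ∈ DD M X Z x → t ∈ AA M X Z x i
  aa_orth : ∀ x i j, i ≠ j → (i = 0 ∨ j = 0) → ∀ s ∈ AA M X Z x i, ∀ t ∈ AA M X Z x j,
    ⟪s Ω, t Ω⟫_ℂ = ⟪s Ω, Ω⟫_ℂ * ⟪Ω, t Ω⟫_ℂ
  aa_coefX : ∀ x, ∀ t ∈ AA M X Z x 1, ∀ γ κ, κ ≠ 0 → ⟪(X γ * Z κ) Ω, t Ω⟫_ℂ = 0
  aa_coef0 : ∀ x i, ∀ t ∈ AA M X Z x i, ∀ γ κ, (γ 0 ≠ 0 ∨ κ 0 ≠ 0) →
    ⟪(X γ * Z κ) Ω, t Ω⟫_ℂ = 0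

end

def O_StrA : Prop := ∀ (H : Type) [NormedAddCommGroup H] [InnerProductSpace ℂ H] [CompleteSpace H]
  (M : VonNeumannAlgebra H) (Ω : H) (X Z : Gm → (H →L[ℂ] H)), Wy M Ω X Z → StrA M Ω X Z

def O_StrB : Prop := ∀ (H : Type) [NormedAddCommGroup H] [InnerProductSpace ℂ H] [CompleteSpace H]
  (M : VonNeumannAlgebra H) (Ω : H) (X Z : Gm → (H →L[ℂ] H)), Wy M Ω X Z → StrB M Ω X Z

theorem str_of (hA : O_StrA) (hB : O_StrB) : O_Str := by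
  intro H _ _ _ M Ω X Z w
  have a := hA H M Ω X Z w
  have b := hB H M Ω X Z w
  exact { a, b with }

end Pool.Agent.H468R2.MA
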